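import Pool.Agent.Helper36.XD1

set_option autoImplicit false

/-! # Two-sided Laplace transforms of rapidly decaying kernels -/

namespace Pool.Agent.Helper36.XD

open Complex MeasureTheory Filter Topology Set

/-- Decay faster than every exponential. -/
def Dec (K : ℝ → ℂ) : Prop := ∀ N : ℝ, ∃ C : ℝ, ∀ u : ℝ, ‖K u‖ ≤ C * Real.exp (-(N * |u|))

/-- The two-sided Laplace transform. -/
noncomputable def LT (K : ℝ → ℂ) (s : ℂ) : ℂ := ∫ u : ℝ, K u * cexp (s * u)

lemma exp_neg_abs_le (u : ℝ) : Real.exp (-|u|) ≤ 2 * (1 + u ^ 2)⁻¹ := by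
  have h := Real.quadratic_le_exp_of_nonneg (abs_nonneg u)
  rw [Real.exp_neg, ← div_eq_mul_inv, inv_eq_one_div, div_le_div_iff₀ (Real.exp_pos _) (by positivity)]
  have h2 := abs_nonneg u
  have h3 := sq_abs u
  nlinarith

lemma integrable_exp_neg_abs : Integrable (fun u : ℝ => Real.exp (-|u|)) := by
  refine (integrable_inv_one_add_sq.const_mul 2).mono' (by fun_prop) (ae_of_all _ fun u => ?_)
  rw [Real.norm_eq_abs, abs_of_pos (Real.exp_pos _)]
  exact exp_neg_abs_le u

lemma norm_exp_mul_le (s : ℂ) (u : ℝ) : ‖cexp (s * u)‖ ≤ Real.exp (|s.re| * |u|) := by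
  rw [Complex.norm_exp]
  apply Real.exp_le_exp.2
  simp only [mul_re, ofReal_re, ofReal_im, mul_zero, sub_zero]
  rw [← abs_mul]
  exact le_abs_self _

lemma Dec.integrable {K : ℝ → ℂ} (hc : AEStronglyMeasurable K volume) (hd : Dec K) (s : ℂ) :
    Integrable (fun u : ℝ => K u * cexp (s * u)) := by
  obtain ⟨C, hC⟩ := hd (|s.re| + 1)
  refine (integrable_exp_neg_abs.const_mul C).mono'
    (hc.mul (by fun_prop : Continuous fun u : ℝ => cexp (s * u)).aestronglyMeasurable)
    (ae_of_all _ fun u => ?_)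
  rw [norm_mul]
  have h1 := hC u
  have h2 := norm_exp_mul_le s u
  calc ‖K u‖ * ‖cexp (s * u)‖ ≤ (C * Real.exp (-((|s.re| + 1) * |u|))) * Real.exp (|s.re| * |u|) := by
        refine mul_le_mul h1 h2 (norm_nonneg _) ((norm_nonneg _).trans h1)
    _ = C * Real.exp (-|u|) := by
        rw [mul_assoc, ← Real.exp_add]
        congr 2
        ring

lemma Dec.id_mul {K : ℝ → ℂ} (hd : Dec K) : Dec (fun u => (u : ℂ) * K u) := by
  intro N
  obtain ⟨C, hC⟩ := hd (N + 1)
  refine ⟨C, fun u => ?_⟩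
  rw [norm_mul, norm_real, Real.norm_eq_abs]
  have h1 : |u| ≤ Real.exp |u| := by
    have := Real.add_one_le_exp |u|
    linarith
  calc |u| * ‖K u‖ ≤ Real.exp |u| * (C * Real.exp (-((N + 1) * |u|))) :=
        mul_le_mul h1 (hC u) (norm_nonneg _) (Real.exp_pos _).le
    _ = C * Real.exp (-(N * |u|)) := by
        rw [mul_left_comm, ← Real.exp_add]
        congr 2
        ring

lemma LT_hasDerivAt {K : ℝ → ℂ} (hc : AEStronglyMeasurable K volume) (hd : Dec K) (s : ℂ) :
    HasDerivAt (LT K) (LT (fun u => (u : ℂ) * K u) s) s := by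
  obtain ⟨C, hC⟩ := hd.id_mul (|s.re| + 2)
  have hC0 : 0 ≤ C := by
    have := hC 0
    have h2 := norm_nonneg (((0 : ℝ) : ℂ) * K 0)
    simp only [abs_zero, mul_zero, neg_zero, Real.exp_zero, mul_one] at this
    linarith
  have hmem : Metric.ball s 1 ∈ 𝓝 s := Metric.ball_mem_nhds s one_pos
  have key := hasDerivAt_integral_of_dominated_loc_of_deriv_le
    (F := fun (s : ℂ) (u : ℝ) => K u * cexp (s * u))
    (F' := fun (s : ℂ) (u : ℝ) => ((u : ℂ) * K u) * cexp (s * u))
    (bound := fun u : ℝ => C * Real.exp (-|u|)) (μ := volume) hmem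
    (Eventually.of_forall fun s =>
      hc.mul (by fun_prop : Continuous fun u : ℝ => cexp (s * u)).aestronglyMeasurable)
    (hd.integrable hc s)
    ((((by fun_prop : Continuous fun u : ℝ => (u : ℂ)).aestronglyMeasurable).mul hc).mul
      (by fun_prop : Continuous fun u : ℝ => cexp (s * u)).aestronglyMeasurable)
    (ae_of_all _ fun u z hz => ?_)
    (integrable_exp_neg_abs.const_mul C)
    (ae_of_all _ fun u z _ => ?_)
  · exact key.2
  · rw [norm_mul]
    have h1 := hC u
    have h2 := norm_exp_mul_le z u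
    have h3 : |z.re| ≤ |s.re| + 1 := by
      have h4 : ‖z - s‖ < 1 := by simpa [dist_eq_norm] using hz
      have h5 := abs_re_le_norm (z - s)
      rw [sub_re] at h5
      have h6 := abs_sub_abs_le_abs_sub z.re s.re
      linarith
    calc ‖(u : ℂ) * K u‖ * ‖cexp (z * u)‖
        ≤ (C * Real.exp (-((|s.re| + 2) * |u|))) * Real.exp ((|s.re| + 1) * |u|) := by
          refine mul_le_mul h1 (h2.trans ?_) (norm_nonneg _) ((norm_nonneg _).trans h1)
          exact Real.exp_le_exp.2 (mul_le_mul_of_nonneg_right h3 (abs_nonneg _))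
      _ = C * Real.exp (-|u|) := by
          rw [mul_assoc, ← Real.exp_add]
          congr 2
          ring
  · have h1 : HasDerivAt (fun z : ℂ => z * (u : ℂ)) (u : ℂ) z := by
      simpa using (hasDerivAt_id z).mul_const (u : ℂ)
    have h2 := h1.cexp.const_mul (K u)
    refine h2.congr_deriv ?_
    ring

lemma LT_differentiable {K : ℝ → ℂ} (hc : AEStronglyMeasurable K volume) (hd : Dec K) :
    Differentiable ℂ (LT K) :=
  fun s => (LT_hasDerivAt hc hd s).differentiableAt

/-- Superexponential decay of the kernel. -/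
lemma Phi_super (N lam : ℝ) : ∃ C : ℝ, 0 ≤ C ∧ ∀ u : ℝ,
    Phi u * Real.exp (lam * u ^ 2) ≤ C * Real.exp (-(N * |u|)) := by
  set a : ℝ := |6 + N| with ha
  set b : ℝ := |lam| with hb
  refine ⟨Real.exp (a * (1 + a + b) + b * (1 + a + b) ^ 2), (Real.exp_pos _).le, fun u => ?_⟩
  refine (mul_le_mul_of_nonneg_right (Phi_le_abs u) (Real.exp_pos _).le).trans ?_
  rw [← Real.exp_add, ← Real.exp_add, ← Real.exp_add]
  apply Real.exp_le_exp.2
  set v := |u| with hv
  have hv0 : 0 ≤ v := abs_nonneg u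
  have hu2 : u ^ 2 = v ^ 2 := (sq_abs u).symm
  rw [hu2]
  have ha0 : 0 ≤ a := abs_nonneg _
  have hb0 : 0 ≤ b := abs_nonneg _
  have h1 : 6 + N ≤ a := le_abs_self _
  have h2 : lam ≤ b := le_abs_self _
  have h3 : v ^ 3 / 6 ≤ Real.exp v := by
    have := Real.pow_div_factorial_le_exp v hv0 3
    simpa [Nat.factorial] using this
  have h4 : v ^ 3 ≤ 2 * Real.pi * Real.exp v := by
    have := Real.pi_gt_three
    have h5 : 0 ≤ v ^ 3 := by positivity
    nlinarith
  have h5 : (6 + N) * v ≤ a * v := mul_le_mul_of_nonneg_right h1 hv0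
  have h6 : lam * v ^ 2 ≤ b * v ^ 2 := mul_le_mul_of_nonneg_right h2 (by positivity)
  have h7 : a * v + b * v ^ 2 - v ^ 3 ≤ a * (1 + a + b) + b * (1 + a + b) ^ 2 := by
    rcases le_total v (1 + a + b) with h | h
    · have h8 : a * v ≤ a * (1 + a + b) := mul_le_mul_of_nonneg_left h ha0
      have h9 : v ^ 2 ≤ (1 + a + b) ^ 2 := pow_le_pow_left₀ hv0 h 2
      have h10 : b * v ^ 2 ≤ b * (1 + a + b) ^ 2 := mul_le_mul_of_nonneg_left h9 hb0
      have : 0 ≤ v ^ 3 := by positivity
      linarith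
    · have h8 : (1 + a + b) * v ^ 2 ≤ v ^ 3 := by
        rw [pow_succ v 2, mul_comm]
        exact mul_le_mul_of_nonneg_left h (by positivity)
      have h9 : v ≤ v ^ 2 := by nlinarith
      have h10 : a * v ≤ a * v ^ 2 := mul_le_mul_of_nonneg_left h9 ha0
      have h11 : 0 ≤ a * (1 + a + b) + b * (1 + a + b) ^ 2 := by positivity
      nlinarith [sq_nonneg v]
  linarith

lemma Dec_of_le {K : ℝ → ℂ} {lam : ℝ} (h : ∀ u, ‖K u‖ ≤ Phi u * Real.exp (lam * u ^ 2)) : Dec K := by
  intro N
  obtain ⟨C, _, hC⟩ := Phi_super N lam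
  exact ⟨C, fun u => (h u).trans (hC u)⟩

/-- The completed L-function as a Laplace transform. -/
noncomputable def Lam (s : ℂ) : ℂ := LT (fun u => (Phi u : ℂ)) (s - 6)

lemma Dec_Phi : Dec (fun u => (Phi u : ℂ)) := by
  refine Dec_of_le (lam := 0) fun u => ?_
  rw [norm_real, Real.norm_eq_abs, abs_of_pos (Phi_pos u)]
  simp

lemma Phi_contC : Continuous (fun u => (Phi u : ℂ)) := continuous_ofReal.comp Phi_cont

lemma Lam_differentiable : Differentiable ℂ Lam := by
  have h := LT_differentiable Phi_contC.aestronglyMeasurable Dec_Phi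
  exact h.comp (differentiable_id.sub_const 6)

lemma Lam_symm (s : ℂ) : Lam (12 - s) = Lam s := by
  unfold Lam LT
  rw [← integral_neg_eq_self]
  refine integral_congr_ae (ae_of_all _ fun u => ?_)
  simp only [Phi_even]
  congr 2
  push_cast
  ring

lemma Lam_conj (s : ℂ) : Lam ((starRingEnd ℂ) s) = (starRingEnd ℂ) (Lam s) := by
  unfold Lam LT
  rw [← integral_conj]
  refine integral_congr_ae (ae_of_all _ fun u => ?_)
  simp only [map_mul, conj_ofReal, ← Complex.exp_conj, map_sub, map_ofNat]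

/-- The completed L-function is the Mellin transform of `Δ(i y)`. -/
lemma mellin_eq_LT (s : ℂ) : mellin (fun y : ℝ => ((delta y : ℝ) : ℂ)) s = Lam s := by
  unfold Lam LT mellin
  rw [← Real.range_exp, ← image_univ, integral_image_eq_integral_abs_deriv_smul MeasurableSet.univ
    (fun x _ => (Real.hasDerivAt_exp x).hasDerivWithinAt) Real.exp_injective.injOn,
    Measure.restrict_univ]
  refine integral_congr_ae (ae_of_all _ fun u => ?_)
  simp only [abs_of_pos (Real.exp_pos u), Phi]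
  have h1 : ((Real.exp u : ℝ) : ℂ) ^ (s - 1) = cexp ((s - 1) * u) := by
    rw [cpow_def_of_ne_zero (by exact_mod_cast (Real.exp_pos u).ne'), ← ofReal_log (Real.exp_pos u).le,
      Real.log_exp, mul_comm]
  rw [h1, Complex.real_smul, smul_eq_mul, ofReal_mul, ofReal_exp, ofReal_exp]
  rw [show cexp u * (cexp ((s - 1) * u) * ((delta (Real.exp u) : ℝ) : ℂ)) =
    (cexp u * cexp ((s - 1) * u)) * ((delta (Real.exp u) : ℝ) : ℂ) by ring,
    show cexp ((6 * u : ℝ) : ℂ) * ((delta (Real.exp u) : ℝ) : ℂ) * cexp ((s - 6) * u) =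
    (cexp ((6 * u : ℝ) : ℂ) * cexp ((s - 6) * u)) * ((delta (Real.exp u) : ℝ) : ℂ) by ring,
    ← Complex.exp_add, ← Complex.exp_add]
  congr 2
  push_cast
  ring

end Pool.Agent.Helper36.XD
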