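import Pool.Agent.Helper36.XD9

set_option autoImplicit false

/-! # The region far from the critical line -/

namespace Pool.Agent.Helper36.XD

open Complex MeasureTheory Filter Topology Set

lemma beta_real {a b : ℝ} : betaIntegral (a : ℂ) (b : ℂ) =
    ((∫ x : ℝ in (0 : ℝ)..1, x ^ (a - 1) * (1 - x) ^ (b - 1) : ℝ) : ℂ) := by
  unfold betaIntegral
  rw [← intervalIntegral.integral_ofReal]
  refine intervalIntegral.integral_congr fun x hx => ?_
  rw [uIcc_of_le zero_le_one] at hx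
  rw [ofReal_mul, ofReal_cpow hx.1, ofReal_cpow (by linarith [hx.2])]
  push_cast
  rfl

lemma norm_beta_le' {u : ℂ} (b : ℝ) (hu : 0 < u.re) (hb : 0 < b) :
    ‖betaIntegral u b‖ ≤ ∫ x : ℝ in (0 : ℝ)..1, x ^ (u.re - 1) * (1 - x) ^ (b - 1) := by
  unfold betaIntegral
  have hconv := (betaIntegral_convergent (u := (u.re : ℂ)) (v := (b : ℂ)) (by simpa using hu)
    (by simpa using hb)).norm
  have e : ∀ x ∈ Ioc (0 : ℝ) 1, ‖(x : ℂ) ^ ((u.re : ℂ) - 1) * (1 - (x : ℂ)) ^ ((b : ℂ) - 1)‖ =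
      x ^ (u.re - 1) * (1 - x) ^ (b - 1) := by
    intro x hx
    rw [show (1 - (x : ℂ)) = ((1 - x : ℝ) : ℂ) by push_cast; rfl,
      show (u.re : ℂ) - 1 = ((u.re - 1 : ℝ) : ℂ) by push_cast; rfl,
      show (b : ℂ) - 1 = ((b - 1 : ℝ) : ℂ) by push_cast; rfl,
      ← ofReal_cpow hx.1.le, ← ofReal_cpow (by linarith [hx.2]), ← ofReal_mul, norm_real,
      Real.norm_eq_abs, abs_of_nonneg]
    have h1 : 0 ≤ 1 - x := by linarith [hx.2]
    have h2 := hx.1.le
    positivity
  have hInt : IntervalIntegrable (fun x : ℝ => x ^ (u.re - 1) * (1 - x) ^ (b - 1)) volume 0 1 := by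
    refine hconv.congr ?_
    intro x hx
    rw [uIoc_of_le zero_le_one] at hx
    exact e x hx
  refine intervalIntegral.norm_integral_le_of_norm_le zero_le_one ?_ hInt
  filter_upwards with x hx
  rw [norm_mul, norm_cpow_eq_rpow_re_of_pos hx.1, sub_re, one_re]
  refine mul_le_mul_of_nonneg_left ?_ (Real.rpow_nonneg hx.1.le _)
  rcases hx.2.lt_or_eq with h | h
  · rw [show (1 - (x : ℂ)) = ((1 - x : ℝ) : ℂ) by push_cast; rfl,
      norm_cpow_eq_rpow_re_of_pos (by linarith), sub_re, one_re, ofReal_re]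
  · rw [h]
    rw [ofReal_one, sub_self, sub_self]
    rcases eq_or_ne b 1 with h1 | h1
    · rw [h1]
      simp
    · rw [zero_cpow, norm_zero, Real.zero_rpow (sub_ne_zero.2 h1)]
      rw [sub_ne_zero]
      exact_mod_cast h1

lemma Gamma_beta {u : ℂ} {v : ℝ} (hu : 0 < u.re) (hv : 0 < v) :
    ‖Complex.Gamma u‖ * Real.Gamma (u.re + v) ≤ ‖Complex.Gamma (u + v)‖ * Real.Gamma u.re := by
  set b : ℝ := ∫ x : ℝ in (0 : ℝ)..1, x ^ (u.re - 1) * (1 - x) ^ (v - 1) with hb
  have h1 := Complex.Gamma_mul_Gamma_eq_betaIntegral hu (show 0 < (v : ℂ).re by simpa using hv)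
  have h2 := Complex.Gamma_mul_Gamma_eq_betaIntegral (show 0 < (u.re : ℂ).re by simpa using hu)
    (show 0 < (v : ℂ).re by simpa using hv)
  rw [beta_real, ← hb, ← ofReal_add, Gamma_ofReal, Gamma_ofReal, Gamma_ofReal] at h2
  have h3 : Real.Gamma u.re * Real.Gamma v = Real.Gamma (u.re + v) * b := by exact_mod_cast h2
  have hG : 0 < Real.Gamma v := Real.Gamma_pos_of_pos hv
  have hG2 : 0 < Real.Gamma (u.re + v) := Real.Gamma_pos_of_pos (by linarith)
  have h4 : ‖Complex.Gamma u‖ * Real.Gamma v ≤ ‖Complex.Gamma (u + v)‖ * b := by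
    have h5 := congrArg norm h1
    rw [norm_mul, norm_mul, Gamma_ofReal, norm_real, Real.norm_eq_abs, abs_of_pos hG] at h5
    rw [h5]
    exact mul_le_mul_of_nonneg_left (norm_beta_le' v hu hv) (norm_nonneg _)
  have h6 : (‖Complex.Gamma u‖ * Real.Gamma (u.re + v)) * Real.Gamma v ≤
      (‖Complex.Gamma (u + v)‖ * Real.Gamma u.re) * Real.Gamma v := by
    calc (‖Complex.Gamma u‖ * Real.Gamma (u.re + v)) * Real.Gamma v
        = (‖Complex.Gamma u‖ * Real.Gamma v) * Real.Gamma (u.re + v) := by ring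
      _ ≤ (‖Complex.Gamma (u + v)‖ * b) * Real.Gamma (u.re + v) :=
          mul_le_mul_of_nonneg_right h4 hG2.le
      _ = ‖Complex.Gamma (u + v)‖ * (Real.Gamma (u.re + v) * b) := by ring
      _ = _ := by rw [← h3]; ring
  exact le_of_mul_le_mul_right h6 hG

lemma Gamma_nat {σ : ℝ} (hσ : 6 ≤ σ) (n : ℕ) :
    6 / 7 * 7 ^ n * Real.Gamma σ ≤ Real.Gamma (σ + n) := by
  have hG := Real.Gamma_pos_of_pos (show 0 < σ by linarith)
  rcases n with _ | n
  · simp only [pow_zero, mul_one, Nat.cast_zero, add_zero]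
    linarith
  · induction n with
    | zero =>
      simp only [zero_add, pow_one, Nat.cast_one]
      rw [Real.Gamma_add_one (by linarith)]
      nlinarith
    | succ n ih =>
      have hn : (0 : ℝ) ≤ n := Nat.cast_nonneg n
      have e : σ + ((n + 1 + 1 : ℕ) : ℝ) = (σ + ((n + 1 : ℕ) : ℝ)) + 1 := by push_cast; ring
      have hG2 := Real.Gamma_pos_of_pos (show 0 < σ + ((n + 1 : ℕ) : ℝ) by push_cast; linarith)
      rw [e, Real.Gamma_add_one (by push_cast; linarith)]
      have h7 : 7 ≤ σ + ((n + 1 : ℕ) : ℝ) := by push_cast; linarith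
      calc 6 / 7 * 7 ^ (n + 1 + 1) * Real.Gamma σ = 7 * (6 / 7 * 7 ^ (n + 1) * Real.Gamma σ) := by ring
        _ ≤ (σ + ((n + 1 : ℕ) : ℝ)) * Real.Gamma (σ + ((n + 1 : ℕ) : ℝ)) :=
          mul_le_mul h7 ih (by positivity) (by linarith)

lemma Gamma_pow {σ v : ℝ} (hσ : 6 ≤ σ) (hv : 0 ≤ v) :
    (2 * Real.pi) ^ v * Real.Gamma σ ≤ 9 * Real.Gamma (σ + v) := by
  set n : ℕ := ⌊v⌋₊ with hn
  have h1 : (n : ℝ) ≤ v := Nat.floor_le hv
  have h2 : v < n + 1 := Nat.lt_floor_add_one v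
  set r : ℝ := v - n with hr
  have hG := Real.Gamma_pos_of_pos (show 0 < σ by linarith)
  have h3 : Real.Gamma σ ≤ Real.Gamma (σ + r) :=
    Real.Gamma_strictMonoOn_Ici.monotoneOn (by simp; linarith) (by simp; linarith) (by linarith)
  have h4 := Gamma_nat (σ := σ + r) (by linarith) n
  have e : σ + r + n = σ + v := by rw [hr]; ring
  rw [e] at h4
  have hpi : Real.pi ≤ 3.15 := Real.pi_lt_d2.le
  have hpi3 := Real.pi_gt_three
  have h5 : (2 * Real.pi) ^ v ≤ 7 ^ n * 7 := by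
    calc (2 * Real.pi) ^ v ≤ (7 : ℝ) ^ v := Real.rpow_le_rpow (by positivity) (by linarith) hv
      _ ≤ (7 : ℝ) ^ ((n : ℝ) + 1) := Real.rpow_le_rpow_of_exponent_le (by norm_num) h2.le
      _ = 7 ^ n * 7 := by rw [Real.rpow_add (by norm_num), Real.rpow_natCast, Real.rpow_one]
  have h6 : (0 : ℝ) < 7 ^ n := by positivity
  calc (2 * Real.pi) ^ v * Real.Gamma σ ≤ (7 ^ n * 7) * Real.Gamma (σ + r) :=
        mul_le_mul h5 h3 hG.le (by positivity)
    _ = 49 / 6 * (6 / 7 * 7 ^ n * Real.Gamma (σ + r)) := by ring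
    _ ≤ 49 / 6 * Real.Gamma (σ + v) := mul_le_mul_of_nonneg_left h4 (by norm_num)
    _ ≤ _ := by
      have := Real.Gamma_pos_of_pos (show 0 < σ + v by linarith)
      linarith

lemma norm_PP (s : ℂ) : ‖PP s‖ = (2 * Real.pi) ^ (-s.re) * ‖Complex.Gamma s‖ := by
  unfold PP
  rw [norm_mul, norm_cpow_eq_rpow_re_of_pos (by positivity), neg_re]

lemma PP_mono {w : ℂ} (hw : 6 ≤ w.re) {v : ℝ} (hv : 0 ≤ v) : ‖PP w‖ ≤ 9 * ‖PP (w + v)‖ := by
  rcases hv.eq_or_lt with h | h
  · rw [← h, ofReal_zero, add_zero]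
    have := norm_nonneg (PP w)
    linarith
  · rw [norm_PP, norm_PP]
    have h1 := Gamma_beta (u := w) (by linarith) h
    have h2 := Gamma_pow hw hv
    have hG1 := Real.Gamma_pos_of_pos (show 0 < w.re by linarith)
    have hG2 := Real.Gamma_pos_of_pos (show 0 < w.re + v by linarith)
    have hp : (0 : ℝ) < (2 * Real.pi) ^ v := by positivity
    have e : (2 * Real.pi) ^ (-w.re) = (2 * Real.pi) ^ (-(w + (v : ℂ)).re) * (2 * Real.pi) ^ v := by
      rw [← Real.rpow_add (by positivity)]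
      congr 1
      simp
    rw [e]
    have h3 : (2 * Real.pi) ^ v * ‖Complex.Gamma w‖ ≤ 9 * ‖Complex.Gamma (w + v)‖ := by
      have h4 : ((2 * Real.pi) ^ v * ‖Complex.Gamma w‖) * (Real.Gamma w.re * Real.Gamma (w.re + v)) ≤
          (9 * ‖Complex.Gamma (w + v)‖) * (Real.Gamma w.re * Real.Gamma (w.re + v)) := by
        calc ((2 * Real.pi) ^ v * ‖Complex.Gamma w‖) * (Real.Gamma w.re * Real.Gamma (w.re + v))
            = ((2 * Real.pi) ^ v * Real.Gamma w.re) * (‖Complex.Gamma w‖ * Real.Gamma (w.re + v)) := by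
              ring
          _ ≤ (9 * Real.Gamma (w.re + v)) * (‖Complex.Gamma (w + v)‖ * Real.Gamma w.re) :=
              mul_le_mul h2 h1 (by positivity) (by positivity)
          _ = _ := by ring
      exact le_of_mul_le_mul_right h4 (by positivity)
    calc (2 * Real.pi) ^ (-(w + (v : ℂ)).re) * (2 * Real.pi) ^ v * ‖Complex.Gamma w‖
        = (2 * Real.pi) ^ (-(w + (v : ℂ)).re) * ((2 * Real.pi) ^ v * ‖Complex.Gamma w‖) := by ring
      _ ≤ (2 * Real.pi) ^ (-(w + (v : ℂ)).re) * (9 * ‖Complex.Gamma (w + v)‖) :=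
          mul_le_mul_of_nonneg_left h3 (by positivity)
      _ = _ := by ring

lemma Lam_far : ∃ C : ℝ, 1 ≤ C ∧ ∀ w : ℂ, 6 ≤ w.re → ‖Lam w‖ ≤ C * (1 + ‖w‖) ^ 8 * ‖PP w‖ := by
  obtain ⟨C1, hC1, h1⟩ := cf_bound
  obtain ⟨C2, hC2, h2⟩ := Ld_growth
  refine ⟨1 + C1 + C2, by linarith, fun w hw => ?_⟩
  have hp1 : (1 : ℝ) ≤ (1 + ‖w‖) ^ 8 := one_le_pow₀ (by linarith [norm_nonneg w])
  have hL : ‖Ld w‖ ≤ (1 + C1 + C2) * (1 + ‖w‖) ^ 8 := by
    rcases le_total w.re 10 with h | h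
    · refine (h2 w (by linarith) h).trans ?_
      have h3 : ‖w + 1‖ ≤ 1 + ‖w‖ := by
        have := norm_add_le w 1
        rw [norm_one] at this
        linarith
      have h4 := pow_le_pow_left₀ (norm_nonneg _) h3 8
      nlinarith
    · have h3 := h1 w (by linarith)
      have h4 : (2 : ℝ) ^ (-w.re) ≤ 1 := Real.rpow_le_one_of_one_le_of_nonpos (by norm_num) (by linarith)
      have h5 := norm_add_le (Ld w - 1) 1
      rw [sub_add_cancel, norm_one] at h5
      nlinarith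
  rw [Lam_eq (Gamma_ne_zero_of_re_pos (by linarith)), norm_mul, mul_comm]
  exact mul_le_mul_of_nonneg_right hL (norm_nonneg _)

lemma Lam_refl (s : ℂ) (y : ℝ) : ‖Lam (12 - s + y)‖ = ‖Lam (s - ((2 * (s.re - 6) - y : ℝ) : ℂ))‖ := by
  rw [← norm_conj, ← Lam_conj]
  congr 2
  apply Complex.ext
  · simp
    ring
  · simp

theorem Ah_far : ∃ K : ℝ, 1 ≤ K ∧ ∀ lam : ℝ, 0 < lam → lam ≤ 1 → ∀ s : ℂ, 9 ≤ s.re →
    K / lam ≤ xx s → ‖Ah lam (12 - s)‖ < ‖Ah lam s‖ := by
  obtain ⟨K, hK, hR⟩ := Ah_ratio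
  obtain ⟨C, hC, hF⟩ := Lam_far
  refine ⟨K + 8 + 300 * C * 14 ^ 8, by nlinarith, fun lam hl hl1 s hs hx => ?_⟩
  have hpos : 0 < ‖s‖ := by
    have := abs_re_le_norm s
    have h3 := le_abs_self s.re
    linarith
  have hKx : K / lam ≤ xx s := by
    refine le_trans ?_ hx
    refine div_le_div_of_nonneg_right ?_ hl.le
    nlinarith
  obtain ⟨-, h1, h2, h3⟩ := hR lam hl hl1 s (by linarith) hKx
  set x : ℝ := xx s with hxdef
  set a : ℝ := s.re - 6 with ha
  have ha3 : 3 ≤ a := by linarith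
  have hxl : K + 8 + 300 * C * 14 ^ 8 ≤ lam * x := by
    rw [div_le_iff₀ hl] at hx
    linarith
  have hx1 : 1 ≤ x := by
    have : K ≤ K / lam := by
      rw [le_div_iff₀ hl]
      nlinarith
    linarith
  have hPpos := norm_pos_iff.2 (PP_ne (by linarith : 0 < s.re))
  have h16 := norm_big hpos hx1
  set W : ℝ := C * (1 + ‖s‖) ^ 8 * (9 * ‖PP s‖) with hW
  have hW0 : 0 ≤ W := by positivity
  -- pointwise bound near
  have hnear : ∀ y : ℝ, 0 ≤ y → y ≤ a → ‖Lam (s - (y : ℂ))‖ ≤ W := by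
    intro y hy0 hya
    have hre : (s - (y : ℂ)).re = s.re - y := by simp
    have h4 := hF (s - (y : ℂ)) (by rw [hre]; linarith)
    have h5 := PP_mono (w := s - (y : ℂ)) (by rw [hre]; linarith) hy0
    have h6 := norm_add_ge (s := s - (y : ℂ)) (by rw [hre]; linarith) hy0
    rw [sub_add_cancel] at h5 h6
    refine h4.trans ?_
    rw [hW]
    gcongr
  have hpt : ∀ y : ℝ, ‖Lam (12 - s + y) * (hg lam y : ℂ)‖ ≤
      W * (Real.exp (0 * y + 0 * y ^ 2) * gau lam y) +
      Real.exp (-9) * ‖Lam (s + ((y - 2 * a : ℝ) : ℂ)) * (hg lam (y - 2 * a) : ℂ)‖ := by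
    intro y
    have hg0 := gau_nonneg lam y
    rw [norm_mul, norm_mul, norm_real, norm_real, Real.norm_eq_abs, Real.norm_eq_abs,
      abs_of_nonneg (hg_nonneg _ _), abs_of_nonneg (hg_nonneg _ _)]
    have e0 : Real.exp (0 * y + 0 * y ^ 2) = 1 := by simp
    rw [e0, one_mul]
    rcases le_or_gt y 0 with hy | hy
    · have h0 : hg lam y = 0 := indicator_of_notMem (by simpa using hy) _
      rw [h0, mul_zero]
      have := hg_nonneg lam (y - 2 * a)
      positivity
    · have h0 : hg lam y = gau lam y := indicator_of_mem (by simpa using hy) _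
      rw [h0, Lam_refl]
      rcases le_or_gt y (2 * a) with hy2 | hy2
      · have hb : ‖Lam (s - ((2 * (s.re - 6) - y : ℝ) : ℂ))‖ ≤ W := by
          rcases le_or_gt a y with hy3 | hy3
          · exact hnear _ (by linarith) (by linarith)
          · have e1 := Lam_refl s y
            have e2 : Lam (12 - s + y) = Lam (s - y) := by
              rw [← Lam_symm (s - y)]
              congr 1
              ring
            rw [← e1, e2]
            exact hnear y hy.le hy3.le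
        have := hg_nonneg lam (y - 2 * a)
        have h7 : 0 ≤ Real.exp (-9) * (‖Lam (s + ((y - 2 * a : ℝ) : ℂ))‖ * hg lam (y - 2 * a)) := by
          positivity
        have h8 := mul_le_mul_of_nonneg_right hb hg0
        linarith
      · have h5 : hg lam (y - 2 * a) = gau lam (y - 2 * a) :=
          indicator_of_mem (by simpa using hy2) _
        rw [h5]
        have e1 : s - ((2 * (s.re - 6) - y : ℝ) : ℂ) = s + ((y - 2 * a : ℝ) : ℂ) := by
          rw [ha]
          push_cast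
          ring
        rw [e1]
        have h6 : gau lam y ≤ Real.exp (-9) * gau lam (y - 2 * a) := by
          unfold gau
          rw [mul_left_comm, ← Real.exp_add]
          refine mul_le_mul_of_nonneg_left (Real.exp_le_exp.2 ?_) (by positivity)
          have h7 : y ^ 2 / (4 * lam) = (y - 2 * a) ^ 2 / (4 * lam) + (4 * a * (y - 2 * a) + 4 * a ^ 2) / (4 * lam) := by
            field_simp
            ring
          have h8 : 9 ≤ (4 * a * (y - 2 * a) + 4 * a ^ 2) / (4 * lam) := by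
            rw [le_div_iff₀ (by positivity)]
            have h9 : 0 ≤ 4 * a * (y - 2 * a) := by
              have : 0 ≤ y - 2 * a := by linarith
              positivity
            nlinarith
          rw [h7]
          linarith
        have h7 := mul_le_mul_of_nonneg_left h6 (norm_nonneg (Lam (s + ((y - 2 * a : ℝ) : ℂ))))
        have h8 : 0 ≤ W * gau lam y := by positivity
        linarith
  obtain ⟨g1, g2⟩ := gau_int hl (q := 0) (by norm_num) 0
  have e1 : (√(1 - 4 * lam * 0))⁻¹ * Real.exp (lam * 0 ^ 2 / (1 - 4 * lam * 0)) = 1 := by simp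
  rw [e1] at g2
  have hsh : Integrable (fun y : ℝ => ‖Lam (s + ((y - 2 * a : ℝ) : ℂ)) * (hg lam (y - 2 * a) : ℂ)‖) :=
    h2.norm.comp_sub_right (2 * a)
  have hshI : ∫ y : ℝ, ‖Lam (s + ((y - 2 * a : ℝ) : ℂ)) * (hg lam (y - 2 * a) : ℂ)‖ =
      ∫ y : ℝ, ‖Lam (s + (y : ℂ)) * (hg lam y : ℂ)‖ :=
    integral_sub_right_eq_self (fun y : ℝ => ‖Lam (s + (y : ℂ)) * (hg lam y : ℂ)‖) (2 * a)
  have hmain : ‖Ah lam (12 - s)‖ ≤ W + Real.exp (-9) * (2 * (‖PP s‖ * Real.exp (lam * x ^ 2))) := by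
    rw [Ah_eq hl]
    have h4 := norm_integral_le_of_norm_le ((g1.const_mul W).add (hsh.const_mul (Real.exp (-9))))
      (ae_of_all _ hpt)
    refine h4.trans ?_
    have e2 : ∫ y : ℝ, ((fun y : ℝ => W * (Real.exp (0 * y + 0 * y ^ 2) * gau lam y)) +
        fun y : ℝ => Real.exp (-9) * ‖Lam (s + ((y - 2 * a : ℝ) : ℂ)) * (hg lam (y - 2 * a) : ℂ)‖) y =
        W * 1 + Real.exp (-9) * ∫ y : ℝ, ‖Lam (s + (y : ℂ)) * (hg lam y : ℂ)‖ := by
      rw [integral_add' (g1.const_mul W) (hsh.const_mul (Real.exp (-9))), integral_const_mul,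
        integral_const_mul, g2, hshI]
    refine (le_of_eq e2).trans ?_
    rw [mul_one]
    have h5 := mul_le_mul_of_nonneg_left h3 (Real.exp_pos (-9)).le
    linarith
  -- compare
  have hn := norm_s hpos
  have hWle : W ≤ 1 / 30 * (‖PP s‖ * Real.exp (lam * x ^ 2)) := by
    have h4 : 1 + ‖s‖ ≤ 14 * Real.exp x := by
      rw [hn]
      have h5 := Real.add_one_le_exp x
      have h6 : Real.pi ≤ 3.15 := Real.pi_lt_d2.le
      nlinarith
    have h5 : (1 + ‖s‖) ^ 8 ≤ (14 * Real.exp x) ^ 8 := pow_le_pow_left₀ (by positivity) h4 8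
    have h6 : (14 * Real.exp x) ^ 8 = 14 ^ 8 * Real.exp (8 * x) := by
      rw [mul_pow, ← Real.exp_nat_mul]
      push_cast
      rfl
    have h7 : 300 * C * 14 ^ 8 * Real.exp (8 * x) ≤ Real.exp (lam * x ^ 2) := by
      have h8 : 300 * C * 14 ^ 8 ≤ Real.exp (lam * x ^ 2 - 8 * x) := by
        have h9 := Real.add_one_le_exp (lam * x ^ 2 - 8 * x)
        have h10 : (K + 300 * C * 14 ^ 8) * x ≤ lam * x ^ 2 - 8 * x := by nlinarith
        have h11 : (K + 300 * C * 14 ^ 8) * 1 ≤ (K + 300 * C * 14 ^ 8) * x := by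
          refine mul_le_mul_of_nonneg_left hx1 ?_
          positivity
        linarith
      calc 300 * C * 14 ^ 8 * Real.exp (8 * x) ≤ Real.exp (lam * x ^ 2 - 8 * x) * Real.exp (8 * x) :=
            mul_le_mul_of_nonneg_right h8 (Real.exp_pos _).le
        _ = _ := by
            rw [← Real.exp_add]
            congr 1
            ring
    rw [hW]
    calc C * (1 + ‖s‖) ^ 8 * (9 * ‖PP s‖) ≤ C * (14 ^ 8 * Real.exp (8 * x)) * (9 * ‖PP s‖) := by
          rw [← h6]
          gcongr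
      _ = (9 / 300) * (‖PP s‖ * (300 * C * 14 ^ 8 * Real.exp (8 * x))) := by ring
      _ ≤ (9 / 300) * (‖PP s‖ * Real.exp (lam * x ^ 2)) := by
          refine mul_le_mul_of_nonneg_left (mul_le_mul_of_nonneg_left h7 hPpos.le) (by norm_num)
      _ ≤ _ := by
          have : 0 ≤ ‖PP s‖ * Real.exp (lam * x ^ 2) := by positivity
          linarith
  have he9 : Real.exp (-9) ≤ 1 / 100 := by
    rw [Real.exp_neg, ← one_div]
    apply one_div_le_one_div_of_le (by norm_num)
    have h5 : Real.exp 9 = Real.exp 1 ^ 9 := by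
      rw [← Real.exp_nat_mul]
      norm_num
    rw [h5]
    have h6 : (2 : ℝ) ≤ Real.exp 1 := by
      have := Real.exp_one_gt_d9
      linarith
    have := pow_le_pow_left₀ (by norm_num) h6 9
    norm_num at this
    linarith
  have hQ : 0 < ‖PP s‖ * Real.exp (lam * x ^ 2) := by positivity
  nlinarith

end Pool.Agent.Helper36.XD
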