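import Pool.Agent.Helper36.XD10
import Pool.Agent.Helper36.XD11

set_option autoImplicit false

/-! # Zeros of the heat flow of the Ramanujan Xi function -/

namespace Pool.Agent.Helper36.XD

open Complex MeasureTheory Filter Topology Set

lemma XiHeat_fun {lam : ℝ} (hl : 0 < lam) :
    XiHeat lam = fun z => Ah lam (6 + I * z) + Ah lam (6 - I * z) := funext fun z => XiHeat_eq hl z

lemma XiHeat_hasDerivAt {lam : ℝ} (hl : 0 < lam) (z : ℂ) :
    HasDerivAt (XiHeat lam) (I * deriv (Ah lam) (6 + I * z) - I * deriv (Ah lam) (6 - I * z)) z := by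
  rw [XiHeat_fun hl]
  have h0 : HasDerivAt (fun z : ℂ => I * z) I z := by simpa using (hasDerivAt_id z).const_mul I
  have h1 : HasDerivAt (fun z : ℂ => 6 + I * z) I z := h0.const_add 6
  have h2 : HasDerivAt (fun z : ℂ => 6 - I * z) (-I) z := h0.const_sub 6
  have h3 := ((Ah_differentiable hl (6 + I * z)).hasDerivAt.comp z h1).add
    ((Ah_differentiable hl (6 - I * z)).hasDerivAt.comp z h2)
  refine h3.congr_deriv ?_
  ring

lemma Ah_deriv_conj {lam : ℝ} (s : ℂ) :
    deriv (Ah lam) ((starRingEnd ℂ) s) = (starRingEnd ℂ) (deriv (Ah lam) s) := by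
  have e : Ah lam = (starRingEnd ℂ) ∘ Ah lam ∘ (starRingEnd ℂ) := by
    funext w
    simp only [Function.comp_apply, Ah_conj, RingHomCompTriple.comp_apply, RingHom.id_apply]
  have h : deriv (Ah lam) ((starRingEnd ℂ) s) =
      deriv ((starRingEnd ℂ) ∘ Ah lam ∘ (starRingEnd ℂ)) ((starRingEnd ℂ) s) :=
    congrArg (fun f : ℂ → ℂ => deriv f ((starRingEnd ℂ) s)) e
  rw [h, deriv_conj_conj]
  simp only [Function.comp_apply, Complex.conj_conj]

lemma norm_lt_of_mono {lam : ℝ} (hl : 0 < lam) {t a : ℝ} (ha : 0 < a) (ha3 : a ≤ 3)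
    (h : ∀ σ : ℝ, 3 ≤ σ → σ ≤ 9 → Ah lam (σ + t * I) ≠ 0 ∧
      0 < (deriv (Ah lam) (σ + t * I) / Ah lam (σ + t * I)).re) :
    ‖Ah lam (((6 - a : ℝ) : ℂ) + t * I)‖ < ‖Ah lam (((6 + a : ℝ) : ℂ) + t * I)‖ := by
  set F : ℝ → ℝ := fun σ => normSq (Ah lam ((σ : ℂ) + t * I)) with hF
  have hd : ∀ σ : ℝ, HasDerivAt F
      (2 * ((starRingEnd ℂ) (Ah lam ((σ : ℂ) + t * I)) * deriv (Ah lam) ((σ : ℂ) + t * I)).re) σ := by
    intro σ
    have h1 : HasDerivAt (fun σ : ℝ => (σ : ℂ) + t * I) 1 σ := by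
      simpa using (Complex.ofRealCLM.hasDerivAt (x := σ)).add_const ((t : ℂ) * I)
    have h2 : HasDerivAt (fun σ : ℝ => Ah lam ((σ : ℂ) + t * I))
        (deriv (Ah lam) ((σ : ℂ) + t * I)) σ := by
      have h3 : HasDerivAt (fun σ : ℝ => Ah lam ((σ : ℂ) + t * I))
          (deriv (Ah lam) ((σ : ℂ) + t * I) * 1) σ :=
        (Ah_differentiable hl ((σ : ℂ) + t * I)).hasDerivAt.comp_of_eq σ h1 rfl
      rw [mul_one] at h3
      exact h3
    have hre : HasDerivAt (fun σ : ℝ => (Ah lam ((σ : ℂ) + t * I)).re)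
        (deriv (Ah lam) ((σ : ℂ) + t * I)).re σ :=
      Complex.reCLM.hasFDerivAt.comp_hasDerivAt σ h2
    have him : HasDerivAt (fun σ : ℝ => (Ah lam ((σ : ℂ) + t * I)).im)
        (deriv (Ah lam) ((σ : ℂ) + t * I)).im σ :=
      Complex.imCLM.hasFDerivAt.comp_hasDerivAt σ h2
    have h3 := (hre.mul hre).add (him.mul him)
    have e : F = fun σ : ℝ => (Ah lam ((σ : ℂ) + t * I)).re * (Ah lam ((σ : ℂ) + t * I)).re +
        (Ah lam ((σ : ℂ) + t * I)).im * (Ah lam ((σ : ℂ) + t * I)).im := by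
      funext σ
      rw [hF]
      simp only [normSq_apply]
    rw [e]
    refine h3.congr_deriv ?_
    simp only [mul_re, conj_re, conj_im]
    ring
  have hpos : ∀ σ : ℝ, 3 ≤ σ → σ ≤ 9 →
      0 < 2 * ((starRingEnd ℂ) (Ah lam ((σ : ℂ) + t * I)) * deriv (Ah lam) ((σ : ℂ) + t * I)).re := by
    intro σ h3 h9
    obtain ⟨hne, hp⟩ := h σ h3 h9
    have hn : 0 < normSq (Ah lam ((σ : ℂ) + t * I)) := normSq_pos.2 hne
    have e : (starRingEnd ℂ) (Ah lam ((σ : ℂ) + t * I)) * deriv (Ah lam) ((σ : ℂ) + t * I) =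
        (normSq (Ah lam ((σ : ℂ) + t * I)) : ℂ) *
          (deriv (Ah lam) ((σ : ℂ) + t * I) / Ah lam ((σ : ℂ) + t * I)) := by
      rw [normSq_eq_conj_mul_self]
      field_simp
    rw [e, re_ofReal_mul]
    positivity
  have hmono : StrictMonoOn F (Icc 3 9) := by
    refine strictMonoOn_of_deriv_pos (convex_Icc 3 9)
      (fun σ _ => (hd σ).continuousAt.continuousWithinAt) fun σ hσ => ?_
    rw [interior_Icc] at hσ
    rw [(hd σ).deriv]
    exact hpos σ hσ.1.le hσ.2.le
  have h1 : F (6 - a) < F (6 + a) :=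
    hmono ⟨by linarith, by linarith⟩ ⟨by linarith, by linarith⟩ (by linarith)
  rw [hF] at h1
  simp only [normSq_eq_norm_sq] at h1
  exact lt_of_pow_lt_pow_left₀ 2 (norm_nonneg _) h1

lemma xx_ge {K lam : ℝ} {s : ℂ} (h : 2 * Real.pi * Real.exp (K / lam) ≤ ‖s‖) : K / lam ≤ xx s := by
  have h1 : 0 < 2 * Real.pi * Real.exp (K / lam) := by positivity
  have h2 := Real.log_le_log h1 h
  rw [Real.log_mul (by positivity) (Real.exp_pos _).ne', Real.log_exp] at h2
  unfold xx
  linarith

theorem real_simple : ∃ C : ℝ, 0 < C ∧ ∀ lam : ℝ, 0 < lam → lam ≤ 1 → ∀ z : ℂ,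
    XiHeat lam z = 0 → Real.exp (C / lam) ≤ ‖z‖ → z.im = 0 ∧ deriv (XiHeat lam) z ≠ 0 := by
  obtain ⟨K1, hK1, hA⟩ := Ah_logDeriv
  obtain ⟨K2, hK2, hB⟩ := Ah_far
  refine ⟨K1 + K2 + 4, by linarith, fun lam hl hl1 z hz hzn => ?_⟩
  have hexp : ∀ K : ℝ, K + 4 ≤ K1 + K2 + 4 → 1 ≤ K →
      2 * Real.pi * Real.exp (K / lam) + 9 ≤ Real.exp ((K1 + K2 + 4) / lam) := by
    intro K hK hK0
    have h1 : K / lam + 4 ≤ (K1 + K2 + 4) / lam := by
      rw [div_add' _ _ _ hl.ne']
      refine div_le_div_of_nonneg_right ?_ hl.le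
      nlinarith
    have h2 := Real.exp_le_exp.2 h1
    rw [Real.exp_add] at h2
    have h3 : (16 : ℝ) ≤ Real.exp 4 := by
      have h5 : Real.exp 4 = Real.exp 1 ^ 4 := by
        rw [← Real.exp_nat_mul]
        norm_num
      rw [h5]
      have h6 : (2 : ℝ) ≤ Real.exp 1 := by
        have := Real.exp_one_gt_d9
        linarith
      calc (16 : ℝ) = 2 ^ 4 := by norm_num
        _ ≤ Real.exp 1 ^ 4 := pow_le_pow_left₀ (by norm_num) h6 4
    have h4 : 1 ≤ Real.exp (K / lam) := Real.one_le_exp (by positivity)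
    have h6 : Real.pi ≤ 3.15 := Real.pi_lt_d2.le
    nlinarith
  -- nonvanishing off the real axis
  have key : ∀ w : ℂ, w.im < 0 → Real.exp ((K1 + K2 + 4) / lam) ≤ ‖w‖ → XiHeat lam w ≠ 0 := by
    intro w hw hwn h0
    rw [XiHeat_eq hl] at h0
    have hnorm : ‖Ah lam (6 - I * w)‖ = ‖Ah lam (6 + I * w)‖ := by
      rw [eq_neg_of_add_eq_zero_left h0, norm_neg]
    set s : ℂ := 6 + I * w with hs
    have hsre : s.re = 6 - w.im := by
      simp [hs]
      ring
    have hsim : s.im = w.re := by simp [hs]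
    have e12 : 6 - I * w = 12 - s := by rw [hs]; ring
    rw [e12] at hnorm
    have hsn : ‖w‖ - 6 ≤ ‖s‖ := by
      have h1 := norm_sub_norm_le (I * w) (-6)
      rw [norm_mul, norm_I, one_mul, norm_neg, sub_neg_eq_add, add_comm (I * w) 6] at h1
      have h2 : ‖(6 : ℂ)‖ = 6 := by simp
      rw [h2] at h1
      exact h1
    rcases le_or_gt 9 s.re with h9 | h9
    · have h1 := hB lam hl hl1 s h9 (xx_ge (by have := hexp K2 (by linarith) hK2; linarith))
      linarith
    · have ha3 : -w.im ≤ 3 := by linarith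
      have ht : 2 * Real.pi * Real.exp (K1 / lam) ≤ |w.re| := by
        have h1 := norm_le_abs_re_add_abs_im w
        rw [abs_of_neg hw] at h1
        have := hexp K1 (by linarith) hK1
        linarith
      have hlt := norm_lt_of_mono hl (t := w.re) (a := -w.im) (by linarith) ha3 ?_
      · have e1 : ((6 + -w.im : ℝ) : ℂ) + w.re * I = s := by
          apply Complex.ext
          · simp [hs]
          · simp [hs]
        have e2 : ((6 - -w.im : ℝ) : ℂ) + w.re * I = (starRingEnd ℂ) (12 - s) := by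
          apply Complex.ext
          · simp [hs]
            ring
          · simp [hs]
        rw [e1, e2, Ah_conj, norm_conj] at hlt
        linarith
      · intro σ h3 h9'
        have hre : ((σ : ℂ) + w.re * I).re = σ := by simp
        refine hA lam hl hl1 _ (by rw [hre]; exact h3) (by rw [hre]; exact h9') (xx_ge ?_)
        have h1 := abs_im_le_norm ((σ : ℂ) + w.re * I)
        have h2 : ((σ : ℂ) + w.re * I).im = w.re := by simp
        rw [h2] at h1
        linarith
  have heven : XiHeat lam (-z) = XiHeat lam z := by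
    rw [XiHeat_eq hl, XiHeat_eq hl, mul_neg, sub_neg_eq_add, ← sub_eq_add_neg, add_comm]
  have him : z.im = 0 := by
    rcases lt_trichotomy z.im 0 with h | h | h
    · exact absurd hz (key z h hzn)
    · exact h
    · refine absurd (heven.trans hz) (key (-z) ?_ ?_)
      · rw [neg_im]
        linarith
      · rw [norm_neg]
        exact hzn
  refine ⟨him, ?_⟩
  have hzr : z = (z.re : ℂ) := by
    apply Complex.ext
    · simp
    · simp [him]
  set s : ℂ := 6 + I * z with hs
  have hconj : 6 - I * z = (starRingEnd ℂ) s := by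
    rw [hs, map_add, map_mul, conj_I, map_ofNat]
    have : (starRingEnd ℂ) z = z := by
      rw [hzr, conj_ofReal]
    rw [this]
    ring
  have hsre : s.re = 6 := by simp [hs, him]
  have hsim : s.im = z.re := by simp [hs]
  have hx : K1 / lam ≤ xx s := by
    apply xx_ge
    have h1 := abs_im_le_norm s
    have h2 := norm_le_abs_re_add_abs_im z
    rw [him, abs_zero, add_zero] at h2
    rw [hsim] at h1
    have := hexp K1 (by linarith) hK1
    linarith
  obtain ⟨hne, hp⟩ := hA lam hl hl1 s (by linarith) (by linarith) hx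
  rw [(XiHeat_hasDerivAt hl z).deriv, ← hs, hconj, Ah_deriv_conj]
  rw [XiHeat_eq hl, ← hs, hconj, Ah_conj] at hz
  have hre0 : (Ah lam s).re = 0 := by
    have := congrArg Complex.re hz
    simp only [add_re, conj_re, zero_re] at this
    linarith
  intro h0
  have him0 : (deriv (Ah lam) s).im = 0 := by
    have := congrArg Complex.re h0
    simp only [sub_re, mul_re, I_re, I_im, conj_re, conj_im, zero_re] at this
    linarith
  have h1 : (deriv (Ah lam) s / Ah lam s).re = 0 := by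
    rw [div_re, hre0, him0]
    simp
  linarith

lemma XiHeat_zero (z : ℂ) : XiHeat 0 z = mellin (fun y : ℝ => ((delta y : ℝ) : ℂ)) (6 + I * z) := by
  rw [mellin_eq_LT]
  unfold XiHeat Lam LT
  refine integral_congr_ae (ae_of_all _ fun u => ?_)
  simp only [zero_mul, Real.exp_zero, mul_one]
  congr 2
  ring

end Pool.Agent.Helper36.XD
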