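import Pool.Agent.Helper36.M1

/-!
# Second moment of the error term of the window inequality
-/

set_option autoImplicit false

namespace Pool.Agent.Helper36

open Filter Topology MeasureTheory Set
open Pool.Agent.Q97.UM Pool.Agent.Q210.UM Pool.Agent.Q222.UM

lemma czp_int (hZ : S_ZF2) (p : ℕ) (X r α : ℝ) {a b : ℝ} (hab : a ≤ b) :
    IntervalIntegrable (fun t => cz (t + X) r α ^ p) volume a b := by
  classical
  set R : ℝ := |a| + |b| + |X| + r with hR
  set g : ℝ → ℝ := fun t => ∑ ρ ∈ (hZ.1 0 R).toFinset.filter (fun ρ => α ≤ |ρ.re - 1 / 2|),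
      ({t : ℝ | |ρ.im - t| ≤ r}).indicator (fun _ => (analyticOrderNatAt riemannZeta ρ : ℝ)) (t + X)
    with hg
  have hmeas : Measurable g := by
    refine Finset.measurable_sum _ fun ρ _ => ?_
    have h1 : MeasurableSet {t : ℝ | |ρ.im - t| ≤ r} := by
      apply IsClosed.measurableSet
      exact isClosed_le (by fun_prop) continuous_const
    exact (measurable_const.indicator h1).comp (measurable_id.add_const X)
  have h0 : ∀ s, 0 ≤ g s := fun s => Finset.sum_nonneg fun ρ _ =>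
    indicator_nonneg (fun _ _ => Nat.cast_nonneg _) _
  have hM : ∀ s, a ≤ s → s ≤ b → g s ≤
      ∑ ρ ∈ (hZ.1 0 R).toFinset.filter (fun ρ => α ≤ |ρ.re - 1 / 2|),
        (analyticOrderNatAt riemannZeta ρ : ℝ) := fun s _ _ =>
    Finset.sum_le_sum fun ρ _ => indicator_le_self' (fun _ _ => Nat.cast_nonneg _) _
  have h1 := gint (hmeas.pow_const p) hab (fun s => pow_nonneg (h0 s) p)
    (fun s h1 h2 => pow_le_pow_left₀ (h0 s) (hM s h1 h2) p) (V := fun _ => 1) continuous_const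
    (fun _ => zero_le_one)
  refine h1.congr fun s hs => ?_
  rw [uIoc_of_le hab] at hs
  simp only [hg, mul_one]
  rw [cz_fix hZ (R := R)]
  have h2 : |s| ≤ |a| + |b| := by
    rw [abs_le]
    have := neg_abs_le a
    have := le_abs_self b
    have := abs_nonneg a
    have := abs_nonneg b
    constructor <;> linarith [hs.1, hs.2]
  have h3 := abs_add_le s X
  rw [hR]
  linarith

/-- the count is a natural number -/
lemma cz_nat (hZ : S_ZF2) (t r α : ℝ) : ∃ n : ℕ, cz t r α = n := by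
  classical
  refine ⟨∑ ρ ∈ (hZ.1 t r).toFinset, (if α ≤ |ρ.re - 1 / 2| then analyticOrderNatAt riemannZeta ρ
      else 0), ?_⟩
  rw [cz_eq hZ]
  push_cast
  rfl

lemma cz_pow_le (hZ : S_ZF2) (t r α : ℝ) {p q : ℕ} (hp : 1 ≤ p) (hpq : p ≤ q) :
    cz t r α ^ p ≤ cz t r α ^ q := by
  obtain ⟨n, hn⟩ := cz_nat hZ t r α
  rw [hn]
  rcases Nat.eq_zero_or_pos n with h | h
  · subst h
    rw [Nat.cast_zero, zero_pow (by omega), zero_pow (by omega)]
  · exact pow_le_pow_right₀ (by exact_mod_cast h) hpq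

/-- sum over the cells -/
lemma sumPB {c : ℝ} (hc : 0 < c) {K : ℕ} (hK0 : 0 < K) (hKc : 8 / c ≤ K) {δ : ℝ}
    (hδc : δ ≤ c / 100) {H : ℝ} (hH : 1 ≤ H) (M : ℤ) (J : ℕ) :
    ∑ j ∈ Finset.range J, Real.exp (-(c * j)) * ∑ n ∈ Finset.Icc (-M) M, PB δ H K n j ≤
      (64 * (∑' m : ℤ, 1 / (1 + |(m : ℝ)|) ^ 2) + 5) * (Real.exp c * (2 / c)) := by
  set Z₀ : ℝ := ∑' m : ℤ, 1 / (1 + |(m : ℝ)|) ^ 2 with hZ₀
  have hZ₀0 : 0 ≤ Z₀ := tsum_nonneg fun m => by positivity
  have hK0' : (0 : ℝ) < K := by exact_mod_cast hK0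
  have h5 : ∀ j ∈ Finset.range J, Real.exp (-(c * j)) * ∑ n ∈ Finset.Icc (-M) M, PB δ H K n j ≤
      (64 * Z₀ + 5) * Real.exp (c / 2) * Real.exp (-(c / 2)) ^ j := by
    intro j _
    have h6 := sum_PB (δ := δ) hH K j M
    have h7 : Real.exp (3 * δ * (j + 1)) *
        ((1 + Real.exp (2 * (j + 1) / K)) * (32 * Z₀) + 5) ≤
        (64 * Z₀ + 5) * Real.exp (c / 2 * (j + 1)) := by
      have hj0 : (0 : ℝ) ≤ (j : ℝ) + 1 := by positivity
      have h8 : 2 * ((j : ℝ) + 1) / K ≤ c / 4 * (j + 1) := by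
        rw [div_le_iff₀ hK0']
        have h9 : 8 ≤ K * c := by
          rw [div_le_iff₀ hc] at hKc
          exact hKc
        nlinarith
      have h9 : 1 + Real.exp (2 * ((j : ℝ) + 1) / K) ≤ 2 * Real.exp (c / 4 * (j + 1)) := by
        have h10 : Real.exp (2 * ((j : ℝ) + 1) / K) ≤ Real.exp (c / 4 * (j + 1)) :=
          Real.exp_le_exp.2 h8
        have h11 : 1 ≤ Real.exp (c / 4 * ((j : ℝ) + 1)) := Real.one_le_exp (by positivity)
        linarith
      have h10 : 1 ≤ Real.exp (c / 4 * ((j : ℝ) + 1)) := Real.one_le_exp (by positivity)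
      have h11 : (1 + Real.exp (2 * ((j : ℝ) + 1) / K)) * (32 * Z₀) + 5 ≤
          (64 * Z₀ + 5) * Real.exp (c / 4 * (j + 1)) := by
        have := mul_le_mul_of_nonneg_right h9 (by positivity : (0 : ℝ) ≤ 32 * Z₀)
        nlinarith
      have h12 : Real.exp (3 * δ * ((j : ℝ) + 1)) ≤ Real.exp (c / 4 * (j + 1)) := by
        apply Real.exp_le_exp.2
        nlinarith
      calc Real.exp (3 * δ * (j + 1)) * ((1 + Real.exp (2 * (j + 1) / K)) * (32 * Z₀) + 5)
          ≤ Real.exp (c / 4 * (j + 1)) * ((64 * Z₀ + 5) * Real.exp (c / 4 * (j + 1))) :=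
            mul_le_mul h12 h11 (by positivity) (Real.exp_pos _).le
        _ = (64 * Z₀ + 5) * Real.exp (c / 2 * (j + 1)) := by
            have : c / 2 * ((j : ℝ) + 1) = c / 4 * (j + 1) + c / 4 * (j + 1) := by ring
            rw [this, Real.exp_add]
            ring
    calc Real.exp (-(c * j)) * ∑ n ∈ Finset.Icc (-M) M, PB δ H K n j
        ≤ Real.exp (-(c * j)) * ((64 * Z₀ + 5) * Real.exp (c / 2 * (j + 1))) :=
          mul_le_mul_of_nonneg_left (h6.trans h7) (Real.exp_pos _).le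
      _ = (64 * Z₀ + 5) * Real.exp (c / 2) * Real.exp (-(c / 2)) ^ j := by
          rw [← Real.exp_nat_mul]
          have : Real.exp (-(c * j)) * ((64 * Z₀ + 5) * Real.exp (c / 2 * (j + 1))) =
              (64 * Z₀ + 5) * (Real.exp (-(c * j)) * Real.exp (c / 2 * (j + 1))) := by ring
          rw [this, ← Real.exp_add, mul_assoc (64 * Z₀ + 5), ← Real.exp_add]
          congr 2
          ring
  refine (Finset.sum_le_sum h5).trans ?_
  rw [← Finset.mul_sum]
  have h7 : Real.exp (-(c / 2)) < 1 := by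
    rw [Real.exp_lt_one_iff]
    linarith
  have h8 : 0 < Real.exp (-(c / 2)) := Real.exp_pos _
  have h9 : ∑ j ∈ Finset.range J, Real.exp (-(c / 2)) ^ j ≤ (1 - Real.exp (-(c / 2)))⁻¹ := by
    rw [← tsum_geometric_of_lt_one h8.le h7]
    exact (summable_geometric_of_lt_one h8.le h7).sum_le_tsum _ (fun i _ => by positivity)
  have h10 : (1 - Real.exp (-(c / 2)))⁻¹ ≤ Real.exp (c / 2) * (2 / c) := by
    rw [inv_eq_one_div, div_le_iff₀ (by linarith)]
    have h11 : c / 2 + 1 ≤ Real.exp (c / 2) := Real.add_one_le_exp (c / 2)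
    have h12 : Real.exp (-(c / 2)) * Real.exp (c / 2) = 1 := by
      rw [← Real.exp_add]
      simp
    have h13 : Real.exp (c / 2) * (2 / c) * (1 - Real.exp (-(c / 2))) =
        (2 / c) * (Real.exp (c / 2) - Real.exp (-(c / 2)) * Real.exp (c / 2)) := by ring
    rw [h13, h12, div_mul_eq_mul_div, le_div_iff₀ hc]
    linarith
  have h11 : Real.exp c = Real.exp (c / 2) * Real.exp (c / 2) := by
    rw [← Real.exp_add]
    congr 1
    ring
  calc (64 * Z₀ + 5) * Real.exp (c / 2) * ∑ j ∈ Finset.range J, Real.exp (-(c / 2)) ^ j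
      ≤ (64 * Z₀ + 5) * Real.exp (c / 2) * (Real.exp (c / 2) * (2 / c)) :=
        mul_le_mul_of_nonneg_left (h9.trans h10) (by positivity)
    _ = _ := by
        rw [h11]
        ring

/-- weighted Cauchy inequality -/
lemma wcs {ι : Type*} (S : Finset ι) (a x w : ι → ℝ) (ha : ∀ i ∈ S, 0 ≤ a i) (hw : ∀ i ∈ S, 0 < w i) :
    (∑ i ∈ S, a i * x i) ^ 2 ≤ (∑ i ∈ S, a i * w i) * ∑ i ∈ S, a i * (w i)⁻¹ * x i ^ 2 := by
  have h := Finset.sum_mul_sq_le_sq_mul_sq S (fun i => Real.sqrt (a i * w i))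
    (fun i => Real.sqrt (a i * (w i)⁻¹) * x i)
  have e1 : ∑ i ∈ S, Real.sqrt (a i * w i) * (Real.sqrt (a i * (w i)⁻¹) * x i) =
      ∑ i ∈ S, a i * x i := by
    refine Finset.sum_congr rfl fun i hi => ?_
    have h1 := ha i hi
    have h2 := hw i hi
    rw [← mul_assoc, ← Real.sqrt_mul (by positivity)]
    have : a i * w i * (a i * (w i)⁻¹) = a i ^ 2 := by
      field_simp
    rw [this, Real.sqrt_sq h1]
  have e2 : ∑ i ∈ S, Real.sqrt (a i * w i) ^ 2 = ∑ i ∈ S, a i * w i := by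
    refine Finset.sum_congr rfl fun i hi => ?_
    have h1 := ha i hi
    have h2 := hw i hi
    exact Real.sq_sqrt (by positivity)
  have e3 : ∑ i ∈ S, (Real.sqrt (a i * (w i)⁻¹) * x i) ^ 2 = ∑ i ∈ S, a i * (w i)⁻¹ * x i ^ 2 := by
    refine Finset.sum_congr rfl fun i hi => ?_
    have h1 := ha i hi
    have h2 := hw i hi
    rw [mul_pow, Real.sq_sqrt (by positivity)]
  rw [e1, e2, e3] at h
  exact h

/-- second moment of the error term, with a constant independent of `H` -/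
theorem ERR2 : ∃ c : ℝ, 0 < c ∧ c ≤ 1 ∧ ∃ K₀ : ℕ, ∀ K : ℕ, K₀ ≤ K → ∀ δ : ℝ, 0 < δ → δ ≤ c / 200 →
    ∃ C₄ : ℝ, 0 ≤ C₄ ∧ ∀ H : ℝ, 1 ≤ H → ∀ᶠ T : ℝ in atTop, ∃ G : ℝ → ℝ,
      IntervalIntegrable G volume T (2 * T) ∧ (∀ t, 0 ≤ G t) ∧
      (∀ t, 0 ≤ ErrS δ H K T t ∧ ErrS δ H K T t ^ 2 ≤ G t) ∧ ∫ t in T..(2 * T), G t ≤ C₄ * T := by
  have hZ : S_ZF2 := Pool.Agent.Q178.UM.ZF2.t_ZF2
  obtain ⟨c, C₂, hc, hc1, hC₂, hE⟩ := M4
  set c' : ℝ := c / 2 with hc'
  have hc'0 : 0 < c' := by positivity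
  set Z₀ : ℝ := ∑' m : ℤ, 1 / (1 + |(m : ℝ)|) ^ 2 with hZ₀
  have hZ₀0 : 0 ≤ Z₀ := tsum_nonneg fun m => by positivity
  obtain ⟨Cn, hCn, hcr⟩ := H370.NN_crude H370.good_zeta
  refine ⟨c, hc, hc1, ⌈8 / c'⌉₊ + 16, fun K hK δ hδ hδc => ?_⟩
  have hK16 : 16 ≤ K := by omega
  have hKc : 8 / c' ≤ K := by
    have h1 := Nat.le_ceil (8 / c')
    have h2 : ((⌈8 / c'⌉₊ : ℕ) : ℝ) ≤ K := by
      have : ⌈8 / c'⌉₊ ≤ K := by omega
      exact_mod_cast this
    linarith
  have hδ1 : δ ≤ 1 / 100 := by linarith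
  have hδc' : δ ≤ c' / 100 := by rw [hc']; linarith
  set D : ℝ := (64 * Z₀ + 5) * (Real.exp c' * (2 / c')) with hDdef
  have hD0 : 0 ≤ D := by positivity
  refine ⟨2 * D ^ 2 * C₂ + 2, by positivity, fun H hH => ?_⟩
  have e1 : ∀ᶠ T : ℝ in atTop, Cn * (T * Real.log T) ≤ T ^ 2 := by
    have h1 := Real.isLittleO_log_id_atTop.bound (by positivity : (0 : ℝ) < 1 / (Cn + 1))
    filter_upwards [h1, eventually_ge_atTop (1 : ℝ)] with T h2 h3
    have h4 : 0 ≤ Real.log T := Real.log_nonneg h3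
    simp only [id, Real.norm_eq_abs] at h2
    rw [abs_of_nonneg h4, abs_of_nonneg (by linarith : 0 ≤ T)] at h2
    have h5 : (Cn + 1) * Real.log T ≤ T := by
      calc (Cn + 1) * Real.log T ≤ (Cn + 1) * (1 / (Cn + 1) * T) :=
            mul_le_mul_of_nonneg_left h2 (by linarith)
        _ = T := by field_simp
    nlinarith
  filter_upwards [hE, e1, eventually_ge_atTop (4 * H ^ 2), eventually_ge_atTop (1024 : ℝ)]
    with T hE1 hT1 hTH hT
  have hT0 : 0 < T := by linarith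
  set L : ℝ := Real.log T with hL
  have hL1 : 1 ≤ L := by
    rw [hL, Real.le_log_iff_exp_le hT0]
    have := Real.exp_one_lt_d9
    linarith
  have hL0 : 0 < L := by linarith
  have hcount : ∑ s ∈ ZT T, (mz s : ℝ) ≤ T ^ 2 := by
    have h1 := hcr T (by linarith) (T + 1) (2 * T - 1) (by linarith) (by linarith)
    rw [H370.NN_eq H370.good_zeta (by linarith : (1 : ℝ) ≤ T + 1)] at h1
    push_cast at h1
    exact h1.trans hT1
  set M : ℤ := ⌈Real.sqrt T⌉ + 1 with hM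
  set J : ℕ := ⌈L⌉₊ + 1 with hJ
  set P : Finset (ℤ × ℕ) := Finset.Icc (-M) M ×ˢ Finset.range J with hP
  set x : ℤ × ℕ → ℝ → ℝ := fun q t => cz (t + q.1 / L) (1 / L) (q.2 / L) with hx
  have hpt : ∀ t, ErrS δ H K T t ≤ (∑ q ∈ P, PB δ H K q.1 q.2 * x q t) + 1 := fun t => by
    have := ErrS_le hZ hδ hδ1 hH hK16 (by linarith) hTH hcount t
    rw [hP, Finset.sum_product]
    exact this
  have hE0 : ∀ t, 0 ≤ ErrS δ H K T t := fun t => Finset.sum_nonneg fun s _ =>
    mul_nonneg (Nat.cast_nonneg _) (Pool.Agent.Q222.UM.Psi_nonneg hH K _ _)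
  have hMT : ∀ n ∈ Finset.Icc (-M) M, |((n : ℝ) / L)| ≤ T / 8 := by
    intro n hn
    rw [Finset.mem_Icc] at hn
    have h1 : (M : ℝ) ≤ T / 8 := by
      rw [hM]
      push_cast
      have h2 := Int.ceil_lt_add_one (Real.sqrt T)
      have h3 : Real.sqrt T ≤ T / 32 := by
        rw [Real.sqrt_le_left (by positivity)]
        nlinarith
      linarith
    have h2 : |(n : ℝ)| ≤ M := by
      rw [abs_le]
      have h3 : ((-M : ℤ) : ℝ) ≤ n := by exact_mod_cast hn.1
      have h4 : (n : ℝ) ≤ M := by exact_mod_cast hn.2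
      push_cast at h3
      exact ⟨h3, h4⟩
    rw [abs_div, abs_of_pos hL0, div_le_iff₀ hL0]
    nlinarith
  have hS : ∑ q ∈ P, PB δ H K q.1 q.2 * Real.exp (-(c' * q.2)) ≤ D := by
    have h1 := sumPB hc'0 (by omega : 0 < K) hKc hδc' hH M J
    rw [hP, Finset.sum_product_right]
    refine le_trans (le_of_eq ?_) h1
    refine Finset.sum_congr rfl fun j _ => ?_
    rw [Finset.mul_sum]
    refine Finset.sum_congr rfl fun n _ => ?_
    ring
  have hint : ∀ q : ℤ × ℕ, IntervalIntegrable (fun t => x q t ^ 2) volume T (2 * T) := fun q =>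
    czp_int hZ 2 _ _ _ (by linarith)
  have hint2 : ∀ q ∈ P, IntervalIntegrable (fun t => PB δ H K q.1 q.2 * (Real.exp (-(c' * q.2)))⁻¹ *
      x q t ^ 2) volume T (2 * T) := fun q _ => (hint q).const_mul _
  have hint3 : IntervalIntegrable (fun t => ∑ q ∈ P, PB δ H K q.1 q.2 *
      (Real.exp (-(c' * q.2)))⁻¹ * x q t ^ 2) volume T (2 * T) := by
    have := IntervalIntegrable.sum P hint2
    refine this.congr fun s _ => ?_
    simp [Finset.sum_apply]
  have hnn : ∀ t, 0 ≤ ∑ q ∈ P, PB δ H K q.1 q.2 * (Real.exp (-(c' * q.2)))⁻¹ * x q t ^ 2 := fun t =>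
    Finset.sum_nonneg fun q _ => mul_nonneg (mul_nonneg (PB_nonneg hH K _ _) (by positivity))
      (sq_nonneg _)
  refine ⟨fun t => 2 * D * (∑ q ∈ P, PB δ H K q.1 q.2 * (Real.exp (-(c' * q.2)))⁻¹ * x q t ^ 2) + 2,
    (hint3.const_mul _).add intervalIntegrable_const, fun t => ?_, fun t => ⟨hE0 t, ?_⟩, ?_⟩
  · have := hnn t
    positivity
  · have h1 := hpt t
    have h2 : 0 ≤ ∑ q ∈ P, PB δ H K q.1 q.2 * x q t := Finset.sum_nonneg fun q _ =>
      mul_nonneg (PB_nonneg hH K _ _) (cz_nonneg hZ _ _ _)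
    have h3 := pow_le_pow_left₀ (hE0 t) h1 2
    have h4 := wcs P (fun q => PB δ H K q.1 q.2) (fun q => x q t) (fun q => Real.exp (-(c' * q.2)))
      (fun q _ => PB_nonneg hH K _ _) (fun q _ => Real.exp_pos _)
    have h5 : (∑ q ∈ P, PB δ H K q.1 q.2 * x q t) ^ 2 ≤
        D * ∑ q ∈ P, PB δ H K q.1 q.2 * (Real.exp (-(c' * q.2)))⁻¹ * x q t ^ 2 :=
      h4.trans (mul_le_mul_of_nonneg_right hS (hnn t))
    nlinarith [sq_nonneg ((∑ q ∈ P, PB δ H K q.1 q.2 * x q t) - 1)]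
  · have h1 : ∀ q ∈ P, ∫ t in T..(2 * T), x q t ^ 2 ≤ C₂ * Real.exp (-(c * q.2)) * T := by
      intro q hq
      rw [hP, Finset.mem_product] at hq
      refine le_trans ?_ (hE1 (q.1 / L) q.2 (hMT q.1 hq.1) (Nat.cast_nonneg _))
      refine intervalIntegral.integral_mono_on (by linarith) (hint q)
        (czp_int hZ 4 _ _ _ (by linarith)) fun t _ => ?_
      exact cz_pow_le hZ _ _ _ (by norm_num) (by norm_num)
    rw [intervalIntegral.integral_add (hint3.const_mul _) intervalIntegrable_const,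
      intervalIntegral.integral_const_mul, intervalIntegral.integral_finsetSum hint2,
      intervalIntegral.integral_const, smul_eq_mul]
    have h2 : ∑ q ∈ P, ∫ t in T..(2 * T), PB δ H K q.1 q.2 * (Real.exp (-(c' * q.2)))⁻¹ * x q t ^ 2 ≤
        C₂ * T * D := by
      calc ∑ q ∈ P, ∫ t in T..(2 * T), PB δ H K q.1 q.2 * (Real.exp (-(c' * q.2)))⁻¹ * x q t ^ 2
          ≤ ∑ q ∈ P, C₂ * T * (PB δ H K q.1 q.2 * Real.exp (-(c' * q.2))) := by
            refine Finset.sum_le_sum fun q hq => ?_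
            rw [intervalIntegral.integral_const_mul]
            have h3 : 0 ≤ PB δ H K q.1 q.2 * (Real.exp (-(c' * q.2)))⁻¹ :=
              mul_nonneg (PB_nonneg hH K _ _) (by positivity)
            refine (mul_le_mul_of_nonneg_left (h1 q hq) h3).trans (le_of_eq ?_)
            have h4 : (Real.exp (-(c' * q.2)))⁻¹ * Real.exp (-(c * q.2)) =
                Real.exp (-(c' * q.2)) := by
              rw [← Real.exp_neg, ← Real.exp_add]
              congr 1
              rw [hc']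
              ring
            calc PB δ H K q.1 q.2 * (Real.exp (-(c' * q.2)))⁻¹ * (C₂ * Real.exp (-(c * q.2)) * T)
                = C₂ * T * (PB δ H K q.1 q.2 * ((Real.exp (-(c' * q.2)))⁻¹ *
                  Real.exp (-(c * q.2)))) := by ring
              _ = _ := by rw [h4]
        _ = C₂ * T * ∑ q ∈ P, PB δ H K q.1 q.2 * Real.exp (-(c' * q.2)) := by
            rw [Finset.mul_sum]
        _ ≤ C₂ * T * D := mul_le_mul_of_nonneg_left hS (by positivity)
    have h3 := mul_le_mul_of_nonneg_left h2 (show (0 : ℝ) ≤ 2 * D by positivity)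
    have h4 : 2 * D * (C₂ * T * D) = 2 * D ^ 2 * C₂ * T := by ring
    linarith

end Pool.Agent.Helper36
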