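import Pool.Agent.Helper36.M2
import Pool.Graph.R_pool_sql_team_seeded_3997aac3.Q97.UM.Base4

/-!
# The number variance of the zeros in windows of length `2H / log T` is `o(H)`
-/

set_option autoImplicit false

namespace Pool.Agent.Helper36

open Filter Topology MeasureTheory Set Complex
open scoped ComplexConjugate
open Pool.Agent.Q97.UM Pool.Agent.Q150.UM

/-- pointwise comparison of the smooth window count with its mean value -/
lemma zt_ptw {δ H C : ℝ} {K : ℕ} {w : ℝ → ℝ} (hδ : 0 < δ) (hδ1 : δ ≤ 1 / 16) (hH : 1 ≤ H) (hC : 1 ≤ C)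
    (hK : 2 ≤ K) (hw : OmW δ H C K w) : ∃ D : ℝ, 0 ≤ D ∧ ∀ᶠ T : ℝ in atTop,
      Continuous (fun t => ‖PL w (Real.log T) 0 t‖) ∧
      ∀ t : ℝ, T + 2 * Real.log T ≤ t → t ≤ 2 * T - 2 * Real.log T →
        |(Zt w T 0 t).re - qh w 0| ≤ 2 * ‖PL w (Real.log T) 0 t‖ + D / Real.log T := by
  obtain ⟨D, hD, hQB⟩ := qb_of Pool.Agent.Q176.UM.t_QH Pool.Agent.Q247.UM.t_QLF hδ (by linarith) hH hC hK hw
  obtain ⟨D', hD', hE⟩ := b_EFL δ H C K w hδ (by linarith) hH hC hK hw
  refine ⟨D + D', by positivity, ?_⟩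
  filter_upwards [hE, ev_log 1, eventually_ge_atTop (1 : ℝ)] with T hE hL1 hT1
  set L := Real.log T with hL
  have hL0 : 0 < L := by linarith
  have hQ := hQB L hL1
  refine ⟨(PL_cont hQ (by linarith) (by positivity) hL0 0).norm, fun t ht1 ht2 => ?_⟩
  have h2 := hE 0 t le_rfl (by
    have : 0 ≤ (1 - 2 * δ) * L := mul_nonneg (by linarith) hL0.le
    exact this) ht1 ht2
  have e1 : cexp (-(I * ((0 : ℝ) : ℂ) * t)) = 1 := by simp
  rw [e1, one_mul, neg_zero] at h2
  have h3 := (Complex.abs_re_le_norm _).trans h2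
  have e2 : (Zt w T 0 t - ((QL w L 0 : ℂ) - PL w L 0 t - conj (PL w L 0 t))).re =
      (Zt w T 0 t).re - QL w L 0 + 2 * (PL w L 0 t).re := by
    simp only [Complex.sub_re, Complex.ofReal_re, Complex.conj_re]
    ring
  rw [e2] at h3
  have h4 := hQ.zero
  have h5 := Complex.abs_re_le_norm (PL w L 0 t)
  have e3 : (Zt w T 0 t).re - qh w 0 = ((Zt w T 0 t).re - QL w L 0 + 2 * (PL w L 0 t).re) + (QL w L 0 - qh w 0) -
      2 * (PL w L 0 t).re := by ring
  have e4 : (D + D') / L = D' / L + D / L := by ring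
  rw [e3, e4]
  refine (abs_sub _ _).trans ?_
  have h6 := abs_add_le ((Zt w T 0 t).re - QL w L 0 + 2 * (PL w L 0 t).re) (QL w L 0 - qh w 0)
  have h7 : |2 * (PL w L 0 t).re| = 2 * |(PL w L 0 t).re| := by rw [abs_mul, abs_two]
  rw [h7]
  linarith

/-- **the number variance is `o(H)`** -/
theorem VAR (ε : ℝ) (hε : 0 < ε) : ∃ H₀ : ℝ, 1 ≤ H₀ ∧ ∀ H : ℝ, H₀ ≤ H → ∀ᶠ T : ℝ in atTop,
    ∀ F : ℝ → ℝ, IntervalIntegrable F volume (T + 2 * Real.log T) (2 * T - 2 * Real.log T) →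
    (∀ t, F t ≤ (Nw T (H / Real.log T) t - H / Real.pi) ^ 2) →
    ∫ t in (T + 2 * Real.log T)..(2 * T - 2 * Real.log T), F t ≤ ε * H * T := by
  obtain ⟨c, hc, hc1, K₀, hERR⟩ := ERR2
  obtain ⟨C₀, hC₀, hPU⟩ := b_PU
  obtain ⟨lam, g, R, hlam, hlam1, hg, hR, hKS, -⟩ := Pool.Agent.Q222.UM.t_MTW 1 one_pos
  set K : ℕ := max K₀ 2 with hK
  have hK2 : 2 ≤ K := le_max_right _ _
  -- parameters
  set κ : ℝ := min (min (c / 200) (1 / 16)) (ε / (200 * C₀)) with hκ
  have hκ0 : 0 < κ := by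
    rw [hκ]
    positivity
  have hκ1 : κ ≤ c / 200 := (min_le_left _ _).trans (min_le_left _ _)
  have hκ2 : κ ≤ 1 / 16 := (min_le_left _ _).trans (min_le_right _ _)
  have hκ3 : κ ≤ ε / (200 * C₀) := min_le_right _ _
  obtain ⟨C₄, hC₄, hERR⟩ := hERR K (le_max_left _ _) κ hκ0 hκ1
  obtain ⟨C, hC, hOM⟩ := Pool.Agent.Q247.UM.t_OMEX K κ hκ0 (by linarith)
  set B : ℝ := 3 * (100 * C ^ 2) ^ 2 * C₄ + 12 * (2 * κ * C₀ * (4 * C ^ 4) + 1) + 3 * (4 * C ^ 2 + 1) ^ 2 with hB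
  have hB0 : 0 ≤ B := by positivity
  refine ⟨max 1 (2 * B / ε), le_max_left _ _, fun H hH => ?_⟩
  have hH1 : 1 ≤ H := (le_max_left _ _).trans hH
  have hH2 : 2 * B / ε ≤ H := (le_max_right _ _).trans hH
  obtain ⟨w, hw⟩ := hOM H hH1
  obtain ⟨D, hD, hZt⟩ := zt_ptw hκ0 hκ2 hH1 hC hK2 hw
  obtain ⟨-, -, -, -, hq0, hI2⟩ := Pool.Agent.Q176.UM.t_QH κ H C K w hκ0 (by linarith) hH1 hC hK2 hw
  have hDET := b_DET g R lam hg hR hKS hlam hlam1.le κ H C K w hκ0 (by linarith) hH1 hC hK2 hw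
  have hκ40 : κ ^ 2 ≤ 1 / 40 := by nlinarith
  have hP := hPU κ H C K w (κ ^ 2) 1 hκ0 hκ2 hH1 hC hK2 hw (by positivity) hκ40 one_pos
  filter_upwards [hERR H hH1, hZt, hDET, hP, ev_log 1, ev_log D, ev_loglin (1 / 8) (by norm_num),
    eventually_ge_atTop (1 : ℝ)] with T h1 h2 h3 h4 hL1 hLD hL3 hT1 F hFi hF
  obtain ⟨G, hG, hG0, hGE, hGI⟩ := h1
  obtain ⟨hPc, h2⟩ := h2
  set L := Real.log T with hL
  have hL0 : 0 < L := by linarith
  have hpi := Real.pi_gt_three
  set a := T + 2 * L with ha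
  set b := 2 * T - 2 * L with hb
  have hab : a ≤ b := by rw [ha, hb]; linarith
  set P : ℝ → ℝ := fun t => ‖PL w L 0 t‖ with hPdef
  -- the pointwise bound
  have hpt : ∀ t ∈ Set.Icc a b, F t ≤ 3 * (100 * C ^ 2) ^ 2 * G t + 12 * P t ^ 2 + 3 * (4 * C ^ 2 + 1) ^ 2 := by
    intro t ht
    have g1 := (h3 t ht.1 ht.2).2.2
    have g2 := h2 t ht.1 ht.2
    have g3 : |qh w 0 - H / Real.pi| ≤ 4 * C ^ 2 := by
      have : qh w 0 - H / Real.pi = (Real.pi * qh w 0 - H) / Real.pi := by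
        field_simp
      rw [this, abs_div, abs_of_pos Real.pi_pos, div_le_iff₀ Real.pi_pos]
      refine hq0.trans ?_
      nlinarith [sq_nonneg C]
    have g4 : D / L ≤ 1 := by
      rw [div_le_one hL0]
      exact hLD
    set x := 100 * C ^ 2 * ErrS κ H K T t with hx
    have hE := hGE t
    have hx0 : 0 ≤ x := by
      have := hE.1
      positivity
    have hx2 : x ^ 2 ≤ (100 * C ^ 2) ^ 2 * G t := by
      rw [hx, mul_pow]
      exact mul_le_mul_of_nonneg_left hE.2 (by positivity)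
    have g5 : |Nw T (H / L) t - H / Real.pi| ≤ x + 2 * P t + (4 * C ^ 2 + 1) := by
      have e : Nw T (H / L) t - H / Real.pi = (Nw T (H / L) t - (Zt w T 0 t).re) +
          ((Zt w T 0 t).re - qh w 0) + (qh w 0 - H / Real.pi) := by ring
      rw [e]
      refine (abs_add_le _ _).trans ?_
      have := abs_add_le (Nw T (H / L) t - (Zt w T 0 t).re) ((Zt w T 0 t).re - qh w 0)
      simp only [hPdef]
      linarith
    have g6 := sq_le_sq' (by
      have h0 : 0 ≤ P t := norm_nonneg _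
      have h9 : 0 ≤ x + 2 * P t + (4 * C ^ 2 + 1) := by positivity
      have := (abs_le.1 g5).1
      linarith) ((abs_le.1 g5).2)
    have g7 : (x + 2 * P t + (4 * C ^ 2 + 1)) ^ 2 ≤ 3 * (x ^ 2 + (2 * P t) ^ 2 + (4 * C ^ 2 + 1) ^ 2) := by
      nlinarith [sq_nonneg (x - 2 * P t), sq_nonneg (x - (4 * C ^ 2 + 1)),
        sq_nonneg (2 * P t - (4 * C ^ 2 + 1))]
    have g8 := hF t
    nlinarith
  have hGi : IntervalIntegrable G volume a b := by
    refine hG.mono_set ?_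
    rw [uIcc_of_le hab, uIcc_of_le (by linarith)]
    exact Icc_subset_Icc (by rw [ha]; linarith) (by rw [hb]; linarith)
  have hPi : IntervalIntegrable (fun t => P t ^ 2) volume a b := (hPc.pow 2).intervalIntegrable _ _
  have hGi2 : ∫ t in a..b, G t ≤ C₄ * T := by
    refine le_trans ?_ hGI
    refine intervalIntegral.integral_mono_interval (by rw [ha]; linarith) hab (by rw [hb]; linarith)
      (Eventually.of_forall fun t => hG0 t) hG
  have hPi2 : ∫ t in a..b, P t ^ 2 ≤ (C₀ * (κ + κ) * I2 w + 1) * T := by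
    have h5 := h4 1 (by
      rw [Nat.cast_one]
      exact Real.one_le_rpow hT1 (by positivity)) b1 0 a b (by linarith)
      (mul_nonneg (by nlinarith) hL0.le) (by rw [ha]; linarith) hab (by rw [hb]; linarith)
    rw [max_self, zero_div, mul_zero, zero_mul, zero_mul, sub_zero, N2_b1, mul_one,
      Real.sqrt_sq hκ0.le] at h5
    simp only [dp_b1, norm_one, one_pow, mul_one] at h5
    exact (abs_le.1 h5).2
  have hI2' : I2 w ≤ (H + 4 * C ^ 4) / 3 := by
    have h5 := (abs_le.1 hI2).2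
    have h6 : 0 ≤ I2 w := I2_nonneg w
    rw [le_div_iff₀ (by norm_num)]
    nlinarith
  calc ∫ t in a..b, F t
      ≤ ∫ t in a..b, (3 * (100 * C ^ 2) ^ 2 * G t + 12 * P t ^ 2 + 3 * (4 * C ^ 2 + 1) ^ 2) :=
        intervalIntegral.integral_mono_on hab hFi (((hGi.const_mul _).add (hPi.const_mul _)).add
          intervalIntegrable_const) hpt
    _ = 3 * (100 * C ^ 2) ^ 2 * (∫ t in a..b, G t) + 12 * (∫ t in a..b, P t ^ 2) +
          (b - a) * (3 * (4 * C ^ 2 + 1) ^ 2) := by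
        rw [intervalIntegral.integral_add ((hGi.const_mul _).add (hPi.const_mul _))
          intervalIntegrable_const, intervalIntegral.integral_add (hGi.const_mul _) (hPi.const_mul _),
          intervalIntegral.integral_const_mul, intervalIntegral.integral_const_mul,
          intervalIntegral.integral_const, smul_eq_mul]
    _ ≤ 3 * (100 * C ^ 2) ^ 2 * (C₄ * T) + 12 * ((C₀ * (κ + κ) * ((H + 4 * C ^ 4) / 3) + 1) * T) +
          T * (3 * (4 * C ^ 2 + 1) ^ 2) := by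
        have hba : b - a ≤ T := by rw [ha, hb]; linarith
        have h5 : C₀ * (κ + κ) * I2 w ≤ C₀ * (κ + κ) * ((H + 4 * C ^ 4) / 3) :=
          mul_le_mul_of_nonneg_left hI2' (by positivity)
        have h6 : ∫ t in a..b, P t ^ 2 ≤ (C₀ * (κ + κ) * ((H + 4 * C ^ 4) / 3) + 1) * T :=
          hPi2.trans (mul_le_mul_of_nonneg_right (by linarith) (by linarith))
        gcongr
    _ ≤ (8 * C₀ * κ * H + B) * T := by
        have e : 3 * (100 * C ^ 2) ^ 2 * (C₄ * T) + 12 * ((C₀ * (κ + κ) * ((H + 4 * C ^ 4) / 3) + 1) * T) +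
          T * (3 * (4 * C ^ 2 + 1) ^ 2) = (8 * C₀ * κ * H + (3 * (100 * C ^ 2) ^ 2 * C₄ +
            12 * (2 * κ * C₀ * (4 * C ^ 4) / 3 + 1) + 3 * (4 * C ^ 2 + 1) ^ 2)) * T := by ring
        rw [e]
        refine mul_le_mul_of_nonneg_right ?_ (by linarith)
        have h5 : 2 * κ * C₀ * (4 * C ^ 4) / 3 ≤ 2 * κ * C₀ * (4 * C ^ 4) := by
          have : 0 ≤ 2 * κ * C₀ * (4 * C ^ 4) := by positivity
          linarith
        rw [hB]
        linarith
    _ ≤ ε * H * T := by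
        refine mul_le_mul_of_nonneg_right ?_ (by linarith)
        have h5 : B ≤ ε / 2 * H := by
          rw [div_le_iff₀ hε] at hH2
          linarith
        have h6 : 8 * C₀ * κ * H ≤ ε / 2 * H := by
          refine mul_le_mul_of_nonneg_right ?_ (by linarith)
          rw [le_div_iff₀ (by positivity)] at hκ3
          nlinarith
        linarith

end Pool.Agent.Helper36
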