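import Mathlib

/-!
# Window counts: first and second moments over an interval
-/

set_option autoImplicit false

namespace Pool.Agent.Helper36

open Filter Topology MeasureTheory Set

/-- window count -/
noncomputable def Nr {ι : Type*} (S : Finset ι) (m x : ι → ℝ) (r t : ℝ) : ℝ :=
  ∑ s ∈ S, m s * (Icc (x s - r) (x s + r)).indicator (fun _ => (1 : ℝ)) t

/-- triangle -/
noncomputable def tri (r d : ℝ) : ℝ := max 0 (2 * r - |d|)

lemma tri_nonneg (r d : ℝ) : 0 ≤ tri r d := le_max_left _ _

lemma tri_le {r : ℝ} (hr : 0 ≤ r) (d : ℝ) : tri r d ≤ 2 * r :=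
  max_le (by linarith) (by have := abs_nonneg d; linarith)

lemma tri_far {r d : ℝ} (h : 2 * r ≤ |d|) : tri r d = 0 := by
  unfold tri
  rw [max_eq_left (by linarith)]

lemma ind_int {a b : ℝ} (hab : a ≤ b) (p q : ℝ) :
    ∫ t in a..b, (Icc p q).indicator (fun _ => (1 : ℝ)) t = max 0 (min b q - max a p) := by
  rw [intervalIntegral.integral_of_le hab, ← integral_Icc_eq_integral_Ioc,
    integral_indicator measurableSet_Icc, Measure.restrict_restrict measurableSet_Icc,
    Set.Icc_inter_Icc]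
  simp only [integral_const, smul_eq_mul, mul_one, MeasurableSet.univ, measureReal_restrict_apply,
    Set.univ_inter, Real.volume_real_Icc]
  rw [max_comm, max_comm p a, min_comm q b]

lemma ind_ii (a b p q : ℝ) : IntervalIntegrable ((Icc p q).indicator (fun _ => (1 : ℝ))) volume a b := by
  refine (intervalIntegrable_const (c := (1 : ℝ))).mono_fun ?_ ?_
  · exact (measurable_const.indicator measurableSet_Icc).aestronglyMeasurable
  · refine Eventually.of_forall fun t => ?_
    show ‖(Icc p q).indicator (fun _ => (1 : ℝ)) t‖ ≤ ‖(1 : ℝ)‖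
    by_cases h : t ∈ Icc p q
    · rw [indicator_of_mem h]
    · rw [indicator_of_notMem h]
      simp

lemma ind_mul (p q p' q' t : ℝ) : (Icc p q).indicator (fun _ => (1 : ℝ)) t *
    (Icc p' q').indicator (fun _ => (1 : ℝ)) t =
    (Icc (max p p') (min q q')).indicator (fun _ => (1 : ℝ)) t := by
  have e : Icc (max p p') (min q q') = Icc p q ∩ Icc p' q' := Set.Icc_inter_Icc.symm
  rw [e]
  by_cases h : t ∈ Icc p q <;> by_cases h' : t ∈ Icc p' q'
  · have h3 : t ∈ Icc p q ∩ Icc p' q' := ⟨h, h'⟩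
    rw [indicator_of_mem h, indicator_of_mem h', indicator_of_mem h3, mul_one]
  · have h3 : t ∉ Icc p q ∩ Icc p' q' := fun h2 => h' h2.2
    rw [indicator_of_notMem h', indicator_of_notMem h3, mul_zero]
  · have h3 : t ∉ Icc p q ∩ Icc p' q' := fun h2 => h h2.1
    rw [indicator_of_notMem h, indicator_of_notMem h3, zero_mul]
  · have h3 : t ∉ Icc p q ∩ Icc p' q' := fun h2 => h h2.1
    rw [indicator_of_notMem h, indicator_of_notMem h3, zero_mul]

variable {ι : Type*} {S : Finset ι} {m x : ι → ℝ} {r a b : ℝ}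

lemma Nr_ii (a b : ℝ) : IntervalIntegrable (Nr S m x r) volume a b := by
  have := IntervalIntegrable.sum S (f := fun s t => m s *
    (Icc (x s - r) (x s + r)).indicator (fun _ => (1 : ℝ)) t)
    (fun s _ => (ind_ii a b (x s - r) (x s + r)).const_mul (m s)) (μ := volume)
  refine this.congr fun t _ => ?_
  simp [Finset.sum_apply, Nr]

lemma Nr_sq (t : ℝ) : Nr S m x r t ^ 2 = ∑ s ∈ S, ∑ s' ∈ S, m s * m s' *
    (Icc (max (x s - r) (x s' - r)) (min (x s + r) (x s' + r))).indicator (fun _ => (1 : ℝ)) t := by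
  unfold Nr
  rw [sq, Finset.sum_mul_sum]
  refine Finset.sum_congr rfl fun s _ => Finset.sum_congr rfl fun s' _ => ?_
  rw [← ind_mul]
  ring

lemma Nr_sq_ii (a b : ℝ) : IntervalIntegrable (fun t => Nr S m x r t ^ 2) volume a b := by
  have := IntervalIntegrable.sum S (f := fun s t => ∑ s' ∈ S, m s * m s' *
    (Icc (max (x s - r) (x s' - r)) (min (x s + r) (x s' + r))).indicator (fun _ => (1 : ℝ)) t)
    (fun s _ => by
      have h := IntervalIntegrable.sum S (f := fun s' t => m s * m s' *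
        (Icc (max (x s - r) (x s' - r)) (min (x s + r) (x s' + r))).indicator (fun _ => (1 : ℝ)) t)
        (fun s' _ => (ind_ii a b _ _).const_mul _) (μ := volume)
      refine h.congr fun t _ => ?_
      simp [Finset.sum_apply]) (μ := volume)
  refine this.congr fun t _ => ?_
  rw [Nr_sq]
  simp [Finset.sum_apply]

lemma Nr_int (hab : a ≤ b) : ∫ t in a..b, Nr S m x r t =
    ∑ s ∈ S, m s * max 0 (min b (x s + r) - max a (x s - r)) := by
  unfold Nr
  rw [intervalIntegral.integral_finsetSum (fun s _ => (ind_ii a b _ _).const_mul _)]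
  refine Finset.sum_congr rfl fun s _ => ?_
  rw [intervalIntegral.integral_const_mul, ind_int hab]

lemma Nr_sq_int (hab : a ≤ b) : ∫ t in a..b, Nr S m x r t ^ 2 =
    ∑ s ∈ S, ∑ s' ∈ S, m s * m s' *
      max 0 (min b (min (x s + r) (x s' + r)) - max a (max (x s - r) (x s' - r))) := by
  simp_rw [Nr_sq]
  rw [intervalIntegral.integral_finsetSum (fun s _ => by
      have h := IntervalIntegrable.sum S (f := fun s' t => m s * m s' *
        (Icc (max (x s - r) (x s' - r)) (min (x s + r) (x s' + r))).indicator (fun _ => (1 : ℝ)) t)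
        (fun s' _ => (ind_ii a b _ _).const_mul _) (μ := volume)
      refine h.congr fun t _ => ?_
      simp [Finset.sum_apply])]
  refine Finset.sum_congr rfl fun s _ => ?_
  rw [intervalIntegral.integral_finsetSum (fun s _ => (ind_ii a b _ _).const_mul _)]
  refine Finset.sum_congr rfl fun s' _ => ?_
  rw [intervalIntegral.integral_const_mul, ind_int hab]

lemma min_sub_max (u v r : ℝ) : min (u + r) (v + r) - max (u - r) (v - r) = 2 * r - |u - v| := by
  rcases le_total u v with h | h
  · rw [min_eq_left (by linarith), max_eq_right (by linarith), abs_of_nonpos (by linarith)]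
    ring
  · rw [min_eq_right (by linarith), max_eq_left (by linarith), abs_of_nonneg (by linarith)]
    ring

lemma Nr_sq_upper (hab : a ≤ b) (hm : ∀ s, 0 ≤ m s) : ∫ t in a..b, Nr S m x r t ^ 2 ≤
    ∑ s ∈ S, ∑ s' ∈ S, m s * m s' * tri r (x s - x s') := by
  rw [Nr_sq_int hab]
  refine Finset.sum_le_sum fun s _ => Finset.sum_le_sum fun s' _ => ?_
  refine mul_le_mul_of_nonneg_left ?_ (mul_nonneg (hm s) (hm s'))
  unfold tri
  rw [← min_sub_max]
  refine max_le_max le_rfl ?_
  have h1 := min_le_right b (min (x s + r) (x s' + r))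
  have h2 := le_max_right a (max (x s - r) (x s' - r))
  linarith

lemma Nr_sq_lower (hab : a ≤ b) (hm : ∀ s, 0 ≤ m s) {S' : Finset ι} (hS : S' ⊆ S)
    (hin : ∀ s ∈ S', a + r ≤ x s ∧ x s ≤ b - r) :
    ∑ s ∈ S', ∑ s' ∈ S', m s * m s' * tri r (x s - x s') ≤ ∫ t in a..b, Nr S m x r t ^ 2 := by
  rw [Nr_sq_int hab]
  have h0 : ∀ s s', 0 ≤ m s * m s' *
      max 0 (min b (min (x s + r) (x s' + r)) - max a (max (x s - r) (x s' - r))) := fun s s' =>
    mul_nonneg (mul_nonneg (hm s) (hm s')) (le_max_left _ _)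
  refine le_trans ?_ (Finset.sum_le_sum_of_subset_of_nonneg hS fun s _ _ =>
    Finset.sum_nonneg fun s' _ => h0 s s')
  refine Finset.sum_le_sum fun s hs => ?_
  refine le_trans ?_ (Finset.sum_le_sum_of_subset_of_nonneg hS fun s' _ _ => h0 s s')
  refine Finset.sum_le_sum fun s' hs' => ?_
  refine mul_le_mul_of_nonneg_left ?_ (mul_nonneg (hm s) (hm s'))
  unfold tri
  rw [← min_sub_max]
  obtain ⟨h1, h2⟩ := hin s hs
  obtain ⟨h3, h4⟩ := hin s' hs'
  have h5 : min (x s + r) (x s' + r) ≤ b := (min_le_left _ _).trans (by linarith)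
  have h6 : a ≤ max (x s - r) (x s' - r) := le_trans (by linarith) (le_max_left _ _)
  rw [min_eq_right h5, max_eq_right h6]

lemma Nr_upper (hab : a ≤ b) (hr : 0 ≤ r) (hm : ∀ s, 0 ≤ m s) : ∫ t in a..b, Nr S m x r t ≤
    2 * r * ∑ s ∈ S, m s := by
  rw [Nr_int hab, Finset.mul_sum]
  refine Finset.sum_le_sum fun s _ => ?_
  rw [mul_comm (2 * r)]
  refine mul_le_mul_of_nonneg_left ?_ (hm s)
  refine max_le (by linarith) ?_
  have h1 := min_le_right b (x s + r)
  have h2 := le_max_right a (x s - r)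
  linarith

lemma Nr_lower (hab : a ≤ b) (hm : ∀ s, 0 ≤ m s) {S' : Finset ι} (hS : S' ⊆ S)
    (hin : ∀ s ∈ S', a + r ≤ x s ∧ x s ≤ b - r) :
    2 * r * ∑ s ∈ S', m s ≤ ∫ t in a..b, Nr S m x r t := by
  rw [Nr_int hab, Finset.mul_sum]
  refine le_trans ?_ (Finset.sum_le_sum_of_subset_of_nonneg hS fun s _ _ =>
    mul_nonneg (hm s) (le_max_left _ _))
  refine Finset.sum_le_sum fun s hs => ?_
  rw [mul_comm (2 * r)]
  refine mul_le_mul_of_nonneg_left ?_ (hm s)
  obtain ⟨h1, h2⟩ := hin s hs
  have h3 : min b (x s + r) = x s + r := min_eq_right (by linarith)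
  have h4 : max a (x s - r) = x s - r := max_eq_right (by linarith)
  rw [h3, h4]
  have h5 : 2 * r = x s + r - (x s - r) := by ring
  rw [h5]
  exact le_max_right _ _

end Pool.Agent.Helper36
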