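import Pool.Agent.Helper36.M3
import Pool.Agent.Helper36.M4a
import Pool.Graph.R_seed8.Y744.PCR.NTd

/-!
# Pair sums over dyadic blocks against triangles
-/

set_option autoImplicit false

namespace Pool.Agent.Helper36

open Filter Topology MeasureTheory Set Complex
open Pool.Agent.Y744 (QS Zb Xf sum_Zb mem_Zb)
open Pool.Agent.Q97.UM (ZT Nw)

/-- triangle of height one -/
noncomputable def tent (lam y : ℝ) : ℝ := max 0 (1 - |y| / lam)

lemma tent_nonneg (lam y : ℝ) : 0 ≤ tent lam y := le_max_left _ _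

lemma tent_le_one {lam : ℝ} (hl : 0 < lam) (y : ℝ) : tent lam y ≤ 1 :=
  max_le zero_le_one (by have : 0 ≤ |y| / lam := by positivity
                         linarith)

lemma Nw_eq (T r t : ℝ) : Nw T r t = Nr (ZT T) Pool.Agent.Y744.mz (fun s => s.im) r t := by
  classical
  unfold Nw Nr
  rw [Finset.sum_filter]
  refine Finset.sum_congr rfl fun s _ => ?_
  have h : (|s.im - t| ≤ r) ↔ t ∈ Icc (s.im - r) (s.im + r) := by
    rw [abs_le, Set.mem_Icc]
    constructor
    · rintro ⟨h1, h2⟩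
      constructor <;> linarith
    · rintro ⟨h1, h2⟩
      constructor <;> linarith
  by_cases h1 : |s.im - t| ≤ r
  · rw [if_pos h1, indicator_of_mem (h.1 h1), mul_one]
    rfl
  · rw [if_neg h1, indicator_of_notMem (fun h2 => h1 (h.2 h2)), mul_zero]

/-- counts of zeros near the ends and near a given zero -/
lemma edge_counts : ∃ C : ℝ, 0 < C ∧ ∀ᶠ T : ℝ in atTop,
    ∑ s ∈ Zb T (T + 3 * Real.log T), Pool.Agent.Y744.mz s ≤ C * Real.log T ^ 2 ∧
    ∑ s ∈ Zb (2 * T - 3 * Real.log T) (2 * T), Pool.Agent.Y744.mz s ≤ C * Real.log T ^ 2 ∧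
    (∀ y : ℝ, T ≤ y → y ≤ 2 * T → ∑ s ∈ Zb (y - 3 / 2) (y + 3 / 2), Pool.Agent.Y744.mz s ≤
      C * Real.log T ^ 2) ∧
    |∑ s ∈ Zb T (2 * T), Pool.Agent.Y744.mz s - T * Real.log T / (2 * Real.pi)| ≤ C * T := by
  obtain ⟨C, hC, h⟩ := H965SI.countShort riemannZeta H370.good_zeta
  obtain ⟨C2, hC2, h2⟩ := Pool.Agent.Y744.short_count
  refine ⟨1 + 7 * C + 4 * C2, by positivity, ?_⟩
  filter_upwards [eventually_ge_atTop (12 : ℝ), Pool.Agent.Q150.UM.ev_loglin (1 / 8) (by norm_num),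
    Pool.Agent.Q150.UM.ev_log 1, (Real.isLittleO_pow_log_id_atTop (n := 2)).bound one_pos]
    with T hT hL8 hL1 hL2
  set L := Real.log T with hL
  have hpi := Real.pi_gt_three
  have hlog2 : Real.log (2 * T) ≤ 2 * L := by
    rw [Real.log_mul (by norm_num) (by linarith)]
    have := Real.log_two_lt_d9
    linarith
  have hL2' : L ^ 2 ≤ T := by
    rw [Real.norm_eq_abs, Real.norm_eq_abs, id, abs_of_nonneg (by positivity),
      abs_of_nonneg (by linarith)] at hL2
    linarith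
  refine ⟨?_, ?_, ?_, ?_⟩
  · rw [sum_Zb (by linarith)]
    have h3 := (h T (by linarith) (3 * L) (by linarith) (by linarith) T (T + 3 * L) le_rfl
      (by linarith) (by linarith) le_rfl).1
    have h4 := (abs_le.1 h3).2
    have h5 : 3 * L * Real.log T / (2 * Real.pi) ≤ L ^ 2 := by
      rw [div_le_iff₀ (by positivity), ← hL]
      nlinarith [sq_nonneg L]
    have h6 : C * (3 * L + Real.log T ^ 2) ≤ C * (4 * L ^ 2) := by
      refine mul_le_mul_of_nonneg_left ?_ hC.le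
      rw [← hL]
      nlinarith
    nlinarith [mul_pos hC2 (pow_pos (lt_of_lt_of_le one_pos hL1) 2),
      mul_pos hC (pow_pos (lt_of_lt_of_le one_pos hL1) 2)]
  · rw [sum_Zb (by linarith)]
    have h3 := (h (2 * T - 3 * L) (by linarith) (3 * L) (by linarith) (by linarith)
      (2 * T - 3 * L) (2 * T) le_rfl (by linarith) (by linarith) (by linarith)).1
    have h4 := (abs_le.1 h3).2
    have h0 : 0 ≤ Real.log (2 * T - 3 * L) := Real.log_nonneg (by linarith)
    have h1 : Real.log (2 * T - 3 * L) ≤ 2 * L :=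
      (Real.log_le_log (by linarith) (by linarith)).trans hlog2
    have h5 : 3 * L * Real.log (2 * T - 3 * L) / (2 * Real.pi) ≤ L ^ 2 := by
      rw [div_le_iff₀ (by positivity)]
      nlinarith [sq_nonneg L]
    have h6 : C * (3 * L + Real.log (2 * T - 3 * L) ^ 2) ≤ C * (7 * L ^ 2) := by
      refine mul_le_mul_of_nonneg_left ?_ hC.le
      nlinarith
    nlinarith [mul_pos hC2 (pow_pos (lt_of_lt_of_le one_pos hL1) 2)]
  · intro y hy1 hy2
    have h3 := h2 (y - 3 / 2) (by linarith)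
    rw [show y - 3 / 2 + 3 = y + 3 / 2 by ring] at h3
    have h0 : 0 ≤ Real.log (y - 3 / 2) := Real.log_nonneg (by linarith)
    have h1 : Real.log (y - 3 / 2) ≤ 2 * L :=
      (Real.log_le_log (by linarith) (by linarith)).trans hlog2
    have h4 : Real.log (y - 3 / 2) ^ 2 ≤ 4 * L ^ 2 := by nlinarith
    have h5 := mul_le_mul_of_nonneg_left h4 hC2.le
    nlinarith [mul_pos hC (pow_pos (lt_of_lt_of_le one_pos hL1) 2), sq_nonneg L]
  · rw [sum_Zb (by linarith)]
    have h3 := (h T (by linarith) T (by linarith) le_rfl T (2 * T) le_rfl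
      (by linarith) (by linarith) (by linarith)).1
    refine h3.trans ?_
    rw [← hL]
    nlinarith

/-- removing the edge zeros from a triangle pair sum -/
lemma tri_split {ι : Type*} (Z : Finset ι) {m x : ι → ℝ} (hm : ∀ s, 0 ≤ m s) {r : ℝ} (hr : 0 ≤ r)
    (P : ι → Prop) [DecidablePred P] {D E : ℝ}
    (hD : ∀ s' ∈ Z, ∑ s ∈ Z, (if |x s - x s'| ≤ 2 * r then m s else 0) ≤ D)
    (hE : ∑ s ∈ Z.filter (fun s => ¬ P s), m s ≤ E) (hD0 : 0 ≤ D) :
    ∑ s ∈ Z, ∑ s' ∈ Z, m s * m s' * tri r (x s - x s') ≤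
      ∑ s ∈ Z.filter P, ∑ s' ∈ Z.filter P, m s * m s' * tri r (x s - x s') + 4 * r * D * E := by
  classical
  set g : ι → ι → ℝ := fun s s' => m s * m s' * tri r (x s - x s') with hg
  have hg0 : ∀ s s', 0 ≤ g s s' := fun s s' =>
    mul_nonneg (mul_nonneg (hm s) (hm s')) (tri_nonneg _ _)
  have hgs : ∀ s s', g s s' = g s' s := fun s s' => by
    simp only [hg]
    unfold tri
    rw [abs_sub_comm, mul_comm (m s)]
  have hS : Z = Z.filter P ∪ Z.filter (fun s => ¬ P s) := (Finset.filter_union_filter_not_eq P Z).symm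
  have hdis : Disjoint (Z.filter P) (Z.filter (fun s => ¬ P s)) := Finset.disjoint_filter_filter_not Z Z P
  have h1 := Pool.Agent.Y744.split_pairs hS hdis g hgs
  rw [h1]
  set A := Z.filter P with hA
  set B := Z.filter (fun s => ¬ P s) with hB
  have h2 : ∀ s' ∈ B, ∑ s ∈ Z, g s s' ≤ 2 * r * D * m s' := by
    intro s' hs'
    have hs'Z : s' ∈ Z := (Finset.mem_filter.1 hs').1
    calc ∑ s ∈ Z, g s s' ≤ ∑ s ∈ Z, 2 * r * m s' * (if |x s - x s'| ≤ 2 * r then m s else 0) := by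
          refine Finset.sum_le_sum fun s _ => ?_
          by_cases h : |x s - x s'| ≤ 2 * r
          · rw [if_pos h]
            simp only [hg]
            have := mul_le_mul_of_nonneg_left (tri_le hr (x s - x s')) (mul_nonneg (hm s) (hm s'))
            linarith
          · rw [if_neg h]
            simp only [hg]
            rw [tri_far (by linarith)]
            simp
      _ = 2 * r * m s' * ∑ s ∈ Z, (if |x s - x s'| ≤ 2 * r then m s else 0) := by rw [Finset.mul_sum]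
      _ ≤ 2 * r * m s' * D := mul_le_mul_of_nonneg_left (hD s' hs'Z)
          (mul_nonneg (by linarith) (hm s'))
      _ = _ := by ring
  have h3 : ∑ s ∈ B, ∑ s' ∈ B, g s s' + 2 * ∑ s ∈ A, ∑ s' ∈ B, g s s' ≤
      2 * ∑ s' ∈ B, ∑ s ∈ Z, g s s' := by
    have e1 : ∑ s ∈ A, ∑ s' ∈ B, g s s' = ∑ s' ∈ B, ∑ s ∈ A, g s s' := Finset.sum_comm
    have e2 : ∑ s ∈ B, ∑ s' ∈ B, g s s' = ∑ s' ∈ B, ∑ s ∈ B, g s s' := Finset.sum_comm
    have e3 : ∑ s' ∈ B, ∑ s ∈ Z, g s s' = ∑ s' ∈ B, ∑ s ∈ A, g s s' + ∑ s' ∈ B, ∑ s ∈ B, g s s' := by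
      rw [← Finset.sum_add_distrib]
      refine Finset.sum_congr rfl fun s' _ => ?_
      conv_lhs => rw [hS]
      rw [Finset.sum_union hdis]
    have e4 : 0 ≤ ∑ s' ∈ B, ∑ s ∈ B, g s s' := Finset.sum_nonneg fun s' _ =>
      Finset.sum_nonneg fun s _ => hg0 _ _
    rw [e1, e2, e3]
    linarith
  have h4 : ∑ s' ∈ B, ∑ s ∈ Z, g s s' ≤ 2 * r * D * E := by
    calc ∑ s' ∈ B, ∑ s ∈ Z, g s s' ≤ ∑ s' ∈ B, 2 * r * D * m s' := Finset.sum_le_sum h2
      _ = 2 * r * D * ∑ s' ∈ B, m s' := by rw [Finset.mul_sum]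
      _ ≤ _ := mul_le_mul_of_nonneg_left hE (by positivity)
  linarith

lemma tent_eq_tri {lam L r : ℝ} (hL : 0 < L) (hl : 0 < lam) (hr : r = Real.pi * lam / L) (d : ℝ) :
    tri r d = 2 * r * tent lam (d * L / (2 * Real.pi)) := by
  have hpi := Real.pi_pos
  have hr0 : 0 < r := by rw [hr]; positivity
  unfold tri tent
  rw [mul_max_of_nonneg _ _ (by linarith), mul_zero]
  congr 1
  rw [abs_div, abs_mul, abs_of_pos hL, abs_of_pos (by positivity : 0 < 2 * Real.pi), hr]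
  field_simp

lemma sm_a {H C lam : ℝ} (hH : 0 < H) (hC : 0 < C) (hl : 0 < lam) :
    4 * H * C ≤ 4 * H * (C + 1) * (lam + 1) := by
  have h1 : 4 * H * C ≤ 4 * H * (C + 1) := by nlinarith
  have h2 : 4 * H * (C + 1) ≤ 4 * H * (C + 1) * (lam + 1) := by
    have : 0 ≤ 4 * H * (C + 1) := by positivity
    nlinarith
  linarith

lemma sm_b {L : ℝ} (hL : 1 ≤ L) : L ^ 2 ≤ L ^ 4 := pow_le_pow_right₀ hL (by norm_num)

lemma sm_c {L : ℝ} (hL : 1 ≤ L) : L ≤ L ^ 4 := by
  have := pow_le_pow_right₀ hL (show 1 ≤ 4 by norm_num)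
  rwa [pow_one] at this

lemma sm_d {C lam : ℝ} (hC : 0 < C) (hl : 0 < lam) :
    4 * C ^ 2 ≤ 64 * (C + 1) ^ 2 * (lam + 1) := by
  have h3 : C ^ 2 ≤ (C + 1) ^ 2 := by nlinarith
  nlinarith [sq_nonneg (C + 1), mul_nonneg (sq_nonneg (C + 1)) hl.le]

lemma sm_e {C lam : ℝ} (hC : 0 < C) (hl : 0 < lam) :
    4 * lam * C ≤ 64 * (C + 1) ^ 2 * (lam + 1) := by
  have h3 : C ≤ (C + 1) ^ 2 := by nlinarith
  have h5 : lam * C ≤ (lam + 1) * (C + 1) ^ 2 := mul_le_mul (by linarith) h3 hC.le (by positivity)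
  nlinarith [mul_nonneg (show 0 ≤ lam + 1 by linarith) (sq_nonneg (C + 1))]

lemma sm_f {C lam : ℝ} (hC : 0 < C) (hl : 0 < lam) :
    4 * lam ≤ 64 * (C + 1) ^ 2 * (lam + 1) := by
  have : 1 ≤ (C + 1) ^ 2 := by nlinarith
  nlinarith [mul_nonneg (sq_nonneg (C + 1)) hl.le]

/-- **pair sums over a dyadic block against the triangle of base `2 lam`** -/
theorem BLK (ε : ℝ) (hε : 0 < ε) : ∃ lam₀ : ℝ, 1 ≤ lam₀ ∧ ∀ lam : ℝ, lam₀ ≤ lam → ∀ᶠ V : ℝ in atTop,
    |QS (Zb V (2 * V)) (Zb V (2 * V)) Pool.Agent.Y744.mz (fun s => s.im) (tent lam) (Real.log V) / Xf V -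
      lam| ≤ ε := by
  obtain ⟨H₀, hH₀, hVAR⟩ := VAR (ε / (4 * Real.pi)) (by positivity)
  obtain ⟨C, hC, hE⟩ := edge_counts
  refine ⟨H₀, hH₀, fun lam hlam => ?_⟩
  have hpi := Real.pi_gt_three
  have hl1 : 1 ≤ lam := hH₀.trans hlam
  set H : ℝ := Real.pi * lam with hH
  have hH1 : H₀ ≤ H := by rw [hH]; nlinarith
  have hH0 : 0 < H := by positivity
  -- error terms
  have ev1 := (Real.isLittleO_pow_log_id_atTop (n := 4)).bound
    (show (0 : ℝ) < ε / (64 * (C + 1) ^ 2 * (lam + 1)) / 4 by positivity)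
  have ev2 : ∀ᶠ T : ℝ in atTop, 16 * H * (C + 1) * (lam + 1) / ε ≤ Real.log T :=
    Real.tendsto_log_atTop.eventually_ge_atTop _
  filter_upwards [hVAR H hH1, hE, ev1, ev2, eventually_ge_atTop (16 : ℝ),
    Pool.Agent.Q150.UM.ev_log (2 * H + 3), Pool.Agent.Q150.UM.ev_loglin (1 / 16) (by norm_num)]
    with T hV hE hlog4 hlogH hT hL1 hL16
  obtain ⟨hE1, hE2, hE3, hE4⟩ := hE
  set L := Real.log T with hL
  have hL0 : 0 < L := by linarith
  have hT0 : 0 < T := by linarith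
  set r := H / L with hr
  have hr0 : 0 < r := by positivity
  have hr2 : 2 * r ≤ 1 := by
    rw [hr, ← mul_div_assoc, div_le_one hL0]
    linarith
  set Z := Zb T (2 * T) with hZ
  set m := Pool.Agent.Y744.mz with hm
  have hm0 : ∀ s, 0 ≤ m s := Pool.Agent.Y744.mz_nonneg
  set x : ℂ → ℝ := fun s => s.im with hx
  set a := T + 2 * L with ha
  set b := 2 * T - 2 * L with hb
  have hab : a ≤ b := by rw [ha, hb]; linarith
  set P : ℂ → Prop := fun s => a + r ≤ x s ∧ x s ≤ b - r with hP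
  classical
  set S' := Z.filter P with hS'
  have hZmem : ∀ s ∈ Z, T < s.im ∧ s.im ≤ 2 * T := by
    intro s hs
    rw [hZ, mem_Zb (by linarith)] at hs
    exact ⟨hs.2.2.1, hs.2.2.2.1⟩
  -- the subset of interior zeros
  have hS'sub : S' ⊆ ZT T := by
    intro s hs
    obtain ⟨hs1, hs2⟩ := Finset.mem_filter.1 hs
    have hs3 := hs1
    rw [hZ, mem_Zb (by linarith)] at hs3
    show s ∈ Zb (T + 1) (2 * T - 1)
    rw [mem_Zb (by linarith)]
    refine ⟨hs3.1, hs3.2.1, ?_, ?_, hs3.2.2.2.2⟩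
    · have := hs2.1
      simp only [hx, ha] at this
      linarith
    · have := hs2.2
      simp only [hx, hb] at this
      linarith
  have hZTsub : ZT T ⊆ Z := by
    intro s hs
    have hs3 : s ∈ Zb (T + 1) (2 * T - 1) := hs
    rw [mem_Zb (by linarith)] at hs3
    rw [hZ, mem_Zb (by linarith)]
    exact ⟨hs3.1, hs3.2.1, by linarith [hs3.2.2.1], by linarith [hs3.2.2.2.1], hs3.2.2.2.2⟩
  have hin : ∀ s ∈ S', a + r ≤ x s ∧ x s ≤ b - r := fun s hs => (Finset.mem_filter.1 hs).2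
  -- edge mass
  have hEdge : ∑ s ∈ Z.filter (fun s => ¬ P s), m s ≤ 2 * C * L ^ 2 := by
    have hsub : Z.filter (fun s => ¬ P s) ⊆ Zb T (T + 3 * L) ∪ Zb (2 * T - 3 * L) (2 * T) := by
      intro s hs
      obtain ⟨hs1, hs2⟩ := Finset.mem_filter.1 hs
      have hs3 := hs1
      rw [hZ, mem_Zb (by linarith)] at hs3
      rw [Finset.mem_union, mem_Zb (by linarith), mem_Zb (by linarith)]
      by_cases h : a + r ≤ x s
      · right
        have h2 : ¬ x s ≤ b - r := fun h3 => hs2 ⟨h, h3⟩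
        push Not at h2
        simp only [hx, hb] at h2
        refine ⟨hs3.1, hs3.2.1, by linarith, hs3.2.2.2.1, hs3.2.2.2.2⟩
      · left
        push Not at h
        simp only [hx, ha] at h
        refine ⟨hs3.1, hs3.2.1, hs3.2.2.1, by linarith, hs3.2.2.2.2⟩
    calc ∑ s ∈ Z.filter (fun s => ¬ P s), m s ≤
          ∑ s ∈ Zb T (T + 3 * L) ∪ Zb (2 * T - 3 * L) (2 * T), m s :=
          Finset.sum_le_sum_of_subset_of_nonneg hsub fun s _ _ => hm0 s
      _ ≤ ∑ s ∈ Zb T (T + 3 * L), m s + ∑ s ∈ Zb (2 * T - 3 * L) (2 * T), m s := by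
          rw [← Finset.sum_union_inter]
          have : 0 ≤ ∑ s ∈ Zb T (T + 3 * L) ∩ Zb (2 * T - 3 * L) (2 * T), m s :=
            Finset.sum_nonneg fun s _ => hm0 s
          linarith
      _ ≤ _ := by linarith
  have hnear : ∀ s' ∈ Z, ∑ s ∈ Z, (if |x s - x s'| ≤ 2 * r then m s else 0) ≤ C * L ^ 2 := by
    intro s' hs'
    obtain ⟨h1, h2⟩ := hZmem s' hs'
    refine le_trans ?_ (hE3 s'.im h1.le h2)
    rw [← Finset.sum_filter]
    refine Finset.sum_le_sum_of_subset_of_nonneg (fun s hs => ?_) fun s _ _ => hm0 s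
    obtain ⟨hs1, hs2⟩ := Finset.mem_filter.1 hs
    rw [hZ, mem_Zb (by linarith)] at hs1
    rw [mem_Zb (by linarith)]
    obtain ⟨h3, h4⟩ := abs_le.1 hs2
    simp only [hx] at h3 h4
    exact ⟨hs1.1, hs1.2.1, by linarith, by linarith, hs1.2.2.2.2⟩
  set W := ∑ s ∈ Z, ∑ s' ∈ Z, m s * m s' * tri r (x s - x s') with hW
  set I1 := ∫ t in a..b, Nr (ZT T) m x r t with hI1
  set I2 := ∫ t in a..b, Nr (ZT T) m x r t ^ 2 with hI2
  set MZ := ∑ s ∈ Z, m s with hMZ
  have hWup : W ≤ I2 + 4 * r * (C * L ^ 2) * (2 * C * L ^ 2) := by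
    refine (tri_split Z hm0 hr0.le P hnear hEdge (by positivity)).trans ?_
    have := Nr_sq_lower (m := m) (x := x) (r := r) hab hm0 hS'sub hin
    linarith
  have hWlo : I2 ≤ W := by
    refine (Nr_sq_upper hab hm0).trans ?_
    refine le_trans (Finset.sum_le_sum fun s _ => Finset.sum_le_sum_of_subset_of_nonneg hZTsub
      fun s' _ _ => mul_nonneg (mul_nonneg (hm0 s) (hm0 s')) (tri_nonneg _ _)) ?_
    exact Finset.sum_le_sum_of_subset_of_nonneg hZTsub fun s _ _ => Finset.sum_nonneg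
      fun s' _ => mul_nonneg (mul_nonneg (hm0 s) (hm0 s')) (tri_nonneg _ _)
  have hI1up : I1 ≤ 2 * r * MZ := by
    refine (Nr_upper hab hr0.le hm0).trans ?_
    refine mul_le_mul_of_nonneg_left ?_ (by linarith)
    exact Finset.sum_le_sum_of_subset_of_nonneg hZTsub fun s _ _ => hm0 s
  have hI1lo : 2 * r * (MZ - 2 * C * L ^ 2) ≤ I1 := by
    refine le_trans ?_ (Nr_lower (m := m) (x := x) (r := r) hab hm0 hS'sub hin)
    refine mul_le_mul_of_nonneg_left ?_ (by linarith)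
    have := Finset.sum_filter_add_sum_filter_not Z P m
    rw [← hS'] at this
    linarith
  -- the variance
  have hVar0 : ∫ t in a..b, (Nr (ZT T) m x r t - lam) ^ 2 = I2 - 2 * lam * I1 + lam ^ 2 * (b - a) := by
    have e : ∀ t, (Nr (ZT T) m x r t - lam) ^ 2 = Nr (ZT T) m x r t ^ 2 -
        2 * lam * Nr (ZT T) m x r t + lam ^ 2 := fun t => by ring
    simp_rw [e]
    rw [intervalIntegral.integral_add ((Nr_sq_ii a b).sub ((Nr_ii a b).const_mul _))
      intervalIntegrable_const, intervalIntegral.integral_sub (Nr_sq_ii a b)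
      ((Nr_ii a b).const_mul _), intervalIntegral.integral_const_mul,
      intervalIntegral.integral_const, smul_eq_mul]
    ring
  have hVpos : 0 ≤ ∫ t in a..b, (Nr (ZT T) m x r t - lam) ^ 2 :=
    intervalIntegral.integral_nonneg hab fun t _ => sq_nonneg _
  have hVle : ∫ t in a..b, (Nr (ZT T) m x r t - lam) ^ 2 ≤ ε / (4 * Real.pi) * H * T := by
    refine hV (fun t => (Nr (ZT T) m x r t - lam) ^ 2) ?_ fun t => ?_
    · have e : ∀ t, (Nr (ZT T) m x r t - lam) ^ 2 = Nr (ZT T) m x r t ^ 2 -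
          2 * lam * Nr (ZT T) m x r t + lam ^ 2 := fun t => by ring
      simp_rw [e]
      exact ((Nr_sq_ii a b).sub ((Nr_ii a b).const_mul _)).add intervalIntegrable_const
    · rw [Nw_eq]
      refine le_of_eq ?_
      congr 2
      rw [hH]
      field_simp
  rw [hVar0] at hVpos hVle
  -- the normalised pair sum
  have hX : 2 * r * Xf T = lam * T := by
    unfold Xf
    rw [← hL, hr, hH]
    field_simp
  have hQS : 2 * r * QS Z Z m x (tent lam) L = W := by
    rw [hW]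
    unfold QS
    rw [Finset.mul_sum]
    refine Finset.sum_congr rfl fun s _ => ?_
    rw [Finset.mul_sum]
    refine Finset.sum_congr rfl fun s' _ => ?_
    rw [tent_eq_tri hL0 (lt_of_lt_of_le one_pos hl1) (by rw [hr, hH]) (x s - x s')]
    ring
  have hXpos : 0 < Xf T := Pool.Agent.Y744.Xf_pos (by linarith)
  have hrT : r * T = Real.pi * lam * T / L := by rw [hr, hH]; ring
  have h2r : 2 * r * (T * L / (2 * Real.pi)) = lam * T := by
    rw [hr, hH]
    field_simp
  have hMZ1 := (abs_le.1 hE4)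
  -- small quantities
  have hs1 : 16 * H * (C + 1) * (lam + 1) ≤ ε * L := by
    rw [div_le_iff₀ hε] at hlogH
    linarith
  have hrC : 2 * lam * (2 * r * (C * T)) ≤ ε / 4 * (lam * T) := by
    rw [hr]
    have e : 2 * lam * (2 * (H / L) * (C * T)) = (4 * H * C / L) * (lam * T) := by
      ring
    rw [e]
    refine mul_le_mul_of_nonneg_right ?_ (by positivity)
    rw [div_le_iff₀ hL0]
    have hsa : 4 * H * C ≤ 4 * H * (C + 1) * (lam + 1) := sm_a hH0 hC (by linarith)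
    linarith only [hsa, hs1, hsa.trans' (show (0 : ℝ) ≤ 4 * H * C by positivity)]
  have hL4T : 64 * (C + 1) ^ 2 * (lam + 1) * L ^ 4 ≤ ε / 4 * T := by
    rw [Real.norm_eq_abs, Real.norm_eq_abs, id, abs_of_nonneg (by positivity),
      abs_of_nonneg hT0.le] at hlog4
    have h1 := mul_le_mul_of_nonneg_left hlog4 (show (0 : ℝ) ≤ 64 * (C + 1) ^ 2 * (lam + 1) by positivity)
    refine h1.trans (le_of_eq ?_)
    field_simp
  have hL24 : L ^ 2 ≤ L ^ 4 := sm_b (by linarith)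
  have hsm1 : 4 * r * (C * L ^ 2) * (2 * C * L ^ 2) ≤ ε / 4 * T := by
    refine le_trans ?_ hL4T
    have e : 4 * r * (C * L ^ 2) * (2 * C * L ^ 2) = (2 * r) * (4 * C ^ 2 * L ^ 4) := by ring
    rw [e]
    have h1 : (2 * r) * (4 * C ^ 2 * L ^ 4) ≤ 1 * (4 * C ^ 2 * L ^ 4) :=
      mul_le_mul_of_nonneg_right hr2 (by positivity)
    have h2 : 4 * C ^ 2 * L ^ 4 ≤ 64 * (C + 1) ^ 2 * (lam + 1) * L ^ 4 := by
      exact mul_le_mul_of_nonneg_right (sm_d hC (by linarith)) (by positivity)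
    linarith
  have hsm2 : 2 * lam * (2 * r * (2 * C * L ^ 2)) ≤ ε / 4 * T := by
    refine le_trans ?_ hL4T
    have e : 2 * lam * (2 * r * (2 * C * L ^ 2)) = (2 * r) * (4 * lam * C * L ^ 2) := by ring
    rw [e]
    have h1 : (2 * r) * (4 * lam * C * L ^ 2) ≤ 1 * (4 * lam * C * L ^ 2) :=
      mul_le_mul_of_nonneg_right hr2 (by positivity)
    have h2 : 4 * lam * C * L ^ 2 ≤ 64 * (C + 1) ^ 2 * (lam + 1) * L ^ 4 := by
      have h4 : 4 * lam * C ≤ 64 * (C + 1) ^ 2 * (lam + 1) := sm_e hC (by linarith)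
      exact mul_le_mul h4 hL24 (by positivity) (by positivity)
    linarith
  have hsm3 : lam ^ 2 * (4 * L) ≤ ε / 4 * (lam * T) := by
    have h1 : lam * (4 * L) ≤ ε / 4 * T := by
      refine le_trans ?_ hL4T
      have h2 : L ≤ L ^ 4 := sm_c (by linarith)
      have h4 : 4 * lam ≤ 64 * (C + 1) ^ 2 * (lam + 1) := sm_f hC (by linarith)
      calc lam * (4 * L) = 4 * lam * L := by ring
        _ ≤ 64 * (C + 1) ^ 2 * (lam + 1) * L ^ 4 := mul_le_mul h4 h2 hL0.le (by positivity)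
    have h5 := mul_le_mul_of_nonneg_left h1 (show 0 ≤ lam by linarith)
    have e1 : lam ^ 2 * (4 * L) = lam * (lam * (4 * L)) := by ring
    have e2 : ε / 4 * (lam * T) = lam * (ε / 4 * T) := by ring
    rw [e1, e2]
    exact h5
  have hba : b - a = T - 4 * L := by rw [ha, hb]; ring
  rw [hba] at hVpos hVle
  have hTl : T ≤ lam * T := le_mul_of_one_le_left hT0.le hl1
  have hMup : 2 * lam * (2 * r * MZ) ≤ 2 * lam * (lam * T) + ε / 4 * (lam * T) := by
    have h1 : 2 * r * MZ ≤ lam * T + 2 * r * (C * T) := by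
      have := mul_le_mul_of_nonneg_left (show MZ ≤ T * L / (2 * Real.pi) + C * T by linarith [hMZ1.2])
        (show 0 ≤ 2 * r by linarith)
      rw [mul_add, h2r] at this
      exact this
    have := mul_le_mul_of_nonneg_left h1 (show 0 ≤ 2 * lam by linarith)
    linarith
  have hMlo : 2 * lam * (lam * T) - ε / 4 * (lam * T) ≤ 2 * lam * (2 * r * MZ) := by
    have h1 : lam * T - 2 * r * (C * T) ≤ 2 * r * MZ := by
      have := mul_le_mul_of_nonneg_left (show T * L / (2 * Real.pi) - C * T ≤ MZ by linarith [hMZ1.1])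
        (show 0 ≤ 2 * r by linarith)
      rw [mul_sub, h2r] at this
      exact this
    have := mul_le_mul_of_nonneg_left h1 (show 0 ≤ 2 * lam by linarith)
    linarith
  have hHT : ε / (4 * Real.pi) * H * T = ε / 4 * (lam * T) := by
    rw [hH]
    field_simp
  rw [hHT] at hVle
  have hI1a := mul_le_mul_of_nonneg_left hI1up (show 0 ≤ 2 * lam by linarith)
  have hI1b := mul_le_mul_of_nonneg_left hI1lo (show 0 ≤ 2 * lam by linarith)
  have hup : W ≤ (lam + ε) * (lam * T) := by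
    have h1 : W ≤ ε / 4 * (lam * T) + 2 * lam * I1 - lam ^ 2 * (T - 4 * L) +
        4 * r * (C * L ^ 2) * (2 * C * L ^ 2) := by linarith
    have h2 : lam ^ 2 * T = lam * (lam * T) := by ring
    have h3 : ε / 4 * T ≤ ε / 4 * (lam * T) := mul_le_mul_of_nonneg_left hTl (by positivity)
    have h4 : (lam + ε) * (lam * T) = lam * (lam * T) + ε / 4 * (lam * T) + ε / 4 * (lam * T) +
      ε / 4 * (lam * T) + ε / 4 * (lam * T) := by ring
    have h5 : lam ^ 2 * (T - 4 * L) = lam ^ 2 * T - lam ^ 2 * (4 * L) := by ring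
    rw [h4]
    rw [h5, h2] at h1
    linarith
  have hlo : (lam - ε) * (lam * T) ≤ W := by
    have h1 : 2 * lam * I1 - lam ^ 2 * (T - 4 * L) ≤ W := by linarith
    have h2 : lam ^ 2 * T = lam * (lam * T) := by ring
    have h3 : ε / 4 * T ≤ ε / 4 * (lam * T) := mul_le_mul_of_nonneg_left hTl (by positivity)
    have h4 : 0 ≤ lam ^ 2 * (4 * L) := by positivity
    have h5 : lam ^ 2 * (T - 4 * L) = lam ^ 2 * T - lam ^ 2 * (4 * L) := by ring
    have h6 : (lam - ε) * (lam * T) = lam * (lam * T) - ε / 4 * (lam * T) - ε / 4 * (lam * T) -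
      ε / 4 * (lam * T) - ε / 4 * (lam * T) := by ring
    have h7 : 2 * lam * (2 * r * (MZ - 2 * C * L ^ 2)) = 2 * lam * (2 * r * MZ) -
      2 * lam * (2 * r * (2 * C * L ^ 2)) := by ring
    have h8 : 0 ≤ ε / 4 * (lam * T) := by positivity
    rw [h6]
    rw [h5, h2] at h1
    rw [h7] at hI1b
    linarith
  have hlT : 0 < lam * T := by positivity
  have hfin : QS Z Z m x (tent lam) L / Xf T = W / (lam * T) := by
    rw [← hQS, ← hX]
    field_simp
  rw [hfin, abs_le]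
  constructor
  · rw [neg_le_sub_iff_le_add, ← sub_le_iff_le_add, le_div_iff₀ hlT]
    exact hlo
  · rw [sub_le_iff_le_add, div_le_iff₀ hlT, add_comm]
    exact hup

end Pool.Agent.Helper36
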