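import Pool.Agent.Helper36.M4

/-!
# Assembly of the dyadic blocks
-/

set_option autoImplicit false

namespace Pool.Agent.Helper36

open Filter Topology MeasureTheory Set Complex
open Pool.Agent.Y744 TH803TW

/-- close pairs in a dyadic block -/
theorem PP_blk : ∃ C V1 : ℝ, 0 ≤ C ∧ ∀ V : ℝ, V1 ≤ V →
    PP1 (Zb V (2 * V)) mz (fun s => s.im) (Real.log V) ≤ C * (V * Real.log V) := by
  obtain ⟨lam, hlam, h⟩ := BLK 1 one_pos
  have h1 := h lam le_rfl
  obtain ⟨V1, hV1⟩ := (h1.and (eventually_ge_atTop (3 : ℝ))).exists_forall_of_atTop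
  refine ⟨2 * (lam + 1), V1, by positivity, fun V hV => ?_⟩
  obtain ⟨h2, h3⟩ := hV1 V hV
  have hL : 0 < Real.log V := Real.log_pos (by linarith)
  have hX : 0 < Xf V := Xf_pos (by linarith)
  have hpi := Real.pi_gt_three
  have h4 : QS (Zb V (2 * V)) (Zb V (2 * V)) mz (fun s => s.im) (tent lam) (Real.log V) ≤
      (lam + 1) * Xf V := by
    have h5 := (abs_le.1 h2).2
    rw [sub_le_iff_le_add, div_le_iff₀ hX] at h5
    linarith
  have h5 : Xf V ≤ V * Real.log V := by
    unfold Xf
    rw [div_le_iff₀ (by positivity)]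
    have : 0 < V * Real.log V := mul_pos (by linarith) hL
    nlinarith
  have h6 : PP1 (Zb V (2 * V)) mz (fun s => s.im) (Real.log V) ≤
      2 * QS (Zb V (2 * V)) (Zb V (2 * V)) mz (fun s => s.im) (tent lam) (Real.log V) := by
    unfold PP1 QS
    rw [Finset.mul_sum]
    refine Finset.sum_le_sum fun s _ => ?_
    rw [Finset.mul_sum]
    refine Finset.sum_le_sum fun s' _ => ?_
    have hm : 0 ≤ mz s * mz s' := mul_nonneg (mz_nonneg s) (mz_nonneg s')
    by_cases hd : |s.im - s'.im| ≤ 1 / Real.log V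
    · rw [if_pos hd]
      have h7 : 1 / 2 ≤ tent lam ((s.im - s'.im) * Real.log V / (2 * Real.pi)) := by
        refine le_trans ?_ (le_max_right _ _)
        have h8 : |(s.im - s'.im) * Real.log V / (2 * Real.pi)| / lam ≤ 1 / 2 := by
          rw [div_le_iff₀ (by linarith), abs_div, abs_mul, abs_of_pos hL,
            abs_of_pos (by positivity : 0 < 2 * Real.pi), div_le_iff₀ (by positivity)]
          rw [le_div_iff₀ hL] at hd
          nlinarith
        linarith
      nlinarith
    · rw [if_neg hd, mul_zero]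
      have := tent_nonneg lam ((s.im - s'.im) * Real.log V / (2 * Real.pi))
      positivity
  calc _ ≤ _ := h6
    _ ≤ 2 * ((lam + 1) * Xf V) := by linarith
    _ ≤ 2 * ((lam + 1) * (V * Real.log V)) := by
        have : 0 ≤ lam + 1 := by linarith
        gcongr
    _ = _ := by ring

/-- **local bound**, unconditionally -/
theorem PP_bound' : ∃ C B0 V0 : ℝ, 0 ≤ C ∧ 0 ≤ B0 ∧ 20 ≤ V0 ∧
    (∀ V : ℝ, V0 ≤ V → PP1 (Zb V (2 * V)) mz (fun s => s.im) (Real.log V) ≤ C * (V * Real.log V)) ∧
    (∀ T : ℝ, V0 ≤ T → ∀ Λ : ℝ, Real.log T ≤ Λ →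
      PP1 (Zt T) mz (fun s => s.im) Λ ≤ B0 + C * (T * Real.log T)) := by
  obtain ⟨C1, T1, hC1, hP⟩ := PP_blk
  obtain ⟨V1, hV1, hN⟩ := near_bound
  set V0 : ℝ := max V1 T1 with hV0
  have hV020 : 20 ≤ V0 := hV1.trans (le_max_left _ _)
  have hblk : ∀ V : ℝ, V0 ≤ V →
      PP1 (Zb V (2 * V)) mz (fun s => s.im) (Real.log V) ≤ C1 * (V * Real.log V) :=
    fun V hV => hP V ((le_max_right _ _).trans hV)
  set B0 : ℝ := (∑ s ∈ Zt (2 * V0), mz s) ^ 2 with hB0
  have hsmall : ∀ T : ℝ, T ≤ 2 * V0 → ∀ Λ : ℝ, PP1 (Zt T) mz (fun s => s.im) Λ ≤ B0 := by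
    intro T hT Λ
    refine (PP1_le_sq (Zt T) mz_nonneg Λ).trans ?_
    refine pow_le_pow_left₀ (Finset.sum_nonneg fun s _ => mz_nonneg s) ?_ 2
    refine Finset.sum_le_sum_of_subset_of_nonneg (fun s hs => ?_) fun s _ _ => mz_nonneg s
    rw [mem_Zt] at hs ⊢
    exact ⟨hs.1, hs.2.1, hs.2.2.1, hs.2.2.2.1.trans hT, hs.2.2.2.2⟩
  have hmain : ∀ n : ℕ, ∀ T : ℝ, V0 ≤ T → T ≤ 2 ^ n * (2 * V0) → ∀ Λ : ℝ, Real.log T ≤ Λ →
      PP1 (Zt T) mz (fun s => s.im) Λ ≤ B0 + (C1 + 1) * (T * Real.log T) := by
    intro n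
    induction n with
    | zero =>
      intro T hT hT2 Λ hΛ
      rw [pow_zero, one_mul] at hT2
      have h1 := hsmall T hT2 Λ
      have h2 : 0 ≤ Real.log T := Real.log_nonneg (by linarith)
      have h3 : 0 ≤ (C1 + 1) * (T * Real.log T) := by
        have : 0 ≤ T := by linarith
        positivity
      linarith
    | succ n ih =>
      intro T hT hT2 Λ hΛ
      have hlT : 0 ≤ Real.log T := Real.log_nonneg (by linarith)
      rcases le_or_gt T (2 * V0) with h | h
      · have h1 := hsmall T h Λ
        have h3 : 0 ≤ (C1 + 1) * (T * Real.log T) := by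
          have : 0 ≤ T := by linarith
          positivity
        linarith
      · set V := T / 2 with hV
        have hVV : V0 ≤ V := by linarith
        have hTV : T = 2 * V := by rw [hV]; ring
        have hlog : Real.log V ≤ Real.log T := Real.log_le_log (by linarith) (by linarith)
        have hlV1 : 1 ≤ Real.log V := by
          rw [Real.le_log_iff_exp_le (by linarith)]
          linarith [Real.exp_one_lt_d9]
        have h1 := ih V hVV (by
          rw [pow_succ] at hT2
          linarith) Λ (hlog.trans hΛ)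
        have h2 := PP1_Zt_step (V := V) (by linarith) (Λ := Λ) (by linarith)
        have h3 := (PP1_anti (x := fun s : ℂ => s.im) (Zb V (2 * V)) mz_nonneg (by linarith)
          (hlog.trans hΛ)).trans (hblk V hVV)
        have h4 := hN V ((le_max_left _ _).trans hVV)
        rw [← hTV] at h2 h3
        have h5 : V ≤ V * Real.log V := by nlinarith
        have h6 : (C1 + 1) * (V * Real.log V) ≤ (C1 + 1) * (V * Real.log T) := by
          have : 0 ≤ V := by linarith
          gcongr
        have h7 : (C1 + 1) * (T * Real.log T) = 2 * ((C1 + 1) * (V * Real.log T)) := by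
          rw [hTV]
          ring_nf
        linarith
  refine ⟨C1 + 1, B0, V0, by positivity, by positivity, hV020, fun V hV => ?_, fun T hT Λ hΛ => ?_⟩
  · refine (hblk V hV).trans ?_
    have h2 : 0 ≤ Real.log V := Real.log_nonneg (by linarith)
    have : 0 ≤ V * Real.log V := mul_nonneg (by linarith) h2
    linarith
  · obtain ⟨n, hn⟩ := pow_unbounded_of_one_lt (T / (2 * V0)) (one_lt_two)
    refine hmain n T hT ?_ Λ hΛ
    rw [div_lt_iff₀ (by linarith)] at hn
    exact hn.le

/-- admissible functions for the assembly -/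
structure Adm (f : ℝ → ℝ) : Prop where
  even : ∀ x, f (-x) = f x
  decay : ∃ K, 0 ≤ K ∧ ∀ y, |f y| ≤ K / (1 + y ^ 2)
  scale : ∃ C, 0 ≤ C ∧ ∀ y s, 1 ≤ s → |f (s * y) - f y| ≤ C * (s - 1) / (1 + y ^ 2)

lemma tent_adm {lam : ℝ} (hl : 0 < lam) : Adm (tent lam) := by
  have key : ∀ y : ℝ, |y| ≤ lam → 1 ≤ (1 + lam ^ 2) / (1 + y ^ 2) := by
    intro y hy
    rw [le_div_iff₀ (by positivity), one_mul]
    have := abs_le.1 hy
    nlinarith [sq_abs y, abs_nonneg y]
  refine ⟨fun x => ?_, ⟨1 + lam ^ 2, by positivity, fun y => ?_⟩, ⟨1 + lam ^ 2, by positivity, fun y s hs => ?_⟩⟩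
  · unfold tent
    rw [abs_neg]
  · rw [abs_of_nonneg (tent_nonneg lam y)]
    by_cases h : |y| ≤ lam
    · exact (tent_le_one hl y).trans (key y h)
    · have : tent lam y = 0 := by
        unfold tent
        refine max_eq_left ?_
        push Not at h
        have : 1 ≤ |y| / lam := by
          rw [le_div_iff₀ hl]
          linarith
        linarith
      rw [this]
      positivity
  · have hsy : |s * y| = s * |y| := by rw [abs_mul, abs_of_nonneg (by linarith)]
    have h0 : 0 ≤ (1 + lam ^ 2) * (s - 1) / (1 + y ^ 2) := by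
      have : 0 ≤ s - 1 := by linarith
      positivity
    by_cases h : |y| ≤ lam
    · have h1 : |tent lam (s * y) - tent lam y| ≤ s - 1 := by
        unfold tent
        rw [max_comm 0 (1 - |s * y| / lam), max_comm 0 (1 - |y| / lam)]
        refine (abs_max_sub_max_le_abs (1 - |s * y| / lam) (1 - |y| / lam) (0 : ℝ)).trans ?_
        rw [hsy]
        have e : 1 - s * |y| / lam - (1 - |y| / lam) = -((s - 1) * (|y| / lam)) := by ring
        rw [e, abs_neg, abs_of_nonneg (by
          have : 0 ≤ s - 1 := by linarith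
          positivity)]
        have h2 : |y| / lam ≤ 1 := by
          rw [div_le_one hl]
          exact h
        nlinarith
      refine h1.trans ?_
      have := mul_le_mul_of_nonneg_left (key y h) (show 0 ≤ s - 1 by linarith)
      calc s - 1 = (s - 1) * 1 := (mul_one _).symm
        _ ≤ (s - 1) * ((1 + lam ^ 2) / (1 + y ^ 2)) := this
        _ = _ := by ring
    · push Not at h
      have h1 : tent lam y = 0 := by
        unfold tent
        refine max_eq_left ?_
        have : 1 ≤ |y| / lam := by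
          rw [le_div_iff₀ hl]
          linarith
        linarith
      have h2 : tent lam (s * y) = 0 := by
        unfold tent
        refine max_eq_left ?_
        rw [hsy]
        have : 1 ≤ s * |y| / lam := by
          rw [le_div_iff₀ hl]
          nlinarith [abs_nonneg y]
        linarith
      rw [h1, h2]
      simpa using h0

end Pool.Agent.Helper36
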