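import Pool.Agent.Helper36.M2
import Pool.Agent.Helper36.M4a

/-!
# Weighted counts of a subset of the zeros: second moments
-/

set_option autoImplicit false

namespace Pool.Agent.Helper36

open Filter Topology MeasureTheory Set
open Pool.Agent.Q97.UM Pool.Agent.Q210.UM Pool.Agent.Q222.UM

/-- weighted sum over a set of zeros -/
noncomputable def ES (S : Finset ℂ) (δ H : ℝ) (K : ℕ) (T t : ℝ) : ℝ := ∑ s ∈ S, (mz s : ℝ) *
  Psi δ H K (Real.log T * (s.im - t)) (Real.log T * |s.re - 1 / 2|)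

open Classical in
/-- counts in a cell -/
noncomputable def cS (S : Finset ℂ) (t r α : ℝ) : ℝ :=
  ∑ s ∈ S, if |s.im - t| ≤ r ∧ α ≤ |s.re - 1 / 2| then (mz s : ℝ) else 0

lemma cS_nonneg (S : Finset ℂ) (t r α : ℝ) : 0 ≤ cS S t r α := Finset.sum_nonneg fun s _ => by
  split_ifs
  · exact Nat.cast_nonneg _
  · exact le_rfl

lemma cS_nat (S : Finset ℂ) (t r α : ℝ) : ∃ n : ℕ, cS S t r α = n := by
  classical
  refine ⟨∑ s ∈ S, if |s.im - t| ≤ r ∧ α ≤ |s.re - 1 / 2| then mz s else 0, ?_⟩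
  unfold cS
  push_cast
  rfl

lemma mem_ZT' {T : ℝ} {s : ℂ} (hs : s ∈ ZT T) : riemannZeta s = 0 ∧ 0 < s.re ∧ s.re < 1 := by
  unfold ZT H370.Zf at hs
  split_ifs at hs with h
  · rw [Set.Finite.mem_toFinset] at hs
    exact ⟨hs.2.2.2.2, hs.1, hs.2.1⟩
  · exact absurd hs (Finset.notMem_empty s)

lemma cS_le_cz (hZ : S_ZF2) {T : ℝ} {S : Finset ℂ} (hS : S ⊆ ZT T) (t r α : ℝ) :
    cS S t r α ≤ cz t r α := by
  classical
  unfold cS
  rw [cz_eq hZ, ← Finset.sum_filter, ← Finset.sum_filter]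
  refine Finset.sum_le_sum_of_subset_of_nonneg (fun s hs => ?_) fun _ _ _ => Nat.cast_nonneg _
  rw [Finset.mem_filter] at hs ⊢
  obtain ⟨hs1, hs2, hs3⟩ := hs
  obtain ⟨m1, m2, m3⟩ := mem_ZT' (hS hs1)
  rw [Set.Finite.mem_toFinset]
  exact ⟨⟨m1, m2, m3, hs2⟩, hs3⟩

lemma cS_anti (S : Finset ℂ) (t r : ℝ) {α α' : ℝ} (h : α ≤ α') : cS S t r α' ≤ cS S t r α := by
  classical
  unfold cS
  refine Finset.sum_le_sum fun s _ => ?_
  by_cases h1 : |s.im - t| ≤ r ∧ α' ≤ |s.re - 1 / 2|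
  · rw [if_pos h1, if_pos ⟨h1.1, h.trans h1.2⟩]
  · rw [if_neg h1]
    split_ifs
    · exact Nat.cast_nonneg _
    · exact le_rfl

/-- the pointwise bound -/
lemma ES_le {δ H T : ℝ} {K : ℕ} (hδ : 0 < δ) (hδ1 : δ ≤ 1 / 100) (hH : 1 ≤ H)
    (hK : 16 ≤ K) (hT : 16 ≤ T) (hTH : 4 * H ^ 2 ≤ T) {S : Finset ℂ} (hS : S ⊆ ZT T) (t : ℝ) :
    ES S δ H K T t ≤ ∑ n ∈ Finset.Icc (-(⌈Real.sqrt T⌉ + 1)) (⌈Real.sqrt T⌉ + 1),
      ∑ j ∈ Finset.range (⌈Real.log T⌉₊ + 1), PB δ H K n j *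
        cS S (t + n / Real.log T) (1 / Real.log T) (j / Real.log T) +
        (∑ s ∈ S, (mz s : ℝ)) * (1 / T ^ 2) := by
  classical
  set L : ℝ := Real.log T with hL
  have hT0 : 0 < T := by linarith
  have hL1 : 1 ≤ L := by
    rw [hL, Real.le_log_iff_exp_le hT0]
    have := Real.exp_one_lt_d9
    linarith
  have hL0 : 0 < L := by linarith
  set M : ℤ := ⌈Real.sqrt T⌉ + 1 with hM
  set J : ℕ := ⌈L⌉₊ + 1 with hJ
  set xs : ℂ → ℝ := fun s => L * (s.im - t) with hxs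
  set ys : ℂ → ℝ := fun s => L * |s.re - 1 / 2| with hys
  have hys0 : ∀ s, 0 ≤ ys s := fun s => mul_nonneg hL0.le (abs_nonneg _)
  have hys1 : ∀ s ∈ S, ys s ≤ L / 2 := by
    intro s hs
    obtain ⟨-, h1, h2⟩ := mem_ZT' (hS hs)
    have h3 : |s.re - 1 / 2| ≤ 1 / 2 := by
      rw [abs_le]
      constructor <;> linarith
    calc L * |s.re - 1 / 2| ≤ L * (1 / 2) := mul_le_mul_of_nonneg_left h3 hL0.le
      _ = L / 2 := by ring
  have hT2 : (0 : ℝ) < T ^ 2 := by positivity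
  have hpt : ∀ s ∈ S, (mz s : ℝ) * Psi δ H K (xs s) (ys s) ≤
      (∑ n ∈ Finset.Icc (-M) M, ∑ j ∈ Finset.range J,
        (if ⌊xs s⌋ = n ∧ ⌊ys s⌋₊ = j then PB δ H K n j * (mz s : ℝ) else 0)) +
        (mz s : ℝ) * (1 / T ^ 2) := by
    intro s hs
    have hm : (0 : ℝ) ≤ mz s := Nat.cast_nonneg _
    have hterm0 : ∀ n : ℤ, ∀ j : ℕ, (0 : ℝ) ≤
        (if ⌊xs s⌋ = n ∧ ⌊ys s⌋₊ = j then PB δ H K n j * (mz s : ℝ) else 0) := by
      intro n j
      split_ifs
      · exact mul_nonneg (PB_nonneg hH K n j) hm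
      · exact le_rfl
    by_cases hx : |xs s| ≤ Real.sqrt T
    · have hn : ⌊xs s⌋ ∈ Finset.Icc (-M) M := by
        obtain ⟨h1, h2⟩ := abs_le.1 hx
        have h3 := Int.le_ceil (Real.sqrt T)
        have h4 := Int.floor_le (xs s)
        have h5 := Int.lt_floor_add_one (xs s)
        rw [Finset.mem_Icc]
        have h6 : ((-M : ℤ) : ℝ) ≤ (⌊xs s⌋ : ℝ) := by
          rw [hM]
          push_cast
          linarith
        have h7 : (⌊xs s⌋ : ℝ) ≤ ((M : ℤ) : ℝ) := by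
          rw [hM]
          push_cast
          linarith
        exact ⟨by exact_mod_cast h6, by exact_mod_cast h7⟩
      have hj : ⌊ys s⌋₊ ∈ Finset.range J := by
        rw [Finset.mem_range, hJ, Nat.lt_succ_iff]
        have h1 := Nat.floor_le (hys0 s)
        have h2 := hys1 s hs
        have h3 := Nat.le_ceil L
        have h4 : (⌊ys s⌋₊ : ℝ) ≤ (⌈L⌉₊ : ℝ) := by linarith
        exact_mod_cast h4
      have h1 : Psi δ H K (xs s) (ys s) ≤ PB δ H K ⌊xs s⌋ ⌊ys s⌋₊ := by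
        refine Psi_le hδ hH (by omega) ?_ ?_
        · have h4 := Int.floor_le (xs s)
          have h5 := Int.lt_floor_add_one (xs s)
          rw [abs_le]
          constructor <;> linarith
        · exact (Nat.lt_floor_add_one _).le
      have h2 : PB δ H K ⌊xs s⌋ ⌊ys s⌋₊ * (mz s : ℝ) ≤
          ∑ n ∈ Finset.Icc (-M) M, ∑ j ∈ Finset.range J,
            (if ⌊xs s⌋ = n ∧ ⌊ys s⌋₊ = j then PB δ H K n j * (mz s : ℝ) else 0) := by
        have h3 := Finset.single_le_sum (f := fun n : ℤ => ∑ j ∈ Finset.range J,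
            (if ⌊xs s⌋ = n ∧ ⌊ys s⌋₊ = j then PB δ H K n j * (mz s : ℝ) else 0))
          (fun n _ => Finset.sum_nonneg fun j _ => hterm0 n j) hn
        have h4 := Finset.single_le_sum (f := fun j : ℕ =>
            (if ⌊xs s⌋ = ⌊xs s⌋ ∧ ⌊ys s⌋₊ = j then PB δ H K ⌊xs s⌋ j * (mz s : ℝ) else 0))
          (fun j _ => hterm0 _ j) hj
        rw [if_pos ⟨rfl, rfl⟩] at h4
        exact h4.trans h3
      have h3 : (0 : ℝ) ≤ (mz s : ℝ) * (1 / T ^ 2) := by positivity
      calc (mz s : ℝ) * Psi δ H K (xs s) (ys s) ≤ (mz s : ℝ) * PB δ H K ⌊xs s⌋ ⌊ys s⌋₊ :=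
            mul_le_mul_of_nonneg_left h1 hm
        _ = PB δ H K ⌊xs s⌋ ⌊ys s⌋₊ * (mz s : ℝ) := mul_comm _ _
        _ ≤ _ := by linarith
    · push Not at hx
      have h1 := Psi_far hH hδ hδ1 hK hT hTH hx (hys0 s) (hys1 s hs)
      have h2 : (0 : ℝ) ≤ ∑ n ∈ Finset.Icc (-M) M, ∑ j ∈ Finset.range J,
            (if ⌊xs s⌋ = n ∧ ⌊ys s⌋₊ = j then PB δ H K n j * (mz s : ℝ) else 0) :=
        Finset.sum_nonneg fun n _ => Finset.sum_nonneg fun j _ => hterm0 n j
      have h3 := mul_le_mul_of_nonneg_left h1 hm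
      linarith
  have h1 : ES S δ H K T t ≤ ∑ s ∈ S, ((∑ n ∈ Finset.Icc (-M) M, ∑ j ∈ Finset.range J,
        (if ⌊xs s⌋ = n ∧ ⌊ys s⌋₊ = j then PB δ H K n j * (mz s : ℝ) else 0)) +
        (mz s : ℝ) * (1 / T ^ 2)) := Finset.sum_le_sum hpt
  refine h1.trans ?_
  rw [Finset.sum_add_distrib, ← Finset.sum_mul]
  refine add_le_add ?_ le_rfl
  rw [Finset.sum_comm]
  refine Finset.sum_le_sum fun n _ => ?_
  rw [Finset.sum_comm]
  refine Finset.sum_le_sum fun j _ => ?_
  unfold cS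
  rw [Finset.mul_sum]
  refine Finset.sum_le_sum fun s hs => ?_
  by_cases hc : ⌊xs s⌋ = n ∧ ⌊ys s⌋₊ = j
  · rw [if_pos hc, if_pos]
    obtain ⟨hsn, hsj⟩ := hc
    constructor
    · have h4 := Int.floor_le (xs s)
      have h5 := Int.lt_floor_add_one (xs s)
      rw [hsn] at h4 h5
      have h6 : s.im - (t + n / L) = (xs s - n) / L := by
        rw [hxs]
        field_simp
        ring
      rw [h6, abs_div, abs_of_pos hL0]
      refine div_le_div_of_nonneg_right ?_ hL0.le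
      rw [abs_le]
      constructor <;> linarith
    · have h4 := Nat.floor_le (hys0 s)
      rw [hsj] at h4
      rw [div_le_iff₀ hL0, mul_comm]
      exact h4
  · rw [if_neg hc]
    refine mul_nonneg (PB_nonneg hH K n j) ?_
    split_ifs
    · exact Nat.cast_nonneg _
    · exact le_rfl

lemma cS_meas (S : Finset ℂ) (X r α : ℝ) : Measurable fun t => cS S (t + X) r α := by
  classical
  unfold cS
  refine Finset.measurable_sum _ fun s _ => ?_
  refine Measurable.ite ?_ measurable_const measurable_const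
  by_cases h : α ≤ |s.re - 1 / 2|
  · simp only [h, and_true]
    apply IsClosed.measurableSet
    exact isClosed_le (by fun_prop) continuous_const
  · simp only [h, and_false]
    exact MeasurableSet.empty

lemma cS_bd (S : Finset ℂ) (t r α : ℝ) : cS S t r α ≤ ∑ s ∈ S, (mz s : ℝ) := by
  classical
  unfold cS
  refine Finset.sum_le_sum fun s _ => ?_
  split_ifs
  · exact le_rfl
  · exact Nat.cast_nonneg _

lemma cS_ii (S : Finset ℂ) (p : ℕ) (X r α : ℝ) {a b : ℝ} (hab : a ≤ b) :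
    IntervalIntegrable (fun t => cS S (t + X) r α ^ p) volume a b := by
  have h1 := gint ((cS_meas S X r α).pow_const p) hab (fun s => pow_nonneg (cS_nonneg _ _ _ _) p)
    (fun s _ _ => pow_le_pow_left₀ (cS_nonneg _ _ _ _) (cS_bd S (s + X) r α) p) (V := fun _ => 1)
    continuous_const (fun _ => zero_le_one)
  refine h1.congr fun s _ => ?_
  simp

/-- first moment -/
lemma cS_first (S : Finset ℂ) {r : ℝ} (hr : 0 ≤ r) (X α : ℝ) {a b : ℝ} (hab : a ≤ b) :
    ∫ t in a..b, cS S (t + X) r α ≤ 2 * r * ∑ s ∈ S, (mz s : ℝ) := by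
  classical
  have h1 : ∀ t, cS S (t + X) r α ≤ Nr S (fun s => (mz s : ℝ)) (fun s => s.im - X) r t := by
    intro t
    unfold cS Nr
    refine Finset.sum_le_sum fun s _ => ?_
    have hm : (0 : ℝ) ≤ mz s := Nat.cast_nonneg _
    by_cases h : |s.im - (t + X)| ≤ r ∧ α ≤ |s.re - 1 / 2|
    · rw [if_pos h]
      have h2 : t ∈ Icc (s.im - X - r) (s.im - X + r) := by
        obtain ⟨h3, h4⟩ := abs_le.1 h.1
        constructor <;> linarith
      rw [indicator_of_mem h2, mul_one]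
    · rw [if_neg h]
      exact mul_nonneg hm (indicator_nonneg (fun _ _ => zero_le_one) _)
  have hi : IntervalIntegrable (fun t => cS S (t + X) r α) volume a b := by
    have := cS_ii S 1 X r α hab
    simpa using this
  refine (intervalIntegral.integral_mono_on hab hi (Nr_ii a b) fun t _ => h1 t).trans ?_
  exact Nr_upper hab hr fun s => Nat.cast_nonneg _

/-- second moment from the first and the fourth -/
lemma cS_second (S : Finset ℂ) (X r α : ℝ) {a b : ℝ} (hab : a ≤ b) {τ : ℝ} (hτ : 0 < τ) :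
    ∫ t in a..b, cS S (t + X) r α ^ 2 ≤
      1 / τ * (∫ t in a..b, cS S (t + X) r α) + τ * ∫ t in a..b, cS S (t + X) r α ^ 4 := by
  have hi1 : IntervalIntegrable (fun t => cS S (t + X) r α) volume a b := by
    have := cS_ii S 1 X r α hab
    simpa using this
  have hi4 := cS_ii S 4 X r α hab
  rw [← intervalIntegral.integral_const_mul, ← intervalIntegral.integral_const_mul,
    ← intervalIntegral.integral_add (hi1.const_mul _) (hi4.const_mul _)]
  refine intervalIntegral.integral_mono_on hab (cS_ii S 2 X r α hab)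
    ((hi1.const_mul _).add (hi4.const_mul _)) fun t _ => ?_
  obtain ⟨n, hn⟩ := cS_nat S (t + X) r α
  rw [hn]
  rcases Nat.eq_zero_or_pos n with h | h
  · subst h
    simp
  · have h1 : (1 : ℝ) ≤ n := by exact_mod_cast h
    have h2 : (n : ℝ) ^ 3 ≤ (n : ℝ) ^ 4 := pow_le_pow_right₀ h1 (by norm_num)
    have h3 : (n : ℝ) ^ 2 ≤ 1 / τ * n + τ * (n : ℝ) ^ 3 := by
      have h4 : 0 ≤ (n : ℝ) / τ * (1 - τ * n) ^ 2 := by positivity
      have h5 : (n : ℝ) / τ * (1 - τ * n) ^ 2 = 1 / τ * n + τ * (n : ℝ) ^ 3 - 2 * (n : ℝ) ^ 2 := by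
        field_simp
        ring
      have h6 : 0 ≤ (n : ℝ) ^ 2 := by positivity
      linarith
    have h4 := mul_le_mul_of_nonneg_left h2 hτ.le
    linarith

/-- **second moment of the weighted sum over a small set of zeros** -/
theorem ES2 : ∃ c : ℝ, 0 < c ∧ c ≤ 1 ∧ ∃ K₀ : ℕ, ∀ K : ℕ, K₀ ≤ K → ∀ δ : ℝ, 0 < δ → δ ≤ c / 400 →
    ∃ C₅ : ℝ, 0 ≤ C₅ ∧ ∀ H : ℝ, 1 ≤ H → ∀ η : ℝ, 0 < η → ∀ᶠ T : ℝ in atTop, ∀ S : Finset ℂ,
      S ⊆ ZT T → ∑ s ∈ S, (mz s : ℝ) ≤ η * (T * Real.log T) → ∃ G : ℝ → ℝ,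
      IntervalIntegrable G volume T (2 * T) ∧ (∀ t, 0 ≤ G t) ∧
      (∀ t, 0 ≤ ES S δ H K T t ∧ ES S δ H K T t ^ 2 ≤ G t) ∧
      ∫ t in T..(2 * T), G t ≤ C₅ * Real.sqrt η * T := by
  have hZ : S_ZF2 := Pool.Agent.Q178.UM.ZF2.t_ZF2
  obtain ⟨c, C₂, hc, hc1, hC₂, hE⟩ := M4
  set c' : ℝ := c / 4 with hc'
  have hc'0 : 0 < c' := by positivity
  set Z₀ : ℝ := ∑' m : ℤ, 1 / (1 + |(m : ℝ)|) ^ 2 with hZ₀
  have hZ₀0 : 0 ≤ Z₀ := tsum_nonneg fun m => by positivity
  obtain ⟨Cn, hCn, hcr⟩ := H370.NN_crude H370.good_zeta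
  refine ⟨c, hc, hc1, ⌈8 / c'⌉₊ + 16, fun K hK δ hδ hδc => ?_⟩
  have hK16 : 16 ≤ K := by omega
  have hKc : 8 / c' ≤ K := by
    have h1 := Nat.le_ceil (8 / c')
    have h2 : ((⌈8 / c'⌉₊ : ℕ) : ℝ) ≤ K := by
      have : ⌈8 / c'⌉₊ ≤ K := by omega
      exact_mod_cast this
    linarith
  have hδ1 : δ ≤ 1 / 100 := by linarith
  have hδc' : δ ≤ c' / 100 := by rw [hc']; linarith
  set D : ℝ := (64 * Z₀ + 5) * (Real.exp c' * (2 / c')) with hDdef
  have hD0 : 0 ≤ D := by positivity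
  refine ⟨2 * D ^ 2 * (C₂ + 2) + 2, by positivity, fun H hH η hη => ?_⟩
  have e1 : ∀ᶠ T : ℝ in atTop, (Cn + 1) * Real.log T ≤ Real.sqrt η * T := by
    have h1 := Real.isLittleO_log_id_atTop.bound
      (by positivity : (0 : ℝ) < Real.sqrt η / (Cn + 1))
    filter_upwards [h1, eventually_ge_atTop (1 : ℝ)] with T h2 h3
    have h4 : 0 ≤ Real.log T := Real.log_nonneg h3
    simp only [id, Real.norm_eq_abs] at h2
    rw [abs_of_nonneg h4, abs_of_nonneg (by linarith : 0 ≤ T)] at h2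
    calc (Cn + 1) * Real.log T ≤ (Cn + 1) * (Real.sqrt η / (Cn + 1) * T) :=
            mul_le_mul_of_nonneg_left h2 (by linarith)
        _ = Real.sqrt η * T := by field_simp
  have e2 : ∀ᶠ T : ℝ in atTop, (Cn + 1) * Real.log T ≤ T := by
    have h1 := Real.isLittleO_log_id_atTop.bound (by positivity : (0 : ℝ) < 1 / (Cn + 1))
    filter_upwards [h1, eventually_ge_atTop (1 : ℝ)] with T h2 h3
    have h4 : 0 ≤ Real.log T := Real.log_nonneg h3
    simp only [id, Real.norm_eq_abs] at h2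
    rw [abs_of_nonneg h4, abs_of_nonneg (by linarith : 0 ≤ T)] at h2
    calc (Cn + 1) * Real.log T ≤ (Cn + 1) * (1 / (Cn + 1) * T) :=
            mul_le_mul_of_nonneg_left h2 (by linarith)
        _ = T := by field_simp
  filter_upwards [hE, e1, e2, eventually_ge_atTop (4 * H ^ 2), eventually_ge_atTop (1024 : ℝ)]
    with T hE1 hT1 hT2 hTH hT S hS hSm
  have hT0 : 0 < T := by linarith
  set L : ℝ := Real.log T with hL
  have hL1 : 1 ≤ L := by
    rw [hL, Real.le_log_iff_exp_le hT0]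
    have := Real.exp_one_lt_d9
    linarith
  have hL0 : 0 < L := by linarith
  have hcount : ∑ s ∈ S, (mz s : ℝ) ≤ Cn * (T * L) := by
    have h1 := hcr T (by linarith) (T + 1) (2 * T - 1) (by linarith) (by linarith)
    rw [H370.NN_eq H370.good_zeta (by linarith : (1 : ℝ) ≤ T + 1)] at h1
    push_cast at h1
    refine le_trans ?_ h1
    exact Finset.sum_le_sum_of_subset_of_nonneg hS fun _ _ _ => Nat.cast_nonneg _
  have hS0 : 0 ≤ ∑ s ∈ S, (mz s : ℝ) := Finset.sum_nonneg fun _ _ => Nat.cast_nonneg _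
  set M : ℤ := ⌈Real.sqrt T⌉ + 1 with hM
  set J : ℕ := ⌈L⌉₊ + 1 with hJ
  set P : Finset (ℤ × ℕ) := Finset.Icc (-M) M ×ˢ Finset.range J with hP
  set x : ℤ × ℕ → ℝ → ℝ := fun q t => cS S (t + q.1 / L) (1 / L) (q.2 / L) with hx
  set E₀ : ℝ := (∑ s ∈ S, (mz s : ℝ)) * (1 / T ^ 2) with hE₀
  have hE₀0 : 0 ≤ E₀ := by positivity
  have hE₀1 : E₀ ^ 2 ≤ Real.sqrt η := by
    have h1 : E₀ ≤ Cn * L / T := by
      rw [hE₀]
      calc (∑ s ∈ S, (mz s : ℝ)) * (1 / T ^ 2) ≤ Cn * (T * L) * (1 / T ^ 2) :=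
            mul_le_mul_of_nonneg_right hcount (by positivity)
        _ = Cn * L / T := by field_simp
    have h2 : Cn * L / T ≤ Real.sqrt η := by
      rw [div_le_iff₀ hT0]
      linarith
    have h3 : Cn * L / T ≤ 1 := by
      rw [div_le_one hT0]
      linarith
    have hs : 0 ≤ Real.sqrt η := Real.sqrt_nonneg _
    nlinarith
  have hpt : ∀ t, ES S δ H K T t ≤ (∑ q ∈ P, PB δ H K q.1 q.2 * x q t) + E₀ := fun t => by
    have := ES_le hδ hδ1 hH hK16 (by linarith) hTH hS t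
    rw [hP, Finset.sum_product]
    exact this
  have hE0 : ∀ t, 0 ≤ ES S δ H K T t := fun t => Finset.sum_nonneg fun s _ =>
    mul_nonneg (Nat.cast_nonneg _) (Pool.Agent.Q222.UM.Psi_nonneg hH K _ _)
  have hMT : ∀ n ∈ Finset.Icc (-M) M, |((n : ℝ) / L)| ≤ T / 8 := by
    intro n hn
    rw [Finset.mem_Icc] at hn
    have h1 : (M : ℝ) ≤ T / 8 := by
      rw [hM]
      push_cast
      have h2 := Int.ceil_lt_add_one (Real.sqrt T)
      have h3 : Real.sqrt T ≤ T / 32 := by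
        rw [Real.sqrt_le_left (by positivity)]
        nlinarith
      linarith
    have h2 : |(n : ℝ)| ≤ M := by
      rw [abs_le]
      have h3 : ((-M : ℤ) : ℝ) ≤ n := by exact_mod_cast hn.1
      have h4 : (n : ℝ) ≤ M := by exact_mod_cast hn.2
      push_cast at h3
      exact ⟨h3, h4⟩
    rw [abs_div, abs_of_pos hL0, div_le_iff₀ hL0]
    nlinarith
  have hSP : ∑ q ∈ P, PB δ H K q.1 q.2 * Real.exp (-(c' * q.2)) ≤ D := by
    have h1 := sumPB hc'0 (by omega : 0 < K) hKc hδc' hH M J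
    rw [hP, Finset.sum_product_right]
    refine le_trans (le_of_eq ?_) h1
    refine Finset.sum_congr rfl fun j _ => ?_
    rw [Finset.mul_sum]
    refine Finset.sum_congr rfl fun n _ => ?_
    ring
  have hint : ∀ q : ℤ × ℕ, IntervalIntegrable (fun t => x q t ^ 2) volume T (2 * T) := fun q =>
    cS_ii S 2 _ _ _ (by linarith)
  have hint2 : ∀ q ∈ P, IntervalIntegrable (fun t => PB δ H K q.1 q.2 * (Real.exp (-(c' * q.2)))⁻¹ *
      x q t ^ 2) volume T (2 * T) := fun q _ => (hint q).const_mul _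
  have hint3 : IntervalIntegrable (fun t => ∑ q ∈ P, PB δ H K q.1 q.2 *
      (Real.exp (-(c' * q.2)))⁻¹ * x q t ^ 2) volume T (2 * T) := by
    have := IntervalIntegrable.sum P hint2
    refine this.congr fun s _ => ?_
    simp [Finset.sum_apply]
  have hnn : ∀ t, 0 ≤ ∑ q ∈ P, PB δ H K q.1 q.2 * (Real.exp (-(c' * q.2)))⁻¹ * x q t ^ 2 := fun t =>
    Finset.sum_nonneg fun q _ => mul_nonneg (mul_nonneg (PB_nonneg hH K _ _) (by positivity))
      (sq_nonneg _)
  refine ⟨fun t => 2 * D * (∑ q ∈ P, PB δ H K q.1 q.2 * (Real.exp (-(c' * q.2)))⁻¹ * x q t ^ 2) +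
      2 * Real.sqrt η,
    (hint3.const_mul _).add intervalIntegrable_const, fun t => ?_, fun t => ⟨hE0 t, ?_⟩, ?_⟩
  · have := hnn t
    positivity
  · have h1 := hpt t
    have h3 := pow_le_pow_left₀ (hE0 t) h1 2
    have h4 := wcs P (fun q => PB δ H K q.1 q.2) (fun q => x q t) (fun q => Real.exp (-(c' * q.2)))
      (fun q _ => PB_nonneg hH K _ _) (fun q _ => Real.exp_pos _)
    have h5 : (∑ q ∈ P, PB δ H K q.1 q.2 * x q t) ^ 2 ≤
        D * ∑ q ∈ P, PB δ H K q.1 q.2 * (Real.exp (-(c' * q.2)))⁻¹ * x q t ^ 2 :=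
      h4.trans (mul_le_mul_of_nonneg_right hSP (hnn t))
    nlinarith [sq_nonneg ((∑ q ∈ P, PB δ H K q.1 q.2 * x q t) - E₀)]
  · have h1 : ∀ q ∈ P, ∫ t in T..(2 * T), x q t ^ 2 ≤
        (C₂ + 2) * Real.sqrt η * Real.exp (-(c / 2 * q.2)) * T := by
      intro q hq
      rw [hP, Finset.mem_product] at hq
      have hs : 0 < Real.sqrt η := Real.sqrt_pos.2 hη
      set τ : ℝ := Real.sqrt η * Real.exp (c / 2 * q.2) with hτ
      have hτ0 : 0 < τ := by positivity
      have g1 := cS_second S (q.1 / L) (1 / L) (q.2 / L) (show T ≤ 2 * T by linarith) hτ0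
      have g2 := cS_first S (r := 1 / L) (by positivity) (q.1 / L) (q.2 / L)
        (show T ≤ 2 * T by linarith)
      have g3 : ∫ t in T..(2 * T), cS S (t + q.1 / L) (1 / L) (q.2 / L) ^ 4 ≤
          C₂ * Real.exp (-(c * q.2)) * T := by
        refine le_trans ?_ (hE1 (q.1 / L) q.2 (hMT q.1 hq.1) (Nat.cast_nonneg _))
        refine intervalIntegral.integral_mono_on (by linarith) (cS_ii S 4 _ _ _ (by linarith))
          (czp_int hZ 4 _ _ _ (by linarith)) fun t _ => ?_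
        exact pow_le_pow_left₀ (cS_nonneg _ _ _ _) (cS_le_cz hZ hS _ _ _) 4
      have g4 : 2 * (1 / L) * ∑ s ∈ S, (mz s : ℝ) ≤ 2 * η * T := by
        calc 2 * (1 / L) * ∑ s ∈ S, (mz s : ℝ) ≤ 2 * (1 / L) * (η * (T * L)) :=
              mul_le_mul_of_nonneg_left hSm (by positivity)
          _ = 2 * η * T := by field_simp
      have g5 : 1 / τ * (∫ t in T..(2 * T), cS S (t + q.1 / L) (1 / L) (q.2 / L)) ≤
          2 * Real.sqrt η * Real.exp (-(c / 2 * q.2)) * T := by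
        calc 1 / τ * (∫ t in T..(2 * T), cS S (t + q.1 / L) (1 / L) (q.2 / L)) ≤
            1 / τ * (2 * η * T) := mul_le_mul_of_nonneg_left (g2.trans g4) (by positivity)
          _ = 2 * Real.sqrt η * Real.exp (-(c / 2 * q.2)) * T := by
              have e : Real.sqrt η * Real.sqrt η = η := Real.mul_self_sqrt hη.le
              rw [hτ, Real.exp_neg]
              have e2 : 1 / (Real.sqrt η * Real.exp (c / 2 * q.2)) * (2 * η * T) =
                  1 / (Real.sqrt η * Real.exp (c / 2 * q.2)) *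
                    (2 * (Real.sqrt η * Real.sqrt η) * T) := by rw [e]
              rw [e2]
              field_simp
      have g6 : τ * ∫ t in T..(2 * T), cS S (t + q.1 / L) (1 / L) (q.2 / L) ^ 4 ≤
          C₂ * Real.sqrt η * Real.exp (-(c / 2 * q.2)) * T := by
        refine (mul_le_mul_of_nonneg_left g3 hτ0.le).trans (le_of_eq ?_)
        have e : Real.exp (-(c / 2 * q.2)) = Real.exp (c / 2 * q.2) * Real.exp (-(c * q.2)) := by
          rw [← Real.exp_add]
          congr 1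
          ring
        rw [hτ, e]
        ring
      calc ∫ t in T..(2 * T), x q t ^ 2 ≤ _ := g1
        _ ≤ 2 * Real.sqrt η * Real.exp (-(c / 2 * q.2)) * T +
            C₂ * Real.sqrt η * Real.exp (-(c / 2 * q.2)) * T := add_le_add g5 g6
        _ = _ := by ring
    rw [intervalIntegral.integral_add (hint3.const_mul _) intervalIntegrable_const,
      intervalIntegral.integral_const_mul, intervalIntegral.integral_finsetSum hint2,
      intervalIntegral.integral_const, smul_eq_mul]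
    have hs : 0 ≤ Real.sqrt η := Real.sqrt_nonneg _
    have h2 : ∑ q ∈ P, ∫ t in T..(2 * T), PB δ H K q.1 q.2 * (Real.exp (-(c' * q.2)))⁻¹ * x q t ^ 2 ≤
        (C₂ + 2) * Real.sqrt η * T * D := by
      calc ∑ q ∈ P, ∫ t in T..(2 * T), PB δ H K q.1 q.2 * (Real.exp (-(c' * q.2)))⁻¹ * x q t ^ 2
          ≤ ∑ q ∈ P, (C₂ + 2) * Real.sqrt η * T * (PB δ H K q.1 q.2 * Real.exp (-(c' * q.2))) := by
            refine Finset.sum_le_sum fun q hq => ?_
            rw [intervalIntegral.integral_const_mul]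
            have h3 : 0 ≤ PB δ H K q.1 q.2 * (Real.exp (-(c' * q.2)))⁻¹ :=
              mul_nonneg (PB_nonneg hH K _ _) (by positivity)
            refine (mul_le_mul_of_nonneg_left (h1 q hq) h3).trans (le_of_eq ?_)
            have h4 : (Real.exp (-(c' * q.2)))⁻¹ * Real.exp (-(c / 2 * q.2)) =
                Real.exp (-(c' * q.2)) := by
              rw [← Real.exp_neg, ← Real.exp_add]
              congr 1
              rw [hc']
              ring
            calc PB δ H K q.1 q.2 * (Real.exp (-(c' * q.2)))⁻¹ *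
                  ((C₂ + 2) * Real.sqrt η * Real.exp (-(c / 2 * q.2)) * T)
                = (C₂ + 2) * Real.sqrt η * T * (PB δ H K q.1 q.2 * ((Real.exp (-(c' * q.2)))⁻¹ *
                  Real.exp (-(c / 2 * q.2)))) := by ring
              _ = _ := by rw [h4]
        _ = (C₂ + 2) * Real.sqrt η * T * ∑ q ∈ P, PB δ H K q.1 q.2 * Real.exp (-(c' * q.2)) := by
            rw [Finset.mul_sum]
        _ ≤ (C₂ + 2) * Real.sqrt η * T * D := mul_le_mul_of_nonneg_left hSP (by positivity)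
    have h3 := mul_le_mul_of_nonneg_left h2 (show (0 : ℝ) ≤ 2 * D by positivity)
    have h4 : 2 * D * ((C₂ + 2) * Real.sqrt η * T * D) = 2 * D ^ 2 * (C₂ + 2) * Real.sqrt η * T := by
      ring
    have h5 : (2 * D ^ 2 * (C₂ + 2) + 2) * Real.sqrt η * T =
      2 * D ^ 2 * (C₂ + 2) * Real.sqrt η * T + (2 * T - T) * (2 * Real.sqrt η) := by ring
    rw [h5]
    linarith

end Pool.Agent.Helper36
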