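import Pool.Agent.Helper36.N1
import Pool.Graph.R_pool_sql_team_seeded_3997aac3.Q97.UM.Base4

/-!
# Local zero sums with the ordinates in place of the zeros
-/

set_option autoImplicit false

namespace Pool.Agent.Helper36

open Filter Topology MeasureTheory Complex
open scoped ComplexConjugate
open Pool.Agent.Q97.UM

/-- the local sum over the ordinates -/
noncomputable def Zo (w : ℝ → ℝ) (T u t : ℝ) : ℂ :=
  ∑ s ∈ ZT T, (((mz s : ℝ) * qr w T t s : ℝ) : ℂ) * cexp (((u * s.im : ℝ) : ℂ) * I)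

/-- the term of a zero -/
noncomputable def zterm (w : ℝ → ℝ) (T u t : ℝ) (s : ℂ) : ℂ :=
  cexp (I * u * H370.zz s) * om w (Real.log T * (H370.zz s - t)) ^ 2 * cexp (-(H370.zz s - t) ^ 2 / 2)

lemma zz_re (s : ℂ) : (H370.zz s).re = s.im := by
  unfold H370.zz
  simp

lemma zz_im (s : ℂ) : (H370.zz s).im = -(s.re - 1 / 2) := by
  unfold H370.zz
  simp

lemma om_real {δ H C : ℝ} {K : ℕ} {w : ℝ → ℝ} (hw : OmW δ H C K w) (T t : ℝ) (s : ℂ) :
    om w (Real.log T * ((s.im : ℂ) - t)) = ((om w ((Real.log T * (s.im - t) : ℝ) : ℂ)).re : ℂ) := by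
  have h2 : ((Real.log T : ℂ) * ((s.im : ℂ) - t)) = ((Real.log T * (s.im - t) : ℝ) : ℂ) := by
    push_cast
    ring
  rw [h2]
  refine Complex.ext ?_ ?_
  · simp
  · rw [(hw.unit _).1]
    simp

/-- on the line the two terms agree -/
lemma term_eq {δ H C : ℝ} {K : ℕ} {w : ℝ → ℝ} (hw : OmW δ H C K w) (T u t : ℝ) {s : ℂ}
    (hs : s.re = 1 / 2) :
    zterm w T u t s = ((qr w T t s : ℝ) : ℂ) * cexp (((u * s.im : ℝ) : ℂ) * I) := by
  have hz : H370.zz s = (s.im : ℂ) := by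
    refine Complex.ext ?_ ?_
    · rw [zz_re]; simp
    · rw [zz_im, hs]; simp
  unfold zterm
  rw [hz, om_real hw]
  have h3 : cexp (-((s.im : ℂ) - t) ^ 2 / 2) = ((Real.exp (-(s.im - t) ^ 2 / 2) : ℝ) : ℂ) := by
    push_cast
    ring_nf
  rw [h3]
  have h4 : cexp (I * u * (s.im : ℂ)) = cexp (((u * s.im : ℝ) : ℂ) * I) := by
    congr 1
    push_cast
    ring
  rw [h4]
  unfold qr
  push_cast
  ring

lemma qr_nonneg (w : ℝ → ℝ) (T t : ℝ) (s : ℂ) : 0 ≤ qr w T t s := by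
  unfold qr
  positivity

/-- the cut-off at complex points -/
lemma om_bd {δ H C : ℝ} {K : ℕ} {w : ℝ → ℝ} (hδ : 0 < δ) (hC : 1 ≤ C)
    (hw : OmW δ H C K w) (z : ℂ) : ‖om w z‖ ^ 2 ≤ 4 * C ^ 2 * Real.exp (2 * δ * |z.im|) *
      (if |z.re| ≤ H then 1 else 1 / (1 + |(|z.re| - H)|) ^ K) := by
  have he : Real.exp (2 * δ * |z.im|) = Real.exp (δ * |z.im|) ^ 2 := by
    rw [← Real.exp_nat_mul]
    congr 1
    push_cast
    ring
  have he1 : 1 ≤ Real.exp (δ * |z.im|) := Real.one_le_exp (by positivity)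
  rw [he]
  by_cases h : |z.re| ≤ H
  · rw [if_pos h, mul_one]
    have h1 := hw.near z h
    have h2 : ‖om w z‖ ≤ 2 * C * Real.exp (δ * |z.im|) := by
      have h3 : ‖om w z‖ ≤ ‖om w z - 1‖ + ‖(1 : ℂ)‖ := by
        have := norm_add_le (om w z - 1) 1
        simpa using this
      have h4 : C * Real.exp (δ * |z.im|) / (1 + (H - |z.re|)) ^ K ≤ C * Real.exp (δ * |z.im|) :=
        div_le_self (by positivity) (one_le_pow₀ (by linarith))
      rw [norm_one] at h3
      nlinarith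
    calc ‖om w z‖ ^ 2 ≤ (2 * C * Real.exp (δ * |z.im|)) ^ 2 :=
          pow_le_pow_left₀ (norm_nonneg _) h2 2
      _ = _ := by ring
  · rw [if_neg h]
    push Not at h
    have h1 := hw.far z h.le
    rw [abs_of_pos (by linarith : 0 < |z.re| - H)]
    have hp : (1 : ℝ) ≤ (1 + (|z.re| - H)) ^ K := one_le_pow₀ (by linarith)
    calc ‖om w z‖ ^ 2 ≤ (C * Real.exp (δ * |z.im|) / (1 + (|z.re| - H)) ^ K) ^ 2 :=
          pow_le_pow_left₀ (norm_nonneg _) h1 2
      _ = C ^ 2 * Real.exp (δ * |z.im|) ^ 2 * (1 / (1 + (|z.re| - H)) ^ K) *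
          (1 / (1 + (|z.re| - H)) ^ K) := by
          rw [div_pow, mul_pow]
          field_simp
      _ ≤ C ^ 2 * Real.exp (δ * |z.im|) ^ 2 * (1 / (1 + (|z.re| - H)) ^ K) * 1 := by
          refine mul_le_mul_of_nonneg_left ?_ (by positivity)
          rw [div_le_one (by positivity)]
          exact hp
      _ ≤ 4 * C ^ 2 * Real.exp (δ * |z.im|) ^ 2 * (1 / (1 + (|z.re| - H)) ^ K) := by
          have : 0 ≤ C ^ 2 * Real.exp (δ * |z.im|) ^ 2 * (1 / (1 + (|z.re| - H)) ^ K) := by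
            positivity
          linarith

lemma Psi_lower {δ' H : ℝ} {K : ℕ} (hH : 1 ≤ H) (x y : ℝ) :
    Real.exp (3 * δ' * y) * (if |x| ≤ H then 1 else 1 / (1 + |(|x| - H)|) ^ K) ≤
      H * Psi δ' H K x y := by
  unfold Psi
  have hE := Real.exp_pos (3 * δ' * y)
  have h2 : (0 : ℝ) ≤ (if H < |x| ∧ (1 + (|x| - H)) ^ K < Real.exp y then 1 else 0) := by
    split_ifs
    · exact zero_le_one
    · exact le_rfl
  by_cases h : |x| ≤ H
  · rw [if_pos h, if_pos h]
    have h3 : (0 : ℝ) ≤ 1 / (1 + |(|x| - H)|) ^ K := by positivity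
    have e : H * (Real.exp (3 * δ' * y) * (1 / (1 + |(|x| - H)|) ^ K +
        (if H < |x| ∧ (1 + (|x| - H)) ^ K < Real.exp y then 1 else 0) + 1 / H)) =
        H * Real.exp (3 * δ' * y) * (1 / (1 + |(|x| - H)|) ^ K +
        (if H < |x| ∧ (1 + (|x| - H)) ^ K < Real.exp y then 1 else 0)) + Real.exp (3 * δ' * y) := by
      field_simp
    rw [e]
    have : 0 ≤ H * Real.exp (3 * δ' * y) * (1 / (1 + |(|x| - H)|) ^ K +
        (if H < |x| ∧ (1 + (|x| - H)) ^ K < Real.exp y then 1 else 0)) := by positivity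
    linarith
  · rw [if_neg h, if_neg h, add_zero]
    have h3 : (0 : ℝ) ≤ 1 / (1 + |(|x| - H)|) ^ K := by positivity
    have h4 : Real.exp (3 * δ' * y) * (1 / (1 + |(|x| - H)|) ^ K) ≤
        Real.exp (3 * δ' * y) * (1 / (1 + |(|x| - H)|) ^ K +
        (if H < |x| ∧ (1 + (|x| - H)) ^ K < Real.exp y then 1 else 0)) :=
      mul_le_mul_of_nonneg_left (by linarith) hE.le
    refine h4.trans ?_
    have h5 : 0 ≤ Real.exp (3 * δ' * y) * (1 / (1 + |(|x| - H)|) ^ K +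
        (if H < |x| ∧ (1 + (|x| - H)) ^ K < Real.exp y then 1 else 0)) := by positivity
    nlinarith

/-- bound for the term of a zero off the line -/
lemma zterm_bd {δ δ' lam H C : ℝ} {K : ℕ} {w : ℝ → ℝ} (hδ : 0 < δ) (hH : 1 ≤ H) (hC : 1 ≤ C)
    (hw : OmW δ H C K w) (hlam : lam + 2 * δ ≤ 3 * δ') {T u t : ℝ} (hT : 1 ≤ T) (hu : 0 ≤ u)
    (hu2 : u ≤ lam * Real.log T) {s : ℂ} (h0 : 0 < s.re) (h1 : s.re < 1) :
    ‖zterm w T u t s‖ ≤ 8 * C ^ 2 * H * Psi δ' H K (Real.log T * (s.im - t))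
      (Real.log T * |s.re - 1 / 2|) := by
  set L := Real.log T with hL
  have hL0 : 0 ≤ L := Real.log_nonneg hT
  set x := L * (s.im - t) with hx
  set y := L * |s.re - 1 / 2| with hy
  have hy0 : 0 ≤ y := by positivity
  have e1 : ‖cexp (I * u * H370.zz s)‖ ≤ Real.exp (lam * y) := by
    rw [Complex.norm_exp]
    apply Real.exp_le_exp.2
    have : (I * u * H370.zz s).re = u * (s.re - 1 / 2) := by
      rw [show I * (u : ℂ) * H370.zz s = (u : ℂ) * (I * H370.zz s) by ring, Complex.re_ofReal_mul,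
        Complex.I_mul_re, zz_im]
      ring
    rw [this]
    calc u * (s.re - 1 / 2) ≤ u * |s.re - 1 / 2| := mul_le_mul_of_nonneg_left (le_abs_self _) hu
      _ ≤ lam * L * |s.re - 1 / 2| := mul_le_mul_of_nonneg_right hu2 (abs_nonneg _)
      _ = lam * y := by rw [hy]; ring
  have hre : (L * (H370.zz s - t) : ℂ).re = x := by
    rw [Complex.re_ofReal_mul, Complex.sub_re, zz_re, Complex.ofReal_re]
  have him : |(L * (H370.zz s - t) : ℂ).im| = y := by
    rw [Complex.im_ofReal_mul, Complex.sub_im, zz_im, Complex.ofReal_im, sub_zero, abs_mul,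
      abs_neg, abs_of_nonneg hL0]
  have e2 := om_bd hδ hC hw (L * (H370.zz s - t))
  rw [hre, him] at e2
  have e3 : ‖cexp (-(H370.zz s - t) ^ 2 / 2)‖ ≤ 2 := by
    rw [Complex.norm_exp]
    have : (-(H370.zz s - t) ^ 2 / 2).re = -((s.im - t) ^ 2 - (s.re - 1 / 2) ^ 2) / 2 := by
      have h3 : (-(H370.zz s - t) ^ 2 / 2) = ((1 / 2 : ℝ) : ℂ) * (-(H370.zz s - t) ^ 2) := by
        push_cast
        ring
      rw [h3, Complex.re_ofReal_mul, Complex.neg_re, sq, Complex.mul_re, Complex.sub_re,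
        Complex.sub_im, zz_re, zz_im, Complex.ofReal_re, Complex.ofReal_im]
      ring
    rw [this]
    have h4 : -((s.im - t) ^ 2 - (s.re - 1 / 2) ^ 2) / 2 ≤ 1 / 2 := by
      nlinarith [sq_nonneg (s.im - t)]
    refine (Real.exp_le_exp.2 h4).trans ?_
    have h5 := Real.exp_one_lt_d9
    have h6 : Real.exp (1 / 2) ^ 2 = Real.exp 1 := by
      rw [← Real.exp_nat_mul]
      norm_num
    have h7 := Real.exp_pos (1 / 2)
    nlinarith
  have e4 : ‖zterm w T u t s‖ ≤ Real.exp (lam * y) * (4 * C ^ 2 * Real.exp (2 * δ * y) *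
      (if |x| ≤ H then 1 else 1 / (1 + |(|x| - H)|) ^ K)) * 2 := by
    unfold zterm
    rw [norm_mul, norm_mul, norm_pow]
    have hω : (0 : ℝ) ≤ (if |x| ≤ H then 1 else 1 / (1 + |(|x| - H)|) ^ K) := by
      split_ifs
      · exact zero_le_one
      · positivity
    exact mul_le_mul (mul_le_mul e1 e2 (by positivity) (by positivity)) e3 (norm_nonneg _)
      (by positivity)
  refine e4.trans ?_
  have hω : (0 : ℝ) ≤ (if |x| ≤ H then 1 else 1 / (1 + |(|x| - H)|) ^ K) := by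
    split_ifs
    · exact zero_le_one
    · positivity
  have e5 : Real.exp (lam * y) * Real.exp (2 * δ * y) ≤ Real.exp (3 * δ' * y) := by
    rw [← Real.exp_add]
    apply Real.exp_le_exp.2
    nlinarith
  have e6 := Psi_lower (δ' := δ') (K := K) hH x y
  calc Real.exp (lam * y) * (4 * C ^ 2 * Real.exp (2 * δ * y) *
        (if |x| ≤ H then 1 else 1 / (1 + |(|x| - H)|) ^ K)) * 2 =
        8 * C ^ 2 * ((Real.exp (lam * y) * Real.exp (2 * δ * y)) *
          (if |x| ≤ H then 1 else 1 / (1 + |(|x| - H)|) ^ K)) := by ring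
    _ ≤ 8 * C ^ 2 * (Real.exp (3 * δ' * y) *
          (if |x| ≤ H then 1 else 1 / (1 + |(|x| - H)|) ^ K)) := by
        refine mul_le_mul_of_nonneg_left (mul_le_mul_of_nonneg_right e5 hω) (by positivity)
    _ ≤ 8 * C ^ 2 * (H * Psi δ' H K x y) := mul_le_mul_of_nonneg_left e6 (by positivity)
    _ = _ := by ring

/-- bound for the weight of an ordinate -/
lemma qr_bd {δ H C : ℝ} {K : ℕ} {w : ℝ → ℝ} (hδ : 0 < δ) (hC : 1 ≤ C)
    (hw : OmW δ H C K w) (T t : ℝ) (s : ℂ) : qr w T t s ≤ 4 * C ^ 2 *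
      (if |Real.log T * (s.im - t)| ≤ H then 1 else
        1 / (1 + |(|Real.log T * (s.im - t)| - H)|) ^ K) := by
  have h1 := om_bd hδ hC hw ((Real.log T * (s.im - t) : ℝ) : ℂ)
  rw [Complex.ofReal_re, Complex.ofReal_im, abs_zero, mul_zero, Real.exp_zero, mul_one] at h1
  refine le_trans ?_ h1
  unfold qr
  have h2 : Real.exp (-(s.im - t) ^ 2 / 2) ≤ 1 := Real.exp_le_one_iff.2 (by
    have := sq_nonneg (s.im - t)
    linarith)
  have h3 : (om w ((Real.log T * (s.im - t) : ℝ) : ℂ)).re ^ 2 ≤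
      ‖om w ((Real.log T * (s.im - t) : ℝ) : ℂ)‖ ^ 2 := by
    rw [← sq_abs]
    exact pow_le_pow_left₀ (abs_nonneg _) (Complex.abs_re_le_norm _) 2
  calc (om w ((Real.log T * (s.im - t) : ℝ) : ℂ)).re ^ 2 * Real.exp (-(s.im - t) ^ 2 / 2) ≤
      (om w ((Real.log T * (s.im - t) : ℝ) : ℂ)).re ^ 2 * 1 :=
        mul_le_mul_of_nonneg_left h2 (sq_nonneg _)
    _ ≤ _ := by rw [mul_one]; exact h3

open Classical in
/-- the zeros off the line -/
noncomputable def Off (T : ℝ) : Finset ℂ := (ZT T).filter (fun s => s.re ≠ 1 / 2)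

/-- **comparison of the two local sums** -/
theorem Zdiff {δ δ' lam H C : ℝ} {K : ℕ} {w : ℝ → ℝ} (hδ : 0 < δ) (hδ' : 0 ≤ δ') (hH : 1 ≤ H)
    (hC : 1 ≤ C) (hw : OmW δ H C K w) (hlam : lam + 2 * δ ≤ 3 * δ') {T u t : ℝ} (hT : 1 ≤ T)
    (hu : 0 ≤ u) (hu2 : u ≤ lam * Real.log T) :
    ‖Zt w T u t - Zo w T u t‖ ≤ 12 * C ^ 2 * H * ES (Off T) δ' H K T t := by
  classical
  have e1 : Zt w T u t - Zo w T u t = ∑ s ∈ Off T, (mz s : ℂ) *
      (zterm w T u t s - ((qr w T t s : ℝ) : ℂ) * cexp (((u * s.im : ℝ) : ℂ) * I)) := by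
    unfold Zt Zo Off
    rw [← Finset.sum_sub_distrib, Finset.sum_filter]
    refine Finset.sum_congr rfl fun s _ => ?_
    by_cases h : s.re = 1 / 2
    · rw [if_neg (by simpa using h)]
      have h1 := term_eq hw T u t h
      unfold zterm at h1
      rw [h1]
      push_cast
      ring
    · rw [if_pos (by simpa using h)]
      unfold zterm
      push_cast
      ring
  rw [e1]
  refine (norm_sum_le _ _).trans ?_
  unfold ES
  rw [Finset.mul_sum]
  refine Finset.sum_le_sum fun s hs => ?_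
  have hs1 : s ∈ ZT T := (Finset.mem_filter.1 hs).1
  obtain ⟨-, h0, h1⟩ := mem_ZT' hs1
  set x := Real.log T * (s.im - t) with hx
  set y := Real.log T * |s.re - 1 / 2| with hy
  have hL0 : 0 ≤ Real.log T := Real.log_nonneg hT
  have hy0 : 0 ≤ y := by positivity
  have b1 := zterm_bd hδ hH hC hw hlam hT hu hu2 (t := t) h0 h1
  have b2 : ‖((qr w T t s : ℝ) : ℂ) * cexp (((u * s.im : ℝ) : ℂ) * I)‖ ≤
      4 * C ^ 2 * H * Psi δ' H K x y := by
    rw [norm_mul, Complex.norm_exp_ofReal_mul_I, mul_one, Complex.norm_real, Real.norm_eq_abs,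
      abs_of_nonneg (qr_nonneg _ _ _ _)]
    refine (qr_bd hδ hC hw T t s).trans ?_
    have h2 := Psi_lower (δ' := δ') (K := K) hH x y
    have h3 : 1 ≤ Real.exp (3 * δ' * y) := Real.one_le_exp (by positivity)
    have hω : (0 : ℝ) ≤ (if |x| ≤ H then 1 else 1 / (1 + |(|x| - H)|) ^ K) := by
      split_ifs
      · exact zero_le_one
      · positivity
    have h4 : (if |x| ≤ H then 1 else 1 / (1 + |(|x| - H)|) ^ K) ≤ H * Psi δ' H K x y := by
      refine le_trans ?_ h2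
      nlinarith
    calc 4 * C ^ 2 * (if |x| ≤ H then 1 else 1 / (1 + |(|x| - H)|) ^ K) ≤
        4 * C ^ 2 * (H * Psi δ' H K x y) := mul_le_mul_of_nonneg_left h4 (by positivity)
      _ = _ := by ring
  have hm : (0 : ℝ) ≤ mz s := Nat.cast_nonneg _
  rw [norm_mul, Complex.norm_natCast]
  have b3 := (norm_sub_le (zterm w T u t s)
    (((qr w T t s : ℝ) : ℂ) * cexp (((u * s.im : ℝ) : ℂ) * I))).trans (add_le_add b1 b2)
  have b4 := mul_le_mul_of_nonneg_left b3 hm
  refine b4.trans (le_of_eq ?_)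
  ring

end Pool.Agent.Helper36
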