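import Pool.Agent.Helper36.N2

/-!
# The pair weights of the smooth windows
-/

set_option autoImplicit false

namespace Pool.Agent.Helper36

open Filter Topology MeasureTheory Set
open Pool.Agent.Q97.UM

/-- majorant for the difference of the smooth and the sharp window -/
noncomputable def gm (C H L r v : ℝ) : ℝ :=
  2 * C ^ 2 * ((1 + (L * v + -H) ^ 2)⁻¹ + (1 + (L * v + H) ^ 2)⁻¹) +
    r ^ 2 / 2 * (Icc (-r) r).indicator (fun _ => (1 : ℝ)) v

lemma gm_nonneg (C H L r v : ℝ) : 0 ≤ gm C H L r v := by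
  unfold gm
  have : 0 ≤ (Icc (-r) r).indicator (fun _ => (1 : ℝ)) v := indicator_nonneg (fun _ _ => zero_le_one) _
  positivity

lemma inv_int {L : ℝ} (hL : 0 < L) (H : ℝ) : Integrable (fun v : ℝ => (1 + (L * v + H) ^ 2)⁻¹) ∧
    ∫ v : ℝ, (1 + (L * v + H) ^ 2)⁻¹ = Real.pi / L := by
  have h1 : Integrable (fun x : ℝ => (1 + x ^ 2)⁻¹) := integrable_inv_one_add_sq
  have h2 : Integrable (fun x : ℝ => (1 + (x + H) ^ 2)⁻¹) := h1.comp_add_right H
  have h3 : Integrable (fun v : ℝ => (1 + (L * v + H) ^ 2)⁻¹) :=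
    h2.comp_mul_left' hL.ne'
  refine ⟨h3, ?_⟩
  have h4 := Measure.integral_comp_mul_left (fun x : ℝ => (1 + (x + H) ^ 2)⁻¹) L
  rw [h4, abs_of_pos (inv_pos.2 hL), smul_eq_mul,
    integral_add_right_eq_self (fun x : ℝ => (1 + x ^ 2)⁻¹) H, integral_univ_inv_one_add_sq]
  field_simp

lemma gm_int {C H L r : ℝ} (hL : 0 < L) (hr : 0 ≤ r) (hr3 : r ^ 3 ≤ 1 / L) (hC : 1 ≤ C) :
    Integrable (gm C H L r) ∧ ∫ v, gm C H L r v ≤ 14 * C ^ 2 / L := by
  obtain ⟨a1, a2⟩ := inv_int hL (-H)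
  obtain ⟨b1, b2⟩ := inv_int hL H
  have i1 : Integrable ((Icc (-r) r).indicator (fun _ => (1 : ℝ))) :=
    (integrable_indicator_iff measurableSet_Icc).2 (by simp)
  have i2 : ∫ v, (Icc (-r) r).indicator (fun _ => (1 : ℝ)) v = 2 * r := by
    rw [integral_indicator measurableSet_Icc]
    simp
    ring_nf
    rw [max_eq_left (by linarith)]
  have i3 : Integrable (gm C H L r) :=
    ((a1.add b1).const_mul _).add (i1.const_mul _)
  refine ⟨i3, ?_⟩
  unfold gm
  have i4 : Integrable (fun v : ℝ => (1 + (L * v + -H) ^ 2)⁻¹ + (1 + (L * v + H) ^ 2)⁻¹) :=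
    a1.add b1
  rw [integral_add (i4.const_mul _) (i1.const_mul _), integral_const_mul,
    integral_const_mul, integral_add a1 b1, a2, b2, i2]
  have hpi := Real.pi_lt_d2
  have h1 : r ^ 2 / 2 * (2 * r) = r ^ 3 := by ring
  rw [h1]
  have h2 : 2 * C ^ 2 * (Real.pi / L + Real.pi / L) = (4 * Real.pi * C ^ 2) / L := by ring
  rw [h2]
  have h3 : (4 * Real.pi * C ^ 2) / L + 1 / L ≤ 14 * C ^ 2 / L := by
    rw [← add_div]
    refine div_le_div_of_nonneg_right ?_ hL.le
    nlinarith [sq_nonneg C]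
  linarith

/-- the smooth window is close to the sharp one -/
lemma qr_near {δ H C : ℝ} {K : ℕ} {w : ℝ → ℝ} (hC : 1 ≤ C) (hK : 2 ≤ K) (hw : OmW δ H C K w)
    {T r : ℝ} (hL : 0 < Real.log T) (hr : r = H / Real.log T) (hr0 : 0 ≤ r) (t : ℝ) (s : ℂ) :
    |qr w T t s - (Icc (s.im - r) (s.im + r)).indicator (fun _ => (1 : ℝ)) t| ≤
      gm C H (Real.log T) r (s.im - t) := by
  set L := Real.log T with hLdef
  set v := s.im - t with hv
  have hrL : r * L = H := by rw [hr]; field_simp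
  obtain ⟨u1, u2, u3⟩ := hw.unit (L * v)
  set o := (om w ((L * v : ℝ) : ℂ)).re with ho
  have hoeq : om w ((L * v : ℝ) : ℂ) = (o : ℂ) := by
    refine Complex.ext ?_ ?_
    · rw [Complex.ofReal_re]
    · rw [Complex.ofReal_im]; exact u1
  have hq : qr w T t s = o ^ 2 * Real.exp (-v ^ 2 / 2) := by
    unfold qr
    rw [ho, hv, hLdef]
  have he0 := Real.exp_pos (-v ^ 2 / 2)
  have he1 : Real.exp (-v ^ 2 / 2) ≤ 1 := Real.exp_le_one_iff.2 (by
    have := sq_nonneg v
    linarith)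
  have hs1 : 0 ≤ (1 + (L * v + -H) ^ 2)⁻¹ := by positivity
  have hs2 : 0 ≤ (1 + (L * v + H) ^ 2)⁻¹ := by positivity
  -- the main comparison of kernels
  have hker : ∀ e : ℝ, e = |(|L * v| - H)| → 1 / (1 + e) ^ 2 ≤
      (1 + (L * v + -H) ^ 2)⁻¹ + (1 + (L * v + H) ^ 2)⁻¹ := by
    intro e he
    have he0 : 0 ≤ e := by rw [he]; exact abs_nonneg _
    have h1 : 1 / (1 + e) ^ 2 ≤ (1 + e ^ 2)⁻¹ := by
      rw [one_div]
      refine inv_anti₀ (by positivity) ?_
      nlinarith
    refine h1.trans ?_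
    have h2 : e ^ 2 = (|L * v| - H) ^ 2 := by rw [he, sq_abs]
    rw [h2]
    rcases abs_choice (L * v) with h | h
    · rw [h]
      have : L * v - H = L * v + -H := by ring
      rw [this]
      linarith
    · rw [h]
      have : (-(L * v) - H) ^ 2 = (L * v + H) ^ 2 := by ring
      rw [this]
      linarith
  rw [hq]
  by_cases h : |v| ≤ r
  · have hmem : t ∈ Icc (s.im - r) (s.im + r) := by
      obtain ⟨h1, h2⟩ := abs_le.1 h
      constructor <;> linarith
    have hmem2 : v ∈ Icc (-r) r := abs_le.1 h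
    rw [indicator_of_mem hmem]
    unfold gm
    rw [indicator_of_mem hmem2]
    have hLv : |L * v| ≤ H := by
      rw [abs_mul, abs_of_pos hL, ← hrL, mul_comm r]
      exact mul_le_mul_of_nonneg_left h hL.le
    have h1 := hw.near ((L * v : ℝ) : ℂ) (by rw [Complex.ofReal_re]; exact hLv)
    rw [Complex.ofReal_re, Complex.ofReal_im, abs_zero, mul_zero, Real.exp_zero, mul_one, hoeq] at h1
    have h2 : |o - 1| ≤ C / (1 + (H - |L * v|)) ^ K := by
      have : ‖((o : ℂ) - 1)‖ = |o - 1| := by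
        rw [← Complex.ofReal_one, ← Complex.ofReal_sub, Complex.norm_real, Real.norm_eq_abs]
      rw [this] at h1
      exact h1
    have h3 : C / (1 + (H - |L * v|)) ^ K ≤ C * (1 / (1 + |(|L * v| - H)|) ^ 2) := by
      rw [abs_sub_comm, abs_of_nonneg (by linarith : 0 ≤ H - |L * v|), mul_one_div]
      refine div_le_div_of_nonneg_left (by linarith) (by positivity) ?_
      exact pow_le_pow_right₀ (by linarith) hK
    have h4 := hker _ rfl
    have h5 : 1 - o ≤ C * ((1 + (L * v + -H) ^ 2)⁻¹ + (1 + (L * v + H) ^ 2)⁻¹) := by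
      have h6 := (abs_le.1 h2).1
      have h7 := mul_le_mul_of_nonneg_left h4 (show 0 ≤ C by linarith)
      linarith
    have h6 : 1 - v ^ 2 / 2 ≤ Real.exp (-v ^ 2 / 2) := by
      have := Real.add_one_le_exp (-v ^ 2 / 2)
      linarith
    have h7 : v ^ 2 ≤ r ^ 2 := by
      rw [← sq_abs v]
      exact pow_le_pow_left₀ (abs_nonneg _) h 2
    have h8 : o ^ 2 * Real.exp (-v ^ 2 / 2) ≤ 1 := by
      have : o ^ 2 ≤ 1 := by nlinarith
      nlinarith
    rw [abs_sub_comm, abs_of_nonneg (by linarith)]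
    have h9 : 1 - o ^ 2 * Real.exp (-v ^ 2 / 2) ≤ 2 * (1 - o) + v ^ 2 / 2 := by
      have h10 : o ^ 2 * (1 - v ^ 2 / 2) ≤ o ^ 2 * Real.exp (-v ^ 2 / 2) :=
        mul_le_mul_of_nonneg_left h6 (sq_nonneg _)
      nlinarith [sq_nonneg (1 - o), mul_nonneg (sq_nonneg v) (show 0 ≤ 1 - o ^ 2 by nlinarith)]
    have h11 : C ≤ C ^ 2 := by nlinarith
    have h12 := mul_le_mul_of_nonneg_right h11 (add_nonneg hs1 hs2)
    nlinarith
  · have hmem : t ∉ Icc (s.im - r) (s.im + r) := by
      intro h2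
      exact h (abs_le.2 ⟨by linarith [h2.2], by linarith [h2.1]⟩)
    have hmem2 : v ∉ Icc (-r) r := fun h2 => h (abs_le.2 h2)
    rw [indicator_of_notMem hmem, sub_zero]
    unfold gm
    rw [indicator_of_notMem hmem2, mul_zero, add_zero]
    push Not at h
    have hLv : H ≤ |L * v| := by
      rw [abs_mul, abs_of_pos hL, ← hrL, mul_comm r]
      exact mul_le_mul_of_nonneg_left h.le hL.le
    have h1 := hw.far ((L * v : ℝ) : ℂ) (by rw [Complex.ofReal_re]; exact hLv)
    rw [Complex.ofReal_re, Complex.ofReal_im, abs_zero, mul_zero, Real.exp_zero, mul_one, hoeq,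
      Complex.norm_real, Real.norm_eq_abs, abs_of_nonneg u2] at h1
    have h2 : C / (1 + (|L * v| - H)) ^ K ≤ C * (1 / (1 + |(|L * v| - H)|) ^ 2) := by
      rw [abs_of_nonneg (by linarith : 0 ≤ |L * v| - H), mul_one_div]
      refine div_le_div_of_nonneg_left (by linarith) (by positivity) ?_
      exact pow_le_pow_right₀ (by linarith) hK
    have h4 := hker _ rfl
    have h5 : o ≤ C * ((1 + (L * v + -H) ^ 2)⁻¹ + (1 + (L * v + H) ^ 2)⁻¹) := by
      have h7 := mul_le_mul_of_nonneg_left h4 (show 0 ≤ C by linarith)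
      linarith
    rw [abs_of_nonneg (by positivity)]
    have h6 : o ^ 2 * Real.exp (-v ^ 2 / 2) ≤ o := by
      have : o ^ 2 ≤ o := by nlinarith
      nlinarith [sq_nonneg o]
    have h11 : C ≤ 2 * C ^ 2 := by nlinarith
    have h12 := mul_le_mul_of_nonneg_right h11 (add_nonneg hs1 hs2)
    linarith

lemma qr_cont {δ H C : ℝ} {K : ℕ} {w : ℝ → ℝ} (hw : OmW δ H C K w) (T : ℝ) (s : ℂ) :
    Continuous fun t => qr w T t s := by
  have h := Pool.Agent.Q150.UM.om_cont hw
  unfold qr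
  have h1 : Continuous fun t : ℝ => om w ((Real.log T * (s.im - t) : ℝ) : ℂ) :=
    h.comp (Complex.continuous_ofReal.comp (by fun_prop))
  exact ((Complex.continuous_re.comp h1).pow 2).mul (by fun_prop)

lemma qr_le_one {δ H C : ℝ} {K : ℕ} {w : ℝ → ℝ} (hw : OmW δ H C K w) (T t : ℝ) (s : ℂ) :
    qr w T t s ≤ 1 := by
  obtain ⟨u1, u2, u3⟩ := hw.unit (Real.log T * (s.im - t))
  have he0 := Real.exp_pos (-(s.im - t) ^ 2 / 2)
  have he1 : Real.exp (-(s.im - t) ^ 2 / 2) ≤ 1 := Real.exp_le_one_iff.2 (by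
    have := sq_nonneg (s.im - t)
    linarith)
  unfold qr
  have : (om w ((Real.log T * (s.im - t) : ℝ) : ℂ)).re ^ 2 ≤ 1 := by nlinarith
  nlinarith

/-- **the pair weights** -/
theorem pair_wt {δ H C : ℝ} {K : ℕ} {w : ℝ → ℝ} (hC : 1 ≤ C) (hK : 2 ≤ K) (hw : OmW δ H C K w)
    {T r : ℝ} (hL : 0 < Real.log T) (hr : r = H / Real.log T) (hr0 : 0 ≤ r)
    (hr3 : r ^ 3 ≤ 1 / Real.log T) {a b : ℝ} (hab : a ≤ b) (s s' : ℂ) :
    |(∫ t in a..b, qr w T t s * qr w T t s') -
      max 0 (min b (min (s.im + r) (s'.im + r)) - max a (max (s.im - r) (s'.im - r)))| ≤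
      28 * C ^ 2 / Real.log T := by
  set L := Real.log T with hLdef
  obtain ⟨g1, g2⟩ := gm_int (H := H) hL hr0 hr3 hC
  set J := Icc (max (s.im - r) (s'.im - r)) (min (s.im + r) (s'.im + r)) with hJ
  rw [← ind_int hab]
  have hc := (qr_cont hw T s).mul (qr_cont hw T s')
  have hi1 : IntervalIntegrable (fun t => qr w T t s * qr w T t s') volume a b :=
    hc.intervalIntegrable _ _
  have hi2 := ind_ii a b (max (s.im - r) (s'.im - r)) (min (s.im + r) (s'.im + r))
  rw [← intervalIntegral.integral_sub hi1 hi2]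
  have hg : ∀ s : ℂ, Integrable (fun t => gm C H L r (s.im - t)) := fun s =>
    g1.comp_sub_left s.im
  have hgi : ∀ s : ℂ, ∫ t in a..b, gm C H L r (s.im - t) ≤ 14 * C ^ 2 / L := by
    intro s
    rw [intervalIntegral.integral_of_le hab]
    refine (setIntegral_le_integral (hg s) (Eventually.of_forall fun t => gm_nonneg _ _ _ _ _)).trans ?_
    rw [integral_sub_left_eq_self (gm C H L r) volume s.im]
    exact g2
  have hii : ∀ s : ℂ, IntervalIntegrable (fun t => gm C H L r (s.im - t)) volume a b := fun s =>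
    (hg s).intervalIntegrable
  refine (intervalIntegral.abs_integral_le_integral_abs hab).trans ?_
  have hmono : ∫ t in a..b, |qr w T t s * qr w T t s' -
      (Icc (max (s.im - r) (s'.im - r)) (min (s.im + r) (s'.im + r))).indicator (fun _ => (1 : ℝ)) t| ≤
      ∫ t in a..b, (gm C H L r (s.im - t) + gm C H L r (s'.im - t)) := by
    refine intervalIntegral.integral_mono_on hab (hi1.sub hi2).abs ((hii s).add (hii s')) fun t _ => ?_
    rw [← ind_mul]
    have n1 := qr_near hC hK hw hL hr hr0 t s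
    have n2 := qr_near hC hK hw hL hr hr0 t s'
    set q := qr w T t s with hq
    set q' := qr w T t s' with hq'
    set i := (Icc (s.im - r) (s.im + r)).indicator (fun _ => (1 : ℝ)) t with hi
    set i' := (Icc (s'.im - r) (s'.im + r)).indicator (fun _ => (1 : ℝ)) t with hi'
    have hq0 : 0 ≤ q' := qr_nonneg _ _ _ _
    have hq1 : q' ≤ 1 := qr_le_one hw T t s'
    have hi0 : 0 ≤ i := indicator_nonneg (fun _ _ => zero_le_one) _
    have hi1 : i ≤ 1 := indicator_le_self' (fun _ _ => zero_le_one) _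
    have e : q * q' - i * i' = (q - i) * q' + i * (q' - i') := by ring
    rw [e]
    refine (abs_add_le _ _).trans ?_
    rw [abs_mul, abs_mul, abs_of_nonneg hq0, abs_of_nonneg hi0]
    refine add_le_add ?_ ?_
    · calc |q - i| * q' ≤ |q - i| * 1 := mul_le_mul_of_nonneg_left hq1 (abs_nonneg _)
        _ ≤ _ := by rw [mul_one]; exact n1
    · calc i * |q' - i'| ≤ 1 * |q' - i'| := mul_le_mul_of_nonneg_right hi1 (abs_nonneg _)
        _ ≤ _ := by rw [one_mul]; exact n2
  refine hmono.trans ?_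
  rw [intervalIntegral.integral_add (hii s) (hii s')]
  have h1 := hgi s
  have h2 := hgi s'
  calc _ ≤ 14 * C ^ 2 / L + 14 * C ^ 2 / L := add_le_add h1 h2
    _ = _ := by ring

end Pool.Agent.Helper36
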