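import Pool.Agent.Helper36.M5b
import Pool.Agent.Helper36.N3

/-!
# Montgomery's theorem for the ordinates: sums
-/

set_option autoImplicit false

namespace Pool.Agent.Helper36

open Filter Topology MeasureTheory Set
open Pool.Agent.Y744 (QS Zb Xf kern)
open TH803TW (PP1 cell_bound PP1_nonneg)

/-- from the windows to the full sum -/
lemma W1 {ι : Type*} [DecidableEq ι] (Z Z1 S1 : Finset ι) (h1 : Z1 ⊆ Z) (h2 : S1 ⊆ Z1)
    {m x : ι → ℝ}
    (hm : ∀ s, 0 ≤ m s) {F J w2 : ι → ι → ℝ} (hF : ∀ s s', F s s' = F s' s) {r e : ℝ} (hr : 0 ≤ r)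
    (he : 0 ≤ e) (hJ0 : ∀ s s', 0 ≤ J s s') (hJ1 : ∀ s s', J s s' ≤ 2 * r)
    (hJ2 : ∀ s ∈ S1, ∀ s' ∈ S1, J s s' = tri r (x s - x s')) (hw : ∀ s s', |w2 s s' - J s s'| ≤ e) :
    |∑ s ∈ Z1, ∑ s' ∈ Z1, m s * m s' * (F s s' * w2 s s') -
      2 * r * ∑ s ∈ Z, ∑ s' ∈ Z, m s * m s' * F s s'| ≤
    e * (∑ s ∈ Z, ∑ s' ∈ Z, m s * m s' * |F s s'|) +
      (∑ s ∈ Z, ∑ s' ∈ Z, m s * m s' * (|F s s'| * min (2 * r) |x s - x s'|)) +
      4 * r * ∑ s ∈ Z.filter (fun s => s ∉ S1), ∑ s' ∈ Z, m s * m s' * |F s s'| := by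
  have e1 : ∑ s ∈ Z1, ∑ s' ∈ Z1, m s * m s' * (F s s' * w2 s s') =
      ∑ s ∈ Z, ∑ s' ∈ Z, (if s ∈ Z1 ∧ s' ∈ Z1 then m s * m s' * (F s s' * w2 s s') else 0) := by
    have g1 : ∀ s ∈ Z, ∑ s' ∈ Z, (if s ∈ Z1 ∧ s' ∈ Z1 then m s * m s' * (F s s' * w2 s s') else 0) =
        if s ∈ Z1 then ∑ s' ∈ Z1, m s * m s' * (F s s' * w2 s s') else 0 := by
      intro s _
      by_cases hs : s ∈ Z1
      · simp only [hs, true_and, if_true]
        rw [← Finset.sum_filter]
        refine Finset.sum_congr ?_ fun _ _ => rfl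
        ext s'
        rw [Finset.mem_filter]
        exact ⟨fun h => h.2, fun h => ⟨h1 h, h⟩⟩
      · simp only [hs, false_and, if_false, Finset.sum_const_zero]
    rw [Finset.sum_congr rfl g1, ← Finset.sum_filter]
    refine Finset.sum_congr ?_ fun _ _ => rfl
    ext s
    rw [Finset.mem_filter]
    exact ⟨fun h => ⟨h1 h, h⟩, fun h => h.2⟩
  have e2 : ∑ s ∈ Z1, ∑ s' ∈ Z1, m s * m s' * (F s s' * w2 s s') -
      2 * r * ∑ s ∈ Z, ∑ s' ∈ Z, m s * m s' * F s s' =
      ∑ s ∈ Z, ∑ s' ∈ Z, ((if s ∈ Z1 ∧ s' ∈ Z1 then m s * m s' * (F s s' * w2 s s') else 0) -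
        2 * r * (m s * m s' * F s s')) := by
    rw [e1, Finset.mul_sum, ← Finset.sum_sub_distrib]
    refine Finset.sum_congr rfl fun s _ => ?_
    rw [Finset.mul_sum, ← Finset.sum_sub_distrib]
  have hpt : ∀ s s', |(if s ∈ Z1 ∧ s' ∈ Z1 then m s * m s' * (F s s' * w2 s s') else 0) -
        2 * r * (m s * m s' * F s s')| ≤ e * (m s * m s' * |F s s'|) +
        m s * m s' * (|F s s'| * min (2 * r) |x s - x s'|) +
        2 * r * ((if s ∉ S1 then m s * m s' * |F s s'| else 0) +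
          (if s' ∉ S1 then m s * m s' * |F s s'| else 0)) := by
    intro s s'
    have hmm : 0 ≤ m s * m s' := mul_nonneg (hm s) (hm s')
    set A := m s * m s' * |F s s'| with hA
    have hA0 : 0 ≤ A := mul_nonneg hmm (abs_nonneg _)
    have hmin0 : 0 ≤ min (2 * r) |x s - x s'| := le_min (by linarith) (abs_nonneg _)
    have hmt : m s * m s' * (|F s s'| * min (2 * r) |x s - x s'|) =
        A * min (2 * r) |x s - x s'| := by rw [hA]; ring
    rw [hmt]
    have hi1 : 0 ≤ (if s ∉ S1 then A else 0) := by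
      split_ifs
      · exact le_rfl
      · exact hA0
    have hi2 : 0 ≤ (if s' ∉ S1 then A else 0) := by
      split_ifs
      · exact le_rfl
      · exact hA0
    by_cases hs : s ∈ S1 ∧ s' ∈ S1
    · have hz : s ∈ Z1 ∧ s' ∈ Z1 := ⟨h2 hs.1, h2 hs.2⟩
      rw [if_pos hz]
      have e3 : m s * m s' * (F s s' * w2 s s') - 2 * r * (m s * m s' * F s s') =
          m s * m s' * F s s' * (w2 s s' - 2 * r) := by ring
      rw [e3, abs_mul, abs_mul, abs_of_nonneg hmm, ← hA]
      have h4 : |w2 s s' - 2 * r| ≤ e + min (2 * r) |x s - x s'| := by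
        have h5 := hw s s'
        rw [hJ2 s hs.1 s' hs.2] at h5
        have h6 : |tri r (x s - x s') - 2 * r| = min (2 * r) |x s - x s'| := by
          unfold tri
          rcases le_total (2 * r) |x s - x s'| with h | h
          · rw [max_eq_left (by linarith), min_eq_left h, zero_sub, abs_neg,
              abs_of_nonneg (by linarith)]
          · rw [max_eq_right (by linarith), min_eq_right h]
            have : 2 * r - |x s - x s'| - 2 * r = -|x s - x s'| := by ring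
            rw [this, abs_neg, abs_abs]
        have h7 : w2 s s' - 2 * r = (w2 s s' - tri r (x s - x s')) +
            (tri r (x s - x s') - 2 * r) := by ring
        rw [h7]
        refine (abs_add_le _ _).trans ?_
        linarith
      have h5 := mul_le_mul_of_nonneg_left h4 hA0
      have h6 : 0 ≤ 2 * r * ((if s ∉ S1 then A else 0) + (if s' ∉ S1 then A else 0)) := by
        positivity
      linarith
    · have hind : A ≤ (if s ∉ S1 then A else 0) + (if s' ∉ S1 then A else 0) := by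
        by_cases hs1 : s ∈ S1
        · have hs2 : s' ∉ S1 := fun h => hs ⟨hs1, h⟩
          rw [if_neg (not_not.2 hs1), if_pos hs2]
          linarith
        · rw [if_pos hs1]
          linarith
      have h6 := mul_le_mul_of_nonneg_left hind (show 0 ≤ 2 * r by linarith)
      by_cases hz : s ∈ Z1 ∧ s' ∈ Z1
      · rw [if_pos hz]
        have e3 : m s * m s' * (F s s' * w2 s s') - 2 * r * (m s * m s' * F s s') =
            m s * m s' * F s s' * (w2 s s' - 2 * r) := by ring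
        rw [e3, abs_mul, abs_mul, abs_of_nonneg hmm, ← hA]
        have h4 : |w2 s s' - 2 * r| ≤ e + 2 * r := by
          have h5 := hw s s'
          have h7 : |J s s' - 2 * r| ≤ 2 * r := by
            rw [abs_le]
            constructor
            · linarith [hJ0 s s']
            · linarith [hJ1 s s']
          have h8 : w2 s s' - 2 * r = (w2 s s' - J s s') + (J s s' - 2 * r) := by ring
          rw [h8]
          exact (abs_add_le _ _).trans (add_le_add h5 h7)
        have h5 := mul_le_mul_of_nonneg_left h4 hA0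
        have h7 : 0 ≤ A * min (2 * r) |x s - x s'| := by positivity
        linarith
      · rw [if_neg hz, zero_sub, abs_neg, abs_mul (2 * r), abs_mul (m s * m s'), abs_of_nonneg hmm,
          abs_of_nonneg (by linarith : 0 ≤ 2 * r), ← hA]
        have : 0 ≤ e * A + A * min (2 * r) |x s - x s'| := by positivity
        linarith
  rw [e2]
  refine (Finset.abs_sum_le_sum_abs _ _).trans ?_
  refine (Finset.sum_le_sum fun s _ => (Finset.abs_sum_le_sum_abs _ _).trans
    (Finset.sum_le_sum fun s' _ => hpt s s')).trans ?_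
  simp_rw [Finset.sum_add_distrib, ← Finset.mul_sum]
  simp_rw [Finset.sum_add_distrib]
  have e5 : ∑ s ∈ Z, ∑ s' ∈ Z, (if s ∉ S1 then m s * m s' * |F s s'| else 0) =
      ∑ s ∈ Z.filter (fun s => s ∉ S1), ∑ s' ∈ Z, m s * m s' * |F s s'| := by
    rw [Finset.sum_filter]
    refine Finset.sum_congr rfl fun s _ => ?_
    by_cases h : s ∉ S1
    · simp only [h, not_false_eq_true, if_true]
    · simp only [h, if_false, Finset.sum_const_zero]
  have e6 : ∑ s ∈ Z, ∑ s' ∈ Z, (if s' ∉ S1 then m s * m s' * |F s s'| else 0) =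
      ∑ s ∈ Z.filter (fun s => s ∉ S1), ∑ s' ∈ Z, m s * m s' * |F s s'| := by
    rw [Finset.sum_comm, Finset.sum_filter]
    refine Finset.sum_congr rfl fun s _ => ?_
    by_cases h : s ∉ S1
    · simp only [h, not_false_eq_true, if_true]
      refine Finset.sum_congr rfl fun s' _ => ?_
      rw [hF, mul_comm (m s')]
    · simp only [h, if_false, Finset.sum_const_zero]
  rw [e5, e6]
  apply le_of_eq
  ring

/-- weights with an additional factor `min (2 r) |d|` -/
lemma minw {r L K y d : ℝ} {f : ℝ → ℝ} (hr : 0 ≤ r) (hL : 0 < L) (hK : 0 ≤ K)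
    (hf : ∀ y, |f y| ≤ K / (1 + y ^ 2)) (hy : y = d * L / (2 * Real.pi)) :
    |f y| * min (2 * r) |d| ≤ 80 * K * Real.sqrt (2 * r / L) *
      (1 / (1 + |d| * L) ^ ((3 : ℝ) / 2)) := by
  have hpi := Real.pi_gt_three
  have hpi2 := Real.pi_lt_d2
  set z := |d| * L with hz
  have hz0 : 0 ≤ z := by positivity
  have h1 : y ^ 2 = z ^ 2 / (2 * Real.pi) ^ 2 := by
    rw [hy, hz, div_pow, mul_pow d, mul_pow |d|, sq_abs]
  have h2 : 1 / (1 + y ^ 2) ≤ 80 * (1 / (1 + z) ^ 2) := by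
    rw [h1, mul_one_div, div_le_div_iff₀ (by positivity) (by positivity), one_mul]
    have h5 : (2 * Real.pi) ^ 2 ≤ 40 := by nlinarith
    have h6 : z ^ 2 / 40 ≤ z ^ 2 / (2 * Real.pi) ^ 2 :=
      div_le_div_of_nonneg_left (sq_nonneg _) (by positivity) h5
    nlinarith [sq_nonneg (z - 1)]
  have h3 : min (2 * r) |d| ≤ Real.sqrt (2 * r / L) * (1 + z) ^ ((1 : ℝ) / 2) := by
    rw [← Real.sqrt_eq_rpow, ← Real.sqrt_mul (by positivity)]
    refine Real.le_sqrt_of_sq_le ?_
    have h4 : min (2 * r) |d| ^ 2 ≤ (2 * r) * |d| := by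
      rw [sq]
      exact mul_le_mul (min_le_left _ _) (min_le_right _ _) (le_min (by linarith) (abs_nonneg _))
        (by linarith)
    refine h4.trans ?_
    have h5 : 2 * r / L * (1 + z) = 2 * r / L + 2 * r * |d| := by
      rw [hz]
      field_simp
    rw [h5]
    have : 0 ≤ 2 * r / L := by positivity
    linarith
  have h4 : |f y| ≤ K * (80 * (1 / (1 + z) ^ 2)) := by
    refine (hf y).trans ?_
    rw [div_eq_mul_one_div]
    exact mul_le_mul_of_nonneg_left h2 hK
  have h5 : (0 : ℝ) < 1 + z := by linarith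
  have h6 : (1 / (1 + z) ^ 2) * (1 + z) ^ ((1 : ℝ) / 2) = 1 / (1 + z) ^ ((3 : ℝ) / 2) := by
    have h7 : (1 + z) ^ 2 = (1 + z) ^ ((3 : ℝ) / 2) * (1 + z) ^ ((1 : ℝ) / 2) := by
      rw [← Real.rpow_add h5]
      norm_num
    have h8 : 0 < (1 + z) ^ ((3 : ℝ) / 2) := Real.rpow_pos_of_pos h5 _
    have h9 : 0 < (1 + z) ^ ((1 : ℝ) / 2) := Real.rpow_pos_of_pos h5 _
    rw [h7]
    field_simp
  calc |f y| * min (2 * r) |d| ≤ (K * (80 * (1 / (1 + z) ^ 2))) *
        (Real.sqrt (2 * r / L) * (1 + z) ^ ((1 : ℝ) / 2)) :=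
        mul_le_mul h4 h3 (le_min (by linarith) (abs_nonneg _)) (by positivity)
    _ = 80 * K * Real.sqrt (2 * r / L) * ((1 / (1 + z) ^ 2) * (1 + z) ^ ((1 : ℝ) / 2)) := by ring
    _ = _ := by rw [h6]

/-- the sum with `min (2 r) |d|` -/
lemma F_min {ι : Type*} (Z : Finset ι) {m x : ι → ℝ} (hm : ∀ s, 0 ≤ m s) {f : ℝ → ℝ} {K r L : ℝ}
    (hr : 0 ≤ r) (hL : 0 < L) (hK : 0 ≤ K) (hf : ∀ y, |f y| ≤ K / (1 + y ^ 2)) :
    ∑ s ∈ Z, ∑ s' ∈ Z, m s * m s' * (|f ((x s - x s') * L / (2 * Real.pi))| *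
      min (2 * r) |x s - x s'|) ≤ 3200 * K * Real.sqrt (2 * r / L) * PP1 Z m x L := by
  have h1 := cell_bound Z Z hm (x := x) hL one_pos
  calc ∑ s ∈ Z, ∑ s' ∈ Z, m s * m s' * (|f ((x s - x s') * L / (2 * Real.pi))| *
      min (2 * r) |x s - x s'|) ≤ ∑ s ∈ Z, ∑ s' ∈ Z, 80 * K * Real.sqrt (2 * r / L) *
        (m s * m s' * (1 / (1 + |x s - x s'| * L) ^ ((3 : ℝ) / 2))) := by
        refine Finset.sum_le_sum fun s _ => Finset.sum_le_sum fun s' _ => ?_
        have h2 := minw (d := x s - x s') hr hL hK hf rfl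
        have h3 := mul_le_mul_of_nonneg_left h2 (mul_nonneg (hm s) (hm s'))
        refine h3.trans (le_of_eq ?_)
        ring
    _ = 80 * K * Real.sqrt (2 * r / L) * ∑ s ∈ Z, ∑ s' ∈ Z,
          (m s * m s' * (1 / (1 + |x s - x s'| * L) ^ ((3 : ℝ) / 2))) := by
        rw [Finset.mul_sum]
        refine Finset.sum_congr rfl fun s _ => ?_
        rw [Finset.mul_sum]
    _ ≤ 80 * K * Real.sqrt (2 * r / L) * (20 * (1 * PP1 Z m x L + 1 / 1 * PP1 Z m x L)) :=
        mul_le_mul_of_nonneg_left h1 (by positivity)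
    _ = _ := by ring

end Pool.Agent.Helper36
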