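import Pool.Agent.Helper36.N4a

/-!
# Montgomery's theorem for the ordinates: the quadratic forms
-/

set_option autoImplicit false

namespace Pool.Agent.Helper36

open Filter Topology MeasureTheory Set Complex
open Pool.Agent.Q97.UM
open Pool.Agent.Results.MP_103a5c_nt.BohrSetPairs (r sc TestFn r_sc cR_sc sc_dec)

variable {R : ℝ → ℝ} {κ : ℝ}

lemma sc_cont (hR : TestFn R κ) : Continuous (sc R κ) := by
  unfold sc
  exact continuous_const.mul (hR.cont.comp (by fun_prop))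

lemma sc_even (hR : TestFn R κ) (α : ℝ) : sc R κ (-α) = sc R κ α := by
  unfold sc; rw [mul_neg, hR.even]

/-- the test function as a cosine integral over `[0, 1]` -/
lemma r_half (hR : TestFn R κ) (h0 : 0 < κ) (h1 : κ < 1) (L d : ℝ) :
    r R (d * L / (2 * Real.pi)) =
      2 * ∫ α in (0 : ℝ)..1, sc R κ α * Real.cos (α * (κ * L * d)) := by
  have hpi := Real.pi_pos
  have e1 := r_sc hR h0 h1 (κ * L * d)
  have e2 : κ * L * d / (2 * Real.pi * κ) = d * L / (2 * Real.pi) := by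
    field_simp
  rw [e2] at e1
  rw [← e1]
  have hc : Continuous fun α => sc R κ α * Real.cos (κ * L * d * α) :=
    (sc_cont hR).mul (by fun_prop)
  unfold TH803TW.rk
  rw [← intervalIntegral.integral_add_adjacent_intervals (b := (0 : ℝ))
    (hc.intervalIntegrable _ _) (hc.intervalIntegrable _ _)]
  have h2 : ∫ α in (-1 : ℝ)..0, sc R κ α * Real.cos (κ * L * d * α) =
      ∫ α in (0 : ℝ)..1, sc R κ α * Real.cos (κ * L * d * α) := by
    have h3 := intervalIntegral.integral_comp_neg (a := (0 : ℝ)) (b := 1)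
      (fun α => sc R κ α * Real.cos (κ * L * d * α))
    rw [neg_zero] at h3
    rw [← h3]
    refine intervalIntegral.integral_congr fun α _ => ?_
    change sc R κ (-α) * Real.cos (κ * L * d * -α) = sc R κ α * Real.cos (κ * L * d * α)
    rw [sc_even hR, mul_neg, Real.cos_neg]
  rw [h2, ← two_mul]
  congr 1
  refine intervalIntegral.integral_congr fun α _ => ?_
  change sc R κ α * Real.cos (κ * L * d * α) = sc R κ α * Real.cos (α * (κ * L * d))
  rw [mul_comm (κ * L * d)]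

lemma Zo_sq (w : ℝ → ℝ) (T u t : ℝ) : ‖Zo w T u t‖ ^ 2 =
    ∑ s ∈ ZT T, ∑ s' ∈ ZT T, (mz s : ℝ) * mz s' * (Real.cos (u * s.im - u * s'.im) *
      (qr w T t s * qr w T t s')) := by
  unfold Zo
  have h := Pool.Agent.Q153.UM.normSq_sum (ZT T) (fun s => (mz s : ℝ) * qr w T t s)
    (fun s => u * s.im)
  rw [h]
  refine Finset.sum_congr rfl fun s _ => Finset.sum_congr rfl fun s' _ => ?_
  ring

lemma Zo_sq_int {δ H C : ℝ} {K : ℕ} {w : ℝ → ℝ} (hw : OmW δ H C K w) (T u a b : ℝ) :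
    ∫ t in a..b, ‖Zo w T u t‖ ^ 2 =
    ∑ s ∈ ZT T, ∑ s' ∈ ZT T, (mz s : ℝ) * mz s' * (Real.cos (u * s.im - u * s'.im) *
      ∫ t in a..b, qr w T t s * qr w T t s') := by
  have hi : ∀ s s' : ℂ, IntervalIntegrable (fun t => (mz s : ℝ) * mz s' *
      (Real.cos (u * s.im - u * s'.im) * (qr w T t s * qr w T t s'))) volume a b := fun s s' =>
    Continuous.intervalIntegrable (continuous_const.mul (continuous_const.mul
      ((qr_cont hw T s).mul (qr_cont hw T s')))) _ _
  simp_rw [Zo_sq]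
  rw [intervalIntegral.integral_finsetSum]
  · refine Finset.sum_congr rfl fun s _ => ?_
    rw [intervalIntegral.integral_finsetSum fun s' _ => hi s s']
    refine Finset.sum_congr rfl fun s' _ => ?_
    rw [intervalIntegral.integral_const_mul, intervalIntegral.integral_const_mul]
  · intro s _
    have h3 := IntervalIntegrable.sum (ZT T) fun s' _ => hi s s'
    refine h3.congr fun t _ => ?_
    simp only [Finset.sum_apply]

/-- the quadratic form of the ordinates -/
theorem PSE2 (hR : TestFn R κ) (h0 : 0 < κ) (h1 : κ < 1) {δ H C : ℝ} {K : ℕ} {w : ℝ → ℝ}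
    (hw : OmW δ H C K w) (T a b : ℝ) :
    2 * ∫ α in (0 : ℝ)..1, sc R κ α * ∫ t in a..b, ‖Zo w T (κ * Real.log T * α) t‖ ^ 2 =
    ∑ s ∈ ZT T, ∑ s' ∈ ZT T, (mz s : ℝ) * mz s' *
      (r R ((s.im - s'.im) * Real.log T / (2 * Real.pi)) *
        ∫ t in a..b, qr w T t s * qr w T t s') := by
  have hint : ∀ s s' : ℂ, IntervalIntegrable (fun α : ℝ => (mz s : ℝ) * mz s' *
      (∫ t in a..b, qr w T t s * qr w T t s') *
      (sc R κ α * Real.cos (α * (κ * Real.log T * (s.im - s'.im))))) volume 0 1 := by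
    intro s s'
    refine Continuous.intervalIntegrable ?_ _ _
    exact continuous_const.mul ((sc_cont hR).mul (by fun_prop))
  have e1 : ∀ α : ℝ, sc R κ α * ∫ t in a..b, ‖Zo w T (κ * Real.log T * α) t‖ ^ 2 =
      ∑ s ∈ ZT T, ∑ s' ∈ ZT T, (mz s : ℝ) * mz s' *
        (∫ t in a..b, qr w T t s * qr w T t s') *
        (sc R κ α * Real.cos (α * (κ * Real.log T * (s.im - s'.im)))) := by
    intro α
    rw [Zo_sq_int hw, Finset.mul_sum]
    refine Finset.sum_congr rfl fun s _ => ?_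
    rw [Finset.mul_sum]
    refine Finset.sum_congr rfl fun s' _ => ?_
    have h2 : κ * Real.log T * α * s.im - κ * Real.log T * α * s'.im =
        α * (κ * Real.log T * (s.im - s'.im)) := by ring
    rw [h2]
    ring
  simp_rw [e1]
  rw [intervalIntegral.integral_finsetSum, Finset.mul_sum]
  · refine Finset.sum_congr rfl fun s _ => ?_
    rw [intervalIntegral.integral_finsetSum fun s' _ => hint s s', Finset.mul_sum]
    refine Finset.sum_congr rfl fun s' _ => ?_
    rw [intervalIntegral.integral_const_mul, r_half hR h0 h1]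
    ring
  · intro s _
    have h3 := IntervalIntegrable.sum (ZT T) fun s' _ => hint s s'
    refine h3.congr fun α _ => ?_
    simp only [Finset.sum_apply]

lemma Zo_cont {δ H C : ℝ} {K : ℕ} {w : ℝ → ℝ} (hw : OmW δ H C K w) (T u : ℝ) :
    Continuous (Zo w T u) := by
  unfold Zo
  refine continuous_finsetSum _ fun s _ => ?_
  exact (Complex.continuous_ofReal.comp (continuous_const.mul (qr_cont hw T s))).mul
    continuous_const

/-- comparison of squares -/
lemma sq_cmp (z z' : ℂ) {τ : ℝ} (hτ : 0 < τ) :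
    |‖z‖ ^ 2 - ‖z'‖ ^ 2| ≤ τ * ‖z‖ ^ 2 + (1 + 1 / τ) * ‖z - z'‖ ^ 2 := by
  have h1 : |‖z‖ - ‖z'‖| ≤ ‖z - z'‖ := abs_norm_sub_norm_le z z'
  set d := ‖z - z'‖ with hd
  have hd0 : 0 ≤ d := norm_nonneg _
  have e : ‖z‖ ^ 2 - ‖z'‖ ^ 2 = (‖z‖ - ‖z'‖) * (2 * ‖z‖ - (‖z‖ - ‖z'‖)) := by ring
  have h2 : |‖z‖ ^ 2 - ‖z'‖ ^ 2| ≤ d * (2 * ‖z‖ + d) := by
    rw [e, abs_mul]
    refine mul_le_mul h1 ?_ (abs_nonneg _) hd0
    refine (abs_sub _ _).trans ?_
    rw [abs_mul, abs_two, abs_norm]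
    linarith
  have h3 : 2 * ‖z‖ * d ≤ τ * ‖z‖ ^ 2 + 1 / τ * d ^ 2 := by
    have h4 : 0 ≤ (τ * ‖z‖ - d) ^ 2 / τ := by positivity
    have h5 : (τ * ‖z‖ - d) ^ 2 / τ = τ * ‖z‖ ^ 2 - 2 * ‖z‖ * d + 1 / τ * d ^ 2 := by
      field_simp
      ring
    linarith
  have h4 : d * (2 * ‖z‖ + d) = 2 * ‖z‖ * d + d ^ 2 := by ring
  have h5 : (1 + 1 / τ) * d ^ 2 = d ^ 2 + 1 / τ * d ^ 2 := by ring
  linarith

end Pool.Agent.Helper36
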