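import Pool.Agent.Helper36.N4b

/-!
# Montgomery's theorem for the ordinates: the Fourier side
-/

set_option autoImplicit false

namespace Pool.Agent.Helper36

open Filter Topology MeasureTheory Set Complex
open Pool.Agent.Q97.UM
open Pool.Agent.Results.MP_103a5c_nt.BohrSetPairs (r sc TestFn r_sc cR_sc sc_dec mont)

lemma Zo_int_cont {δ H C : ℝ} {K : ℕ} {w : ℝ → ℝ} (hw : OmW δ H C K w) (T c a b : ℝ) :
    Continuous fun α : ℝ => ∫ t in a..b, ‖Zo w T (c * α) t‖ ^ 2 := by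
  have e : (fun α : ℝ => ∫ t in a..b, ‖Zo w T (c * α) t‖ ^ 2) = fun α : ℝ =>
      ∑ s ∈ ZT T, ∑ s' ∈ ZT T, (mz s : ℝ) * mz s' *
        (Real.cos (c * α * s.im - c * α * s'.im) * ∫ t in a..b, qr w T t s * qr w T t s') := by
    funext α
    exact Zo_sq_int hw T (c * α) a b
  rw [e]
  refine continuous_finsetSum _ fun s _ => continuous_finsetSum _ fun s' _ => ?_
  refine continuous_const.mul (Continuous.mul ?_ continuous_const)
  fun_prop

lemma Zt_int_cont {δ H C : ℝ} {K : ℕ} {w : ℝ → ℝ} (hw : OmW δ H C K w) (hδ : 0 < δ) (T c a b : ℝ) :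
    Continuous fun α : ℝ => ∫ t in a..b, ‖Zt w T (c * α) t‖ ^ 2 := by
  have h1 := Zt_cont hw hδ T c
  refine intervalIntegral.continuous_parametric_intervalIntegral_of_continuous'
    (f := fun (α : ℝ) (t : ℝ) => ‖Zt w T (c * α) t‖ ^ 2) ?_ a b
  change Continuous fun p : ℝ × ℝ => ‖Zt w T (c * p.1) p.2‖ ^ 2
  exact h1.norm.pow 2

lemma Zt_ii {δ H C : ℝ} {K : ℕ} {w : ℝ → ℝ} (hw : OmW δ H C K w) (hδ : 0 < δ) (T u a b : ℝ) :
    IntervalIntegrable (fun t => ‖Zt w T u t‖ ^ 2) volume a b := by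
  have h1 : Continuous (Zt w T u) := by
    have h2 := (Zt_cont hw hδ T 1).comp
      (continuous_const.prodMk continuous_id : Continuous fun t : ℝ => (u, t))
    simp only [Function.comp_def, one_mul] at h2
    exact h2
  exact (h1.norm.pow 2).intervalIntegrable _ _

lemma sc_lip {R : ℝ → ℝ} {κ D : ℝ} (h0 : 0 < κ) (h1 : κ ≤ 1) (hD : 0 ≤ D)
    (hR : ∀ x y : ℝ, |R x - R y| ≤ D * |x - y|) (x y : ℝ) : |sc R κ x - sc R κ y| ≤ D * |x - y| := by
  unfold sc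
  rw [← mul_sub, abs_mul, abs_of_pos h0]
  have h2 := hR (κ * x) (κ * y)
  rw [← mul_sub, abs_mul, abs_of_pos h0] at h2
  have h3 : 0 ≤ D * |x - y| := mul_nonneg hD (abs_nonneg _)
  have h4 : κ * |R (κ * x) - R (κ * y)| ≤ κ * (D * (κ * |x - y|)) :=
    mul_le_mul_of_nonneg_left h2 h0.le
  have h5 : κ * (D * (κ * |x - y|)) = κ ^ 2 * (D * |x - y|) := by ring
  have h6 : κ ^ 2 ≤ 1 := by nlinarith
  nlinarith

lemma sc_bd {R : ℝ → ℝ} {κ D : ℝ} (hT : TestFn R κ) (h0 : 0 < κ) (h1 : κ ≤ 1) (hD : 0 ≤ D)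
    (hR : ∀ x y : ℝ, |R x - R y| ≤ D * |x - y|) {α : ℝ} (ha : 0 ≤ α) (ha1 : α ≤ 1) :
    |sc R κ α| ≤ D := by
  have h2 := sc_lip h0 h1 hD hR α 1
  have h3 : sc R κ 1 = 0 := by
    unfold sc
    rw [mul_one, hT.supp κ (le_abs_self κ), mul_zero]
  rw [h3, sub_zero, abs_sub_comm, abs_of_nonneg (by linarith : 0 ≤ 1 - α)] at h2
  nlinarith

/-- the difference of the mean squares for one frequency -/
lemma ZoZt {δ δ' H C κ : ℝ} {K : ℕ} {w : ℝ → ℝ} (hδ : 0 < δ) (hδ' : 0 ≤ δ') (hH : 1 ≤ H)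
    (hC : 1 ≤ C) (hw : OmW δ H C K w) (hlam : κ + 2 * δ ≤ 3 * δ') {T u a b τ : ℝ} (hT : 1 ≤ T)
    (hu : 0 ≤ u) (hu2 : u ≤ κ * Real.log T) (hab : a ≤ b) (hτ : 0 < τ) {G : ℝ → ℝ}
    (hG : IntervalIntegrable G volume a b)
    (hES : ∀ t, 0 ≤ ES (Off T) δ' H K T t ∧ ES (Off T) δ' H K T t ^ 2 ≤ G t) :
    |(∫ t in a..b, ‖Zo w T u t‖ ^ 2) - ∫ t in a..b, ‖Zt w T u t‖ ^ 2| ≤
      τ * (∫ t in a..b, ‖Zt w T u t‖ ^ 2) + (1 + 1 / τ) * (12 * C ^ 2 * H) ^ 2 * ∫ t in a..b, G t := by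
  have hi1 := Zt_ii hw hδ T u a b
  have hi2 : IntervalIntegrable (fun t => ‖Zo w T u t‖ ^ 2) volume a b :=
    ((Zo_cont hw T u).norm.pow 2).intervalIntegrable _ _
  rw [← intervalIntegral.integral_sub hi2 hi1, ← intervalIntegral.integral_const_mul,
    ← intervalIntegral.integral_const_mul, ← intervalIntegral.integral_add (hi1.const_mul _)
      (hG.const_mul _)]
  refine (intervalIntegral.abs_integral_le_integral_abs hab).trans ?_
  refine intervalIntegral.integral_mono_on hab (hi2.sub hi1).abs ((hi1.const_mul _).add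
    (hG.const_mul _)) fun t _ => ?_
  have h1 := sq_cmp (Zt w T u t) (Zo w T u t) hτ
  have h2 := Zdiff hδ hδ' hH hC hw hlam hT hu hu2 (t := t)
  obtain ⟨h3, h4⟩ := hES t
  have h5 : ‖Zt w T u t - Zo w T u t‖ ^ 2 ≤ (12 * C ^ 2 * H) ^ 2 * G t := by
    have h6 := pow_le_pow_left₀ (norm_nonneg _) h2 2
    rw [mul_pow] at h6
    exact h6.trans (mul_le_mul_of_nonneg_left h4 (by positivity))
  have h6 : 0 ≤ 1 + 1 / τ := by positivity
  have h7 := mul_le_mul_of_nonneg_left h5 h6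
  rw [abs_sub_comm]
  rw [mul_assoc]
  linarith

/-- **the quadratic form of the ordinates**, given that almost all zeros are on the line -/
theorem PAIRo : ∃ κ₀ : ℝ, 0 < κ₀ ∧ κ₀ ≤ 1 / 400 ∧ ∃ K₀ : ℕ, 2 ≤ K₀ ∧ ∀ K : ℕ, K₀ ≤ K →
    ∀ (R : ℝ → ℝ) (κ D : ℝ), TestFn R κ → 0 < κ → κ ≤ κ₀ → 0 ≤ D →
    (∀ x y : ℝ, |R x - R y| ≤ D * |x - y|) → ∃ C₁ : ℝ, 1 ≤ C₁ ∧
    ∀ (δ H C : ℝ) (w : ℝ → ℝ) (θ ε : ℝ), 0 < δ → 3 * δ ≤ κ → 1 ≤ H → 1 ≤ C → OmW δ H C K w →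
    0 < θ → θ ≤ 1 / 40 → 0 < ε → ∃ η : ℝ, 0 < η ∧ ∀ᶠ T : ℝ in atTop,
      ∑ s ∈ Off T, (mz s : ℝ) ≤ η * (T * Real.log T) →
      |(2 * ∫ α in (0 : ℝ)..1, sc R κ α * ∫ t in (T + 2 * Real.log T)..(2 * T - 2 * Real.log T),
          ‖Zo w T (κ * Real.log T * α) t‖ ^ 2) - mont R * I2 w * T| ≤
        (C₁ * (Real.sqrt δ + Real.sqrt θ) * I2 w + ε) * T := by
  classical
  obtain ⟨c, hc, hc1, K₀, hES⟩ := ES2
  refine ⟨c / 400, by positivity, by linarith, max K₀ 2, le_max_right _ _,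
    fun K hK R κ D hTF hκ hκ1 hD hR => ?_⟩
  have hK2 : 2 ≤ K := (le_max_right _ _).trans hK
  set δ' : ℝ := c / 400 with hδ'
  have hδ'0 : 0 < δ' := by positivity
  obtain ⟨C₅, hC₅, hES⟩ := hES K ((le_max_left _ _).trans hK) δ' hδ'0 le_rfl
  have hκ400 : κ ≤ 1 / 400 := by linarith
  obtain ⟨C₁, hC₁, hPAIR⟩ := b_PAIR (sc R κ) D κ (sc_lip hκ (by linarith) hD hR) hκ (by linarith)
  refine ⟨C₁, hC₁, fun δ H C w θ ε hδ hδκ hH hC hw hθ hθ1 hε => ?_⟩
  have hδ1 : δ ≤ 1 / 16 := by linarith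
  obtain ⟨C₀, hC₀, hZU⟩ := b_ZU
  obtain ⟨D₁, hD₁, hQB⟩ := Pool.Agent.Q150.UM.qb_of Pool.Agent.Q176.UM.t_QH
    Pool.Agent.Q247.UM.t_QLF hδ (by linarith) hH hC hK2 hw
  have hI2 : 0 ≤ I2 w := Pool.Agent.Q150.UM.I2_nonneg w
  set A₁ : ℝ := 2 * D₁ ^ 2 + κ * I2 w + C₀ * (δ + Real.sqrt θ) * I2 w + 1 with hA₁
  have hA₁0 : 0 < A₁ := by positivity
  set τ : ℝ := ε / (8 * (D + 1) * A₁) with hτ
  have hτ0 : 0 < τ := by positivity
  set B : ℝ := (1 + 1 / τ) * (12 * C ^ 2 * H) ^ 2 with hB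
  have hB0 : 0 < B := by positivity
  set σ : ℝ := ε / (8 * (D + 1) * (B * C₅ + 1)) with hσ
  have hσ0 : 0 < σ := by positivity
  refine ⟨σ ^ 2, by positivity, ?_⟩
  have ev1 := hPAIR δ H C K w θ (ε / 2) hδ hδ1 hδκ (by linarith) hH hC hK2 hw hθ hθ1 (by positivity)
  have ev2 := hZU δ H C K w θ 1 1 hδ hδ1 hH hC hK2 hw hθ hθ1 one_pos one_pos le_rfl
  filter_upwards [ev1, ev2, hES H hH (σ ^ 2) (by positivity), Pool.Agent.Q150.UM.ev_log 1,
    Pool.Agent.Q150.UM.ev_loglin (1 / 16) (by norm_num), eventually_ge_atTop (1 : ℝ)]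
    with T h1 h2 h3 hL1 hL16 hT1 hoff
  set L := Real.log T with hL
  have hL0 : 0 < L := by linarith
  have hT0 : 0 < T := by linarith
  set a := T + 2 * L with ha
  set b := 2 * T - 2 * L with hb
  have hab : a ≤ b := by rw [ha, hb]; linarith
  obtain ⟨G, hG, hG0, hGE, hGI⟩ := h3 (Off T) (Finset.filter_subset _ _) hoff
  rw [Real.sqrt_sq hσ0.le] at hGI
  have hGi : IntervalIntegrable G volume a b := by
    refine hG.mono_set ?_
    rw [uIcc_of_le hab, uIcc_of_le (by linarith)]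
    exact Icc_subset_Icc (by rw [ha]; linarith) (by rw [hb]; linarith)
  have hGi2 : ∫ t in a..b, G t ≤ C₅ * σ * T := by
    refine le_trans ?_ hGI
    refine intervalIntegral.integral_mono_interval (by rw [ha]; linarith) hab (by rw [hb]; linarith)
      (Eventually.of_forall fun t => hG0 t) hG
  have h1' := h1 1 (by
      rw [Nat.cast_one]
      exact Real.one_le_rpow hT1 (by positivity)) b1
  have h2' : ∀ u : ℝ, 0 ≤ u → u ≤ κ * L → ∫ t in a..b, ‖Zt w T u t‖ ^ 2 ≤ A₁ * T := by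
    intro u hu0 hu1
    have g1 := h2 1 (by
      rw [Nat.cast_one]
      exact Real.one_le_rpow hT1 (by positivity)) b1 u hu0 (hu1.trans
        (mul_le_mul_of_nonneg_right (by linarith) hL0.le))
    simp only [dp_b1, norm_one, one_pow, mul_one, N2_b1] at g1
    have g2 := (abs_le.1 g1).2
    have g3 : QL w L u ^ 2 ≤ D₁ ^ 2 := by
      have g4 := (hQB L hL1).bdd u
      have g5 := pow_le_pow_left₀ (abs_nonneg _) g4 2
      rwa [sq_abs] at g5
    have g4 : u / L * I2 w ≤ κ * I2 w := by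
      refine mul_le_mul_of_nonneg_right ?_ hI2
      rw [div_le_iff₀ hL0]
      exact hu1
    have g5 : (if 3 * δ * L ≤ u then C₀ * (δ + Real.sqrt θ) * I2 w else
        1 * QL w L u ^ 2 + C₀ / 1 * (δ + Real.sqrt θ) * I2 w) ≤
        D₁ ^ 2 + C₀ * (δ + Real.sqrt θ) * I2 w := by
      split_ifs
      · have : 0 ≤ D₁ ^ 2 := sq_nonneg _
        linarith
      · rw [one_mul, div_one]
        linarith
    have g6 : (if 3 * δ * L ≤ u then C₀ * (δ + Real.sqrt θ) * I2 w else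
        1 * QL w L u ^ 2 + C₀ / 1 * (δ + Real.sqrt θ) * I2 w) = (if 3 * δ * L ≤ u then
        C₀ * (δ + Real.sqrt θ) * I2 w else QL w L u ^ 2 + C₀ / 1 * (δ + Real.sqrt θ) * I2 w) := by
      rw [one_mul]
    rw [g6] at g5
    have g7 : (QL w L u ^ 2 + u / L * I2 w + ((if 3 * δ * L ≤ u then
        C₀ * (δ + Real.sqrt θ) * I2 w else QL w L u ^ 2 + C₀ / 1 * (δ + Real.sqrt θ) * I2 w) + 1)) * T
        ≤ A₁ * T := by
      refine mul_le_mul_of_nonneg_right ?_ hT0.le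
      rw [hA₁]
      linarith
    have g8 : (∫ t in a..b, ‖Zt w T u t‖ ^ 2) ≤ (QL w L u ^ 2 + u / L * I2 w + ((if 3 * δ * L ≤ u then
        C₀ * (δ + Real.sqrt θ) * I2 w else QL w L u ^ 2 + C₀ / 1 * (δ + Real.sqrt θ) * I2 w) + 1)) * T := by
      have e : ∀ x y z : ℝ, (x + (z + 1)) * T = x * T + (z + 1) * T := fun x y z => by ring
      rw [e _ 0 _]
      simp only [one_mul] at g2
      linarith
    exact g8.trans g7
  simp only [dp_b1, norm_one, one_pow, mul_one, N2_b1] at h1'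
  have e0 : sc R κ 0 / κ + 2 * κ * ∫ α in (0 : ℝ)..1, α * sc R κ α = mont R := by
    have := cR_sc hTF hκ (by linarith : κ < 1)
    unfold H295SI.cR at this
    exact this
  rw [e0] at h1'
  -- difference
  have hi1 : IntervalIntegrable (fun α : ℝ => sc R κ α * ∫ t in a..b, ‖Zo w T (κ * L * α) t‖ ^ 2)
      volume 0 1 := ((sc_cont hTF).mul (Zo_int_cont hw T (κ * L) a b)).intervalIntegrable _ _
  have hi2 : IntervalIntegrable (fun α : ℝ => sc R κ α * ∫ t in a..b, ‖Zt w T (κ * L * α) t‖ ^ 2)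
      volume 0 1 := ((sc_cont hTF).mul (Zt_int_cont hw hδ T (κ * L) a b)).intervalIntegrable _ _
  have hdiff : |(∫ α in (0 : ℝ)..1, sc R κ α * ∫ t in a..b, ‖Zo w T (κ * L * α) t‖ ^ 2) -
      ∫ α in (0 : ℝ)..1, sc R κ α * ∫ t in a..b, ‖Zt w T (κ * L * α) t‖ ^ 2| ≤ ε / 4 * T := by
    rw [← intervalIntegral.integral_sub hi1 hi2]
    have hb2 : ∀ α ∈ Set.uIoc (0 : ℝ) 1, ‖sc R κ α * (∫ t in a..b, ‖Zo w T (κ * L * α) t‖ ^ 2) -
        sc R κ α * ∫ t in a..b, ‖Zt w T (κ * L * α) t‖ ^ 2‖ ≤ ε / 4 * T := by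
      intro α hα
      rw [uIoc_of_le zero_le_one] at hα
      rw [← mul_sub, Real.norm_eq_abs, abs_mul]
      have g1 := sc_bd hTF hκ (by linarith) hD hR hα.1.le hα.2
      have hu0 : 0 ≤ κ * L * α := mul_nonneg (by positivity) hα.1.le
      have hu1 : κ * L * α ≤ κ * L := mul_le_of_le_one_right (by positivity) hα.2
      have g2 := ZoZt (δ' := δ') hδ hδ'0.le hH hC hw (by linarith) hT1 hu0 hu1 hab hτ0 hGi hGE
      have g3 := h2' _ hu0 hu1
      have g4 : τ * (∫ t in a..b, ‖Zt w T (κ * L * α) t‖ ^ 2) + B * ∫ t in a..b, G t ≤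
          (τ * A₁ + B * (C₅ * σ)) * T := by
        have k1 := mul_le_mul_of_nonneg_left g3 hτ0.le
        have k2 := mul_le_mul_of_nonneg_left hGi2 hB0.le
        have e : (τ * A₁ + B * (C₅ * σ)) * T = τ * (A₁ * T) + B * (C₅ * σ * T) := by ring
        rw [e]
        linarith
      have g5 : |(∫ t in a..b, ‖Zo w T (κ * L * α) t‖ ^ 2) -
          ∫ t in a..b, ‖Zt w T (κ * L * α) t‖ ^ 2| ≤ (τ * A₁ + B * (C₅ * σ)) * T := g2.trans g4
      have g6 : D * ((τ * A₁ + B * (C₅ * σ)) * T) ≤ ε / 4 * T := by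
        have k1 : (D + 1) * (τ * A₁) = ε / 8 := by
          rw [hτ]
          field_simp
        have k2 : (D + 1) * (B * (C₅ * σ)) ≤ ε / 8 := by
          have k3 : (D + 1) * ((B * C₅ + 1) * σ) = ε / 8 := by
            rw [hσ]
            field_simp
          have k4 : (D + 1) * (B * (C₅ * σ)) ≤ (D + 1) * ((B * C₅ + 1) * σ) := by
            refine mul_le_mul_of_nonneg_left ?_ (by linarith)
            nlinarith
          linarith
        have k5 : 0 ≤ τ * A₁ + B * (C₅ * σ) := by positivity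
        have k6 : D * (τ * A₁ + B * (C₅ * σ)) ≤ ε / 4 := by nlinarith
        calc D * ((τ * A₁ + B * (C₅ * σ)) * T) = D * (τ * A₁ + B * (C₅ * σ)) * T := by ring
          _ ≤ _ := mul_le_mul_of_nonneg_right k6 hT0.le
      exact (mul_le_mul g1 g5 (abs_nonneg _) hD).trans g6
    have := intervalIntegral.norm_integral_le_of_norm_le_const hb2
    rw [Real.norm_eq_abs, sub_zero, abs_one, mul_one] at this
    exact this
  set P1 := ∫ α in (0 : ℝ)..1, sc R κ α * ∫ t in a..b, ‖Zo w T (κ * L * α) t‖ ^ 2 with hP1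
  set P2 := ∫ α in (0 : ℝ)..1, sc R κ α * ∫ t in a..b, ‖Zt w T (κ * L * α) t‖ ^ 2 with hP2
  have e1 : 2 * P1 - mont R * I2 w * T = 2 * (P1 - P2) + (2 * P2 - mont R * I2 w * T) := by ring
  rw [e1]
  refine (abs_add_le _ _).trans ?_
  rw [abs_mul, abs_two]
  have e2 : (C₁ * (Real.sqrt δ + Real.sqrt θ) * I2 w + ε) * T =
      ε / 2 * T + (C₁ * (Real.sqrt δ + Real.sqrt θ) * I2 w + ε / 2) * T := by ring
  rw [e2]
  linarith

end Pool.Agent.Helper36
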