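import Pool.Agent.Helper36.N5a

/-!
# Montgomery's theorem for the ordinates: one dyadic block
-/

set_option autoImplicit false

namespace Pool.Agent.Helper36

open Filter Topology MeasureTheory Set
open Pool.Agent.Y744 (QS Zb Xf sum_Zb mem_Zb QS_abs_bound)
open Pool.Agent.Q97.UM (ZT OmW qr I2)
open TH803TW (PP1 PP1_nonneg PP1_le_sq)
open Pool.Agent.Results.MP_103a5c_nt.BohrSetPairs (r sc TestFn r_sc cR_sc sc_dec mont)

/-- the comparison of the windowed sum with the full sum, for one value of `T` -/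
lemma blk_pt {δ H C KR CP Ce T : ℝ} {K : ℕ} {w f : ℝ → ℝ} (hC : 1 ≤ C) (hH : 1 ≤ H) (hK : 2 ≤ K)
    (hw : OmW δ H C K w) (hKR : 0 ≤ KR) (hf : ∀ y, |f y| ≤ KR / (1 + y ^ 2))
    (hfe : ∀ y, f (-y) = f y) (hCe : 0 ≤ Ce)
    (hT : 16 ≤ T) (hL1 : H + 3 ≤ Real.log T) (hL2 : Real.log T ≤ T / 16)
    (hr3 : (H / Real.log T) ^ 3 ≤ 1 / Real.log T)
    (hPP : PP1 (Zb T (2 * T)) Pool.Agent.Y744.mz (fun s => s.im) (Real.log T) ≤
      CP * (T * Real.log T))
    (hE1 : ∑ s ∈ Zb T (T + 3 * Real.log T), Pool.Agent.Y744.mz s ≤ Ce * Real.log T ^ 2)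
    (hE2 : ∑ s ∈ Zb (2 * T - 3 * Real.log T) (2 * T), Pool.Agent.Y744.mz s ≤
      Ce * Real.log T ^ 2) :
    |(∑ s ∈ ZT T, ∑ s' ∈ ZT T, Pool.Agent.Y744.mz s * Pool.Agent.Y744.mz s' *
      (f ((s.im - s'.im) * Real.log T / (2 * Real.pi)) *
        ∫ t in (T + 2 * Real.log T)..(2 * T - 2 * Real.log T), qr w T t s * qr w T t s')) -
      2 * (H / Real.log T) * QS (Zb T (2 * T)) (Zb T (2 * T)) Pool.Agent.Y744.mz (fun s => s.im) f
        (Real.log T)| ≤
      28 * C ^ 2 * (3200 * KR * CP) * T + 3200 * KR * CP * (2 * Real.sqrt H) * T +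
        6400 * KR * H * (4 * Ce ^ 2 * Real.log T ^ 4 + CP * T / Real.log T) := by
  set L := Real.log T with hL
  have hL0 : 0 < L := by linarith
  have hT0 : 0 < T := by linarith
  set ρ := H / L with hρ
  have hρ0 : 0 < ρ := by positivity
  have hρ1 : ρ ≤ 1 := by rw [hρ, div_le_one hL0]; linarith
  set Z := Zb T (2 * T) with hZ
  set m := Pool.Agent.Y744.mz with hm
  have hm0 : ∀ s, 0 ≤ m s := Pool.Agent.Y744.mz_nonneg
  set x : ℂ → ℝ := fun s => s.im with hx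
  set a := T + 2 * L with ha
  set b := 2 * T - 2 * L with hb
  have hab : a ≤ b := by rw [ha, hb]; linarith
  set P : ℂ → Prop := fun s => a + ρ ≤ x s ∧ x s ≤ b - ρ with hP
  classical
  set S' := Z.filter P with hS'
  have hS'sub : S' ⊆ ZT T := by
    intro s hs
    obtain ⟨hs1, hs2⟩ := Finset.mem_filter.1 hs
    have hs3 := hs1
    rw [hZ, mem_Zb (by linarith)] at hs3
    show s ∈ Zb (T + 1) (2 * T - 1)
    rw [mem_Zb (by linarith)]
    refine ⟨hs3.1, hs3.2.1, ?_, ?_, hs3.2.2.2.2⟩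
    · have := hs2.1
      simp only [hx, ha] at this
      linarith
    · have := hs2.2
      simp only [hx, hb] at this
      linarith
  have hZTsub : ZT T ⊆ Z := by
    intro s hs
    have hs3 : s ∈ Zb (T + 1) (2 * T - 1) := hs
    rw [mem_Zb (by linarith)] at hs3
    rw [hZ, mem_Zb (by linarith)]
    exact ⟨hs3.1, hs3.2.1, by linarith [hs3.2.2.1], by linarith [hs3.2.2.2.1], hs3.2.2.2.2⟩
  have hEdge : ∑ s ∈ Z.filter (fun s => s ∉ S'), m s ≤ 2 * Ce * L ^ 2 := by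
    have hsub : Z.filter (fun s => s ∉ S') ⊆ Zb T (T + 3 * L) ∪ Zb (2 * T - 3 * L) (2 * T) := by
      intro s hs
      obtain ⟨hs1, hs2⟩ := Finset.mem_filter.1 hs
      have hs2' : ¬ P s := fun h => hs2 (Finset.mem_filter.2 ⟨hs1, h⟩)
      have hs3 := hs1
      rw [hZ, mem_Zb (by linarith)] at hs3
      rw [Finset.mem_union, mem_Zb (by linarith), mem_Zb (by linarith)]
      by_cases h : a + ρ ≤ x s
      · right
        have h2 : ¬ x s ≤ b - ρ := fun h3 => hs2' ⟨h, h3⟩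
        push Not at h2
        simp only [hx, hb] at h2
        refine ⟨hs3.1, hs3.2.1, by linarith, hs3.2.2.2.1, hs3.2.2.2.2⟩
      · left
        push Not at h
        simp only [hx, ha] at h
        refine ⟨hs3.1, hs3.2.1, hs3.2.2.1, by linarith, hs3.2.2.2.2⟩
    calc ∑ s ∈ Z.filter (fun s => s ∉ S'), m s ≤
          ∑ s ∈ Zb T (T + 3 * L) ∪ Zb (2 * T - 3 * L) (2 * T), m s :=
          Finset.sum_le_sum_of_subset_of_nonneg hsub fun s _ _ => hm0 s
      _ ≤ ∑ s ∈ Zb T (T + 3 * L), m s + ∑ s ∈ Zb (2 * T - 3 * L) (2 * T), m s := by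
          rw [← Finset.sum_union_inter]
          have : 0 ≤ ∑ s ∈ Zb T (T + 3 * L) ∩ Zb (2 * T - 3 * L) (2 * T), m s :=
            Finset.sum_nonneg fun s _ => hm0 s
          linarith
      _ ≤ _ := by linarith
  set F : ℂ → ℂ → ℝ := fun s s' => f ((s.im - s'.im) * L / (2 * Real.pi)) with hF
  set J : ℂ → ℂ → ℝ := fun s s' =>
    max 0 (min b (min (s.im + ρ) (s'.im + ρ)) - max a (max (s.im - ρ) (s'.im - ρ))) with hJ
  set w2 : ℂ → ℂ → ℝ := fun s s' => ∫ t in a..b, qr w T t s * qr w T t s' with hw2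
  have hFs : ∀ s s', F s s' = F s' s := by
    intro s s'
    simp only [hF]
    rw [← hfe]
    congr 1
    ring
  have hJ0 : ∀ s s', 0 ≤ J s s' := fun s s' => le_max_left _ _
  have hJ1 : ∀ s s', J s s' ≤ 2 * ρ := by
    intro s s'
    refine max_le (by linarith) ?_
    have h1 : min b (min (s.im + ρ) (s'.im + ρ)) ≤ s.im + ρ :=
      (min_le_right _ _).trans (min_le_left _ _)
    have h2 : s.im - ρ ≤ max a (max (s.im - ρ) (s'.im - ρ)) :=
      (le_max_left _ _).trans (le_max_right _ _)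
    linarith
  have hin : ∀ s ∈ S', a + ρ ≤ x s ∧ x s ≤ b - ρ := fun s hs => (Finset.mem_filter.1 hs).2
  have hJ2 : ∀ s ∈ S', ∀ s' ∈ S', J s s' = tri ρ (x s - x s') := by
    intro s hs s' hs'
    obtain ⟨h1, h2⟩ := hin s hs
    obtain ⟨h3, h4⟩ := hin s' hs'
    simp only [hx] at h1 h2 h3 h4
    have e1 : min b (min (s.im + ρ) (s'.im + ρ)) = min (s.im + ρ) (s'.im + ρ) :=
      min_eq_right ((min_le_left _ _).trans (by linarith))
    have e2 : max a (max (s.im - ρ) (s'.im - ρ)) = max (s.im - ρ) (s'.im - ρ) :=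
      max_eq_right (le_trans (by linarith) (le_max_left _ _))
    simp only [hJ]
    rw [e1, e2, min_sub_max]
    rfl
  have he : ∀ s s', |w2 s s' - J s s'| ≤ 28 * C ^ 2 / L := fun s s' =>
    pair_wt hC hK hw hL0 rfl hρ0.le hr3 hab s s'
  have hW := W1 Z (ZT T) S' hZTsub hS'sub hm0 hFs (x := x) hρ0.le (by positivity) hJ0 hJ1 hJ2 he
  -- the three error terms
  have b1 : ∑ s ∈ Z, ∑ s' ∈ Z, m s * m s' * |F s s'| ≤ 3200 * KR * (CP * (T * L)) := by
    have h1 := QS_abs_bound (x := x) Z Z hm0 hf hL0 one_pos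
    refine h1.trans ?_
    have h2 : 1600 * KR * (1 * PP1 Z m x L + 1 / 1 * PP1 Z m x L) = 3200 * KR * PP1 Z m x L := by
      ring
    rw [h2]
    exact mul_le_mul_of_nonneg_left hPP (by positivity)
  have b2 : ∑ s ∈ Z, ∑ s' ∈ Z, m s * m s' * (|F s s'| * min (2 * ρ) |x s - x s'|) ≤
      3200 * KR * Real.sqrt (2 * ρ / L) * (CP * (T * L)) := by
    have h1 := F_min Z (x := x) hm0 hρ0.le hL0 hKR hf
    exact h1.trans (mul_le_mul_of_nonneg_left hPP (by positivity))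
  have b3 : ∑ s ∈ Z.filter (fun s => s ∉ S'), ∑ s' ∈ Z, m s * m s' * |F s s'| ≤
      1600 * KR * (L * (2 * Ce * L ^ 2) ^ 2 + 1 / L * (CP * (T * L))) := by
    have h1 := QS_abs_bound (x := x) (Z.filter (fun s => s ∉ S')) Z hm0 hf hL0 hL0
    refine h1.trans (mul_le_mul_of_nonneg_left ?_ (by positivity))
    have h2 := PP1_le_sq (Z.filter (fun s => s ∉ S')) hm0 (x := x) L
    have h3 : (∑ s ∈ Z.filter (fun s => s ∉ S'), m s) ^ 2 ≤ (2 * Ce * L ^ 2) ^ 2 :=
      pow_le_pow_left₀ (Finset.sum_nonneg fun s _ => hm0 s) hEdge 2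
    have h4 : L * PP1 (Z.filter (fun s => s ∉ S')) m x L ≤ L * (2 * Ce * L ^ 2) ^ 2 :=
      mul_le_mul_of_nonneg_left (h2.trans h3) hL0.le
    have h5 : 1 / L * PP1 Z m x L ≤ 1 / L * (CP * (T * L)) :=
      mul_le_mul_of_nonneg_left hPP (by positivity)
    linarith
  have hCP : 0 ≤ CP * (T * L) := (PP1_nonneg Z hm0 _).trans hPP
  have c1 : 28 * C ^ 2 / L * (3200 * KR * (CP * (T * L))) = 28 * C ^ 2 * (3200 * KR * CP) * T := by
    field_simp
  have c2 : 3200 * KR * Real.sqrt (2 * ρ / L) * (CP * (T * L)) ≤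
      3200 * KR * CP * (2 * Real.sqrt H) * T := by
    have h1 : Real.sqrt (2 * ρ / L) ≤ 2 * Real.sqrt H / L := by
      rw [Real.sqrt_le_left (by positivity), div_pow, mul_pow, Real.sq_sqrt (by linarith), hρ]
      rw [show 2 * (H / L) / L = 2 * H / L ^ 2 by field_simp]
      refine div_le_div_of_nonneg_right ?_ (by positivity)
      linarith
    have h2 : 3200 * KR * Real.sqrt (2 * ρ / L) * (CP * (T * L)) ≤
        3200 * KR * (2 * Real.sqrt H / L) * (CP * (T * L)) :=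
      mul_le_mul_of_nonneg_right (mul_le_mul_of_nonneg_left h1 (by positivity)) hCP
    refine h2.trans (le_of_eq ?_)
    field_simp
  have c3 : 4 * ρ * (1600 * KR * (L * (2 * Ce * L ^ 2) ^ 2 + 1 / L * (CP * (T * L)))) =
      6400 * KR * H * (4 * Ce ^ 2 * L ^ 4 + CP * T / L) := by
    rw [hρ]
    field_simp
    ring
  have hmain : 2 * ρ * QS Z Z m x f L = 2 * ρ * ∑ s ∈ Z, ∑ s' ∈ Z, m s * m s' * F s s' := rfl
  rw [hmain]
  refine hW.trans ?_
  have d1 := mul_le_mul_of_nonneg_left b1 (show 0 ≤ 28 * C ^ 2 / L by positivity)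
  have d3 := mul_le_mul_of_nonneg_left b3 (show 0 ≤ 4 * ρ by positivity)
  linarith

end Pool.Agent.Helper36
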