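import Pool.Agent.Helper36.N5b

/-!
# Montgomery's theorem for the ordinates of the zeros in a dyadic block, without the Riemann
hypothesis, if almost all zeros are on the line
-/

set_option autoImplicit false

namespace Pool.Agent.Helper36

open Filter Topology MeasureTheory Set
open Pool.Agent.Y744 (QS Zb Xf sum_Zb mem_Zb QS_abs_bound)
open Pool.Agent.Q97.UM (ZT OmW qr I2)
open Pool.Agent.Results.MP_103a5c_nt.BohrSetPairs (r sc TestFn r_sc cR_sc sc_dec mont)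

lemma r_even (R : ℝ → ℝ) (y : ℝ) : r R (-y) = r R y := by
  unfold r
  refine intervalIntegral.integral_congr fun α _ => ?_
  change R α * Real.cos (2 * Real.pi * -y * α) = R α * Real.cos (2 * Real.pi * y * α)
  rw [← Real.cos_neg]
  congr 2
  ring

lemma nn_a {H L : ℝ} (hL : 1 ≤ L) (h : H ^ 3 ≤ L) : H ^ 3 ≤ L ^ 2 := by
  have : L ≤ L ^ 2 := by nlinarith
  linarith

lemma nn_b {q c T L4 : ℝ} (hq : 0 ≤ q) (h2 : L4 ≤ c * T) (hT : 0 ≤ T)
    (hc : q * c ≤ 1 / 2) : q * L4 ≤ T / 2 := by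
  have g2 : q * L4 ≤ q * (c * T) := mul_le_mul_of_nonneg_left h2 hq
  have g3 : q * c * T ≤ 1 / 2 * T := mul_le_mul_of_nonneg_right hc hT
  linarith

lemma nn_c {B1 B2 q H ε : ℝ} (hq : 1 ≤ q) (hB1 : 0 ≤ B1) (g2 : 16 * (B1 + B2) ≤ q * ε)
    (g3 : q * q = H) : B1 + B2 * q ≤ ε / 16 * H := by
  have g4 : B1 + B2 * q ≤ (B1 + B2) * q := by nlinarith
  have g5 : (B1 + B2) * q ≤ ε / 16 * (q * q) := by nlinarith
  rw [g3] at g5
  linarith

lemma nn_d {x p : ℝ} (hx : 0 ≤ x) (hp : 3 < p) : x ≤ x * p := by nlinarith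

lemma nn_e {x p : ℝ} (hx : 0 < x) (hp : p < 3.15) : x / 16 * (2 * p) ≤ x := by nlinarith

/-- **Montgomery's theorem for the ordinates** in a dyadic block -/
theorem MONT : ∃ κ₀ : ℝ, 0 < κ₀ ∧ κ₀ ≤ 1 / 400 ∧ ∀ (R : ℝ → ℝ) (κ D : ℝ), TestFn R κ → 0 < κ →
    κ ≤ κ₀ → 0 ≤ D → (∀ x y : ℝ, |R x - R y| ≤ D * |x - y|) → ∀ ε : ℝ, 0 < ε →
    ∃ η : ℝ, 0 < η ∧ ∀ᶠ T : ℝ in atTop,
      ∑ s ∈ Off T, (Pool.Agent.Q97.UM.mz s : ℝ) ≤ η * (T * Real.log T) →
      |Bk (r R) T - mont R| ≤ ε := by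
  obtain ⟨κ₀, hκ₀, hκ₀1, K, hK2, hPAIR⟩ := PAIRo
  refine ⟨κ₀, hκ₀, hκ₀1, fun R κ D hTF hκ hκ1 hD hR ε hε => ?_⟩
  obtain ⟨C₁, hC₁, hPAIR⟩ := hPAIR K le_rfl R κ D hTF hκ hκ1 hD hR
  have hκ400 : κ ≤ 1 / 400 := hκ1.trans hκ₀1
  set σ : ℝ := min (ε / (16 * C₁)) (κ / 3) with hσ
  have hσ0 : 0 < σ := by
    rw [hσ]
    exact lt_min (by positivity) (by positivity)
  have hσ1 : σ ≤ ε / (16 * C₁) := min_le_left _ _
  have hσ2 : σ ≤ κ / 3 := min_le_right _ _
  have hσσ : σ ^ 2 ≤ σ := by nlinarith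
  have hδ0 : 0 < σ ^ 2 := by positivity
  obtain ⟨C, hC, hOM⟩ := Pool.Agent.Q247.UM.t_OMEX K (σ ^ 2) hδ0 (by linarith)
  obtain ⟨KR, hKR⟩ := hTF.decay
  have hKR0 : 0 ≤ KR := by
    have := (abs_nonneg _).trans (hKR 0)
    simpa using this
  obtain ⟨CP, V1, hCP, hPP⟩ := PP_blk
  obtain ⟨Ce, hCe, hE⟩ := edge_counts
  set Mo : ℝ := |mont R| with hMo
  have hMo0 : 0 ≤ Mo := abs_nonneg _
  set B1 : ℝ := 2 + Mo * (4 * C ^ 4) + 28 * C ^ 2 * (3200 * KR * CP) with hB1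
  have hB10 : 0 < B1 := by positivity
  set B2 : ℝ := 3200 * KR * CP * 2 with hB2
  have hB20 : 0 ≤ B2 := by positivity
  set H : ℝ := max (max 1 (4 * C ^ 4)) ((16 * (B1 + B2) / ε) ^ 2) with hH
  have hH1 : 1 ≤ H := (le_max_left _ _).trans (le_max_left _ _)
  have hH2 : 4 * C ^ 4 ≤ H := (le_max_right _ _).trans (le_max_left _ _)
  have hH3 : (16 * (B1 + B2) / ε) ^ 2 ≤ H := le_max_right _ _
  have hH0 : 0 < H := by linarith
  obtain ⟨w, hw⟩ := hOM H hH1
  obtain ⟨η, hη, ev⟩ := hPAIR (σ ^ 2) H C w (σ ^ 2) 1 hδ0 (by linarith) hH1 hC hw hδ0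
    (by linarith) one_pos
  refine ⟨η, hη, ?_⟩
  obtain ⟨-, -, -, -, -, hI2⟩ := Pool.Agent.Q176.UM.t_QH (σ ^ 2) H C K w hδ0 (by linarith) hH1 hC
    hK2 hw
  set c3 : ℝ := 1 / (2 * (6400 * KR * H * (4 * Ce ^ 2) + 1)) with hc3
  have hc30 : 0 < c3 := by positivity
  have ev1 := (Real.isLittleO_pow_log_id_atTop (n := 4)).bound hc30
  have ev2 : ∀ᶠ T : ℝ in atTop, 2 * (6400 * KR * H * CP) ≤ Real.log T :=
    Real.tendsto_log_atTop.eventually_ge_atTop _
  have ev3 : ∀ᶠ T : ℝ in atTop, H ^ 3 ≤ Real.log T := Real.tendsto_log_atTop.eventually_ge_atTop _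
  filter_upwards [ev, ev1, ev2, ev3, hE, eventually_ge_atTop (16 : ℝ), eventually_ge_atTop V1,
    Pool.Agent.Q150.UM.ev_log (H + 3), Pool.Agent.Q150.UM.ev_loglin (1 / 16) (by norm_num)]
    with T h1 h2 h3 h4 h5 hT hTV hL1 hL16 hoff
  have h1 := h1 hoff
  obtain ⟨hE1, hE2, -, -⟩ := h5
  have hPT := hPP T hTV
  rw [PSE2 hTF hκ (by linarith) hw] at h1
  have hblk := blk_pt (f := r R) hC hH1 hK2 hw hKR0 hKR (r_even R) hCe.le hT hL1 (by linarith)
    (by
      have hL0 : 0 < Real.log T := by linarith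
      rw [div_pow, div_le_div_iff₀ (by positivity) hL0, one_mul]
      have e : Real.log T ^ 3 = Real.log T ^ 2 * Real.log T := by ring
      rw [e]
      exact mul_le_mul_of_nonneg_right (nn_a (by linarith) h4) hL0.le) hPT hE1 hE2
  set L := Real.log T with hL
  have hL0 : 0 < L := by linarith
  have hT0 : 0 < T := by linarith
  have hpi := Real.pi_gt_three
  have hpi2 := Real.pi_lt_d2
  have hσs : Real.sqrt (σ ^ 2) = σ := Real.sqrt_sq hσ0.le
  rw [hσs] at h1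
  have hX : 2 * (H / L) * QS (Zb T (2 * T)) (Zb T (2 * T)) Pool.Agent.Y744.mz (fun s => s.im) (r R) L =
      H / Real.pi * T * Bk (r R) T := by
    unfold Bk
    have hX0 : 0 < Xf T := Pool.Agent.Y744.Xf_pos (by linarith)
    have e : H / Real.pi * T = 2 * (H / L) * Xf T := by
      unfold Xf
      rw [← hL]
      field_simp
    rw [e, ← hL]
    field_simp
  rw [hX] at hblk
  have hS : (∑ s ∈ ZT T, ∑ s' ∈ ZT T, (Pool.Agent.Q97.UM.mz s : ℝ) * Pool.Agent.Q97.UM.mz s' *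
      (r R ((s.im - s'.im) * L / (2 * Real.pi)) *
        ∫ t in (T + 2 * L)..(2 * T - 2 * L), qr w T t s * qr w T t s')) =
      ∑ s ∈ ZT T, ∑ s' ∈ ZT T, Pool.Agent.Y744.mz s * Pool.Agent.Y744.mz s' *
      (r R ((s.im - s'.im) * L / (2 * Real.pi)) *
        ∫ t in (T + 2 * L)..(2 * T - 2 * L), qr w T t s * qr w T t s') := rfl
  rw [hS] at h1
  set A := ∑ s ∈ ZT T, ∑ s' ∈ ZT T, Pool.Agent.Y744.mz s * Pool.Agent.Y744.mz s' *
      (r R ((s.im - s'.im) * L / (2 * Real.pi)) *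
        ∫ t in (T + 2 * L)..(2 * T - 2 * L), qr w T t s * qr w T t s') with hA
  have hI2n : 0 ≤ I2 w := Pool.Agent.Q150.UM.I2_nonneg w
  -- the diagonal constant
  have k1 : |I2 w - H / Real.pi| ≤ 4 * C ^ 4 := by
    have e : I2 w - H / Real.pi = (Real.pi * I2 w - H) / Real.pi := by field_simp
    rw [e, abs_div, abs_of_pos Real.pi_pos, div_le_iff₀ Real.pi_pos]
    exact hI2.trans (nn_d (by positivity) hpi)
  have k2 : |mont R * I2 w * T - mont R * (H / Real.pi) * T| ≤ Mo * (4 * C ^ 4) * T := by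
    have e : mont R * I2 w * T - mont R * (H / Real.pi) * T = mont R * (I2 w - H / Real.pi) * T := by
      ring
    rw [e, abs_mul, abs_mul, abs_of_pos hT0]
    exact mul_le_mul_of_nonneg_right (mul_le_mul_of_nonneg_left k1 hMo0) hT0.le
  have k3 : I2 w ≤ 2 * H / Real.pi := by
    rw [le_div_iff₀ Real.pi_pos]
    have := (abs_le.1 hI2).2
    linarith
  have k4 : C₁ * (σ + σ) * I2 w ≤ ε / 4 * (H / Real.pi) := by
    have g1 : C₁ * σ ≤ ε / 16 := by
      rw [le_div_iff₀ (by positivity)] at hσ1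
      linarith
    have g2 : C₁ * (σ + σ) ≤ ε / 8 := by linarith
    calc C₁ * (σ + σ) * I2 w ≤ ε / 8 * (2 * H / Real.pi) :=
          mul_le_mul g2 k3 hI2n (by positivity)
      _ = _ := by ring
  -- the edge terms
  have k5 : 6400 * KR * H * (4 * Ce ^ 2 * L ^ 4 + CP * T / L) ≤ T := by
    have g1 : 6400 * KR * H * (4 * Ce ^ 2) * L ^ 4 ≤ T / 2 := by
      rw [Real.norm_eq_abs, Real.norm_eq_abs, id, abs_of_nonneg (by positivity),
        abs_of_nonneg hT0.le] at h2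
      have hQ0 : 0 ≤ 6400 * KR * H * (4 * Ce ^ 2) := by positivity
      refine nn_b hQ0 h2 hT0.le ?_
      rw [hc3, mul_one_div, div_le_iff₀ (by positivity)]
      linarith
    have g2 : 6400 * KR * H * (CP * T / L) ≤ T / 2 := by
      have e : 6400 * KR * H * (CP * T / L) = (6400 * KR * H * CP / L) * T := by ring
      rw [e]
      have g3 : 6400 * KR * H * CP / L ≤ 1 / 2 := by
        rw [div_le_iff₀ hL0]
        linarith
      have g4 := mul_le_mul_of_nonneg_right g3 hT0.le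
      linarith only [g4]
    have e : 6400 * KR * H * (4 * Ce ^ 2 * L ^ 4 + CP * T / L) =
        6400 * KR * H * (4 * Ce ^ 2) * L ^ 4 + 6400 * KR * H * (CP * T / L) := by ring
    rw [e]
    linarith
  have k6 : B1 + B2 * Real.sqrt H ≤ ε / 16 * H := by
    have g1 : 1 ≤ Real.sqrt H := Real.one_le_sqrt.2 hH1
    have g2 : 16 * (B1 + B2) / ε ≤ Real.sqrt H := Real.le_sqrt_of_sq_le hH3
    rw [div_le_iff₀ hε] at g2
    exact nn_c g1 hB10.le g2 (Real.mul_self_sqrt hH0.le)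
  -- conclusion
  have k7 : |H / Real.pi * T * Bk (r R) T - mont R * (H / Real.pi) * T| ≤
      (ε / 4 * (H / Real.pi) + (B1 + B2 * Real.sqrt H)) * T := by
    have e : H / Real.pi * T * Bk (r R) T - mont R * (H / Real.pi) * T =
        -(A - H / Real.pi * T * Bk (r R) T) + (A - mont R * I2 w * T) +
          (mont R * I2 w * T - mont R * (H / Real.pi) * T) := by ring
    rw [e]
    refine (abs_add_le _ _).trans ?_
    have g1 := abs_add_le (-(A - H / Real.pi * T * Bk (r R) T)) (A - mont R * I2 w * T)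
    rw [abs_neg] at g1
    have g2 := mul_le_mul_of_nonneg_right k4 hT0.le
    have e2 : (ε / 4 * (H / Real.pi) + (B1 + B2 * Real.sqrt H)) * T =
        ε / 4 * (H / Real.pi) * T + 28 * C ^ 2 * (3200 * KR * CP) * T +
          3200 * KR * CP * (2 * Real.sqrt H) * T + Mo * (4 * C ^ 4) * T + 2 * T := by
      rw [hB1, hB2]
      ring
    have e3 : (C₁ * (σ + σ) * I2 w + 1) * T = C₁ * (σ + σ) * I2 w * T + T := by ring
    rw [e3] at h1
    rw [e2]
    linarith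
  have k8 : (ε / 4 * (H / Real.pi) + (B1 + B2 * Real.sqrt H)) * T ≤ ε * (H / Real.pi * T) := by
    have g1 : ε / 16 * H ≤ ε / 2 * (H / Real.pi) := by
      have e : ε / 2 * (H / Real.pi) = ε * H / (2 * Real.pi) := by ring
      rw [e, le_div_iff₀ (by positivity)]
      have := nn_e (show 0 < ε * H by positivity) hpi2
      linarith only [this]
    have g2 : ε / 4 * (H / Real.pi) + (B1 + B2 * Real.sqrt H) ≤ ε * (H / Real.pi) := by
      have : 0 < ε * (H / Real.pi) := by positivity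
      linarith
    calc (ε / 4 * (H / Real.pi) + (B1 + B2 * Real.sqrt H)) * T ≤ ε * (H / Real.pi) * T :=
          mul_le_mul_of_nonneg_right g2 hT0.le
      _ = _ := by ring
  have e : H / Real.pi * T * Bk (r R) T - mont R * (H / Real.pi) * T =
      (Bk (r R) T - mont R) * (H / Real.pi * T) := by ring
  rw [e, abs_mul, abs_of_pos (by positivity : 0 < H / Real.pi * T)] at k7
  exact le_of_mul_le_mul_right (k7.trans k8) (by positivity)

end Pool.Agent.Helper36
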