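import Pool.Agent.Helper36.N5c
import Pool.Graph.R_seed8.Y744.PCR.Fin

/-!
# Band-limited test functions along a filter
-/

set_option autoImplicit false

namespace Pool.Agent.Helper36

open Filter Topology MeasureTheory Real
open Pool.Agent.Y744
open Pool.Agent.Results.MP_103a5c_nt.BohrSetPairs (r TestFn mont)

variable {κ κ' h : ℝ} {K : ℝ → ℝ}

lemma S_lip (hh : 0 ≤ h) (x y : ℝ) :
    |2 * h * Real.sinc (2 * π * h * x) - 2 * h * Real.sinc (2 * π * h * y)| ≤
      4 * π * h ^ 2 * |x - y| := by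
  have e : ∀ x : ℝ, 2 * h * Real.sinc (2 * π * h * x) = ∫ u in (-h)..h, Real.cos (2 * π * u * x) := by
    intro x
    have := inner_cos h 0 x
    rw [zero_sub, zero_add, mul_zero, zero_mul, Real.cos_zero, mul_one] at this
    exact this.symm
  rw [e, e, ← intervalIntegral.integral_sub]
  · have hb : ∀ u ∈ Set.uIoc (-h) h, ‖Real.cos (2 * π * u * x) - Real.cos (2 * π * u * y)‖ ≤
        2 * π * h * |x - y| := by
      intro u hu
      rw [Set.uIoc_of_le (by linarith)] at hu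
      rw [Real.norm_eq_abs]
      have h1 := Real.abs_cos_sub_cos_le (2 * π * u * x) (2 * π * u * y)
      refine h1.trans ?_
      rw [← mul_sub, abs_mul]
      refine mul_le_mul_of_nonneg_right ?_ (abs_nonneg _)
      rw [abs_mul, abs_of_pos (by positivity : 0 < 2 * π)]
      refine mul_le_mul_of_nonneg_left ?_ (by positivity)
      exact abs_le.2 ⟨hu.1.le, hu.2⟩
    have h2 := intervalIntegral.norm_integral_le_of_norm_le_const hb
    rw [Real.norm_eq_abs] at h2
    refine h2.trans (le_of_eq ?_)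
    rw [sub_neg_eq_add, abs_of_nonneg (by linarith : (0 : ℝ) ≤ h + h)]
    ring
  · exact (by fun_prop : Continuous fun u : ℝ => Real.cos (2 * π * u * x)).intervalIntegrable _ _
  · exact (by fun_prop : Continuous fun u : ℝ => Real.cos (2 * π * u * y)).intervalIntegrable _ _

lemma Kav_lip (hK : TK κ K) (hh : 0 ≤ h) : ∃ D : ℝ, 0 ≤ D ∧ ∀ x y : ℝ,
    |Kav K h x - Kav K h y| ≤ D * |x - y| := by
  obtain ⟨C, hC⟩ := hK.smooth.lipschitzWith_of_hasCompactSupport hK.hcs (by simp)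
  obtain ⟨M, hM⟩ := hK.hcs.exists_bound_of_continuous hK.cont
  have hM0 : 0 ≤ M := (norm_nonneg _).trans (hM 0)
  refine ⟨M * (4 * π * h ^ 2) + 2 * h * C, by positivity, fun x y => ?_⟩
  have hpi := Real.pi_pos
  unfold Kav
  have e : K x * (2 * h * Real.sinc (2 * π * h * x)) - K y * (2 * h * Real.sinc (2 * π * h * y)) =
      K x * (2 * h * Real.sinc (2 * π * h * x) - 2 * h * Real.sinc (2 * π * h * y)) +
      (K x - K y) * (2 * h * Real.sinc (2 * π * h * y)) := by ring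
  rw [e]
  refine (abs_add_le _ _).trans ?_
  rw [abs_mul, abs_mul, add_mul]
  refine add_le_add ?_ ?_
  · have h1 := hM x
    rw [Real.norm_eq_abs] at h1
    calc |K x| * |2 * h * Real.sinc (2 * π * h * x) - 2 * h * Real.sinc (2 * π * h * y)| ≤
          M * (4 * π * h ^ 2 * |x - y|) := mul_le_mul h1 (S_lip hh x y) (abs_nonneg _) hM0
      _ = _ := by ring
  · have h1 := hC.dist_le_mul x y
    rw [Real.dist_eq, Real.dist_eq] at h1
    have h2 : |2 * h * Real.sinc (2 * π * h * y)| ≤ 2 * h := by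
      rw [abs_mul, abs_of_nonneg (by linarith : 0 ≤ 2 * h)]
      exact mul_le_of_le_one_right (by linarith) (Real.abs_sinc_le_one _)
    calc |K x - K y| * |2 * h * Real.sinc (2 * π * h * y)| ≤ (C * |x - y|) * (2 * h) :=
          mul_le_mul h1 h2 (abs_nonneg _) (by positivity)
      _ = _ := by ring

lemma fav_decay' (hK : TK κ K) (hh : 0 < h) : ∃ D, 0 ≤ D ∧ ∀ y, |fav K h y| ≤ D / (1 + y ^ 2) := by
  obtain ⟨D, hD0, hD⟩ := fav_decay hK hh
  refine ⟨D, hD0, fun x => (hD x).trans ?_⟩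
  refine div_le_div_of_nonneg_left hD0 (by positivity) ?_
  nlinarith [sq_nonneg x, sq_nonneg (x ^ 2)]

lemma Kav_test (hK : TK κ K) (hκ : κ < κ') (hκ1 : κ' < 1) (hh : 0 < h) : TestFn (Kav K h) κ' := by
  refine ⟨Kav_cont hK, Kav_even hK, fun x hx => Kav_supp hK x (by linarith), ?_⟩
  obtain ⟨D, hD0, hD⟩ := fav_decay' hK hh
  refine ⟨D, fun x => ?_⟩
  rw [r_Kav hK (by linarith) hh]
  exact hD x

lemma fav_adm (hK : TK κ K) (hh : 0 < h) : Adm (fav K h) :=
  ⟨fav_even K h, fav_decay' hK hh, fav_scale hK h⟩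

/-- the zeros off the line, with multiplicity -/
noncomputable def Noff (T : ℝ) : ℝ := ∑ s ∈ Zt T, if s.re = 1 / 2 then 0 else mz s

lemma Off_le {V T : ℝ} (hV : 1 ≤ V) (hVT : 2 * V ≤ T) :
    ∑ s ∈ Off V, (Pool.Agent.Q97.UM.mz s : ℝ) ≤ Noff T := by
  classical
  unfold Off Noff
  rw [Finset.sum_filter]
  have hsub : Pool.Agent.Q97.UM.ZT V ⊆ Zt T := by
    intro s hs
    have hs3 : s ∈ Zb (V + 1) (2 * V - 1) := hs
    rw [mem_Zb (by linarith)] at hs3
    rw [mem_Zt]
    obtain ⟨a1, a2, a3, a4, a5⟩ := hs3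
    exact ⟨a1, a2, by linarith, by linarith, a5⟩
  have h0 : ∀ s, 0 ≤ (if s.re = 1 / 2 then 0 else mz s) := fun s => by
    split_ifs
    · exact le_rfl
    · exact mz_nonneg s
  calc ∑ s ∈ Pool.Agent.Q97.UM.ZT V, (if s.re ≠ 1 / 2 then (Pool.Agent.Q97.UM.mz s : ℝ) else 0)
      = ∑ s ∈ Pool.Agent.Q97.UM.ZT V, (if s.re = 1 / 2 then 0 else mz s) := by
        refine Finset.sum_congr rfl fun s _ => ?_
        by_cases h : s.re = 1 / 2
        · rw [if_pos h, if_neg (by simpa using h)]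
        · rw [if_neg h, if_pos h]
          rfl
    _ ≤ _ := Finset.sum_le_sum_of_subset_of_nonneg hsub fun s _ _ => h0 s

/-- **Montgomery's theorem for the ordinates** along a filter along which almost all zeros are on
the line -/
theorem mont_lim' : ∃ κ₀ : ℝ, 0 < κ₀ ∧ κ₀ < 1 ∧ ∀ {l : Filter ℝ}, l ≤ atTop →
    (∀ ε : ℝ, 0 < ε → ∀ᶠ T in l, Noff T ≤ ε * (T * Real.log T)) →
    ∀ K : ℝ → ℝ, TK κ₀ K → ∀ h : ℝ, 0 < h →
    Tendsto (fun T => Q2 (fav K h) T (Real.log T) / Xf T) l (𝓝 (mont (Kav K h))) := by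
  obtain ⟨κ₁, hκ₁, hκ₁1, hM⟩ := MONT
  refine ⟨κ₁ / 2, by positivity, by linarith, fun {l} hl hoff K hK h hh => ?_⟩
  obtain ⟨D, hD, hLip⟩ := Kav_lip hK hh.le
  have hTF := Kav_test hK (show κ₁ / 2 < κ₁ by linarith) (by linarith) hh
  have hr : r (Kav K h) = fav K h := funext fun y => r_Kav hK (by linarith) hh y
  rw [Metric.tendsto_nhds]
  intro ε hε
  obtain ⟨η, hη, hev⟩ := hM (Kav K h) κ₁ D hTF hκ₁ le_rfl hD hLip (ε / 4) (by positivity)
  rw [hr] at hev
  have hblk : ∀ k : ℕ, ∀ᶠ T in l, |Bk (fav K h) (T / 2 ^ (k + 1)) - mont (Kav K h)| ≤ ε / 4 := by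
    intro k
    have ht : Tendsto (fun T : ℝ => T / 2 ^ (k + 1)) atTop atTop :=
      tendsto_id.atTop_div_const (by positivity)
    have hp : (1 : ℝ) ≤ 2 ^ (k + 1) := one_le_pow₀ (by norm_num)
    have e1 := hl (ht.eventually hev)
    have e2 := hoff (η / (2 * 2 ^ (k + 1))) (by positivity)
    have e3 : ∀ᶠ T : ℝ in atTop, (2 * 2 ^ (k + 1)) ^ 2 ≤ T := eventually_ge_atTop _
    filter_upwards [e1, e2, hl e3] with T g1 g2 g3
    refine g1 ?_
    have hTk : 1 ≤ T / 2 ^ (k + 1) := by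
      rw [le_div_iff₀ (by positivity)]
      nlinarith
    have h2T : 2 * (T / 2 ^ (k + 1)) ≤ T := by
      rw [← mul_div_assoc, div_le_iff₀ (by positivity)]
      have : (2 : ℝ) ≤ 2 ^ (k + 1) := by
        rw [pow_succ]
        have : (1 : ℝ) ≤ 2 ^ k := one_le_pow₀ (by norm_num)
        linarith
      have hT0 : 0 ≤ T := by nlinarith
      nlinarith
    refine (Off_le hTk h2T).trans (g2.trans ?_)
    have hT0 : 0 < T := by nlinarith
    have hlog : Real.log T ≤ 2 * Real.log (T / 2 ^ (k + 1)) := by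
      rw [← Real.log_rpow (by positivity)]
      refine Real.log_le_log hT0 ?_
      rw [show ((2 : ℝ)) = ((2 : ℕ) : ℝ) by norm_num, Real.rpow_natCast]
      push_cast
      rw [div_pow, le_div_iff₀ (by positivity)]
      have h5 : ((2 : ℝ) ^ (k + 1)) ^ 2 ≤ T := by
        refine le_trans ?_ g3
        rw [mul_pow]
        have : 0 ≤ ((2 : ℝ) ^ (k + 1)) ^ 2 := by positivity
        linarith
      nlinarith
    have e : η * (T / 2 ^ (k + 1) * Real.log (T / 2 ^ (k + 1))) =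
        η / (2 * 2 ^ (k + 1)) * (T * (2 * Real.log (T / 2 ^ (k + 1)))) := by
      field_simp
    rw [e]
    refine mul_le_mul_of_nonneg_left ?_ (by positivity)
    exact mul_le_mul_of_nonneg_left hlog hT0.le
  have h3 := ASM hl (fav_adm hK hh) (by positivity) hblk (show 0 < ε / 4 by positivity)
  filter_upwards [h3] with T hT
  rw [Real.dist_eq]
  linarith

end Pool.Agent.Helper36
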