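import Pool.Graph.R_seed8.Y744.PCR.ConnB

/-!
# The primitive of the pair correlation density
-/

set_option autoImplicit false

namespace Pool.Agent.Helper36

open Filter Topology MeasureTheory Real
open Pool.Agent.Y744

/-- the triangle -/
noncomputable def trg (α : ℝ) : ℝ := max 0 (1 - |α|)

lemma trg_cont : Continuous trg := by unfold trg; fun_prop

lemma RR_trg {x : ℝ} (hx : x ≠ 0) : H370.A2.RR trg 1 x = Real.sinc (π * x) ^ 2 := by
  have hpi := Real.pi_pos
  rw [Real.sinc_of_ne_zero (by positivity), ← H370.A2.fejer hx]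
  unfold H370.A2.RR
  refine intervalIntegral.integral_congr fun α hα => ?_
  rw [Set.uIcc_of_le (by norm_num)] at hα
  show trg α * Real.cos (2 * π * α * x) = (1 - |α|) * Real.cos (2 * π * x * α)
  unfold trg
  rw [max_eq_right (by linarith [abs_le.2 hα])]
  congr 2
  ring

lemma sinc_sq_le {x : ℝ} (hx : x ≠ 0) : Real.sinc (π * x) ^ 2 ≤ 1 / x ^ 2 := by
  have hpi := Real.pi_gt_three
  rw [Real.sinc_of_ne_zero (by positivity), div_pow, mul_pow]
  have h1 : Real.sin (π * x) ^ 2 ≤ 1 := Real.sin_sq_le_one _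
  have h2 : 0 < x ^ 2 := by positivity
  rw [div_le_div_iff₀ (by positivity) h2]
  have h3 : 1 ≤ π ^ 2 := by nlinarith
  have h4 : Real.sin (π * x) ^ 2 * x ^ 2 ≤ 1 * x ^ 2 := mul_le_mul_of_nonneg_right h1 h2.le
  have h5 : 1 * x ^ 2 ≤ π ^ 2 * x ^ 2 := mul_le_mul_of_nonneg_right h3 h2.le
  linarith

lemma sinc_sq_integrable : Integrable (fun x : ℝ => Real.sinc (π * x) ^ 2) := by
  refine (integrable_inv_one_add_sq.const_mul 2).mono' ?_ (Eventually.of_forall fun x => ?_)
  · exact ((Real.continuous_sinc.comp (by fun_prop)).pow 2).aestronglyMeasurable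
  · rw [Real.norm_eq_abs, abs_of_nonneg (sq_nonneg _), ← div_eq_mul_inv]
    have h0 : Real.sinc (π * x) ^ 2 ≤ 1 := by
      have := Real.abs_sinc_le_one (π * x)
      exact (sq_le_one_iff_abs_le_one _).2 this
    rw [le_div_iff₀ (by positivity)]
    rcases eq_or_ne x 0 with rfl | hx
    · nlinarith
    · have h1 := sinc_sq_le hx
      have h2 : 0 < x ^ 2 := by positivity
      rw [le_div_iff₀ h2] at h1
      nlinarith

lemma sinc_sq_integral : ∫ x : ℝ, Real.sinc (π * x) ^ 2 = 1 := by
  have h := H370.A2.RR_inv (ψ := trg) (μ := 1) trg_cont (fun x hx => by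
      unfold trg; exact max_eq_left (by linarith)) (C := 1) (fun x => by
      rcases eq_or_ne x 0 with rfl | hx
      · simp
      · rw [RR_trg hx, abs_of_nonneg (sq_nonneg _)]
        have h1 := sinc_sq_le hx
        have h2 : 0 < x ^ 2 := by positivity
        rwa [le_div_iff₀ h2] at h1) 0
  have e : H370.A2.evp trg 0 = 1 := by
    unfold H370.A2.evp trg
    simp
  rw [e] at h
  rw [← h]
  refine integral_congr_ae ?_
  have h0 : ∀ᵐ x : ℝ, x ≠ 0 := by
    rw [ae_iff]
    simp
  filter_upwards [h0] with x hx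
  rw [RR_trg hx, mul_zero, Real.cos_zero, mul_one]

lemma sinc_sq_half : ∫ x in Set.Ioi (0 : ℝ), Real.sinc (π * x) ^ 2 = 1 / 2 := by
  have h1 := integral_comp_abs (f := fun x : ℝ => Real.sinc (π * x) ^ 2)
  have h2 : ∫ x : ℝ, (fun x : ℝ => Real.sinc (π * x) ^ 2) |x| = ∫ x : ℝ, Real.sinc (π * x) ^ 2 := by
    refine integral_congr_ae (Eventually.of_forall fun x => ?_)
    show Real.sinc (π * |x|) ^ 2 = Real.sinc (π * x) ^ 2
    rcases abs_cases x with ⟨h, _⟩ | ⟨h, _⟩
    · rw [h]
    · rw [h, mul_neg, Real.sinc_neg]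
  rw [h2, sinc_sq_integral] at h1
  linarith

lemma gp_tail (x : ℝ) : gp x = x - 1 / 2 + ∫ u in Set.Ioi x, Real.sinc (π * u) ^ 2 := by
  have hI := sinc_sq_integrable
  have h1 := intervalIntegral.integral_interval_add_Ioi (a := 0) (b := x)
    (f := fun u : ℝ => Real.sinc (π * u) ^ 2) hI.integrableOn hI.integrableOn
  rw [sinc_sq_half] at h1
  have h2 : gp x = x - ∫ u in (0 : ℝ)..x, Real.sinc (π * u) ^ 2 := by
    unfold gp gd
    have hc : Continuous fun u : ℝ => Real.sinc (π * u) ^ 2 :=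
      (Real.continuous_sinc.comp (continuous_const.mul continuous_id)).pow 2
    rw [intervalIntegral.integral_sub intervalIntegrable_const (hc.intervalIntegrable _ _)]
    simp
  rw [h2]
  linarith

lemma gp_lower (x : ℝ) : x - 1 / 2 ≤ gp x := by
  rw [gp_tail]
  have : 0 ≤ ∫ u in Set.Ioi x, Real.sinc (π * u) ^ 2 := integral_nonneg fun u => sq_nonneg _
  linarith

lemma gp_upper {x : ℝ} (hx : 0 < x) : gp x ≤ x - 1 / 2 + 1 / x := by
  rw [gp_tail]
  have h1 : ∫ u in Set.Ioi x, Real.sinc (π * u) ^ 2 ≤ ∫ u in Set.Ioi x, u ^ (-2 : ℝ) := by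
    refine setIntegral_mono_on sinc_sq_integrable.integrableOn
      (integrableOn_Ioi_rpow_of_lt (by norm_num) hx) measurableSet_Ioi fun u hu => ?_
    have hu0 : 0 < u := hx.trans hu
    have := sinc_sq_le hu0.ne'
    rw [Real.rpow_neg hu0.le, ← one_div]
    refine this.trans (le_of_eq ?_)
    norm_cast
  rw [integral_Ioi_rpow_of_lt (by norm_num) hx] at h1
  have e : -x ^ ((-2 : ℝ) + 1) / ((-2 : ℝ) + 1) = 1 / x := by
    rw [show (-2 : ℝ) + 1 = -1 by norm_num, Real.rpow_neg_one]
    field_simp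
  rw [e] at h1
  linarith

/-- the mean value of the predicted counting function -/
lemma AG_mean {lam : ℝ} (hl : 1 ≤ lam) :
    lam ^ 2 ≤ ∫ y in (0 : ℝ)..lam, (1 + 2 * gp y) ∧
    ∫ y in (0 : ℝ)..lam, (1 + 2 * gp y) ≤ lam ^ 2 + 4 * Real.sqrt lam := by
  have hc : Continuous fun y : ℝ => 1 + 2 * gp y := continuous_const.add (continuous_const.mul gp_cont)
  have hc2 : Continuous fun y : ℝ => 2 * y := by fun_prop
  have e0 : ∀ a b : ℝ, ∫ y in a..b, 2 * y = b ^ 2 - a ^ 2 := by
    intro a b
    rw [intervalIntegral.integral_const_mul, integral_id]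
    ring
  have h1 : ∫ y in (0 : ℝ)..lam, 2 * y ≤ ∫ y in (0 : ℝ)..lam, (1 + 2 * gp y) :=
    intervalIntegral.integral_mono_on (by linarith) (hc2.intervalIntegrable _ _)
      (hc.intervalIntegrable _ _) fun y _ => by
        have := gp_lower y
        linarith
  refine ⟨by rw [e0] at h1; linarith, ?_⟩
  set q := Real.sqrt lam with hq
  have hq1 : 1 ≤ q := Real.one_le_sqrt.2 hl
  have hq2 : q * q = lam := Real.mul_self_sqrt (by linarith)
  have hql : q ≤ lam := by nlinarith
  rw [← intervalIntegral.integral_add_adjacent_intervals (b := q) (hc.intervalIntegrable _ _)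
    (hc.intervalIntegrable _ _)]
  have g1 : ∫ y in (0 : ℝ)..q, (1 + 2 * gp y) ≤ ∫ y in (0 : ℝ)..q, (1 + 2 * y) :=
    intervalIntegral.integral_mono_on (by linarith) (hc.intervalIntegrable _ _)
      ((by fun_prop : Continuous fun y : ℝ => 1 + 2 * y).intervalIntegrable _ _) fun y hy => by
        have := gp_le hy.1
        linarith
  have g2 : ∫ y in q..lam, (1 + 2 * gp y) ≤ ∫ y in q..lam, (2 * y + 2 / q) :=
    intervalIntegral.integral_mono_on hql (hc.intervalIntegrable _ _)
      ((by fun_prop : Continuous fun y : ℝ => 2 * y + 2 / q).intervalIntegrable _ _) fun y hy => by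
        have hy0 : 0 < y := by linarith [hy.1]
        have := gp_upper hy0
        have h3 : 1 / y ≤ 1 / q := one_div_le_one_div_of_le (by linarith) hy.1
        have h4 : 2 / q = 2 * (1 / q) := by ring
        rw [h4]
        linarith
  have g3 : ∫ y in (0 : ℝ)..q, (1 + 2 * y) = q + q ^ 2 := by
    rw [intervalIntegral.integral_add intervalIntegrable_const (hc2.intervalIntegrable _ _), e0]
    simp
  have g4 : ∫ y in q..lam, (2 * y + 2 / q) = lam ^ 2 - q ^ 2 + (lam - q) * (2 / q) := by
    rw [intervalIntegral.integral_add (hc2.intervalIntegrable _ _) intervalIntegrable_const, e0,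
      intervalIntegral.integral_const, smul_eq_mul]
  have g5 : (lam - q) * (2 / q) = 2 * q - 2 := by
    rw [← hq2]
    field_simp
  rw [g3] at g1
  rw [g4, g5] at g2
  linarith

end Pool.Agent.Helper36
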