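import Pool.Agent.Helper36.P1
import Pool.Agent.Helper36.P2a

/-!
# Limits of the pair counting functions along ultrafilters, unconditionally
-/

set_option autoImplicit false

namespace Pool.Agent.Helper36

open Filter Topology MeasureTheory Real
open Pool.Agent.Y744 TH803TW

/-- passage to the limit in the integrals -/
lemma lim_int' {A : ℝ → ℝ → ℝ} {T0 C : ℝ} (hmono : ∀ T, T0 ≤ T → Monotone (A T))
    (hb : ∀ T, T0 ≤ T → ∀ y, |A T y| ≤ C * (1 + y ^ 2)) {w : ℝ → ℝ} (hw : Measurable w) {D : ℝ}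
    (hwd : ∀ y, |w y| ≤ D / (1 + y ^ 2) ^ 2) {I : ℝ} {u : Filter ℝ} [NeBot u]
    (hu : u ≤ atTop) (hI : Tendsto (fun T => ∫ y, A T y * w y) u (𝓝 I))
    {A' : ℝ → ℝ} (hA' : Monotone A')
    (hlim : ∀ y, Tendsto (fun T => A T y) u (𝓝 (A' y))) : ∫ y, A' y * w y = I := by
  have hC : 0 ≤ C := by
    have := (abs_nonneg _).trans (hb T0 le_rfl 0)
    simpa using this
  set q : ℕ → ℝ := TopologicalSpace.denseSeq ℝ with hq
  have hqd : DenseRange q := TopologicalSpace.denseRange_denseSeq ℝ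
  have hex : ∀ n : ℕ, ∃ T : ℝ, (max (n : ℝ) T0 ≤ T ∧
      ∀ j ∈ Finset.range (n + 1), |A T (q j) - A' (q j)| < 1 / ((n : ℝ) + 1)) ∧
      |(∫ y, A T y * w y) - I| < 1 / ((n : ℝ) + 1) := by
    intro n
    have h1 : ∀ᶠ T in u, max (n : ℝ) T0 ≤ T := hu (eventually_ge_atTop _)
    have h2 : ∀ᶠ T in u, ∀ j ∈ Finset.range (n + 1), |A T (q j) - A' (q j)| < 1 / ((n : ℝ) + 1) := by
      rw [Filter.eventually_all_finset]
      intro j _
      have := (Metric.tendsto_nhds.1 (hlim (q j))) (1 / ((n : ℝ) + 1)) (by positivity)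
      simpa [Real.dist_eq] using this
    have h3 : ∀ᶠ T in u, |(∫ y, A T y * w y) - I| < 1 / ((n : ℝ) + 1) := by
      have := (Metric.tendsto_nhds.1 hI) (1 / ((n : ℝ) + 1)) (by positivity)
      simpa [Real.dist_eq] using this
    exact ((h1.and h2).and h3).exists
  choose t ht12 ht3 using hex
  have ht1 : ∀ n : ℕ, max (n : ℝ) T0 ≤ t n := fun n => (ht12 n).1
  have ht2 := fun n => (ht12 n).2
  have htn : ∀ n : ℕ, (n : ℝ) ≤ t n := fun n => (le_max_left _ _).trans (ht1 n)
  have htT : ∀ n : ℕ, T0 ≤ t n := fun n => (le_max_right _ _).trans (ht1 n)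
  have h1n : ∀ ε : ℝ, 0 < ε → ∀ᶠ n : ℕ in atTop, 1 / ((n : ℝ) + 1) < ε := fun ε hε =>
    (tendsto_order.1 tendsto_one_div_add_atTop_nhds_zero_nat).2 ε hε
  have hj : ∀ j, Tendsto (fun n => A (t n) (q j)) atTop (𝓝 (A' (q j))) := by
    intro j
    rw [Metric.tendsto_nhds]
    intro ε hε
    filter_upwards [h1n ε hε, eventually_ge_atTop j] with n hn hnj
    rw [Real.dist_eq]
    exact (ht2 n j (Finset.mem_range.2 (by omega))).trans hn
  have hcont : ∀ x, ContinuousAt A' x → Tendsto (fun n => A (t n) x) atTop (𝓝 (A' x)) := by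
    intro x hx
    rw [tendsto_order]
    constructor
    · intro a ha
      have h1 : ∀ᶠ y in 𝓝 x, a < A' y := hx.eventually_const_lt ha
      obtain ⟨δ, hδ, h2⟩ := Metric.eventually_nhds_iff.1 h1
      obtain ⟨_, ⟨j, rfl⟩, hj1, hj2⟩ := hqd.exists_between (show x - δ < x by linarith)
      have h3 : a < A' (q j) := h2 (by rw [Real.dist_eq, abs_lt]; constructor <;> linarith)
      filter_upwards [(tendsto_order.1 (hj j)).1 a h3] with n hn
      exact hn.trans_le (hmono _ (htT n) hj2.le)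
    · intro a ha
      have h1 : ∀ᶠ y in 𝓝 x, A' y < a := hx.eventually_lt_const ha
      obtain ⟨δ, hδ, h2⟩ := Metric.eventually_nhds_iff.1 h1
      obtain ⟨_, ⟨j, rfl⟩, hj1, hj2⟩ := hqd.exists_between (show x < x + δ by linarith)
      have h3 : A' (q j) < a := h2 (by rw [Real.dist_eq, abs_lt]; constructor <;> linarith)
      filter_upwards [(tendsto_order.1 (hj j)).2 a h3] with n hn
      exact (hmono _ (htT n) hj1.le).trans_lt hn
  have hae : ∀ᵐ x, ContinuousAt A' x := by
    have := hA'.countable_not_continuousAt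
    exact this.ae_notMem volume |>.mono fun x hx => by
      by_contra hc
      exact hx hc
  have hD : Integrable fun y : ℝ => C * D * (1 + y ^ 2)⁻¹ :=
    integrable_inv_one_add_sq.const_mul _
  have h1 : Tendsto (fun n => ∫ y, A (t n) y * w y) atTop (𝓝 (∫ y, A' y * w y)) := by
    refine tendsto_integral_of_dominated_convergence _ (fun n => ?_) hD (fun n => ?_) ?_
    · exact ((hmono _ (htT n)).measurable.mul hw).aestronglyMeasurable
    · refine Eventually.of_forall fun y => ?_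
      rw [Real.norm_eq_abs, abs_mul]
      have h1 : 0 < 1 + y ^ 2 := by positivity
      calc |A (t n) y| * |w y| ≤ (C * (1 + y ^ 2)) * (D / (1 + y ^ 2) ^ 2) := by
            gcongr
            · exact hb _ (htT n) y
            · exact hwd y
        _ = C * D * (1 + y ^ 2)⁻¹ := by field_simp
    · filter_upwards [hae] with x hx
      exact (hcont x hx).mul_const _
  have h2 : Tendsto (fun n => ∫ y, A (t n) y * w y) atTop (𝓝 I) := by
    rw [Metric.tendsto_nhds]
    intro ε hε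
    filter_upwards [h1n ε hε] with n hn
    rw [Real.dist_eq]
    exact (ht3 n).trans hn
  exact tendsto_nhds_unique h1 h2

/-- growth of the counting function, unconditionally -/
lemma Aa_bound'' : ∃ C0 T0 : ℝ, 20 ≤ T0 ∧ ∀ T : ℝ, T0 ≤ T → ∀ y,
    |Aa T y| ≤ C0 * (1 + y ^ 2) := by
  obtain ⟨C, B0, V0, hC, hB0, hV0, hblk, hloc⟩ := PP_bound'
  have hpi := Real.pi_pos
  refine ⟨3200 * (B0 + C) * (2 * π), V0, hV0, fun T hT y => ?_⟩
  have hT20 : 20 ≤ T := hV0.trans hT
  have hX := Xf_pos (V := T) (by linarith)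
  have hL1 : 1 ≤ Real.log T := by
    rw [Real.le_log_iff_exp_le (by linarith)]
    linarith [Real.exp_one_lt_d9]
  rcases lt_or_ge y 0 with hy | hy
  · rw [Aa_neg T y hy, abs_zero]
    positivity
  · unfold Aa
    rw [abs_of_nonneg (mul_nonneg (inv_nonneg.2 hX.le) (PC_nonneg _ _)), inv_mul_le_iff₀ hX]
    have h1 : PC T {x | |x| ≤ y} ≤ (1 + y ^ 2) * ∑ s ∈ Zt T, ∑ s' ∈ Zt T, mz s * mz s' *
        |(fun x : ℝ => 1 / (1 + x ^ 2)) ((s.im - s'.im) * Real.log T / (2 * π))| := by
      unfold PC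
      rw [Finset.mul_sum]
      refine Finset.sum_le_sum fun s _ => ?_
      rw [Finset.mul_sum]
      refine Finset.sum_le_sum fun s' _ => ?_
      have hm : 0 ≤ mz s * mz s' := mul_nonneg (mz_nonneg _) (mz_nonneg _)
      show mz s * mz s' * Set.indicator {x | |x| ≤ y} (fun _ => (1 : ℝ)) (dd T s s') ≤
        (1 + y ^ 2) * (mz s * mz s' * |1 / (1 + (dd T s s') ^ 2)|)
      set x := dd T s s'
      have h2 : Set.indicator {x | |x| ≤ y} (fun _ => (1 : ℝ)) x ≤
          (1 + y ^ 2) * (1 / (1 + x ^ 2)) := by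
        by_cases hx : |x| ≤ y
        · rw [Set.indicator_of_mem (show x ∈ {x | |x| ≤ y} from hx), mul_one_div,
            le_div_iff₀ (by positivity), one_mul]
          have : x ^ 2 ≤ y ^ 2 := by
            rw [← sq_abs x]
            exact pow_le_pow_left₀ (abs_nonneg _) hx 2
          linarith
        · rw [Set.indicator_of_notMem (show x ∉ {x | |x| ≤ y} from hx)]
          positivity
      rw [abs_of_nonneg (by positivity)]
      have h3 := mul_le_mul_of_nonneg_left h2 hm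
      linarith
    have h2 := QS_abs_bound (x := fun s : ℂ => s.im) (Zt T) (Zt T) mz_nonneg
      (f := fun x : ℝ => 1 / (1 + x ^ 2)) (K := 1) (fun x => by
        rw [abs_of_nonneg (by positivity)]) (Λ := Real.log T) (by linarith) one_pos
    have h3 := hloc T hT (Real.log T) le_rfl
    have h4 : B0 ≤ B0 * (T * Real.log T) := by
      have : 1 ≤ T * Real.log T := by nlinarith
      nlinarith
    calc PC T {x | |x| ≤ y} ≤ _ := h1
      _ ≤ (1 + y ^ 2) * (3200 * ((B0 + C) * (T * Real.log T))) := by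
          refine mul_le_mul_of_nonneg_left (h2.trans ?_) (by positivity)
          linarith
      _ = Xf T * (3200 * (B0 + C) * (2 * π) * (1 + y ^ 2)) := by
          unfold Xf
          field_simp

/-- the limit function along an ultrafilter -/
lemma exists_lim (g : Ultrafilter ℝ) (hgt : (g : Filter ℝ) ≤ atTop) :
    ∃ (A' : ℝ → ℝ) (C0 : ℝ), Monotone A' ∧ (∀ y, y < 0 → A' y = 0) ∧
      (∀ y, |A' y| ≤ C0 * (1 + y ^ 2)) ∧ 1 ≤ A' 0 ∧
      (∀ y, Tendsto (fun T => Aa T y) (g : Filter ℝ) (𝓝 (A' y))) := by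
  obtain ⟨C0, T0, hT0, hb⟩ := Aa_bound''
  have hmono : ∀ T, T0 ≤ T → Monotone (Aa T) := fun T hT => Aa_mono (by linarith)
  have hT : ∀ᶠ T in (g : Filter ℝ), T0 ≤ T := hgt (eventually_ge_atTop _)
  have hex : ∀ y, ∃ L, Tendsto (fun T => Aa T y) (g : Filter ℝ) (𝓝 L) := by
    intro y
    have h1 : ((g.map fun T => Aa T y : Ultrafilter ℝ) : Filter ℝ) ≤
        𝓟 (Set.Icc (-(C0 * (1 + y ^ 2))) (C0 * (1 + y ^ 2))) := by
      rw [le_principal_iff]
      have h2 : ∀ᶠ T in (g : Filter ℝ), Aa T y ∈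
          Set.Icc (-(C0 * (1 + y ^ 2))) (C0 * (1 + y ^ 2)) := by
        filter_upwards [hT] with T hT1
        exact abs_le.1 (hb T hT1 y)
      exact h2
    obtain ⟨L, _, hL⟩ := isCompact_Icc.ultrafilter_le_nhds _ h1
    exact ⟨L, hL⟩
  choose A' hlim using hex
  have hA' : Monotone A' := by
    intro a b hab
    refine le_of_tendsto_of_tendsto (hlim a) (hlim b) ?_
    filter_upwards [hT] with T hT1 using hmono T hT1 hab
  refine ⟨A', C0, hA', fun y hy => ?_, fun y => ?_, ?_, hlim⟩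
  · refine tendsto_nhds_unique (hlim y) ?_
    have : (fun T => Aa T y) = fun _ => 0 := funext fun T => Aa_neg T y hy
    rw [this]
    exact tendsto_const_nhds
  · refine le_of_tendsto (hlim y).abs ?_
    filter_upwards [hT] with T hT1 using hb T hT1 y
  · refine le_of_forall_pos_le_add fun ε hε => ?_
    have h1 : ∀ᶠ T in (g : Filter ℝ), 1 - ε ≤ Aa T 0 := hgt (Aa_diag hε)
    have := ge_of_tendsto (hlim 0) h1
    linarith

/-- the annihilation of the band-limited functions of small band -/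
theorem ann_lim : ∃ κ₀ : ℝ, 0 < κ₀ ∧ κ₀ < 1 ∧ ∀ (g : Ultrafilter ℝ), (g : Filter ℝ) ≤ atTop →
    (∀ ε : ℝ, 0 < ε → ∀ᶠ T in (g : Filter ℝ), Noff T ≤ ε * (T * Real.log T)) →
    ∀ A' : ℝ → ℝ, Monotone A' → (∀ y, Tendsto (fun T => Aa T y) (g : Filter ℝ) (𝓝 (A' y))) →
    ∀ K : ℝ → ℝ, TK κ₀ K → ∀ h : ℝ, 0 < h →
      ∫ y, A' y * (ct K (y + h) - ct K (y - h)) = ∫ y, AG y * (ct K (y + h) - ct K (y - h)) := by
  obtain ⟨κ₀, h0, h1, hM⟩ := mont_lim'
  refine ⟨κ₀, h0, h1, fun g hg hoff A' hA' hlim K hK h hh => ?_⟩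
  obtain ⟨C0, T0, hT0, hb⟩ := Aa_bound''
  obtain ⟨D, hD⟩ := test_decay hK h
  refine lim_int' (T0 := T0) (fun T hT => Aa_mono (by linarith)) hb ?_ hD hg ?_ hA' hlim
  · exact (hK.ct_cont.measurable.comp (by fun_prop)).sub
      (hK.ct_cont.measurable.comp (by fun_prop))
  · have h2 := (hM hg hoff K hK h hh).neg
    rw [AG_mont hK h1 hh]
    refine h2.congr fun T => ?_
    rw [Aa_int hK hh]
    rw [div_eq_inv_mul]

/-- the triangle as an average -/
lemma tent_avg {lam : ℝ} (hl : 0 < lam) (x : ℝ) :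
    ∫ y in (0 : ℝ)..lam, (Set.Ici |x|).indicator (fun _ => (1 : ℝ)) y = lam * tent lam x := by
  rw [intervalIntegral.integral_of_le hl.le, ← integral_indicator measurableSet_Ioc]
  have e : (Set.Ioc 0 lam).indicator (fun y => (Set.Ici |x|).indicator (fun _ => (1 : ℝ)) y) =
      (Set.Ioc 0 lam ∩ Set.Ici |x|).indicator (fun _ => (1 : ℝ)) := by
    rw [Set.indicator_indicator]
  rw [e, integral_indicator (measurableSet_Ioc.inter measurableSet_Ici), integral_const,
    smul_eq_mul, mul_one]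
  unfold tent
  rw [measureReal_restrict_apply_univ]
  have h1 : volume.real (Set.Ioc 0 lam ∩ Set.Ici |x|) = volume.real (Set.Icc |x| lam) := by
    refine measureReal_congr ?_
    have h0 : ∀ᵐ y : ℝ, y ≠ 0 := by
      rw [ae_iff]
      simp
    filter_upwards [h0] with y hy
    have : (y ∈ Set.Ioc 0 lam ∩ Set.Ici |x|) = (y ∈ Set.Icc |x| lam) := by
      apply propext
      simp only [Set.mem_inter_iff, Set.mem_Ioc, Set.mem_Ici, Set.mem_Icc]
      constructor
      · rintro ⟨⟨a, b⟩, c⟩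
        exact ⟨c, b⟩
      · rintro ⟨a, b⟩
        exact ⟨⟨lt_of_le_of_ne ((abs_nonneg x).trans a) hy.symm, b⟩, a⟩
    exact this
  rw [h1, Real.volume_real_Icc]
  rcases le_total |x| lam with h | h
  · rw [max_eq_left (by linarith), max_eq_right (by
      rw [sub_nonneg, div_le_one hl]; exact h)]
    field_simp
  · rw [max_eq_right (by linarith), max_eq_left (by
      rw [sub_nonpos, one_le_div hl]; exact h), mul_zero]

/-- the triangle sums as averages of the counting function -/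
lemma tent_int {lam : ℝ} (hl : 0 < lam) (T : ℝ) :
    ∫ y in (0 : ℝ)..lam, Aa T y = lam * ((Xf T)⁻¹ * Q2 (tent lam) T (Real.log T)) := by
  have hii : ∀ t : ℝ, IntervalIntegrable (fun y => (Set.Ici |t|).indicator (fun _ => (1 : ℝ)) y)
      volume 0 lam := by
    intro t
    rw [intervalIntegrable_iff]
    refine IntegrableOn.indicator ?_ measurableSet_Ici
    exact integrableOn_const (by simp)
  have e1 : ∀ y, Aa T y = (Xf T)⁻¹ * ∑ s ∈ Zt T, ∑ s' ∈ Zt T, mz s * mz s' *
        (Set.Ici |dd T s s'|).indicator (fun _ => (1 : ℝ)) y := by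
    intro y
    unfold Aa PC
    congr 1
  simp_rw [e1]
  rw [intervalIntegral.integral_const_mul, intervalIntegral.integral_finsetSum]
  · have e2 : ∀ s ∈ Zt T, ∫ y in (0 : ℝ)..lam, ∑ s' ∈ Zt T, mz s * mz s' *
        (Set.Ici |dd T s s'|).indicator (fun _ => (1 : ℝ)) y =
        lam * ∑ s' ∈ Zt T, mz s * mz s' * tent lam ((s.im - s'.im) * Real.log T / (2 * π)) := by
      intro s _
      rw [intervalIntegral.integral_finsetSum fun s' _ => (hii _).const_mul _, Finset.mul_sum]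
      refine Finset.sum_congr rfl fun s' _ => ?_
      rw [intervalIntegral.integral_const_mul, tent_avg hl]
      unfold dd
      ring
    rw [Finset.sum_congr rfl e2, ← Finset.mul_sum]
    unfold Q2 QS
    ring
  · intro s _
    have h3 := IntervalIntegrable.sum (Zt T) fun s' _ => (hii (dd T s s')).const_mul (mz s * mz s')
    refine h3.congr fun y _ => ?_
    simp only [Finset.sum_apply]

/-- **the mean value of the limit function** -/
theorem mean_zero (g : Ultrafilter ℝ) (hgt : (g : Filter ℝ) ≤ atTop) {A' : ℝ → ℝ}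
    (hA' : Monotone A') (hlim : ∀ y, Tendsto (fun T => Aa T y) (g : Filter ℝ) (𝓝 (A' y)))
    {ε : ℝ} (hε : 0 < ε) : ∃ lam₀ : ℝ, 1 ≤ lam₀ ∧ ∀ lam : ℝ, lam₀ ≤ lam →
      |∫ y in (0 : ℝ)..lam, (A' y - (1 + 2 * gp y))| ≤ ε * lam := by
  obtain ⟨l1, hl1, hT⟩ := TENT (ε / 2) (by positivity)
  obtain ⟨C0, T0, hT0, hb⟩ := Aa_bound''
  refine ⟨max l1 ((8 / ε) ^ 2), hl1.trans (le_max_left _ _), fun lam hlam => ?_⟩
  have h1 : l1 ≤ lam := (le_max_left _ _).trans hlam
  have h2 : (8 / ε) ^ 2 ≤ lam := (le_max_right _ _).trans hlam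
  have hlam1 : 1 ≤ lam := hl1.trans h1
  have hlam0 : 0 < lam := by linarith
  set w : ℝ → ℝ := (Set.Ioc 0 lam).indicator (fun _ => (1 : ℝ)) with hw
  have hwm : Measurable w := measurable_const.indicator measurableSet_Ioc
  have hwd : ∀ y, |w y| ≤ (1 + lam ^ 2) ^ 2 / (1 + y ^ 2) ^ 2 := by
    intro y
    simp only [hw]
    by_cases hy : y ∈ Set.Ioc 0 lam
    · rw [Set.indicator_of_mem hy, abs_one, one_le_div (by positivity)]
      have : y ^ 2 ≤ lam ^ 2 := pow_le_pow_left₀ hy.1.le hy.2 2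
      gcongr
    · rw [Set.indicator_of_notMem hy, abs_zero]
      positivity
  have hint : ∀ F : ℝ → ℝ, ∫ y, F y * w y = ∫ y in (0 : ℝ)..lam, F y := by
    intro F
    rw [intervalIntegral.integral_of_le hlam0.le, ← integral_indicator measurableSet_Ioc]
    refine integral_congr_ae (Eventually.of_forall fun y => ?_)
    simp only [hw]
    by_cases hy : y ∈ Set.Ioc 0 lam
    · rw [Set.indicator_of_mem hy, Set.indicator_of_mem hy, mul_one]
    · rw [Set.indicator_of_notMem hy, Set.indicator_of_notMem hy, mul_zero]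
  -- the limit of the integrals
  have hev : ∀ᶠ T in (g : Filter ℝ), ∫ y in (0 : ℝ)..lam, Aa T y ∈
      Set.Icc (lam * (lam - ε / 2)) (lam * (lam + ε / 2)) := by
    filter_upwards [hgt (hT lam h1), hgt (eventually_gt_atTop (1 : ℝ))] with T hT1 hT2
    rw [tent_int hlam0, ← div_eq_inv_mul]
    obtain ⟨a1, a2⟩ := abs_le.1 hT1
    constructor
    · exact mul_le_mul_of_nonneg_left (by linarith) hlam0.le
    · exact mul_le_mul_of_nonneg_left (by linarith) hlam0.le
  have hex : ∃ I ∈ Set.Icc (lam * (lam - ε / 2)) (lam * (lam + ε / 2)),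
      Tendsto (fun T => ∫ y in (0 : ℝ)..lam, Aa T y) (g : Filter ℝ) (𝓝 I) := by
    have h3 : ((g.map fun T => ∫ y in (0 : ℝ)..lam, Aa T y : Ultrafilter ℝ) : Filter ℝ) ≤
        𝓟 (Set.Icc (lam * (lam - ε / 2)) (lam * (lam + ε / 2))) := by
      rw [le_principal_iff]
      exact hev
    obtain ⟨L, hL1, hL⟩ := isCompact_Icc.ultrafilter_le_nhds _ h3
    exact ⟨L, hL1, hL⟩
  obtain ⟨I, hI, hIt⟩ := hex
  have hkey := lim_int' (T0 := T0) (A := Aa) (fun T hT => Aa_mono (by linarith)) hb hwm hwd hgt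
    (I := I) (by simp_rw [hint]; exact hIt) hA' hlim
  rw [hint] at hkey
  have hc : Continuous fun y : ℝ => 1 + 2 * gp y := continuous_const.add (continuous_const.mul gp_cont)
  rw [intervalIntegral.integral_sub (hA'.intervalIntegrable) (hc.intervalIntegrable _ _), hkey]
  obtain ⟨b1, b2⟩ := AG_mean hlam1
  obtain ⟨c1, c2⟩ := hI
  have hs : 4 * Real.sqrt lam ≤ ε / 2 * lam := by
    have h3 : 8 / ε ≤ Real.sqrt lam := Real.le_sqrt_of_sq_le h2
    have h4 : Real.sqrt lam * Real.sqrt lam = lam := Real.mul_self_sqrt hlam0.le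
    rw [div_le_iff₀ hε] at h3
    have h5 : 0 ≤ Real.sqrt lam := Real.sqrt_nonneg _
    nlinarith
  rw [abs_le]
  constructor <;> nlinarith

end Pool.Agent.Helper36
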