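import Pool.Agent.Helper36.P2b
import Pool.Graph.R_pool_sql_team_seeded_620a6dc7.H424.TW.Rig

/-!
# Zeros which are multiple or off the line, and the sign of the discrepancy
-/

set_option autoImplicit false

namespace Pool.Agent.Helper36

open Filter Topology MeasureTheory Real
open Pool.Agent.Y744 TH803TW
open scoped ComplexConjugate

/-- weight of the zeros which are not both simple and on the line -/
noncomputable def badm (s : ℂ) : ℝ := if s.re = 1 / 2 ∧ mz s = 1 then 0 else mz s

lemma badm_nonneg (s : ℂ) : 0 ≤ badm s := by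
  unfold badm
  split_ifs
  · exact le_rfl
  · exact mz_nonneg s

lemma badm_le (s : ℂ) : badm s ≤ mz s := by
  unfold badm
  split_ifs
  · exact mz_nonneg s
  · exact le_rfl

/-- number of zeros up to height `T` which are not both simple and on the line -/
noncomputable def Nbad (T : ℝ) : ℝ := ∑ s ∈ Zt T, badm s

lemma Noff_le (T : ℝ) : Noff T ≤ Nbad T := by
  unfold Noff Nbad badm
  refine Finset.sum_le_sum fun s _ => ?_
  by_cases h : s.re = 1 / 2
  · rw [if_pos h]
    split_ifs
    · exact le_rfl
    · exact mz_nonneg s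
  · rw [if_neg h, if_neg (fun h2 => h h2.1)]

lemma mz_sq (s : ℂ) : mz s ≤ mz s * mz s := by
  unfold mz
  rcases Nat.eq_zero_or_pos (H370.mult riemannZeta s) with h5 | h5
  · rw [h5]; simp
  · have : (1 : ℝ) ≤ (H370.mult riemannZeta s : ℝ) := by exact_mod_cast h5
    nlinarith

lemma mz_sq2 (s : ℂ) (h : mz s ≠ 1) : 2 * mz s ≤ mz s * mz s := by
  unfold mz at *
  rcases Nat.eq_zero_or_pos (H370.mult riemannZeta s) with h5 | h5
  · rw [h5]; simp
  · have h6 : 2 ≤ H370.mult riemannZeta s := by
      rcases Nat.lt_or_ge (H370.mult riemannZeta s) 2 with h7 | h7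
      · exfalso
        apply h
        have : H370.mult riemannZeta s = 1 := by omega
        rw [this]
        simp
      · exact h7
    have : (2 : ℝ) ≤ (H370.mult riemannZeta s : ℝ) := by exact_mod_cast h6
    nlinarith

lemma bad_le (T : ℝ) : Nbad T + ∑ s ∈ Zt T, mz s ≤ PC T {x | |x| ≤ 0} + ∑ s ∈ Zt 1, mz s := by
  classical
  have key : ∀ s ∈ Zt T, badm s + mz s ≤ (∑ s' ∈ Zt T, mz s * mz s' *
      Set.indicator {x | |x| ≤ 0} (fun _ => (1 : ℝ)) (dd T s s')) +
      (if s ∈ Zt 1 then mz s else 0) := by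
    intro s hs
    have hnn : ∀ s' ∈ Zt T, 0 ≤ mz s * mz s' *
      Set.indicator {x | |x| ≤ 0} (fun _ => (1 : ℝ)) (dd T s s') := fun s' _ =>
      mul_nonneg (mul_nonneg (mz_nonneg _) (mz_nonneg _)) (ind_nonneg _ _)
    have hself : mz s * mz s ≤ ∑ s' ∈ Zt T, mz s * mz s' *
        Set.indicator {x | |x| ≤ 0} (fun _ => (1 : ℝ)) (dd T s s') := by
      have h3 : mz s * mz s = mz s * mz s * Set.indicator {x | |x| ≤ 0} (fun _ => (1 : ℝ)) (dd T s s) := by
        have h4 : dd T s s = 0 := by unfold dd; simp
        rw [h4, Set.indicator_of_mem (by simp : (0 : ℝ) ∈ {x : ℝ | |x| ≤ 0}), mul_one]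
      rw [h3]
      exact Finset.single_le_sum (f := fun s' => mz s * mz s' *
        Set.indicator {x | |x| ≤ 0} (fun _ => (1 : ℝ)) (dd T s s')) hnn hs
    by_cases h1 : s ∈ Zt 1
    · rw [if_pos h1]
      have := badm_le s
      have := mz_sq s
      linarith
    · rw [if_neg h1, add_zero]
      by_cases hb : s.re = 1 / 2 ∧ mz s = 1
      · unfold badm
        rw [if_pos hb, zero_add]
        exact (mz_sq s).trans hself
      · unfold badm
        rw [if_neg hb]
        by_cases hre : s.re = 1 / 2
        · have h2 : mz s ≠ 1 := fun h => hb ⟨hre, h⟩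
          have := mz_sq2 s h2
          linarith
        · -- the reflected zero
          rw [mem_Zt] at hs h1
          obtain ⟨a1, a2, a3, a4, a5⟩ := hs
          have him : 1 < s.im := by
            by_contra hc
            push Not at hc
            exact h1 ⟨a1, a2, a3, hc, a5⟩
          set s' := 1 - conj s with hs'
          have e1 : s'.im = s.im := by simp [hs']
          have e2 : s'.re = 1 - s.re := by simp [hs']
          have hz1 : s' ∈ H370.zset riemannZeta 1 T :=
            H370.zset_refl H370.good_zeta le_rfl ⟨a1, a2, him, a4, a5⟩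
          have hz : s' ∈ Zt T := by
            rw [mem_Zt]
            obtain ⟨b1, b2, b3, b4, b5⟩ := hz1
            exact ⟨b1, b2, by linarith, b4, b5⟩
          have hm : mz s' = mz s := by
            unfold mz
            rw [H370.mult_refl H370.good_zeta a1 a2 him.le]
          have hne : s ≠ s' := by
            intro h
            apply hre
            have := congrArg Complex.re h
            rw [e2] at this
            linarith
          have hs2 : s ∈ Zt T := by
            rw [mem_Zt]
            exact ⟨a1, a2, a3, a4, a5⟩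
          have hsub : ({s, s'} : Finset ℂ) ⊆ Zt T := by
            intro z hz'
            rw [Finset.mem_insert, Finset.mem_singleton] at hz'
            rcases hz' with h | h
            · rw [h]; exact hs2
            · rw [h]; exact hz
          have h5 := Finset.sum_le_sum_of_subset_of_nonneg (f := fun s' => mz s * mz s' *
            Set.indicator {x | |x| ≤ 0} (fun _ => (1 : ℝ)) (dd T s s')) hsub
            (fun z hz' _ => hnn z hz')
          rw [Finset.sum_pair hne] at h5
          have d1 : dd T s s = 0 := by unfold dd; simp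
          have d2 : dd T s s' = 0 := by unfold dd; rw [e1]; simp
          have hmem : (0 : ℝ) ∈ {x : ℝ | |x| ≤ 0} := by simp
          rw [d1, d2, Set.indicator_of_mem hmem, mul_one, mul_one, hm] at h5
          have := mz_sq s
          linarith
  have h1 := Finset.sum_le_sum key
  rw [Finset.sum_add_distrib, Finset.sum_add_distrib] at h1
  have h2 : ∑ s ∈ Zt T, (if s ∈ Zt 1 then mz s else 0) ≤ ∑ s ∈ Zt 1, mz s := by
    rw [← Finset.sum_filter]
    refine Finset.sum_le_sum_of_subset_of_nonneg (fun s hs => (Finset.mem_filter.1 hs).2)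
      fun s _ _ => mz_nonneg s
  unfold Nbad PC
  linarith

/-- the mean multiplicity controls the zeros which are multiple or off the line -/
theorem bad_asymp {ε : ℝ} (hε : 0 < ε) : ∀ᶠ T in atTop, Nbad T ≤ (Aa T 0 - 1 + ε) * Xf T := by
  obtain ⟨T0, hT0, h⟩ := Pool.Agent.W54.TCF.NT_asymp' (ε / 2) (by positivity)
  set M := ∑ s ∈ Zt 1, mz s with hM
  have hM0 : 0 ≤ M := Finset.sum_nonneg fun s _ => mz_nonneg s
  filter_upwards [eventually_ge_atTop T0, eventually_ge_atTop (2 * π * M * 2 / ε),
    eventually_ge_atTop (3 : ℝ)] with T hT hT2 hT3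
  have hX := Xf_pos (V := T) (by linarith)
  have h1 := (h T hT).1
  rw [← sum_Zt] at h1
  have h2 := bad_le T
  have h3 : PC T {x | |x| ≤ 0} = Aa T 0 * Xf T := by
    unfold Aa
    rw [inv_mul_eq_div, div_mul_cancel₀ _ hX.ne']
  have hL1 : 1 ≤ Real.log T := by
    rw [Real.le_log_iff_exp_le (by linarith)]
    linarith [Real.exp_one_lt_d9]
  have h4 : M ≤ ε / 2 * Xf T := by
    unfold Xf
    rw [div_le_iff₀ hε] at hT2
    have hpi := Real.pi_pos
    rw [← mul_div_assoc, le_div_iff₀ (by positivity)]
    have : T ≤ T * Real.log T := by nlinarith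
    nlinarith
  have h5 : (1 - ε / 2) * (T / (2 * π) * Real.log T) = (1 - ε / 2) * Xf T := by
    unfold Xf
    ring
  rw [h5] at h1
  rw [h3] at h2
  nlinarith

/-- rigidity, for a discrepancy of constant sign up to an exponentially small quantity -/
theorem rigid_sign {A' : ℝ → ℝ} {C0 κ : ℝ} (hκ : 0 < κ) (hA' : Monotone A')
    (hneg : ∀ y, y < 0 → A' y = 0) (hb : ∀ y, |A' y| ≤ C0 * (1 + y ^ 2)) (h0 : 1 ≤ A' 0)
    (hann : ∀ K, TK κ K → ∀ h, 0 < h →
      ∫ y, A' y * (ct K (y + h) - ct K (y - h)) = ∫ y, AG y * (ct K (y + h) - ct K (y - h)))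
    {s C c R : ℝ} (hs : s = 1 ∨ s = -1) (hC : 0 ≤ C) (hc : 0 < c) (hR : 0 < R)
    (hyp : ∀ β, R ≤ β → -(C * Real.exp (-(c * β))) ≤ s * (A' β - AG β)) (x : ℝ) :
    A' x = AG x := by
  have hEm := dE_meas hA'
  have hEb := dE_bound hb
  have hEo := dE_odd A'
  have hann2 : ∀ K1, TK κ K1 → ∀ h, 0 < h →
      ∫ y, (dE A' (y + h) - dE A' (y - h)) * ct K1 y = 0 := fun K1 hK1 h hh =>
    annih hK1 hA' hb h (hann K1 hK1 h hh)
  have hs1 : |s| = 1 := by rcases hs with h | h <;> rw [h] <;> simp
  have hs0 : s ≠ 0 := by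
    intro h
    rw [h] at hs1
    simp at hs1
  refine Pool.Agent.H424.TW.rigid (m := fun y => s * y) (κ := κ / 2) (by positivity) hA' hneg hb h0
    (by fun_prop) (fun y => by ring) (W := 1) zero_le_one (fun y => ?_) ?_ (fun K hK => ?_)
    (C := C * (2 / c)) (c := c / 2) (by positivity) (by positivity) hR (fun β hβ => ?_) x
  · rw [abs_mul, hs1, one_mul, one_mul, ← sq_abs y]
    nlinarith [sq_nonneg (|y| - 1), abs_nonneg y]
  · filter_upwards [Pool.Agent.H424.TW.ae_ne_zero] with y hy
    exact mul_ne_zero hs0 hy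
  · have h1 := Pool.Agent.H424.TW.annih_x (κ := κ / 2) (by positivity) (by linarith) hK hEm hEo hEb
      hann2
    have h2 : ∫ y, (s * y * dE A' y) * ct K y = s * ∫ y, (y * dE A' y) * ct K y := by
      rw [← integral_const_mul]
      refine integral_congr_ae (Eventually.of_forall fun y => ?_)
      show (s * y * dE A' y) * ct K y = s * ((y * dE A' y) * ct K y)
      ring
    rw [h2, h1, mul_zero]
  · have h3 := hyp β hβ
    have hβ0 : 0 ≤ β := hR.le.trans hβ
    have h4 := Pool.Agent.H424.TW.exp_shift hC hc hβ0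
    have h5 := mul_le_mul_of_nonneg_left h3 hβ0
    show _ ≤ (s * β) * (A' β - AG β)
    have h6 : (s * β) * (A' β - AG β) = β * (s * (A' β - AG β)) := by ring
    rw [h6]
    linarith

end Pool.Agent.Helper36
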