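import Pool.Agent.Helper36.P3a

/-!
# One-sided conditions on the pair counts
-/

set_option autoImplicit false

namespace Pool.Agent.Helper36

open Filter Topology MeasureTheory Real
open Pool.Agent.Y744 TH803TW

/-- normalised number of pairs with normalised difference in `(0, β]` -/
noncomputable def Np (T β : ℝ) : ℝ := PC T (Set.Ioc 0 β) / Xf T

lemma PC_zero_pos (T : ℝ) {β : ℝ} (hβ : 0 ≤ β) :
    PC T (Set.Icc 0 β) = PC T {x | |x| ≤ 0} + PC T (Set.Ioc 0 β) := by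
  rw [← PC_union T]
  · congr 1
    ext x
    simp only [Set.mem_Icc, Set.mem_union, Set.mem_ofPred_eq, abs_nonpos_iff, Set.mem_Ioc]
    constructor
    · rintro ⟨h1, h2⟩
      rcases h1.eq_or_lt with h | h
      · exact Or.inl h.symm
      · exact Or.inr ⟨h, h2⟩
    · rintro (rfl | ⟨h1, h2⟩)
      · exact ⟨le_rfl, by linarith⟩
      · exact ⟨h1.le, h2⟩
  · rw [Set.disjoint_left]
    rintro x (h1 : |x| ≤ 0) h2
    rw [abs_nonpos_iff] at h1
    rw [h1] at h2
    exact lt_irrefl _ h2.1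

lemma Nr_zero_eq (T : ℝ) {β : ℝ} (hβ : 0 ≤ β) : Y744.Nr T 0 β = Aa T 0 + Np T β := by
  unfold Y744.Nr Aa Np
  rw [PC_zero_pos T hβ]
  ring

lemma Aa_split (T : ℝ) {β : ℝ} (hβ : 0 ≤ β) : Aa T β = Aa T 0 + 2 * Np T β := by
  have h1 := PC_abs T hβ
  have h2 := PC_zero_pos T hβ
  unfold Aa Np
  rw [h2] at h1
  have h3 : PC T {x | |x| ≤ β} = PC T {x | |x| ≤ 0} + 2 * PC T (Set.Ioc 0 β) := by linarith
  rw [h3]
  ring

lemma AG_nonneg' {β : ℝ} (hβ : 0 ≤ β) : AG β = 1 + 2 * gp β := by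
  unfold AG
  rw [if_neg (by linarith)]

/-- a function with mean value zero cannot be bounded below by a positive constant -/
lemma mean_lower {A' : ℝ → ℝ} (hA' : Monotone A')
    (hmean : ∀ ε : ℝ, 0 < ε → ∃ lam₀ : ℝ, 1 ≤ lam₀ ∧ ∀ lam : ℝ, lam₀ ≤ lam →
      |∫ y in (0 : ℝ)..lam, (A' y - (1 + 2 * gp y))| ≤ ε * lam) {R m s : ℝ}
    (hs : s = 1 ∨ s = -1) (hR : 0 ≤ R)
    (h : ∀ y, R ≤ y → m ≤ s * (A' y - (1 + 2 * gp y))) : m ≤ 0 := by
  by_contra hm
  push Not at hm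
  obtain ⟨l1, hl1, hl⟩ := hmean (m / 4) (by positivity)
  have hc : Continuous fun y : ℝ => 1 + 2 * gp y := continuous_const.add (continuous_const.mul gp_cont)
  have hii : ∀ a b : ℝ, IntervalIntegrable (fun y => s * (A' y - (1 + 2 * gp y))) volume a b :=
    fun a b => ((hA'.intervalIntegrable).sub (hc.intervalIntegrable _ _)).const_mul _
  set Q := |∫ y in (0 : ℝ)..R, s * (A' y - (1 + 2 * gp y))| with hQ
  have hQ0 : 0 ≤ Q := abs_nonneg _
  set lam := max l1 (2 * (Q + m * R) / m + R) with hlam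
  have h1 := hl lam (le_max_left _ _)
  have h2 : 2 * (Q + m * R) / m + R ≤ lam := le_max_right _ _
  have hRl : R ≤ lam := by
    have : 0 ≤ 2 * (Q + m * R) / m := by positivity
    linarith
  have h3 : (lam - R) * m ≤ ∫ y in R..lam, s * (A' y - (1 + 2 * gp y)) := by
    have h4 := intervalIntegral.integral_mono_on hRl
      (intervalIntegrable_const : IntervalIntegrable (fun _ => m) volume R lam) (hii R lam)
      fun y hy => h y hy.1
    rwa [intervalIntegral.integral_const, smul_eq_mul] at h4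
  have h5 := intervalIntegral.integral_add_adjacent_intervals (hii 0 R) (hii R lam)
  have h6 : |∫ y in (0 : ℝ)..lam, s * (A' y - (1 + 2 * gp y))| ≤ m / 4 * lam := by
    rw [intervalIntegral.integral_const_mul, abs_mul]
    have : |s| = 1 := by rcases hs with h | h <;> rw [h] <;> simp
    rw [this, one_mul]
    exact h1
  have h7 := (abs_le.1 h6).2
  have h8 := neg_abs_le (∫ y in (0 : ℝ)..R, s * (A' y - (1 + 2 * gp y)))
  rw [← h5] at h7
  have h9 : 2 * (Q + m * R) + R * m ≤ lam * m := by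
    have := mul_le_mul_of_nonneg_right h2 hm.le
    rw [add_mul, div_mul_cancel₀ _ hm.ne'] at this
    exact this
  have h10 : 1 ≤ lam := hl1.trans (le_max_left _ _)
  nlinarith

/-- the limit data along an ultrafilter -/
structure Lim (g : Ultrafilter ℝ) (A' : ℝ → ℝ) (C0 : ℝ) : Prop where
  at_top : (g : Filter ℝ) ≤ atTop
  mono : Monotone A'
  neg : ∀ y, y < 0 → A' y = 0
  bd : ∀ y, |A' y| ≤ C0 * (1 + y ^ 2)
  one : 1 ≤ A' 0
  lim : ∀ y, Tendsto (fun T => Aa T y) (g : Filter ℝ) (𝓝 (A' y))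

lemma lim_exists (g : Ultrafilter ℝ) (hgt : (g : Filter ℝ) ≤ atTop) :
    ∃ (A' : ℝ → ℝ) (C0 : ℝ), Lim g A' C0 := by
  obtain ⟨A', C0, h1, h2, h3, h4, h5⟩ := exists_lim g hgt
  exact ⟨A', C0, hgt, h1, h2, h3, h4, h5⟩

lemma Lim.mean {g : Ultrafilter ℝ} {A' : ℝ → ℝ} {C0 : ℝ} (h : Lim g A' C0) :
    ∀ ε : ℝ, 0 < ε → ∃ lam₀ : ℝ, 1 ≤ lam₀ ∧ ∀ lam : ℝ, lam₀ ≤ lam →
      |∫ y in (0 : ℝ)..lam, (A' y - (1 + 2 * gp y))| ≤ ε * lam := fun _ hε =>
  mean_zero g h.at_top h.mono h.lim hε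

lemma Lim.off {g : Ultrafilter ℝ} {A' : ℝ → ℝ} {C0 : ℝ} (h : Lim g A' C0) (h0 : A' 0 = 1) :
    ∀ ε : ℝ, 0 < ε → ∀ᶠ T in (g : Filter ℝ), Nbad T ≤ ε * Xf T := by
  intro ε hε
  have h1 : ∀ᶠ T in (g : Filter ℝ), Aa T 0 < 1 + ε / 2 := by
    have := h.lim 0
    rw [h0] at this
    exact (tendsto_order.1 this).2 _ (by linarith)
  filter_upwards [h1, h.at_top (bad_asymp (show 0 < ε / 2 by positivity)),
    h.at_top (eventually_gt_atTop (1 : ℝ))] with T h2 h3 h4
  refine h3.trans (mul_le_mul_of_nonneg_right (by linarith) (Xf_pos h4).le)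

lemma Xf_le {T : ℝ} (hT : 1 < T) : Xf T ≤ T * Real.log T := by
  have hpi := Real.pi_gt_three
  have hL : 0 < Real.log T := Real.log_pos hT
  unfold Xf
  rw [div_le_iff₀ (by positivity)]
  have : 0 < T * Real.log T := mul_pos (by linarith) hL
  nlinarith

lemma off_of_bad {l : Filter ℝ} (hl : l ≤ atTop)
    (h : ∀ ε : ℝ, 0 < ε → ∀ᶠ T in l, Nbad T ≤ ε * Xf T) :
    ∀ ε : ℝ, 0 < ε → ∀ᶠ T in l, Noff T ≤ ε * (T * Real.log T) := by
  intro ε hε
  filter_upwards [h ε hε, hl (eventually_gt_atTop (1 : ℝ))] with T h1 h2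
  exact (Noff_le T).trans (h1.trans (mul_le_mul_of_nonneg_left (Xf_le h2) hε.le))

/-- **rigidity**: almost all zeros on the line, and a discrepancy of constant sign -/
lemma Lim.rigid {g : Ultrafilter ℝ} {A' : ℝ → ℝ} {C0 : ℝ} (h : Lim g A' C0) (h0 : A' 0 = 1)
    {s C c R : ℝ} (hs : s = 1 ∨ s = -1) (hC : 0 ≤ C) (hc : 0 < c) (hR : 0 < R)
    (hyp : ∀ β, R ≤ β → -(C * Real.exp (-(c * β))) ≤ s * (A' β - AG β)) (x : ℝ) :
    A' x = AG x := by
  obtain ⟨κ₀, hκ0, -, hann⟩ := ann_lim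
  exact rigid_sign hκ0 h.mono h.neg h.bd h.one
    (hann g h.at_top (off_of_bad h.at_top (h.off h0)) A' h.mono h.lim) hs hC hc hR hyp x

lemma exp_small {C c ε : ℝ} (hc : 0 < c) (hε : 0 < ε) :
    ∃ R : ℝ, ∀ y, R ≤ y → C * Real.exp (-(c * y)) ≤ ε := by
  have h1 : Tendsto (fun y : ℝ => C * Real.exp (-(c * y))) atTop (𝓝 (C * 0)) := by
    refine Tendsto.const_mul _ ?_
    refine Real.tendsto_exp_atBot.comp ?_
    exact tendsto_neg_atTop_atBot.comp (tendsto_id.const_mul_atTop hc)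
  rw [mul_zero] at h1
  obtain ⟨R, hR⟩ := ((tendsto_order.1 h1).2 ε hε).exists_forall_of_atTop
  exact ⟨R, fun y hy => (hR y hy).le⟩

/-- a lower bound, up to an exponentially small quantity, for a function of mean value zero -/
lemma Lim.const {g : Ultrafilter ℝ} {A' : ℝ → ℝ} {C0 : ℝ} (h : Lim g A' C0) {s C c R m : ℝ}
    (hs : s = 1 ∨ s = -1) (hc : 0 < c) (hR : 0 < R)
    (hyp : ∀ β, R ≤ β → m - C * Real.exp (-(c * β)) ≤ s * (A' β - (1 + 2 * gp β))) : m ≤ 0 := by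
  refine le_of_forall_pos_le_add fun ε hε => ?_
  obtain ⟨R1, hR1⟩ := exp_small (C := C) hc hε
  have h1 := mean_lower h.mono h.mean (m := m - ε) (R := max R R1) hs
    (hR.le.trans (le_max_left _ _)) (fun y hy => by
      have h2 := hyp y ((le_max_left _ _).trans hy)
      have h3 := hR1 y ((le_max_right _ _).trans hy)
      linarith)
  linarith

/-- **lower bounds for all windows** -/
theorem K_lower {l : Filter ℝ} (hl : l ≤ atTop) (hyp : ∀ α β : ℝ, 0 < α → α < β → ∀ ε : ℝ, 0 < ε →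
    ∀ᶠ T in l, gp β - gp α - ε ≤ Y744.Nr T α β) (x : ℝ) : Tendsto (fun T => Aa T x) l (𝓝 (AG x)) := by
  rw [tendsto_iff_ultrafilter]
  intro g hg
  obtain ⟨A', C0, h⟩ := lim_exists g (hg.trans hl)
  -- monotonicity of the discrepancy
  have h1 : ∀ α β, 0 < α → α < β → ∀ y, y < α → 2 * (gp β - gp α) ≤ A' β - A' y := by
    intro α β hα hαβ y hy
    refine le_of_forall_pos_le_add fun ε hε => ?_
    have h2 : ∀ᶠ T in (g : Filter ℝ), 2 * (gp β - gp α) - ε ≤ Aa T β - Aa T y := by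
      filter_upwards [hg (hyp α β hα hαβ (ε / 2) (by positivity)),
        h.at_top (eventually_gt_atTop (1 : ℝ))] with T h3 h4
      have h5 := Ww_upper (T := T) (a := α) (ℓ := β - α) (η := α - y) h4 (by linarith) (by linarith)
      rw [Ww_eq hα, show α + (β - α) = β by ring, show α - (α - y) = y by ring] at h5
      linarith
    have h3 := ge_of_tendsto ((h.lim β).sub (h.lim y)) h2
    linarith
  have h2 : ∀ y β, 0 ≤ y → y < β → 2 * (gp β - gp y) ≤ A' β - A' y := by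
    intro y β hy hyβ
    have ht : Tendsto (fun α => 2 * (gp β - gp α)) (𝓝[>] y) (𝓝 (2 * (gp β - gp y))) := by
      have : Continuous fun α => 2 * (gp β - gp α) := by
        have := gp_cont
        fun_prop
      exact this.continuousAt.tendsto.mono_left nhdsWithin_le_nhds
    refine le_of_tendsto ht ?_
    have h3 : ∀ᶠ α in 𝓝[>] y, α < β := nhdsWithin_le_nhds (gt_mem_nhds hyβ)
    filter_upwards [h3, self_mem_nhdsWithin] with α h4 h5
    exact h1 α β (lt_of_le_of_lt hy h5) h4 y h5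
  have h3 : ∀ y, 0 ≤ y → A' y - (1 + 2 * gp y) ≤ 0 := by
    intro y hy
    refine mean_lower h.mono h.mean (s := 1) (R := y) (Or.inl rfl) hy fun z hz => ?_
    rw [one_mul]
    rcases hz.eq_or_lt with h4 | h4
    · rw [h4]
    · have := h2 y z hy h4
      linarith
  have h4 : ∀ y, 0 ≤ y → 0 ≤ A' y - (1 + 2 * gp y) := by
    intro y hy
    have h5 := h.one
    rcases hy.eq_or_lt with h6 | h6
    · rw [← h6, gp_zero]
      linarith
    · have := h2 0 y le_rfl h6
      rw [gp_zero] at this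
      linarith
  have h5 : A' x = AG x := by
    rcases lt_or_ge x 0 with hx | hx
    · rw [h.neg x hx]
      unfold AG
      rw [if_pos hx]
    · rw [AG_nonneg' hx]
      have := h3 x hx
      have := h4 x hx
      linarith
  rw [← h5]
  exact h.lim x

/-- **lower bounds for the number of pairs up to a large distance** -/
theorem K_pos {l : Filter ℝ} (hl : l ≤ atTop) {C c R : ℝ} (hC : 0 ≤ C) (hc : 0 < c) (hR : 0 < R)
    (hyp : ∀ β : ℝ, R ≤ β → ∀ ε : ℝ, 0 < ε → ∀ᶠ T in l,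
      gp β - C * Real.exp (-(c * β)) - ε ≤ Np T β) (x : ℝ) :
    Tendsto (fun T => Aa T x) l (𝓝 (AG x)) := by
  rw [tendsto_iff_ultrafilter]
  intro g hg
  obtain ⟨A', C0, h⟩ := lim_exists g (hg.trans hl)
  have h1 : ∀ β, R ≤ β → (A' 0 - 1) - (2 * C) * Real.exp (-(c * β)) ≤ A' β - (1 + 2 * gp β) := by
    intro β hβ
    refine le_of_forall_pos_le_add fun ε hε => ?_
    have h2 : ∀ᶠ T in (g : Filter ℝ), 2 * gp β - 2 * C * Real.exp (-(c * β)) - ε ≤
        Aa T β - Aa T 0 := by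
      filter_upwards [hg (hyp β hβ (ε / 2) (by positivity))] with T h3
      rw [Aa_split T (hR.le.trans hβ)]
      linarith
    have h3 := ge_of_tendsto ((h.lim β).sub (h.lim 0)) h2
    linarith
  have h0 : A' 0 = 1 := by
    have h2 := h.const (s := 1) (m := A' 0 - 1) (C := 2 * C) (Or.inl rfl) hc hR (fun β hβ => by
      rw [one_mul]
      exact h1 β hβ)
    have := h.one
    linarith
  have h5 := h.rigid h0 (s := 1) (C := 2 * C) (Or.inl rfl) (by positivity) hc hR (fun β hβ => by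
    rw [one_mul, AG_nonneg' (hR.le.trans hβ)]
    have := h1 β hβ
    rw [h0] at this
    linarith) x
  rw [← h5]
  exact h.lim x

/-- **upper bounds for the number of pairs up to a large distance**, diagonal included -/
theorem K_diag {l : Filter ℝ} (hl : l ≤ atTop) {C c R : ℝ} (hC : 0 ≤ C) (hc : 0 < c) (hR : 0 < R)
    (hyp : ∀ β : ℝ, R ≤ β → ∀ ε : ℝ, 0 < ε → ∀ᶠ T in l,
      Y744.Nr T 0 β ≤ 1 + gp β + C * Real.exp (-(c * β)) + ε) (x : ℝ) :
    Tendsto (fun T => Aa T x) l (𝓝 (AG x)) := by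
  rw [tendsto_iff_ultrafilter]
  intro g hg
  obtain ⟨A', C0, h⟩ := lim_exists g (hg.trans hl)
  have h1 : ∀ β, R ≤ β → (A' 0 - 1) - (2 * C) * Real.exp (-(c * β)) ≤
      -1 * (A' β - (1 + 2 * gp β)) := by
    intro β hβ
    refine le_of_forall_pos_le_add fun ε hε => ?_
    have h2 : ∀ᶠ T in (g : Filter ℝ), Aa T β + Aa T 0 ≤
        2 + 2 * gp β + 2 * C * Real.exp (-(c * β)) + ε := by
      filter_upwards [hg (hyp β hβ (ε / 2) (by positivity))] with T h3
      rw [Nr_zero_eq T (hR.le.trans hβ)] at h3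
      rw [Aa_split T (hR.le.trans hβ)]
      linarith
    have h3 := le_of_tendsto ((h.lim β).add (h.lim 0)) h2
    linarith
  have h0 : A' 0 = 1 := by
    have h2 := h.const (s := -1) (m := A' 0 - 1) (C := 2 * C) (Or.inr rfl) hc hR h1
    have := h.one
    linarith
  have h5 := h.rigid h0 (s := -1) (C := 2 * C) (Or.inr rfl) (by positivity) hc hR (fun β hβ => by
    rw [AG_nonneg' (hR.le.trans hβ)]
    have := h1 β hβ
    rw [h0] at this
    linarith) x
  rw [← h5]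
  exact h.lim x

/-- **one-sided bounds for far windows of two lengths**, if almost all zeros are on the line -/
theorem K_two {l : Filter ℝ} (hl : l ≤ atTop)
    (hoff : ∀ ε : ℝ, 0 < ε → ∀ᶠ T in l, Noff T ≤ ε * (T * Real.log T))
    {l1 l2 s1 s2 : ℝ} (hl1 : 0 < l1) (hl2 : 0 < l2) (hirr : Irrational (l1 / l2))
    (hs1 : s1 = 1 ∨ s1 = -1) (hs2 : s2 = 1 ∨ s2 = -1) (h1 : OneS l l1 s1) (h2 : OneS l l2 s2)
    (x : ℝ) : Tendsto (fun T => Aa T x) l (𝓝 (AG x)) := by
  rw [tendsto_iff_ultrafilter]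
  intro g hg
  obtain ⟨A', C0, h⟩ := lim_exists g (hg.trans hl)
  obtain ⟨κ₀, hκ0, -, hann⟩ := ann_lim
  have hann2 := hann g h.at_top (fun ε hε => hg (hoff ε hε)) A' h.mono h.lim
  have key : ∀ ℓ s : ℝ, 0 < ℓ → (s = 1 ∨ s = -1) → OneS l ℓ s →
      ∀ᵐ x, dE A' (x + ℓ) = dE A' x := by
    intro ℓ s hℓ hs hO
    obtain ⟨C, c, a0, hC, hc, ha0, hyp⟩ := hO
    have hs' : -s = 1 ∨ -s = -1 := by
      rcases hs with h | h
      · right; rw [h]
      · left; rw [h]; norm_num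
    have c1 := cond_limit (A := Aa) (T0 := 2) (W := Ww) (fun T hT a ℓ _ _ => Ww_lower (by linarith))
      (fun T hT a ℓ η _ hℓ hη => Ww_upper (by linarith) hη hℓ) h.at_top h.lim (ℓ := ℓ) (s := -s)
      (C := 2 * C) (c := c) (a0 := a0) hℓ hs' ha0 (fun a ha ε hε => by
        filter_upwards [hg (hyp a ha (ε / 2) (by positivity))] with T h3
        rw [Ww_eq (lt_of_lt_of_le ha0 ha)]
        have e : -s * (2 * Y744.Nr T a (a + ℓ) - 2 * (gp (a + ℓ) - gp a)) =
            -(2 * (s * (Y744.Nr T a (a + ℓ) - (gp (a + ℓ) - gp a)))) := by ring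
        rw [e]
        linarith)
    exact periodic hκ0 h.mono h.neg h.bd hann2 hℓ hs' (by positivity) hc ha0 c1
  have p1 := key l1 s1 hl1 hs1 h1
  have p2 := key l2 s2 hl2 hs2 h2
  have := limit_eq h.mono h.neg h.bd h.one hirr p1 p2 x
  rw [← this]
  exact h.lim x

/-- failure along a filter gives an ultrafilter -/
lemma ultra_of_not {l : Filter ℝ} {P : ℝ → Prop} (h : ¬ ∀ᶠ T in l, P T) :
    ∃ g : Ultrafilter ℝ, (g : Filter ℝ) ≤ l ∧ ∀ᶠ T in (g : Filter ℝ), ¬ P T := by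
  rw [Filter.not_eventually] at h
  have hne : NeBot (l ⊓ 𝓟 {T | ¬ P T}) := Filter.frequently_iff_neBot.1 h
  refine ⟨Ultrafilter.of (l ⊓ 𝓟 {T | ¬ P T}), (Ultrafilter.of_le _).trans inf_le_left, ?_⟩
  have h2 := (Ultrafilter.of_le (l ⊓ 𝓟 {T | ¬ P T})).trans inf_le_right
  exact h2 (mem_principal_self _)

/-- **few pairs force multiple zeros or zeros off the line**: quantitative form -/
theorem quant {l : Filter ℝ} (hl : l ≤ atTop) {δ R : ℝ} (hR : 0 < R)
    (hyp : ∀ β : ℝ, R ≤ β → ∀ ε : ℝ, 0 < ε → ∀ᶠ T in l, gp β - δ - ε ≤ Np T β)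
    {ε : ℝ} (hε : 0 < ε) : ∀ᶠ T in l, Nbad T ≤ (2 * δ + ε) * Xf T := by
  by_contra hcon
  obtain ⟨g, hg, hP⟩ := ultra_of_not hcon
  obtain ⟨A', C0, h⟩ := lim_exists g (hg.trans hl)
  have h1 : ∀ β, R ≤ β → (A' 0 - 1 - 2 * δ) - 0 * Real.exp (-(1 * β)) ≤
      1 * (A' β - (1 + 2 * gp β)) := by
    intro β hβ
    refine le_of_forall_pos_le_add fun ε hε => ?_
    have h2 : ∀ᶠ T in (g : Filter ℝ), 2 * gp β - 2 * δ - ε ≤ Aa T β - Aa T 0 := by
      filter_upwards [hg (hyp β hβ (ε / 2) (by positivity))] with T h3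
      rw [Aa_split T (hR.le.trans hβ)]
      linarith
    have h3 := ge_of_tendsto ((h.lim β).sub (h.lim 0)) h2
    linarith
  have h2 := h.const (s := 1) (Or.inl rfl) one_pos hR h1
  have h3 : ∀ᶠ T in (g : Filter ℝ), Aa T 0 < 1 + 2 * δ + ε / 2 :=
    (tendsto_order.1 (h.lim 0)).2 _ (by linarith)
  have h4 : ∀ᶠ T in (g : Filter ℝ), False := by
    filter_upwards [h3, h.at_top (bad_asymp (show 0 < ε / 2 by positivity)),
      h.at_top (eventually_gt_atTop (1 : ℝ)), hP] with T a1 a2 a3 a4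
    apply a4
    refine a2.trans (mul_le_mul_of_nonneg_right (by linarith) (Xf_pos a3).le)
  obtain ⟨T, hT⟩ := h4.exists
  exact hT

/-- the conjecture implies that almost all zeros are simple and on the line -/
theorem bad_of_K {l : Filter ℝ} (hl : l ≤ atTop)
    (hK : ∀ x, Tendsto (fun T => Aa T x) l (𝓝 (AG x))) {ε : ℝ} (hε : 0 < ε) :
    ∀ᶠ T in l, Nbad T ≤ ε * Xf T := by
  have h0 := hK 0
  rw [AG_nonneg' le_rfl, gp_zero, mul_zero, add_zero] at h0
  filter_upwards [(tendsto_order.1 h0).2 (1 + ε / 2) (by linarith),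
    hl (bad_asymp (show 0 < ε / 2 by positivity)), hl (eventually_gt_atTop (1 : ℝ))] with T a1 a2 a3
  exact a2.trans (mul_le_mul_of_nonneg_right (by linarith) (Xf_pos a3).le)

/-- **the mean value of the pair counts**, unconditionally -/
theorem average (ε : ℝ) (hε : 0 < ε) : ∃ lam₀ : ℝ, 1 ≤ lam₀ ∧ ∀ lam : ℝ, lam₀ ≤ lam →
    ∀ᶠ T : ℝ in atTop,
      |(∫ β in (0 : ℝ)..lam, (Np T β - gp β)) / lam + (Aa T 0 - 1) / 2| ≤ ε := by
  obtain ⟨l1, hl1, hT⟩ := TENT ε hε
  refine ⟨max l1 ((4 / ε) ^ 2), hl1.trans (le_max_left _ _), fun lam hlam => ?_⟩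
  have h1 : l1 ≤ lam := (le_max_left _ _).trans hlam
  have h2 : (4 / ε) ^ 2 ≤ lam := (le_max_right _ _).trans hlam
  have hlam1 : 1 ≤ lam := hl1.trans h1
  have hlam0 : 0 < lam := by linarith
  filter_upwards [hT lam h1, eventually_gt_atTop (1 : ℝ)] with T hT1 hT2
  have hc : Continuous fun y : ℝ => 1 + 2 * gp y := continuous_const.add (continuous_const.mul gp_cont)
  have e1 : ∫ β in (0 : ℝ)..lam, (Np T β - gp β) =
      ((∫ y in (0 : ℝ)..lam, Aa T y) - (∫ y in (0 : ℝ)..lam, (1 + 2 * gp y)) -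
        lam * (Aa T 0 - 1)) / 2 := by
    rw [← intervalIntegral.integral_sub ((Aa_mono hT2).intervalIntegrable)
      (hc.intervalIntegrable _ _)]
    have e2 : lam * (Aa T 0 - 1) = ∫ _ in (0 : ℝ)..lam, (Aa T 0 - 1) := by
      rw [intervalIntegral.integral_const, smul_eq_mul, sub_zero]
    rw [e2, ← intervalIntegral.integral_sub (((Aa_mono hT2).intervalIntegrable).sub
      (hc.intervalIntegrable _ _)) intervalIntegrable_const, ← intervalIntegral.integral_div]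
    refine intervalIntegral.integral_congr fun β hβ => ?_
    rw [Set.uIcc_of_le hlam0.le] at hβ
    show Np T β - gp β = (Aa T β - (1 + 2 * gp β) - (Aa T 0 - 1)) / 2
    rw [Aa_split T hβ.1]
    ring
  rw [e1, tent_int hlam0, ← div_eq_inv_mul]
  obtain ⟨b1, b2⟩ := AG_mean hlam1
  have hs : 4 * Real.sqrt lam ≤ ε * lam := by
    have h3 : 4 / ε ≤ Real.sqrt lam := Real.le_sqrt_of_sq_le h2
    have h4 : Real.sqrt lam * Real.sqrt lam = lam := Real.mul_self_sqrt hlam0.le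
    rw [div_le_iff₀ hε] at h3
    have h5 : 0 ≤ Real.sqrt lam := Real.sqrt_nonneg _
    nlinarith
  set Q := Q2 (tent lam) T (Real.log T) / Xf T with hQ
  set G := ∫ y in (0 : ℝ)..lam, (1 + 2 * gp y) with hG
  have e3 : (lam * Q - G - lam * (Aa T 0 - 1)) / 2 / lam + (Aa T 0 - 1) / 2 =
      (Q - G / lam) / 2 := by
    field_simp
    ring
  rw [e3]
  have h6 : lam ≤ G / lam := by
    rw [le_div_iff₀ hlam0]
    nlinarith
  have h7 : G / lam ≤ lam + ε := by
    rw [div_le_iff₀ hlam0]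
    nlinarith
  obtain ⟨a1, a2⟩ := abs_le.1 hT1
  rw [abs_le]
  constructor <;> linarith

end Pool.Agent.Helper36
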