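import Pool.Agent.Helper36.P3b

/-!
# Stability, and local lower densities
-/

set_option autoImplicit false

namespace Pool.Agent.Helper36

open Filter Topology MeasureTheory Real
open Pool.Agent.Y744 TH803TW

/-- from the windows to the limit function -/
lemma Lim.win {g : Ultrafilter ℝ} {A' : ℝ → ℝ} {C0 : ℝ} (h : Lim g A' C0) {α β m : ℝ}
    (hα : 0 < α) (hαβ : α < β)
    (hyp : ∀ ε : ℝ, 0 < ε → ∀ᶠ T in (g : Filter ℝ), m - ε ≤ Y744.Nr T α β) {y : ℝ} (hy : y < α) :
    2 * m ≤ A' β - A' y := by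
  refine le_of_forall_pos_le_add fun ε hε => ?_
  have h2 : ∀ᶠ T in (g : Filter ℝ), 2 * m - ε ≤ Aa T β - Aa T y := by
    filter_upwards [hyp (ε / 2) (by positivity),
      h.at_top (eventually_gt_atTop (1 : ℝ))] with T h3 h4
    have h5 := Ww_upper (T := T) (a := α) (ℓ := β - α) (η := α - y) h4 (by linarith) (by linarith)
    rw [Ww_eq hα, show α + (β - α) = β by ring, show α - (α - y) = y by ring] at h5
    linarith
  have h3 := ge_of_tendsto ((h.lim β).sub (h.lim y)) h2
  linarith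

lemma Lim.win_up {g : Ultrafilter ℝ} {A' : ℝ → ℝ} {C0 : ℝ} (h : Lim g A' C0) {α β M : ℝ}
    (hα : 0 < α) (hαβ : α < β) {y : ℝ} (hy : y < α) (hM : A' β - A' y < M) :
    ∀ᶠ T in (g : Filter ℝ), 2 * Y744.Nr T α β < M := by
  filter_upwards [(tendsto_order.1 ((h.lim β).sub (h.lim y))).2 M hM,
    h.at_top (eventually_gt_atTop (1 : ℝ))] with T h3 h4
  have h5 := Ww_upper (T := T) (a := α) (ℓ := β - α) (η := α - y) h4 (by linarith) (by linarith)
  rw [Ww_eq hα, show α + (β - α) = β by ring, show α - (α - y) = y by ring] at h5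
  linarith

/-- passing to the left endpoint -/
lemma left_limit {A' : ℝ → ℝ} {δ : ℝ} (h1 : ∀ α β, 0 < α → α < β → ∀ y, y < α →
    2 * (gp β - gp α - δ) ≤ A' β - A' y) {y β : ℝ} (hy : 0 ≤ y) (hyβ : y < β) :
    2 * (gp β - gp y - δ) ≤ A' β - A' y := by
  have ht : Tendsto (fun α => 2 * (gp β - gp α - δ)) (𝓝[>] y) (𝓝 (2 * (gp β - gp y - δ))) := by
    have : Continuous fun α => 2 * (gp β - gp α - δ) := by
      have := gp_cont
      fun_prop
    exact this.continuousAt.tendsto.mono_left nhdsWithin_le_nhds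
  refine le_of_tendsto ht ?_
  have h3 : ∀ᶠ α in 𝓝[>] y, α < β := nhdsWithin_le_nhds (gt_mem_nhds hyβ)
  filter_upwards [h3, self_mem_nhdsWithin] with α h4 h5
  exact h1 α β (lt_of_le_of_lt hy h5) h4 y h5

/-- consequences of an almost increasing discrepancy -/
lemma Lim.almost {g : Ultrafilter ℝ} {A' : ℝ → ℝ} {C0 : ℝ} (h : Lim g A' C0) {δ : ℝ}
    (h2 : ∀ y β, 0 ≤ y → y < β → 2 * (gp β - gp y - δ) ≤ A' β - A' y) {y : ℝ} (hy : 0 < y) :
    A' y - (1 + 2 * gp y) ≤ 2 * δ ∧ A' 0 - 1 - 2 * δ ≤ A' y - (1 + 2 * gp y) := by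
  constructor
  · have h3 := mean_lower h.mono h.mean (s := 1) (R := y + 1) (m := A' y - (1 + 2 * gp y) - 2 * δ)
      (Or.inl rfl) (by linarith) fun z hz => by
        rw [one_mul]
        have := h2 y z hy.le (by linarith)
        linarith
    linarith
  · have := h2 0 y le_rfl hy
    rw [gp_zero] at this
    linarith

/-- **stability**: the excess in any window is at most twice the largest deficiency, minus half the
proportion of the zeros which are multiple or off the line -/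
theorem stab {l : Filter ℝ} (hl : l ≤ atTop) {δ : ℝ}
    (hyp : ∀ α β : ℝ, 0 < α → α < β → ∀ ε : ℝ, 0 < ε →
      ∀ᶠ T in l, gp β - gp α - δ - ε ≤ Y744.Nr T α β) {α β : ℝ} (hα : 0 < α) (hαβ : α < β)
    {ε : ℝ} (hε : 0 < ε) :
    ∀ᶠ T in l, Y744.Nr T α β * Xf T + Nbad T / 2 ≤ (gp β - gp α + 2 * δ + ε) * Xf T := by
  by_contra hcon
  obtain ⟨g, hg, hP⟩ := ultra_of_not hcon
  obtain ⟨A', C0, h⟩ := lim_exists g (hg.trans hl)
  have h1 : ∀ α β, 0 < α → α < β → ∀ y, y < α → 2 * (gp β - gp α - δ) ≤ A' β - A' y :=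
    fun α β ha hb y hy => h.win ha hb (fun ε hε => hg (hyp α β ha hb ε hε)) hy
  have h2 : ∀ y β, 0 ≤ y → y < β → 2 * (gp β - gp y - δ) ≤ A' β - A' y := fun y β hy hyβ =>
    left_limit h1 hy hyβ
  obtain ⟨a1, -⟩ := h.almost h2 (show 0 < β by linarith)
  set y := max (α / 2) (α - ε / 8) with hy
  have hy0 : 0 < y := lt_of_lt_of_le (by linarith) (le_max_left _ _)
  have hyα : y < α := by rw [hy]; exact max_lt (by linarith) (by linarith)
  have hy8 : α - ε / 8 ≤ y := le_max_right _ _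
  obtain ⟨-, b2⟩ := h.almost h2 hy0
  have hgp : gp α - gp y ≤ α - y := by
    rw [gp_sub]
    have h3 := intervalIntegral.integral_mono_on hyα.le (gd_cont.intervalIntegrable _ _)
      (intervalIntegrable_const : IntervalIntegrable (fun _ => (1 : ℝ)) volume y α)
      fun u _ => gd_le u
    simpa using h3
  have h3 : A' β - A' y < 2 * (gp β - gp α) + 4 * δ - (A' 0 - 1) + ε / 2 := by linarith
  have h4 := h.win_up hα hαβ hyα h3
  have h5 : ∀ᶠ T in (g : Filter ℝ), Aa T 0 < A' 0 + ε / 4 :=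
    (tendsto_order.1 (h.lim 0)).2 _ (by linarith)
  have h6 : ∀ᶠ T in (g : Filter ℝ), False := by
    filter_upwards [h4, h5, h.at_top (bad_asymp (show 0 < ε / 4 by positivity)),
      h.at_top (eventually_gt_atTop (1 : ℝ)), hP] with T c1 c2 c3 c4 c5
    apply c5
    have hX := Xf_pos c4
    have c6 : Nbad T ≤ (A' 0 - 1 + ε / 2) * Xf T :=
      c3.trans (mul_le_mul_of_nonneg_right (by linarith) hX.le)
    have c7 : 2 * Y744.Nr T α β * Xf T ≤
        (2 * (gp β - gp α) + 4 * δ - (A' 0 - 1) + ε / 2) * Xf T :=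
      mul_le_mul_of_nonneg_right c1.le hX.le
    have c8 : 0 < ε * Xf T := by positivity
    nlinarith
  obtain ⟨T, hT⟩ := h6.exists
  exact hT

/-- an almost increasing discrepancy with no error vanishes -/
lemma Lim.of_mono {g : Ultrafilter ℝ} {A' : ℝ → ℝ} {C0 : ℝ} (h : Lim g A' C0)
    (h2 : ∀ y β, 0 ≤ y → y < β → 2 * (gp β - gp y) ≤ A' β - A' y) (x : ℝ) : A' x = AG x := by
  have h2' : ∀ y β, 0 ≤ y → y < β → 2 * (gp β - gp y - 0) ≤ A' β - A' y := fun y β hy hb => by
    rw [sub_zero]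
    exact h2 y β hy hb
  have h1 := h.one
  rcases lt_trichotomy x 0 with hx | hx | hx
  · rw [h.neg x hx]
    unfold AG
    rw [if_pos hx]
  · rw [hx, AG_nonneg' le_rfl, gp_zero]
    obtain ⟨a1, a2⟩ := h.almost h2' one_pos
    linarith
  · rw [AG_nonneg' hx.le]
    obtain ⟨a1, a2⟩ := h.almost h2' hx
    linarith

/-- increasing, from a local condition, for functions with upward jumps only -/
lemma mono_of_local {G : ℝ → ℝ} {D : ℝ} (hD : 0 ≤ D) (hjump : ∀ x y, x ≤ y → G x - D * (y - x) ≤ G y)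
    {a b : ℝ} (hab : a ≤ b) (hloc : ∀ c, a ≤ c → c < b → ∀ ε, 0 < ε → ∀ h0, 0 < h0 →
      ∃ h, 0 < h ∧ h < h0 ∧ G c - ε * h ≤ G (c + h)) : G a ≤ G b := by
  refine le_of_forall_pos_le_add fun η hη => ?_
  set ε := η / (b - a + 1) with hε
  have hε0 : 0 < ε := by
    have : 0 < b - a + 1 := by linarith
    positivity
  set S := {x | a ≤ x ∧ x ≤ b ∧ G a - ε * (x - a) ≤ G x} with hS
  have haS : a ∈ S := ⟨le_rfl, hab, by simp⟩
  have hbdd : BddAbove S := ⟨b, fun x hx => hx.2.1⟩
  set c := sSup S with hc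
  have hac : a ≤ c := le_csSup hbdd haS
  have hcb : c ≤ b := csSup_le ⟨a, haS⟩ fun x hx => hx.2.1
  have hcS : G a - ε * (c - a) ≤ G c := by
    refine le_of_forall_pos_le_add fun τ hτ => ?_
    obtain ⟨x, hx, hxc⟩ := exists_lt_of_lt_csSup ⟨a, haS⟩ (show c - τ / (D + 1) < c by
      have : 0 < τ / (D + 1) := by positivity
      linarith)
    have hxc2 : x ≤ c := le_csSup hbdd hx
    have h1 := hjump x c hxc2
    have h2 := hx.2.2
    have h3 : D * (c - x) ≤ τ := by
      have h4 : c - x ≤ τ / (D + 1) := by linarith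
      have h5 : D * (c - x) ≤ (D + 1) * (τ / (D + 1)) :=
        mul_le_mul (by linarith) h4 (by linarith) (by linarith)
      rwa [mul_div_cancel₀ _ (by linarith : D + 1 ≠ 0)] at h5
    have h6 : ε * (x - a) ≤ ε * (c - a) := mul_le_mul_of_nonneg_left (by linarith) hε0.le
    linarith
  rcases hcb.eq_or_lt with h | h
  · rw [h] at hcS
    have h7 : ε * (b - a) ≤ η := by
      rw [hε, div_mul_eq_mul_div, div_le_iff₀ (by linarith)]
      nlinarith
    linarith
  · exfalso
    obtain ⟨k, hk0, hk1, hk2⟩ := hloc c hac h ε hε0 (b - c) (by linarith)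
    have hmem : c + k ∈ S := ⟨by linarith, by linarith, by
      have : ε * (c + k - a) = ε * (c - a) + ε * k := by ring
      rw [this]
      linarith⟩
    have := le_csSup hbdd hmem
    linarith

/-- **local lower densities suffice** -/
theorem K_local {l : Filter ℝ} (hl : l ≤ atTop) (hyp : ∀ α : ℝ, 0 < α → ∀ ε : ℝ, 0 < ε →
    ∀ h₀ : ℝ, 0 < h₀ → ∃ h : ℝ, 0 < h ∧ h < h₀ ∧ ∀ᶠ T in l, (gd α - ε) * h ≤ Y744.Nr T α (α + h))
    (x : ℝ) : Tendsto (fun T => Aa T x) l (𝓝 (AG x)) := by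
  rw [tendsto_iff_ultrafilter]
  intro g hg
  obtain ⟨A', C0, h⟩ := lim_exists g (hg.trans hl)
  set U : ℝ → ℝ := Function.leftLim A' with hU
  have hUm : Monotone U := h.mono.leftLim
  -- the local condition in the limit
  have h1 : ∀ α, 0 < α → ∀ ε, 0 < ε → ∀ h₀, 0 < h₀ → ∃ k, 0 < k ∧ k < h₀ ∧
      2 * ((gd α - ε) * k) ≤ A' (α + k) - U α := by
    intro α hα ε hε h₀ hh₀
    obtain ⟨k, hk0, hk1, hk2⟩ := hyp α hα ε hε h₀ hh₀
    refine ⟨k, hk0, hk1, ?_⟩
    have h2 : ∀ y, y < α → A' y ≤ A' (α + k) - 2 * ((gd α - ε) * k) := by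
      intro y hy
      have := h.win hα (show α < α + k by linarith) (m := (gd α - ε) * k) (fun ε' hε' => by
        filter_upwards [hg hk2] with T hT
        linarith) hy
      linarith
    have h3 : U α ≤ A' (α + k) - 2 * ((gd α - ε) * k) := by
      refine le_of_tendsto (h.mono.tendsto_leftLim α) ?_
      filter_upwards [self_mem_nhdsWithin] with y hy
      exact h2 y hy
    linarith
  set G : ℝ → ℝ := fun x => U x - 2 * gp x with hG
  have hjump : ∀ x y, x ≤ y → G x - 2 * (y - x) ≤ G y := by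
    intro x y hxy
    have h2 : gp y - gp x ≤ y - x := by
      rw [gp_sub]
      have h3 := intervalIntegral.integral_mono_on hxy (gd_cont.intervalIntegrable _ _)
        (intervalIntegrable_const : IntervalIntegrable (fun _ => (1 : ℝ)) volume x y)
        fun u _ => gd_le u
      simpa using h3
    have h3 := hUm hxy
    simp only [hG]
    linarith
  have hloc : ∀ c, 0 < c → ∀ ε, 0 < ε → ∀ h0, 0 < h0 →
      ∃ k, 0 < k ∧ k < h0 ∧ G c - ε * k ≤ G (c + k) := by
    intro c hc ε hε h0 hh0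
    set η := min (ε / 8) 1 with hη
    have hη0 : 0 < η := lt_min (by positivity) one_pos
    have hη1 : η ≤ 1 := min_le_right _ _
    have hηε : η ≤ ε / 8 := min_le_left _ _
    -- the derivative of `gp`
    have hd := (gp_deriv c).isLittleO
    have hd2 := hd.bound hη0
    obtain ⟨r, hr, hr2⟩ := Metric.eventually_nhds_iff.1 hd2
    obtain ⟨k, hk0, hk1, hk2⟩ := h1 c hc η hη0 (min h0 r / 2) (by positivity)
    have hk3 : k < h0 / 2 := lt_of_lt_of_le hk1 (div_le_div_of_nonneg_right (min_le_left _ _) (by norm_num))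
    have hk4 : k < r / 2 := lt_of_lt_of_le hk1 (div_le_div_of_nonneg_right (min_le_right _ _) (by norm_num))
    set k' := (1 + η) * k with hk'
    have hk'k : k < k' := by rw [hk']; nlinarith
    have hk'2 : k' ≤ 2 * k := by rw [hk']; nlinarith
    refine ⟨k', by linarith, by linarith, ?_⟩
    have e1 : A' (c + k) ≤ U (c + k') := h.mono.le_leftLim (by linarith)
    have e2 := hr2 (show dist (c + k') c < r by
      rw [Real.dist_eq, add_sub_cancel_left, abs_of_pos (by linarith)]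
      linarith)
    rw [add_sub_cancel_left, smul_eq_mul, Real.norm_eq_abs, Real.norm_eq_abs,
      abs_of_pos (show 0 < k' by linarith)] at e2
    have e3 := (abs_le.1 e2).2
    have hg0 := gd_nonneg c
    have hg1 := gd_le c
    simp only [hG]
    have e4 : gd c * k' ≤ gd c * k + η * k := by
      rw [hk']
      nlinarith
    have e5 : η * k' ≤ 2 * (η * k) := by nlinarith
    have e6 : 8 * (η * k) ≤ ε * k := by nlinarith
    have e7 : ε * k ≤ ε * k' := by nlinarith
    nlinarith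
  have hGm : ∀ a b, 0 < a → a ≤ b → G a ≤ G b := fun a b ha hab =>
    mono_of_local (D := 2) (by norm_num) hjump hab fun c hc _ ε hε h0 hh0 =>
      hloc c (lt_of_lt_of_le ha hc) ε hε h0 hh0
  have h2 : ∀ y β, 0 ≤ y → y < β → 2 * (gp β - gp y) ≤ A' β - A' y := by
    intro y β hy hyβ
    have h3 : ∀ α β, 0 < α → α < β → ∀ y, y < α → 2 * (gp β - gp α - 0) ≤ A' β - A' y := by
      intro α β hα hαβ y hy
      have g1 := hGm α β hα hαβ.le
      have g2 : U β ≤ A' β := h.mono.leftLim_le le_rfl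
      have g3 : A' y ≤ U α := h.mono.le_leftLim hy
      simp only [hG] at g1
      linarith
    have := left_limit h3 hy hyβ
    rwa [sub_zero] at this
  have h5 := h.of_mono h2 x
  rw [← h5]
  exact h.lim x

end Pool.Agent.Helper36
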