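import Pool.Agent.Helper36.P3c
import Pool.Graph.R_seed8.Y744.PCR.Glue

/-!
# Translation of the counts
-/

set_option autoImplicit false

namespace Pool.Agent.Helper36

open Filter Topology MeasureTheory
open Pool.Agent.Y744 TH803TW H370

/-- the nontrivial zeros with ordinate in `(0, T]` -/
def zs (T : ℝ) : Set ℂ :=
  {s : ℂ | 0 < s.re ∧ s.re < 1 ∧ 0 < s.im ∧ s.im ≤ T ∧ riemannZeta s = 0}

lemma zs_fin (T : ℝ) : (zs T).Finite := zeta_zeros_finite T

lemma zs_eq (T : ℝ) : (zs_fin T).toFinset = Zt T := by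
  ext s
  rw [Set.Finite.mem_toFinset, mem_Zt]
  rfl

lemma pairs_PC (T : ℝ) (S : Set ℝ) :
    ((∑ᶠ s ∈ zs T, ∑ᶠ s' ∈ {s' : ℂ | s' ∈ zs T ∧
      (s.im - s'.im) * Real.log T / (2 * Real.pi) ∈ S},
        analyticOrderNatAt riemannZeta s * analyticOrderNatAt riemannZeta s' : ℕ) : ℝ) = PC T S := by
  classical
  unfold PC
  rw [finsum_mem_eq_finite_toFinset_sum _ (zs_fin T), zs_eq]
  push_cast
  refine Finset.sum_congr rfl fun s _ => ?_
  have hfin : {s' : ℂ | s' ∈ zs T ∧ (s.im - s'.im) * Real.log T / (2 * Real.pi) ∈ S}.Finite :=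
    (zs_fin T).subset fun _ h => h.1
  rw [finsum_mem_eq_finite_toFinset_sum _ hfin]
  push_cast
  have e : ∀ s' : ℂ, Y744.mz s * Y744.mz s' * S.indicator (fun _ => (1 : ℝ)) (dd T s s') =
      if (dd T s s') ∈ S then Y744.mz s * Y744.mz s' else 0 := by
    intro s'
    by_cases h : dd T s s' ∈ S
    · rw [if_pos h, Set.indicator_of_mem h, mul_one]
    · rw [if_neg h, Set.indicator_of_notMem h, mul_zero]
  simp_rw [e]
  rw [← Finset.sum_filter]
  refine Finset.sum_congr ?_ fun s' _ => rfl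
  ext s'
  rw [Set.Finite.mem_toFinset, Finset.mem_filter, ← zs_eq, Set.Finite.mem_toFinset]
  rfl

lemma cnt_sum (T : ℝ) (Q : ℂ → Prop) [DecidablePred Q] :
    ((∑ᶠ s ∈ {s : ℂ | s ∈ zs T ∧ Q s}, analyticOrderNatAt riemannZeta s : ℕ) : ℝ) =
      ∑ s ∈ Zt T, if Q s then Y744.mz s else 0 := by
  have hfin : {s : ℂ | s ∈ zs T ∧ Q s}.Finite := (zs_fin T).subset fun _ h => h.1
  rw [finsum_mem_eq_finite_toFinset_sum _ hfin, ← Finset.sum_filter]
  push_cast
  refine Finset.sum_congr ?_ fun s' _ => rfl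
  ext s'
  rw [Set.Finite.mem_toFinset, Finset.mem_filter, ← zs_eq, Set.Finite.mem_toFinset]
  rfl

lemma cnt_all (T : ℝ) : ((∑ᶠ s ∈ zs T, analyticOrderNatAt riemannZeta s : ℕ) : ℝ) =
    (NN riemannZeta 0 T : ℝ) := by
  rw [finsum_mem_eq_finite_toFinset_sum _ (zs_fin T), zs_eq, ← sum_Zt]
  push_cast
  rfl

lemma cnt_bad (T : ℝ) : ((∑ᶠ s ∈ {s : ℂ | s ∈ zs T ∧ ¬ (s.re = 1 / 2 ∧
    analyticOrderNatAt riemannZeta s = 1)}, analyticOrderNatAt riemannZeta s : ℕ) : ℝ) = Nbad T := by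
  classical
  rw [cnt_sum]
  unfold Nbad badm
  refine Finset.sum_congr rfl fun s _ => ?_
  have e : (s.re = 1 / 2 ∧ analyticOrderNatAt riemannZeta s = 1) ↔
      (s.re = 1 / 2 ∧ Y744.mz s = 1) := by
    refine and_congr_right fun _ => ?_
    unfold Y744.mz
    exact ⟨fun h => by
      have : mult riemannZeta s = 1 := h
      rw [this]
      simp, fun h => by
      have : mult riemannZeta s = 1 := by exact_mod_cast h
      exact this⟩
  by_cases h : s.re = 1 / 2 ∧ Y744.mz s = 1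
  · rw [if_pos h, if_neg (not_not.2 (e.2 h))]
  · rw [if_neg h, if_pos (fun h2 => h (e.1 h2))]

lemma cnt_off (T : ℝ) : ((∑ᶠ s ∈ {s : ℂ | s ∈ zs T ∧ s.re ≠ 1 / 2},
    analyticOrderNatAt riemannZeta s : ℕ) : ℝ) = Noff T := by
  classical
  rw [cnt_sum]
  unfold Noff
  refine Finset.sum_congr rfl fun s _ => ?_
  by_cases h : s.re = 1 / 2
  · rw [if_pos h, if_neg (not_not.2 h)]
  · rw [if_neg h, if_pos h]

lemma P_gp (α β : ℝ) : ∫ u in α..β, (1 - (Real.sin (Real.pi * u) / (Real.pi * u)) ^ 2) =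
    gp β - gp α := by
  rw [gp_sub]
  refine intervalIntegral.integral_congr_ae ?_
  have h0 : ∀ᵐ x : ℝ, x ≠ 0 := by
    rw [ae_iff]
    simp
  filter_upwards [h0] with x hx _
  unfold gd
  have hpi := Real.pi_pos
  rw [Real.sinc_of_ne_zero (by positivity)]

lemma gp_lt {α β : ℝ} (h : α < β) : 0 < gp β - gp α := by
  rw [gp_sub]
  refine intervalIntegral.integral_pos h gd_cont.continuousOn (fun u _ => gd_nonneg u) ?_
  have hpos : ∀ c : ℝ, c ≠ 0 → 0 < gd c := by
    intro c hc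
    unfold gd
    have := G.sinc_lt (x := Real.pi * c) (mul_ne_zero Real.pi_pos.ne' hc)
    linarith
  by_cases hβ : β = 0
  · exact ⟨α, ⟨le_rfl, h.le⟩, hpos α (by rw [hβ] at h; exact h.ne)⟩
  · exact ⟨β, ⟨h.le, le_rfl⟩, hpos β hβ⟩

/-- asymptotic equivalence in terms of the normalised counts -/
lemma equiv_iff {F : Filter ℝ} (hF : F ≤ atTop) {f : ℝ → ℝ} {p : ℝ} (hp : 0 < p) :
    Asymptotics.IsEquivalent F f (fun T => p * Xf T) ↔
      Tendsto (fun T => f T / Xf T) F (𝓝 p) := by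
  have hev : ∀ᶠ T in F, 1 < T := hF (eventually_gt_atTop 1)
  have hne : ∀ᶠ T in F, p * Xf T ≠ 0 := by
    filter_upwards [hev] with T hT
    exact mul_ne_zero hp.ne' (Xf_pos hT).ne'
  rw [Asymptotics.isEquivalent_iff_tendsto_one hne]
  have e : f / (fun T => p * Xf T) = fun T => (f T / Xf T) / p := by
    funext T
    show f T / (p * Xf T) = _
    rw [div_div, mul_comm (Xf T)]
  rw [e]
  constructor
  · intro h1
    have := h1.mul_const p
    rw [one_mul] at this
    refine this.congr fun T => ?_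
    rw [div_mul_cancel₀ _ hp.ne']
  · intro h1
    have := h1.div_const p
    rwa [div_self hp.ne'] at this

/-- the conjecture in terms of the counting function of the differences -/
lemma Mont_K {F : Filter ℝ} (hF : F ≤ atTop) :
    (∀ α β : ℝ, 0 < α → α < β → Tendsto (fun T => Y744.Nr T α β) F (𝓝 (gp β - gp α))) ↔
      ∀ x, Tendsto (fun T => Aa T x) F (𝓝 (AG x)) := by
  constructor
  · intro h
    refine K_lower hF fun α β hα hαβ ε hε => ?_
    filter_upwards [(tendsto_order.1 (h α β hα hαβ)).1 (gp β - gp α - ε) (by linarith)] with T hT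
    exact hT.le
  · intro h α β hα hαβ
    have h1 := Nr_all hF h hαβ
    have e : pr α β = gp β - gp α := by
      unfold pr
      rw [Set.indicator_of_notMem (by
        rintro ⟨h2, h3⟩
        linarith)]
      ring
    rwa [e] at h1

lemma Np_K {F : Filter ℝ} (h : ∀ x, Tendsto (fun T => Aa T x) F (𝓝 (AG x))) {β : ℝ}
    (hβ : 0 ≤ β) : Tendsto (fun T => Np T β) F (𝓝 (gp β)) := by
  have h1 := ((h β).sub (h 0)).div_const 2
  rw [AG_nonneg' hβ, AG_nonneg' le_rfl, gp_zero] at h1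
  have e : (1 + 2 * gp β - (1 + 2 * 0)) / 2 = gp β := by ring
  rw [e] at h1
  refine h1.congr fun T => ?_
  rw [Aa_split T hβ]
  ring

lemma NN_Xf : Tendsto (fun T => (NN riemannZeta 0 T : ℝ) / Xf T) atTop (𝓝 1) := by
  rw [Metric.tendsto_nhds]
  intro ε hε
  obtain ⟨T0, hT0, h⟩ := Pool.Agent.W54.TCF.NT_asymp' (ε / 2) (by positivity)
  filter_upwards [eventually_ge_atTop T0] with T hT
  have hX := Xf_pos (V := T) (by linarith)
  obtain ⟨h1, h2⟩ := h T hT
  have e : T / (2 * Real.pi) * Real.log T = Xf T := by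
    unfold Xf
    ring
  rw [e] at h1 h2
  rw [Real.dist_eq, abs_lt]
  have e2 : (NN riemannZeta 0 T : ℝ) / Xf T - 1 = ((NN riemannZeta 0 T : ℝ) - Xf T) / Xf T := by
    field_simp
  rw [e2]
  constructor
  · rw [lt_div_iff₀ hX]
    nlinarith
  · rw [div_lt_iff₀ hX]
    nlinarith

end Pool.Agent.Helper36
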