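import Pool.Agent.Helper36.P3a
import Pool.Agent.Helper36.M2
import Pool.Agent.Helper36.M4a

/-!
# Pairs which contain a zero that is multiple or off the line: one dyadic block
-/

set_option autoImplicit false

namespace Pool.Agent.Helper36

open Filter Topology MeasureTheory Set
open Pool.Agent.Q97.UM Pool.Agent.Q210.UM Pool.Agent.Q222.UM

/-- a nontrivial zero -/
def IsZ (s : ℂ) : Prop := riemannZeta s = 0 ∧ 0 < s.re ∧ s.re < 1

/-- the counts of a finite set of zeros are at most the counts of all zeros -/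
lemma Nr_le_cz (hZ : S_ZF2) {S : Finset ℂ} (hS : ∀ s ∈ S, IsZ s) {w : ℂ → ℝ}
    (hw : ∀ s, w s ≤ Pool.Agent.Y744.mz s) (r X t : ℝ) :
    Nr S w (fun s => s.im - X) r t ≤ cz (t + X) r 0 := by
  classical
  rw [cz_eq hZ]
  have h1 : Nr S w (fun s => s.im - X) r t ≤
      ∑ s ∈ S, if s ∈ (hZ.1 (t + X) r).toFinset then (analyticOrderNatAt riemannZeta s : ℝ) else 0 := by
    unfold Nr
    refine Finset.sum_le_sum fun s hs => ?_
    by_cases h : t ∈ Icc (s.im - X - r) (s.im - X + r)
    · rw [indicator_of_mem h, mul_one, if_pos]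
      · exact hw s
      · rw [Set.Finite.mem_toFinset]
        obtain ⟨m1, m2, m3⟩ := hS s hs
        refine ⟨m1, m2, m3, ?_⟩
        rw [abs_le]
        constructor <;> linarith [h.1, h.2]
    · rw [indicator_of_notMem h, mul_zero]
      split_ifs
      · exact Nat.cast_nonneg _
      · exact le_rfl
  refine h1.trans ?_
  rw [← Finset.sum_filter]
  refine le_trans (Finset.sum_le_sum_of_subset_of_nonneg (t := (hZ.1 (t + X) r).toFinset)
    (fun s hs => (Finset.mem_filter.1 hs).2) fun _ _ _ => Nat.cast_nonneg _) ?_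
  refine Finset.sum_le_sum fun s _ => ?_
  rw [if_pos (abs_nonneg _)]

lemma young4 {b c K : ℝ} (hb : 0 ≤ b) (hc : 0 ≤ c) (hK : 1 ≤ K) :
    b * c ≤ K * b + (b ^ 4 + c ^ 4) / K ^ 2 := by
  have hK0 : 0 < K := by linarith
  have hp : 0 ≤ (b ^ 4 + c ^ 4) / K ^ 2 := by positivity
  rcases le_total c K with h | h
  · nlinarith
  · have h1 : b * c ≤ (b * c ^ 3) / K ^ 2 := by
      rw [le_div_iff₀ (by positivity)]
      have h2 : K ^ 2 ≤ c ^ 2 := pow_le_pow_left₀ hK0.le h 2
      have h3 : 0 ≤ b * c := mul_nonneg hb hc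
      have h4 : b * c * K ^ 2 ≤ b * c * c ^ 2 := mul_le_mul_of_nonneg_left h2 h3
      have e : b * c * c ^ 2 = b * c ^ 3 := by ring
      linarith
    have h2 : b * c ^ 3 ≤ b ^ 4 + c ^ 4 := by
      rcases le_total b c with h3 | h3
      · have h4 : b * c ^ 3 ≤ c * c ^ 3 := mul_le_mul_of_nonneg_right h3 (by positivity)
        have h5 : 0 ≤ b ^ 4 := by positivity
        have e : c * c ^ 3 = c ^ 4 := by ring
        linarith
      · have h4 : c ^ 3 ≤ b ^ 3 := pow_le_pow_left₀ hc h3 3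
        have h5 : b * c ^ 3 ≤ b * b ^ 3 := mul_le_mul_of_nonneg_left h4 hb
        have h6 : 0 ≤ c ^ 4 := by positivity
        have e : b * b ^ 3 = b ^ 4 := by ring
        linarith
    have h3 : (b * c ^ 3) / K ^ 2 ≤ (b ^ 4 + c ^ 4) / K ^ 2 :=
      div_le_div_of_nonneg_right h2 (by positivity)
    have h4 : 0 ≤ K * b := by positivity
    linarith

/-- covering by cells -/
lemma cover {r y : ℝ} (hr : 0 < r) {J : ℕ} (hy : |y| ≤ (J + 1) * r) :
    ∃ i ∈ Finset.range (2 * J + 3), |y - ((i : ℝ) - (J + 1)) * r| ≤ r := by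
  obtain ⟨h1, h2⟩ := abs_le.1 hy
  set k : ℤ := round (y / r) with hk
  have h3 := abs_sub_round (y / r)
  rw [← hk] at h3
  obtain ⟨h4, h5⟩ := abs_le.1 h3
  have h6 : y / r ≤ J + 1 := by rw [div_le_iff₀ hr]; exact h2
  have h7 : -(J + 1 : ℝ) ≤ y / r := by
    rw [le_div_iff₀ hr]
    linarith
  have h8 : (k : ℝ) < (J : ℝ) + 2 := by linarith
  have h9 : -((J : ℝ) + 2) < (k : ℝ) := by linarith
  have h10 : k < (J : ℤ) + 2 := by exact_mod_cast h8
  have h11 : -((J : ℤ) + 2) < k := by exact_mod_cast h9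
  refine ⟨(k + (J + 1)).toNat, ?_, ?_⟩
  · rw [Finset.mem_range]
    omega
  · have h12 : (((k + (J + 1)).toNat : ℕ) : ℝ) = (k : ℝ) + (J + 1) := by
      have : (((k + (J + 1)).toNat : ℕ) : ℤ) = k + (J + 1) := Int.toNat_of_nonneg (by omega)
      exact_mod_cast this
    rw [h12]
    have e : y - ((k : ℝ) + (J + 1) - (J + 1)) * r = (y / r - k) * r := by
      field_simp
      ring
    rw [e, abs_mul, abs_of_pos hr]
    have : |y / r - k| ≤ 1 := by linarith
    nlinarith

/-- **one dyadic block** -/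
theorem bad_blk : ∃ C : ℝ, 0 < C ∧ ∀ J : ℕ, ∀ᶠ V : ℝ in atTop, ∀ Z S : Finset ℂ,
    (∀ s ∈ Z, IsZ s ∧ V ≤ s.im ∧ s.im ≤ 2 * V) → (∀ s ∈ S, IsZ s) → ∀ K : ℝ, 1 ≤ K →
    ∑ s ∈ Z, ∑ s' ∈ S, badm s * Pool.Agent.Y744.mz s' *
      (Icc (-(J / Real.log V)) (J / Real.log V)).indicator (fun _ => (1 : ℝ)) (s.im - s'.im) ≤
      C * (2 * J + 3) * (K * (∑ s ∈ Z, badm s) + V * Real.log V / K ^ 2) := by
  have hZ : S_ZF2 := Pool.Agent.Q178.UM.ZF2.t_ZF2
  obtain ⟨c, C₂, hc, hc1, hC₂, hE⟩ := M4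
  refine ⟨2 + 2 * C₂, by positivity, fun J => ?_⟩
  filter_upwards [hE, Pool.Agent.Q150.UM.ev_log 1, eventually_ge_atTop (8 * (J + 2 : ℝ))]
    with V hV hL1 hVJ Z S hZs hSs K hK
  set L := Real.log V with hL
  have hL0 : 0 < L := by linarith
  have hV0 : 0 < V := by
    have : (0 : ℝ) ≤ J := Nat.cast_nonneg J
    linarith
  set r : ℝ := 1 / L with hr
  have hr0 : 0 < r := by positivity
  have hr1 : r ≤ 1 := by rw [hr, div_le_one hL0]; exact hL1
  have hab : V ≤ 2 * V := by linarith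
  set mz := Pool.Agent.Y744.mz with hmz
  have hm0 : ∀ s, 0 ≤ mz s := Pool.Agent.Y744.mz_nonneg
  set xi : ℕ → ℝ := fun i => ((i : ℝ) - (J + 1)) * r with hxi
  have hxi1 : ∀ i ∈ Finset.range (2 * J + 3), |xi i| ≤ V / 8 := by
    intro i hi
    rw [Finset.mem_range] at hi
    have h1 : (i : ℝ) < 2 * J + 3 := by exact_mod_cast hi
    have h0 : (0 : ℝ) ≤ i := Nat.cast_nonneg i
    have h2 : |(i : ℝ) - (J + 1)| ≤ J + 2 := by
      rw [abs_le]
      constructor <;> linarith
    simp only [hxi]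
    rw [abs_mul, abs_of_pos hr0]
    have h3 : (0 : ℝ) ≤ J := Nat.cast_nonneg J
    have h4 : |(i : ℝ) - (J + 1)| * r ≤ (J + 2) * 1 :=
      mul_le_mul h2 hr1 hr0.le (by linarith)
    linarith
  set D : ℂ → ℂ → ℝ := fun s s' =>
    (Icc (-(J / L)) (J / L)).indicator (fun _ => (1 : ℝ)) (s.im - s'.im) with hD
  have hD0 : ∀ s s', 0 ≤ D s s' := fun s s' => indicator_nonneg (fun _ _ => zero_le_one) _
  set φ : ℝ → ℝ := fun t => ∑ s ∈ Z, ∑ s' ∈ S, badm s * mz s' * D s s' *
    (Icc (s.im - r) (s.im + r)).indicator (fun _ => (1 : ℝ)) t with hφ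
  -- the pointwise bound
  have hpt : ∀ t, φ t ≤ ∑ i ∈ Finset.range (2 * J + 3),
      (K * Nr Z badm (fun s => s.im) r t + (cz (t + 0) r 0 ^ 4 + cz (t + xi i) r 0 ^ 4) / K ^ 2) := by
    intro t
    set B := Nr Z badm (fun s => s.im) r t with hB
    have hB0 : 0 ≤ B := Finset.sum_nonneg fun s _ =>
      mul_nonneg (badm_nonneg s) (indicator_nonneg (fun _ _ => zero_le_one) _)
    have hBc : B ≤ cz (t + 0) r 0 := by
      have := Nr_le_cz hZ (fun s hs => (hZs s hs).1) badm_le r 0 t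
      simp only [sub_zero] at this
      exact this
    have hN0 : ∀ i, 0 ≤ Nr S mz (fun s => s.im - xi i) r t := fun i => Finset.sum_nonneg fun s _ =>
      mul_nonneg (hm0 s) (indicator_nonneg (fun _ _ => zero_le_one) _)
    have h1 : φ t ≤ B * ∑ i ∈ Finset.range (2 * J + 3), Nr S mz (fun s => s.im - xi i) r t := by
      simp only [hφ]
      rw [hB]
      unfold Nr
      rw [Finset.sum_mul]
      refine Finset.sum_le_sum fun s _ => ?_
      rw [Finset.sum_comm, Finset.mul_sum]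
      refine Finset.sum_le_sum fun s' _ => ?_
      by_cases h2 : t ∈ Icc (s.im - r) (s.im + r)
      · rw [indicator_of_mem h2, mul_one, mul_one]
        by_cases h3 : s.im - s'.im ∈ Icc (-(J / L)) (J / L)
        · have h4 : D s s' = 1 := by simp only [hD]; rw [indicator_of_mem h3]
          rw [h4, mul_one]
          refine mul_le_mul_of_nonneg_left ?_ (badm_nonneg s)
          have h5 : |s'.im - t| ≤ (J + 1) * r := by
            have e : (J : ℝ) / L = J * r := by rw [hr]; ring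
            rw [e] at h3
            rw [abs_le]
            constructor <;> nlinarith [h2.1, h2.2, h3.1, h3.2]
          obtain ⟨i, hi, hi2⟩ := cover hr0 h5
          have h6 : t ∈ Icc (s'.im - xi i - r) (s'.im - xi i + r) := by
            obtain ⟨h7, h8⟩ := abs_le.1 hi2
            simp only [hxi]
            constructor <;> linarith
          have h7 := Finset.single_le_sum (f := fun i => mz s' *
            (Icc (s'.im - xi i - r) (s'.im - xi i + r)).indicator (fun _ => (1 : ℝ)) t)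
            (fun i _ => mul_nonneg (hm0 s') (indicator_nonneg (fun _ _ => zero_le_one) _)) hi
          beta_reduce at h7
          rw [indicator_of_mem h6, mul_one] at h7
          exact h7
        · have h4 : D s s' = 0 := by simp only [hD]; rw [indicator_of_notMem h3]
          rw [h4, mul_zero]
          exact mul_nonneg (badm_nonneg s) (Finset.sum_nonneg fun i _ =>
            mul_nonneg (hm0 s') (indicator_nonneg (fun _ _ => zero_le_one) _))
      · rw [indicator_of_notMem h2, mul_zero, mul_zero, zero_mul]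
    refine h1.trans ?_
    rw [Finset.mul_sum]
    refine Finset.sum_le_sum fun i _ => ?_
    refine (young4 hB0 (hN0 i) hK).trans ?_
    have h2 : Nr S mz (fun s => s.im - xi i) r t ≤ cz (t + xi i) r 0 :=
      Nr_le_cz hZ hSs (fun s => le_rfl) r (xi i) t
    have h3 : B ^ 4 ≤ cz (t + 0) r 0 ^ 4 := pow_le_pow_left₀ hB0 hBc 4
    have h4 : Nr S mz (fun s => s.im - xi i) r t ^ 4 ≤ cz (t + xi i) r 0 ^ 4 :=
      pow_le_pow_left₀ (hN0 i) h2 4
    have h5 : (B ^ 4 + Nr S mz (fun s => s.im - xi i) r t ^ 4) / K ^ 2 ≤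
        (cz (t + 0) r 0 ^ 4 + cz (t + xi i) r 0 ^ 4) / K ^ 2 :=
      div_le_div_of_nonneg_right (by linarith) (by positivity)
    linarith
  -- integrate
  have hi0 : ∀ s s', IntervalIntegrable (fun t => badm s * mz s' * D s s' *
      (Icc (s.im - r) (s.im + r)).indicator (fun _ => (1 : ℝ)) t) volume V (2 * V) := fun s s' =>
    (ind_ii V (2 * V) (s.im - r) (s.im + r)).const_mul _
  have hφi : IntervalIntegrable φ volume V (2 * V) := by
    have h1 := IntervalIntegrable.sum Z fun s _ => IntervalIntegrable.sum S fun s' _ => hi0 s s'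
    refine h1.congr fun t _ => ?_
    simp only [Finset.sum_apply, hφ]
  have hlow : r * ∑ s ∈ Z, ∑ s' ∈ S, badm s * mz s' * D s s' ≤ ∫ t in V..(2 * V), φ t := by
    simp only [hφ]
    rw [intervalIntegral.integral_finsetSum, Finset.mul_sum]
    · refine Finset.sum_le_sum fun s hs => ?_
      rw [intervalIntegral.integral_finsetSum fun s' _ => hi0 s s', Finset.mul_sum]
      refine Finset.sum_le_sum fun s' _ => ?_
      rw [intervalIntegral.integral_const_mul, ind_int hab, mul_comm r]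
      refine mul_le_mul_of_nonneg_left ?_ (mul_nonneg (mul_nonneg (badm_nonneg s) (hm0 s')) (hD0 s s'))
      obtain ⟨-, h1, h2⟩ := hZs s hs
      refine le_trans ?_ (le_max_right _ _)
      have hVr : 1 ≤ V := by
        have : (0 : ℝ) ≤ J := Nat.cast_nonneg J
        linarith
      rcases le_total (2 * V) (s.im + r) with h3 | h3 <;> rcases le_total V (s.im - r) with h4 | h4
      · rw [min_eq_left h3, max_eq_right h4]; linarith
      · rw [min_eq_left h3, max_eq_left h4]; linarith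
      · rw [min_eq_right h3, max_eq_right h4]; linarith
      · rw [min_eq_right h3, max_eq_left h4]; linarith
    · intro s _
      have h3 := IntervalIntegrable.sum S fun s' _ => hi0 s s'
      refine h3.congr fun t _ => ?_
      simp only [Finset.sum_apply]
  have hiN : IntervalIntegrable (fun t => K * Nr Z badm (fun s => s.im) r t) volume V (2 * V) :=
    (Nr_ii V (2 * V)).const_mul _
  have hic : ∀ X, IntervalIntegrable (fun t => cz (t + X) r 0 ^ 4) volume V (2 * V) := fun X =>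
    czp_int hZ 4 X r 0 hab
  have hit : ∀ i, IntervalIntegrable (fun t => K * Nr Z badm (fun s => s.im) r t +
      (cz (t + 0) r 0 ^ 4 + cz (t + xi i) r 0 ^ 4) / K ^ 2) volume V (2 * V) := fun i =>
    hiN.add (((hic 0).add (hic (xi i))).div_const _)
  have hup : ∫ t in V..(2 * V), φ t ≤ ∑ i ∈ Finset.range (2 * J + 3),
      (K * (2 * r * ∑ s ∈ Z, badm s) + (C₂ * V + C₂ * V) / K ^ 2) := by
    have h1 : ∫ t in V..(2 * V), φ t ≤ ∫ t in V..(2 * V), ∑ i ∈ Finset.range (2 * J + 3),
        (K * Nr Z badm (fun s => s.im) r t + (cz (t + 0) r 0 ^ 4 + cz (t + xi i) r 0 ^ 4) / K ^ 2) := by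
      refine intervalIntegral.integral_mono_on hab hφi ?_ fun t _ => hpt t
      have h3 := IntervalIntegrable.sum (Finset.range (2 * J + 3)) fun i _ => hit i
      refine h3.congr fun t _ => ?_
      simp only [Finset.sum_apply]
    refine h1.trans ?_
    rw [intervalIntegral.integral_finsetSum fun i _ => hit i]
    refine Finset.sum_le_sum fun i hi => ?_
    rw [intervalIntegral.integral_add hiN (((hic 0).add (hic (xi i))).div_const _),
      intervalIntegral.integral_const_mul, intervalIntegral.integral_div,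
      intervalIntegral.integral_add (hic 0) (hic (xi i))]
    have g1 : ∫ t in V..(2 * V), Nr Z badm (fun s => s.im) r t ≤ 2 * r * ∑ s ∈ Z, badm s :=
      Nr_upper hab hr0.le badm_nonneg
    have g2 : ∀ X, |X| ≤ V / 8 → ∫ t in V..(2 * V), cz (t + X) r 0 ^ 4 ≤ C₂ * V := by
      intro X hX
      have := hV X 0 hX le_rfl
      rw [mul_zero, neg_zero, Real.exp_zero, mul_one, zero_div] at this
      exact this
    have g3 := g2 0 (by rw [abs_zero]; positivity)
    have g4 := g2 (xi i) (hxi1 i hi)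
    have g5 : K * ∫ t in V..(2 * V), Nr Z badm (fun s => s.im) r t ≤ K * (2 * r * ∑ s ∈ Z, badm s) :=
      mul_le_mul_of_nonneg_left g1 (by linarith)
    have g6 : ((∫ t in V..(2 * V), cz (t + 0) r 0 ^ 4) + ∫ t in V..(2 * V), cz (t + xi i) r 0 ^ 4) /
        K ^ 2 ≤ (C₂ * V + C₂ * V) / K ^ 2 := div_le_div_of_nonneg_right (by linarith) (by positivity)
    linarith
  rw [Finset.sum_const, Finset.card_range, nsmul_eq_mul] at hup
  have hfin := hlow.trans hup
  have hb0 : 0 ≤ ∑ s ∈ Z, badm s := Finset.sum_nonneg fun s _ => badm_nonneg s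
  have hJ0 : (0 : ℝ) ≤ J := Nat.cast_nonneg J
  have e1 : ((2 * J + 3 : ℕ) : ℝ) = 2 * J + 3 := by push_cast; ring
  rw [e1] at hfin
  have e2 : r * ∑ s ∈ Z, ∑ s' ∈ S, badm s * mz s' * D s s' =
      (∑ s ∈ Z, ∑ s' ∈ S, badm s * mz s' * D s s') / L := by rw [hr]; ring
  rw [e2, div_le_iff₀ hL0] at hfin
  refine hfin.trans ?_
  have e3 : (2 * (J : ℝ) + 3) * (K * (2 * r * ∑ s ∈ Z, badm s) + (C₂ * V + C₂ * V) / K ^ 2) * L =
      (2 * J + 3) * (2 * (K * ∑ s ∈ Z, badm s) + 2 * C₂ * (V * L / K ^ 2)) := by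
    rw [hr]
    field_simp
    ring
  rw [e3]
  have h1 : 0 ≤ K * ∑ s ∈ Z, badm s := by positivity
  have h2 : 0 ≤ V * L / K ^ 2 := by positivity
  have h3 : 2 * (K * ∑ s ∈ Z, badm s) + 2 * C₂ * (V * L / K ^ 2) ≤
      (2 + 2 * C₂) * (K * (∑ s ∈ Z, badm s) + V * L / K ^ 2) := by
    nlinarith [mul_nonneg hC₂ h1]
  calc (2 * (J : ℝ) + 3) * (2 * (K * ∑ s ∈ Z, badm s) + 2 * C₂ * (V * L / K ^ 2)) ≤
        (2 * J + 3) * ((2 + 2 * C₂) * (K * (∑ s ∈ Z, badm s) + V * L / K ^ 2)) :=
        mul_le_mul_of_nonneg_left h3 (by linarith)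
    _ = _ := by ring

end Pool.Agent.Helper36
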