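import Pool.Agent.Helper36.R1
import Pool.Agent.Helper36.P4

/-!
# Pairs which contain a zero that is multiple or off the line: all zeros up to `T`
-/

set_option autoImplicit false

namespace Pool.Agent.Helper36

open Filter Topology MeasureTheory Set
open Pool.Agent.Y744

/-- the pairs at distance at most `J / Λ`, the first zero being multiple or off the line -/
noncomputable def GB (A S : Finset ℂ) (Λ : ℝ) (J : ℕ) : ℝ :=
  ∑ s ∈ A, ∑ s' ∈ S, badm s * mz s' *
    (Icc (-(J / Λ)) (J / Λ)).indicator (fun _ => (1 : ℝ)) (s.im - s'.im)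

lemma GB_anti {A S : Finset ℂ} {Λ Λ' : ℝ} {J : ℕ} (h0 : 0 < Λ') (h : Λ' ≤ Λ) :
    GB A S Λ J ≤ GB A S Λ' J := by
  unfold GB
  refine Finset.sum_le_sum fun s _ => Finset.sum_le_sum fun s' _ => ?_
  refine mul_le_mul_of_nonneg_left ?_ (mul_nonneg (badm_nonneg s) (mz_nonneg s'))
  refine indicator_le_indicator_of_subset ?_ (fun _ => zero_le_one) _
  have : (J : ℝ) / Λ ≤ J / Λ' := div_le_div_of_nonneg_left (Nat.cast_nonneg J) h0 h
  exact Icc_subset_Icc (by linarith) this

lemma GB_union {A B S : Finset ℂ} (hAB : Disjoint A B) (Λ : ℝ) (J : ℕ) :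
    GB (A ∪ B) S Λ J = GB A S Λ J + GB B S Λ J := by
  unfold GB
  exact Finset.sum_union hAB

lemma Zt_sub {T T' : ℝ} (h : T ≤ T') : Zt T ⊆ Zt T' := by
  intro s hs
  rw [mem_Zt] at hs ⊢
  exact ⟨hs.1, hs.2.1, hs.2.2.1, hs.2.2.2.1.trans h, hs.2.2.2.2⟩

lemma GB_base {V T T₁ Λ : ℝ} {J : ℕ} (hT : T ≤ V) (hΛ : 1 ≤ Λ) :
    GB (Zt T) (Zt T₁) Λ J ≤ ∑ s ∈ Zt V, ∑ s' ∈ Zt (V + J), mz s * mz s' := by
  classical
  have hJ0 : (0 : ℝ) ≤ J := Nat.cast_nonneg J
  unfold GB
  refine le_trans ?_ (Finset.sum_le_sum_of_subset_of_nonneg (Zt_sub hT) fun s _ _ =>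
    Finset.sum_nonneg fun s' _ => mul_nonneg (mz_nonneg s) (mz_nonneg s'))
  refine Finset.sum_le_sum fun s hs => ?_
  have h1 : ∑ s' ∈ Zt T₁, badm s * mz s' *
      (Icc (-(J / Λ)) (J / Λ)).indicator (fun _ => (1 : ℝ)) (s.im - s'.im) ≤
      ∑ s' ∈ Zt T₁, if s' ∈ Zt (V + J) then mz s * mz s' else 0 := by
    refine Finset.sum_le_sum fun s' hs' => ?_
    by_cases h : s.im - s'.im ∈ Icc (-(J / Λ)) (J / Λ)
    · rw [indicator_of_mem h, mul_one, if_pos]
      · exact mul_le_mul_of_nonneg_right (badm_le s) (mz_nonneg s')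
      · rw [mem_Zt] at hs hs' ⊢
        refine ⟨hs'.1, hs'.2.1, hs'.2.2.1, ?_, hs'.2.2.2.2⟩
        have h2 := h.1
        have h3 : (J : ℝ) / Λ ≤ J := by
          rw [div_le_iff₀ (by linarith)]
          nlinarith
        have h4 := hs.2.2.2.1
        linarith
    · rw [indicator_of_notMem h, mul_zero]
      split_ifs
      · exact mul_nonneg (mz_nonneg s) (mz_nonneg s')
      · exact le_rfl
  refine h1.trans ?_
  rw [← Finset.sum_filter]
  exact Finset.sum_le_sum_of_subset_of_nonneg (fun s' hs' => (Finset.mem_filter.1 hs').2)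
    fun s' _ _ => mul_nonneg (mz_nonneg s) (mz_nonneg s')

/-- **the pairs which contain a zero that is multiple or off the line** -/
theorem bad_pairs : ∃ C : ℝ, 0 < C ∧ ∀ J : ℕ, ∃ M₀ T₀ : ℝ, 0 ≤ M₀ ∧ ∀ T : ℝ, T₀ ≤ T →
    ∀ K : ℝ, 1 ≤ K → GB (Zt T) (Zt T) (Real.log T) J ≤
      M₀ + C * (2 * J + 3) * (K * Nbad T + T * Real.log T / K ^ 2) := by
  obtain ⟨C, hC, hB⟩ := bad_blk
  refine ⟨C, hC, fun J => ?_⟩
  obtain ⟨V₁, hV₁⟩ := (hB J).exists_forall_of_atTop
  set V₀ := max V₁ 3 with hV₀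
  have hV03 : 3 ≤ V₀ := le_max_right _ _
  set M₀ := ∑ s ∈ Zt (2 * V₀), ∑ s' ∈ Zt (2 * V₀ + J), mz s * mz s' with hM₀
  have hM0 : 0 ≤ M₀ := Finset.sum_nonneg fun s _ =>
    Finset.sum_nonneg fun s' _ => mul_nonneg (mz_nonneg s) (mz_nonneg s')
  refine ⟨M₀, 3, hM0, fun T₁ hT₁ K hK => ?_⟩
  have hL1 : 1 ≤ Real.log T₁ := by
    rw [Real.le_log_iff_exp_le (by linarith)]
    linarith [Real.exp_one_lt_d9]
  set L := Real.log T₁ with hL
  have hJ0 : (0 : ℝ) ≤ J := Nat.cast_nonneg J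
  have hK0 : 0 < K := by linarith
  have hN0 : ∀ T, 0 ≤ Nbad T := fun T => Finset.sum_nonneg fun s _ => badm_nonneg s
  have hmain : ∀ n : ℕ, ∀ T : ℝ, 0 < T → T ≤ 2 ^ n * (2 * V₀) → T ≤ T₁ →
      GB (Zt T) (Zt T₁) L J ≤ M₀ + C * (2 * J + 3) * (K * Nbad T + T * L / K ^ 2) := by
    have hbase : ∀ T : ℝ, 0 < T → T ≤ 2 * V₀ →
        GB (Zt T) (Zt T₁) L J ≤ M₀ + C * (2 * J + 3) * (K * Nbad T + T * L / K ^ 2) := by
      intro T hT0 hT
      have h1 := GB_base (T₁ := T₁) (J := J) hT hL1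
      have h2 : 0 ≤ C * (2 * J + 3) * (K * Nbad T + T * L / K ^ 2) := by
        have := hN0 T
        positivity
      linarith
    intro n
    induction n with
    | zero =>
      intro T hT0 hT _
      rw [pow_zero, one_mul] at hT
      exact hbase T hT0 hT
    | succ n ih =>
      intro T hT0 hT hTT
      rcases le_or_gt T (2 * V₀) with h | h
      · exact hbase T hT0 h
      · set V := T / 2 with hV
        have hVV : V₀ ≤ V := by linarith
        have hTV : T = 2 * V := by rw [hV]; ring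
        have hlog : Real.log V ≤ L := Real.log_le_log (by linarith) (by linarith)
        have hlV1 : 1 ≤ Real.log V := by
          rw [Real.le_log_iff_exp_le (by linarith)]
          linarith [Real.exp_one_lt_d9]
        have h1 := ih V (by linarith) (by
          rw [pow_succ] at hT
          linarith) (by linarith)
        have hsp : Zt T = Zt V ∪ Zb V T := Zt_split (by linarith) (by linarith)
        have hdj : Disjoint (Zt V) (Zb V T) := Zt_disj (by linarith)
        have h2 := hV₁ V ((le_max_left _ _).trans hVV) (Zb V T) (Zt T₁) (fun s hs => by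
          rw [mem_Zb (by linarith)] at hs
          obtain ⟨a1, a2, a3, a4, a5⟩ := hs
          exact ⟨⟨a5, a1, a2⟩, a3.le, by linarith⟩) (fun s hs => by
          rw [mem_Zt] at hs
          obtain ⟨a1, a2, a3, a4, a5⟩ := hs
          exact ⟨a5, a1, a2⟩) K hK
        have h3 : GB (Zb V T) (Zt T₁) L J ≤ GB (Zb V T) (Zt T₁) (Real.log V) J :=
          GB_anti (by linarith) hlog
        have h4 : GB (Zb V T) (Zt T₁) (Real.log V) J ≤
            C * (2 * J + 3) * (K * (∑ s ∈ Zb V T, badm s) + V * Real.log V / K ^ 2) := h2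
        have h5 : Nbad T = Nbad V + ∑ s ∈ Zb V T, badm s := by
          unfold Nbad
          rw [hsp, Finset.sum_union hdj]
        have h6 : GB (Zt T) (Zt T₁) L J = GB (Zt V) (Zt T₁) L J + GB (Zb V T) (Zt T₁) L J := by
          rw [hsp, GB_union hdj]
        have h7 : V * Real.log V / K ^ 2 ≤ V * L / K ^ 2 :=
          div_le_div_of_nonneg_right (mul_le_mul_of_nonneg_left hlog (by linarith)) (by positivity)
        have h8 : C * (2 * J + 3) * (K * (∑ s ∈ Zb V T, badm s) + V * Real.log V / K ^ 2) ≤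
            C * (2 * J + 3) * (K * (∑ s ∈ Zb V T, badm s) + V * L / K ^ 2) :=
          mul_le_mul_of_nonneg_left (by linarith) (by positivity)
        have h9 : T * L / K ^ 2 = V * L / K ^ 2 + V * L / K ^ 2 := by
          rw [hTV]
          ring
        rw [h6, h5, h9]
        have e : C * (2 * J + 3) * (K * (Nbad V + ∑ s ∈ Zb V T, badm s) +
            (V * L / K ^ 2 + V * L / K ^ 2)) =
            C * (2 * J + 3) * (K * Nbad V + V * L / K ^ 2) +
            C * (2 * J + 3) * (K * (∑ s ∈ Zb V T, badm s) + V * L / K ^ 2) := by ring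
        rw [e]
        linarith
  obtain ⟨n, hn⟩ := pow_unbounded_of_one_lt T₁ (one_lt_two : (1 : ℝ) < 2)
  refine hmain n T₁ (by linarith) ?_ le_rfl
  have h1 : (0 : ℝ) < 2 ^ n := by positivity
  nlinarith

end Pool.Agent.Helper36
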