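import Pool.Agent.Helper36.R2

/-!
# Weighted pair counts
-/

set_option autoImplicit false

namespace Pool.Agent.Helper36

open Filter Topology MeasureTheory Set
open Pool.Agent.Y744

/-- weighted pair count -/
noncomputable def PW (w : ℂ → ℝ) (T : ℝ) (S : Set ℝ) : ℝ :=
  ∑ s ∈ Zt T, ∑ s' ∈ Zt T, w s * w s' * S.indicator (fun _ => (1 : ℝ)) (dd T s s')

/-- weights between the indicator of the simple critical zeros and the multiplicity -/
structure Wt (w : ℂ → ℝ) : Prop where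
  nonneg : ∀ s, 0 ≤ w s
  le : ∀ s, w s ≤ mz s
  good : ∀ s, s.re = 1 / 2 → mz s = 1 → w s = 1

open Classical in
/-- the pairs at normalised distance at most `β` which contain a zero that is multiple or off the
line -/
noncomputable def BP (T β : ℝ) : ℝ :=
  ∑ s ∈ Zt T, ∑ s' ∈ Zt T, if (s.re = 1 / 2 ∧ mz s = 1) ∧ (s'.re = 1 / 2 ∧ mz s' = 1) then 0 else
    mz s * mz s' * (Icc (-β) β).indicator (fun _ => (1 : ℝ)) (dd T s s')

lemma PW_le {w : ℂ → ℝ} (hw : Wt w) (T : ℝ) (S : Set ℝ) : PW w T S ≤ PC T S := by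
  unfold PW PC
  refine Finset.sum_le_sum fun s _ => Finset.sum_le_sum fun s' _ => ?_
  refine mul_le_mul_of_nonneg_right ?_ (indicator_nonneg (fun _ _ => zero_le_one) _)
  exact mul_le_mul (hw.le s) (hw.le s') (hw.nonneg s') (mz_nonneg s)

lemma PC_sub_PW {w : ℂ → ℝ} (hw : Wt w) (T : ℝ) {S : Set ℝ} {β : ℝ} (hS : S ⊆ Icc (-β) β) :
    PC T S - PW w T S ≤ BP T β := by
  unfold PW PC BP
  rw [← Finset.sum_sub_distrib]
  refine Finset.sum_le_sum fun s _ => ?_
  rw [← Finset.sum_sub_distrib]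
  refine Finset.sum_le_sum fun s' _ => ?_
  split_ifs with h
  · rw [hw.good s h.1.1 h.1.2, hw.good s' h.2.1 h.2.2, h.1.2, h.2.2, sub_self]
  · have h1 : S.indicator (fun _ => (1 : ℝ)) (dd T s s') ≤
        (Icc (-β) β).indicator (fun _ => (1 : ℝ)) (dd T s s') :=
      indicator_le_indicator_of_subset hS (fun _ => zero_le_one) _
    have h2 : 0 ≤ S.indicator (fun _ => (1 : ℝ)) (dd T s s') :=
      indicator_nonneg (fun _ _ => zero_le_one) _
    have h3 : 0 ≤ w s * w s' := mul_nonneg (hw.nonneg s) (hw.nonneg s')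
    have h4 : 0 ≤ mz s * mz s' := mul_nonneg (mz_nonneg s) (mz_nonneg s')
    have h5 := mul_le_mul_of_nonneg_left h1 h4
    have h6 := mul_nonneg h3 h2
    linarith

lemma BP_GB {T β : ℝ} (hT : 1 < T) {J : ℕ} (hJ : 2 * Real.pi * β ≤ J) :
    BP T β ≤ 2 * GB (Zt T) (Zt T) (Real.log T) J := by
  have hL : 0 < Real.log T := Real.log_pos hT
  have hpi := Real.pi_pos
  have hsym : GB (Zt T) (Zt T) (Real.log T) J = ∑ s ∈ Zt T, ∑ s' ∈ Zt T, badm s' * mz s *
      (Icc (-(J / Real.log T)) (J / Real.log T)).indicator (fun _ => (1 : ℝ)) (s.im - s'.im) := by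
    unfold GB
    rw [Finset.sum_comm]
    refine Finset.sum_congr rfl fun s _ => Finset.sum_congr rfl fun s' _ => ?_
    congr 1
    by_cases h : s'.im - s.im ∈ Icc (-(J / Real.log T)) (J / Real.log T)
    · rw [indicator_of_mem h, indicator_of_mem]
      constructor <;> linarith [h.1, h.2]
    · rw [indicator_of_notMem h, indicator_of_notMem]
      intro h2
      apply h
      constructor <;> linarith [h2.1, h2.2]
  have e : 2 * GB (Zt T) (Zt T) (Real.log T) J = ∑ s ∈ Zt T, ∑ s' ∈ Zt T,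
      (badm s * mz s' + badm s' * mz s) *
      (Icc (-(J / Real.log T)) (J / Real.log T)).indicator (fun _ => (1 : ℝ)) (s.im - s'.im) := by
    rw [two_mul]
    nth_rewrite 2 [hsym]
    unfold GB
    rw [← Finset.sum_add_distrib]
    refine Finset.sum_congr rfl fun s _ => ?_
    rw [← Finset.sum_add_distrib]
    refine Finset.sum_congr rfl fun s' _ => ?_
    ring
  rw [e]
  unfold BP
  refine Finset.sum_le_sum fun s _ => Finset.sum_le_sum fun s' _ => ?_
  have h0 : 0 ≤ (Icc (-(J / Real.log T)) (J / Real.log T)).indicator (fun _ => (1 : ℝ))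
    (s.im - s'.im) := indicator_nonneg (fun _ _ => zero_le_one) _
  have hb1 : 0 ≤ badm s * mz s' := mul_nonneg (badm_nonneg s) (mz_nonneg s')
  have hb2 : 0 ≤ badm s' * mz s := mul_nonneg (badm_nonneg s') (mz_nonneg s)
  split_ifs with h
  · exact mul_nonneg (by linarith) h0
  · by_cases hd : dd T s s' ∈ Icc (-β) β
    · have hm : s.im - s'.im ∈ Icc (-(J / Real.log T)) (J / Real.log T) := by
        unfold dd at hd
        obtain ⟨d1, d2⟩ := hd
        rw [div_le_iff₀ (by positivity)] at d2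
        rw [le_div_iff₀ (by positivity)] at d1
        constructor
        · rw [← neg_div, div_le_iff₀ hL]
          linarith
        · rw [le_div_iff₀ hL]
          linarith
      rw [indicator_of_mem hd, indicator_of_mem hm, mul_one, mul_one]
      by_cases hs : s.re = 1 / 2 ∧ mz s = 1
      · have hs' : ¬ (s'.re = 1 / 2 ∧ mz s' = 1) := fun h2 => h ⟨hs, h2⟩
        have : badm s' = mz s' := by unfold badm; rw [if_neg hs']
        rw [this] at hb2 ⊢
        linarith
      · have : badm s = mz s := by unfold badm; rw [if_neg hs]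
        rw [this] at hb1 ⊢
        linarith
    · rw [indicator_of_notMem hd, mul_zero]
      exact mul_nonneg (by linarith) h0

/-- the pairs which contain a zero that is multiple or off the line -/
theorem BP_bound : ∃ C : ℝ, 0 < C ∧ ∀ β : ℝ, 0 ≤ β → ∃ M₀ T₀ : ℝ, 0 ≤ M₀ ∧ ∀ T : ℝ, T₀ ≤ T →
    ∀ K : ℝ, 1 ≤ K → BP T β ≤ M₀ + C * (1 + β) * (K * Nbad T + T * Real.log T / K ^ 2) := by
  obtain ⟨C, hC, h⟩ := bad_pairs
  refine ⟨26 * C, by positivity, fun β hβ => ?_⟩
  obtain ⟨M₀, T₀, hM, h2⟩ := h ⌈2 * Real.pi * β⌉₊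
  refine ⟨2 * M₀, max T₀ 3, by positivity, fun T hT K hK => ?_⟩
  have hT3 : 3 ≤ T := (le_max_right _ _).trans hT
  have h3 := h2 T ((le_max_left _ _).trans hT) K hK
  have h4 := BP_GB (T := T) (by linarith) (Nat.le_ceil (2 * Real.pi * β))
  have hpi := Real.pi_pos
  have hpi2 := Real.pi_lt_d2
  have h5 : (⌈2 * Real.pi * β⌉₊ : ℝ) < 2 * Real.pi * β + 1 := Nat.ceil_lt_add_one (by positivity)
  have h6 : 2 * (⌈2 * Real.pi * β⌉₊ : ℝ) + 3 ≤ 13 * (1 + β) := by nlinarith
  have hL : 0 ≤ Real.log T := Real.log_nonneg (by linarith)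
  have hN : 0 ≤ Nbad T := Finset.sum_nonneg fun s _ => badm_nonneg s
  have h7 : 0 ≤ K * Nbad T + T * Real.log T / K ^ 2 := by
    have : 0 ≤ T := by linarith
    positivity
  have h8 : C * (2 * (⌈2 * Real.pi * β⌉₊ : ℝ) + 3) * (K * Nbad T + T * Real.log T / K ^ 2) ≤
      C * (13 * (1 + β)) * (K * Nbad T + T * Real.log T / K ^ 2) :=
    mul_le_mul_of_nonneg_right (mul_le_mul_of_nonneg_left h6 hC.le) h7
  have e : 26 * C * (1 + β) * (K * Nbad T + T * Real.log T / K ^ 2) =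
      2 * (C * (13 * (1 + β)) * (K * Nbad T + T * Real.log T / K ^ 2)) := by ring
  rw [e]
  linarith

/-- few such pairs if there are few such zeros -/
theorem BP_small {l : Filter ℝ} (hl : l ≤ atTop)
    (h : ∀ ε : ℝ, 0 < ε → ∀ᶠ T in l, Nbad T ≤ ε * Xf T) {β : ℝ} (hβ : 0 ≤ β) {ε : ℝ}
    (hε : 0 < ε) : ∀ᶠ T in l, BP T β ≤ ε * Xf T := by
  obtain ⟨C, hC, hB⟩ := BP_bound
  obtain ⟨M₀, T₀, hM, hb⟩ := hB β hβ
  have hpi := Real.pi_pos
  set A := C * (1 + β) with hA
  have hA0 : 0 < A := by positivity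
  set K := max 1 (A * (2 * Real.pi) * 3 / ε) with hK
  have hK1 : 1 ≤ K := le_max_left _ _
  have hK2 : A * (2 * Real.pi) * 3 / ε ≤ K := le_max_right _ _
  have hlog : Tendsto (fun T : ℝ => Xf T) atTop atTop := by
    unfold Xf
    exact (tendsto_id.atTop_mul_atTop₀ Real.tendsto_log_atTop).atTop_div_const (by positivity)
  filter_upwards [h (ε / (3 * (A * K))) (by positivity), hl (eventually_ge_atTop (max T₀ 3)),
    hl (hlog.eventually_ge_atTop (3 * M₀ / ε))] with T h1 h2 h3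
  have hT3 : 3 ≤ T := (le_max_right _ _).trans h2
  have hX := Xf_pos (V := T) (by linarith)
  refine (hb T ((le_max_left _ _).trans h2) K hK1).trans ?_
  have e1 : M₀ ≤ ε / 3 * Xf T := by
    rw [div_le_iff₀ hε] at h3
    linarith
  have e2 : A * (K * Nbad T) ≤ ε / 3 * Xf T := by
    have := mul_le_mul_of_nonneg_left h1 (show 0 ≤ A * K by positivity)
    have e : A * K * (ε / (3 * (A * K)) * Xf T) = ε / 3 * Xf T := by
      field_simp
    linarith
  have e3 : A * (T * Real.log T / K ^ 2) ≤ ε / 3 * Xf T := by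
    have e : T * Real.log T = 2 * Real.pi * Xf T := by unfold Xf; field_simp
    rw [e, ← mul_div_assoc, div_le_iff₀ (by positivity)]
    rw [div_le_iff₀ hε] at hK2
    have hKK : K ≤ K ^ 2 := by nlinarith
    have h5 : A * (2 * Real.pi) * 3 ≤ K ^ 2 * ε := by
      refine hK2.trans (mul_le_mul_of_nonneg_right hKK hε.le)
    have h6 := mul_le_mul_of_nonneg_right h5 hX.le
    linarith
  rw [mul_add]
  linarith

/-- the power saving -/
theorem BP_rpow : ∃ C : ℝ, 0 < C ∧ ∀ β : ℝ, 0 ≤ β → ∃ T₀ : ℝ, ∀ T : ℝ, T₀ ≤ T →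
    BP T β ≤ C * (1 + β) * (Xf T ^ (1 / 3 : ℝ) * (Nbad T + 1) ^ (2 / 3 : ℝ)) := by
  obtain ⟨C, hC, hB⟩ := BP_bound
  refine ⟨14 * C + 1, by positivity, fun β hβ => ?_⟩
  obtain ⟨M₀, T₀, hM, hb⟩ := hB β hβ
  have hpi := Real.pi_pos
  have hpi3 := Real.pi_gt_three
  have hpi2 := Real.pi_lt_d2
  have hlog : Tendsto (fun T : ℝ => Xf T) atTop atTop := by
    unfold Xf
    exact (tendsto_id.atTop_mul_atTop₀ Real.tendsto_log_atTop).atTop_div_const (by positivity)
  have hN1 : ∀ᶠ T in atTop, Nbad T ≤ 2 * Xf T := by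
    have := (tendsto_order.1 NN_Xf).2 2 (by norm_num)
    filter_upwards [this, eventually_gt_atTop (1 : ℝ)] with T h1 h2
    rw [div_lt_iff₀ (Xf_pos h2), ← sum_Zt] at h1
    exact (Finset.sum_le_sum fun s _ => badm_le s).trans h1.le
  obtain ⟨T₁, hT₁⟩ := (((hN1.and (hlog.eventually_ge_atTop 1)).and
    (hlog.eventually_ge_atTop (M₀ ^ 3))).and (eventually_ge_atTop (max T₀ 3))).exists_forall_of_atTop
  refine ⟨T₁, fun T hT => ?_⟩
  obtain ⟨⟨⟨h1, h2⟩, h3⟩, h4⟩ := hT₁ T hT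
  have hT3 : 3 ≤ T := (le_max_right _ _).trans h4
  have hX := Xf_pos (V := T) (by linarith)
  have hN0 : 0 ≤ Nbad T := Finset.sum_nonneg fun s _ => badm_nonneg s
  set N := Nbad T + 1 with hN
  have hN1 : 1 ≤ N := by linarith
  have e : T * Real.log T = 2 * Real.pi * Xf T := by unfold Xf; field_simp
  set X := Xf T with hXd
  -- cube roots
  obtain ⟨x, hx⟩ : ∃ x, x = X ^ (1 / 3 : ℝ) := ⟨_, rfl⟩
  obtain ⟨y, hy⟩ : ∃ y, y = N ^ (1 / 3 : ℝ) := ⟨_, rfl⟩
  have hx0 : 0 < x := by rw [hx]; positivity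
  have hy0 : 0 < y := by rw [hy]; positivity
  have hy1 : 1 ≤ y := by rw [hy]; exact Real.one_le_rpow hN1 (by norm_num)
  have hx3 : x ^ 3 = X := by
    rw [hx, ← Real.rpow_natCast, ← Real.rpow_mul hX.le]
    norm_num
  have hy3 : y ^ 3 = N := by
    rw [hy, ← Real.rpow_natCast, ← Real.rpow_mul (by linarith)]
    norm_num
  have hy2 : N ^ (2 / 3 : ℝ) = y ^ 2 := by
    rw [hy, ← Real.rpow_natCast, ← Real.rpow_mul (by linarith)]
    norm_num
  rw [← hx, hy2]
  have hxy : y ≤ 2 * x := by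
    by_contra hc
    push Not at hc
    have : (2 * x) ^ 3 < y ^ 3 := pow_lt_pow_left₀ hc (by positivity) (by norm_num)
    rw [mul_pow, hx3, hy3] at this
    linarith
  have hK1 : 1 ≤ 2 * x / y := by rw [le_div_iff₀ hy0]; linarith
  have h5 := hb T ((le_max_left _ _).trans h4) (2 * x / y) hK1
  refine h5.trans ?_
  have hMx : M₀ ≤ x := by
    by_contra hc
    push Not at hc
    have : x ^ 3 < M₀ ^ 3 := pow_lt_pow_left₀ hc hx0.le (by norm_num)
    rw [hx3] at this
    linarith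
  have e1 : 2 * x / y * Nbad T ≤ 2 * (x * y ^ 2) := by
    have : Nbad T ≤ y ^ 3 := by rw [hy3]; linarith
    calc 2 * x / y * Nbad T ≤ 2 * x / y * y ^ 3 := mul_le_mul_of_nonneg_left this (by positivity)
      _ = 2 * (x * y ^ 2) := by field_simp
  have e2 : T * Real.log T / (2 * x / y) ^ 2 ≤ 2 * (x * y ^ 2) := by
    rw [e, ← hx3]
    have : 2 * Real.pi * x ^ 3 / (2 * x / y) ^ 2 = Real.pi / 2 * (x * y ^ 2) := by
      field_simp
    rw [this]
    refine mul_le_mul_of_nonneg_right ?_ (by positivity)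
    linarith
  have h6 : 0 < x * y ^ 2 := by positivity
  have h7 : M₀ ≤ x * y ^ 2 := by
    have : 1 ≤ y ^ 2 := one_le_pow₀ hy1
    nlinarith
  have h8 : C * (1 + β) * (2 * x / y * Nbad T + T * Real.log T / (2 * x / y) ^ 2) ≤
      C * (1 + β) * (4 * (x * y ^ 2)) := mul_le_mul_of_nonneg_left (by linarith) (by positivity)
  have h9 : 0 ≤ C * (1 + β) * (x * y ^ 2) := by positivity
  have h10 : 0 ≤ β * (x * y ^ 2) := by positivity
  nlinarith

end Pool.Agent.Helper36
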