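import Pool.Agent.Helper36.XD9

set_option autoImplicit false

/-! # The logarithmic derivative of one half of the heat flow -/

namespace Pool.Agent.Helper36.XD

open Complex MeasureTheory Filter Topology Set

lemma slit_of_re {s : ℂ} (hs : 0 < s.re) : s ∈ slitPlane := Or.inl hs

lemma ne_of_re {s : ℂ} (hs : 0 < s.re) : s ≠ 0 := slitPlane_ne_zero (slit_of_re hs)

lemma not_neg_nat {s : ℂ} (hs : 0 < s.re) (m : ℕ) : s ≠ -m := by
  intro h
  rw [h] at hs
  simp at hs
  have : (0 : ℝ) ≤ m := Nat.cast_nonneg m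
  linarith

lemma ell_deriv {s : ℂ} (hs : 0 < s.re) : HasDerivAt ell (1 / s) s := by
  unfold ell
  have := (Complex.hasDerivAt_log (slit_of_re hs)).sub_const (Real.log (2 * Real.pi) : ℂ)
  simpa using this

lemma cpow_deriv (s : ℂ) : HasDerivAt (fun s : ℂ => ((2 * Real.pi : ℝ) : ℂ) ^ (-s))
    (((2 * Real.pi : ℝ) : ℂ) ^ (-s) * (-(Real.log (2 * Real.pi) : ℂ))) s := by
  have h1 : HasDerivAt (fun s : ℂ => -s) (-1) s := (hasDerivAt_id s).neg
  have h2 := h1.const_cpow (c := ((2 * Real.pi : ℝ) : ℂ)) (Or.inl twopi_ne)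
  refine h2.congr_deriv ?_
  rw [← ofReal_log (by positivity)]
  ring

lemma gauss_deriv (lam : ℝ) {s : ℂ} (hs : 0 < s.re) :
    HasDerivAt (fun s : ℂ => cexp (lam * ell s ^ 2)) (cexp (lam * ell s ^ 2) * (2 * lam * ell s / s)) s := by
  have h1 := (((ell_deriv hs).pow 2).const_mul (lam : ℂ)).cexp
  refine h1.congr_deriv ?_
  simp only [Pi.pow_apply]
  push_cast
  ring

lemma PP_diff {s : ℂ} (hs : 0 < s.re) : DifferentiableAt ℂ PP s :=
  (cpow_deriv s).differentiableAt.mul (differentiableAt_Gamma s (not_neg_nat hs))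

lemma MM_diff (lam : ℝ) {s : ℂ} (hs : 0 < s.re) : DifferentiableAt ℂ (MM lam) s :=
  (PP_diff hs).mul (gauss_deriv lam hs).differentiableAt

lemma logDeriv_MM (lam : ℝ) {s : ℂ} (hs : 0 < s.re) :
    logDeriv (MM lam) s = -(Real.log (2 * Real.pi) : ℂ) + logDeriv Complex.Gamma s +
      2 * lam * ell s / s := by
  have hc : ((2 * Real.pi : ℝ) : ℂ) ^ (-s) ≠ 0 := (cpow_ne_zero_iff (y := -s)).mpr (Or.inl twopi_ne)
  have hG : Complex.Gamma s ≠ 0 := Gamma_ne_zero_of_re_pos hs
  have e1 : logDeriv (MM lam) s = logDeriv PP s + logDeriv (fun s : ℂ => cexp (lam * ell s ^ 2)) s :=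
    logDeriv_mul s (PP_ne hs) (Complex.exp_ne_zero _) (PP_diff hs) (gauss_deriv lam hs).differentiableAt
  have e2 : logDeriv PP s = logDeriv (fun s : ℂ => ((2 * Real.pi : ℝ) : ℂ) ^ (-s)) s +
      logDeriv Complex.Gamma s :=
    logDeriv_mul s hc hG (cpow_deriv s).differentiableAt (differentiableAt_Gamma s (not_neg_nat hs))
  rw [e1, e2]
  congr 1
  · congr 1
    rw [logDeriv_apply, (cpow_deriv s).deriv, mul_div_cancel_left₀ _ hc]
  · rw [logDeriv_apply, (gauss_deriv lam hs).deriv, mul_div_cancel_left₀ _ (Complex.exp_ne_zero _)]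

lemma xx_ball {s w : ℂ} (hs : 0 < ‖s‖) (hx : 1 ≤ xx s) (hw : ‖w - s‖ ≤ 1) : xx s - 1 ≤ xx w := by
  have h16 := norm_big hs hx
  have h1 : ‖s‖ - 1 ≤ ‖w‖ := by
    have := norm_sub_norm_le s (s - w)
    rw [sub_sub_cancel, norm_sub_rev] at this
    linarith
  unfold xx
  have h2 : Real.log ‖s‖ - 1 ≤ Real.log ‖w‖ := by
    have h3 : ‖s‖ / Real.exp 1 ≤ ‖w‖ := by
      rw [div_le_iff₀ (Real.exp_pos _)]
      have := Real.exp_one_gt_d9
      nlinarith
    have h4 := Real.log_le_log (by positivity) h3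
    rw [Real.log_div hs.ne' (Real.exp_pos _).ne', Real.log_exp] at h4
    exact h4
  linarith

theorem Ah_logDeriv : ∃ K : ℝ, 1 ≤ K ∧ ∀ lam : ℝ, 0 < lam → lam ≤ 1 → ∀ s : ℂ, 3 ≤ s.re → s.re ≤ 9 →
    K / lam ≤ xx s → Ah lam s ≠ 0 ∧ 0 < (deriv (Ah lam) s / Ah lam s).re := by
  obtain ⟨K, hK, hR⟩ := Ah_ratio
  obtain ⟨C, hC, hdig⟩ := SG.digamma_bound
  refine ⟨K + C + 5, by linarith, fun lam hl hl1 s hs hs9 hx => ?_⟩
  have hpos : 0 < ‖s‖ := by
    have := abs_re_le_norm s
    have h3 := le_abs_self s.re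
    linarith
  have hKl : K / lam + C + 5 ≤ xx s := by
    refine le_trans ?_ hx
    rw [div_add' _ _ _ hl.ne', div_add' _ _ _ hl.ne']
    refine div_le_div_of_nonneg_right ?_ hl.le
    nlinarith
  have hKl0 : K ≤ K / lam := by
    rw [le_div_iff₀ hl]
    nlinarith
  have hx6 : 6 ≤ xx s := by linarith
  have hball : ∀ w : ℂ, ‖w - s‖ ≤ 1 → 2 ≤ w.re ∧ K / lam ≤ xx w := by
    intro w hw
    have h1 := abs_re_le_norm (w - s)
    rw [sub_re] at h1
    have h2 := (abs_le.1 (h1.trans hw)).1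
    have h3 := xx_ball hpos (by linarith) hw
    exact ⟨by linarith, by linarith⟩
  have hself := hR lam hl hl1 s (by linarith) (by linarith)
  have hAne : Ah lam s ≠ 0 := by
    intro h
    have h1 := hself.1
    rw [h, zero_div, zero_sub, norm_neg, norm_one] at h1
    norm_num at h1
  refine ⟨hAne, ?_⟩
  have hMne := MM_ne (lam := lam) (by linarith : 0 < s.re)
  set Q : ℂ → ℂ := fun w => Ah lam w / MM lam w with hQ
  have hQd : DiffContOnCl ℂ (fun w => Q w - 1) (Metric.ball s 1) := by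
    have h1 : DifferentiableOn ℂ (fun w => Q w - 1) (Metric.closedBall s 1) := by
      intro w hw
      have hw1 : ‖w - s‖ ≤ 1 := by simpa [dist_eq_norm] using hw
      have h2 := (hball w hw1).1
      exact (((Ah_differentiable hl w).div (MM_diff lam (by linarith))
        (MM_ne (by linarith))).sub_const 1).differentiableWithinAt
    exact h1.diffContOnCl_ball subset_rfl
  have hQ' : ‖deriv (fun w => Q w - 1) s‖ ≤ 1 / 100 / 1 := by
    refine Complex.norm_deriv_le_of_forall_mem_sphere_norm_le one_pos hQd ?_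
    intro w hw
    have hw1 : ‖w - s‖ ≤ 1 := by
      have : ‖w - s‖ = 1 := by simpa [dist_eq_norm] using hw
      linarith
    obtain ⟨h2, h3⟩ := hball w hw1
    exact (hR lam hl hl1 w h2 h3).1
  have hQ1 : ‖deriv Q s‖ ≤ 1 / 100 := by
    have e : deriv (fun w => Q w - 1) s = deriv Q s := deriv_sub_const (1 : ℂ)
    rw [e] at hQ'
    linarith
  have hQn : 99 / 100 ≤ ‖Q s‖ := by
    have h1 := hself.1
    have h2 := norm_sub_norm_le (1 : ℂ) (1 - Q s)
    rw [sub_sub_cancel, norm_sub_rev, norm_one] at h2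
    linarith
  have hlog : logDeriv Q s = logDeriv (Ah lam) s - logDeriv (MM lam) s :=
    logDeriv_div s hAne hMne (Ah_differentiable hl s) (MM_diff lam (by linarith))
  have hlogQ : ‖logDeriv Q s‖ ≤ 1 / 50 := by
    rw [logDeriv_apply, norm_div, div_le_iff₀ (by linarith)]
    linarith
  have e0 : deriv (Ah lam) s / Ah lam s = logDeriv Q s + logDeriv (MM lam) s := by
    rw [hlog, sub_add_cancel, logDeriv_apply]
  rw [e0, logDeriv_MM lam (by linarith)]
  have hn := norm_s hpos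
  have hbig : 40 ≤ ‖s‖ := by
    rw [hn]
    have h1 := Real.add_one_le_exp (xx s)
    have h2 := Real.pi_gt_three
    nlinarith
  have him : ‖s‖ / 2 ≤ |s.im| := by
    have h1 := norm_le_abs_re_add_abs_im s
    rw [abs_of_nonneg (by linarith : 0 ≤ s.re)] at h1
    linarith
  have hd := hdig s (by linarith) (by rw [abs_of_nonneg (by linarith : 0 ≤ s.re)]; linarith)
  have h1 : -(1 / 50) ≤ (logDeriv Q s).re := by
    have := (abs_le.1 ((abs_re_le_norm _).trans hlogQ)).1
    linarith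
  have h2 : Real.log |s.im| - C ≤ (logDeriv Complex.Gamma s).re := by
    have h3 := (abs_le.1 ((abs_re_le_norm _).trans hd)).1
    rw [sub_re, ofReal_re] at h3
    linarith
  have h3 : ‖2 * lam * ell s / s‖ ≤ 1 := by
    rw [norm_div, div_le_one hpos, norm_mul, norm_mul, norm_real, Real.norm_eq_abs, abs_of_pos hl]
    have h4 : ‖ell s‖ ≤ xx s + 2 := by
      refine (norm_le_abs_re_add_abs_im _).trans ?_
      rw [ell_re, abs_of_nonneg (by linarith)]
      have h5 : (ell s).im = s.arg := by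
        unfold ell
        rw [sub_im, log_im, ofReal_im, sub_zero]
      rw [h5]
      have h6 : |s.arg| ≤ Real.pi / 2 := abs_arg_le_pi_div_two_iff.2 (by linarith)
      have h7 := Real.pi_le_four
      linarith
    have h5 : ‖(2 : ℂ)‖ = 2 := by simp
    rw [h5]
    have h6 := Real.add_one_le_exp (xx s)
    have h7 := Real.pi_gt_three
    have h8 : 2 * lam * ‖ell s‖ ≤ 2 * (xx s + 2) := by nlinarith [norm_nonneg (ell s)]
    refine h8.trans ?_
    rw [hn]
    nlinarith
  have h4 : -1 ≤ (2 * lam * ell s / s).re := (abs_le.1 ((abs_re_le_norm _).trans h3)).1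
  have h5 : Real.log ‖s‖ - 1 ≤ Real.log |s.im| := by
    have h6 := Real.log_le_log (by positivity) him
    rw [Real.log_div hpos.ne' (by norm_num)] at h6
    have h7 := Real.log_two_lt_d9
    linarith
  rw [add_re, add_re, add_re, neg_re, ofReal_re]
  have h6 : xx s = Real.log ‖s‖ - Real.log (2 * Real.pi) := rfl
  linarith

end Pool.Agent.Helper36.XD
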