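import Pool.Agent.Helper36.XD3
import Pool.Graph.R_seed8.TH814.GS.Stir

set_option autoImplicit false

/-! # Growth of the L-function in the critical strip -/

namespace Pool.Agent.Helper36.XD

open Complex MeasureTheory Filter Topology Set Pool.Agent.H401R2 Pool.Agent.TH814.GS

/-- Stirling lower bound. -/
lemma inv_Gamma_le {s : ℂ} (hs : 1 / 2 ≤ s.re) (hn : 2 ≤ ‖s‖) :
    ‖(Gamma s)⁻¹‖ ≤ Real.exp (2 * |s.im| + s.re) := by
  have h1 := stir_right (by linarith : 0 ≤ s.re) (by linarith : 1 ≤ ‖s‖)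
  have h2 : 1 / ‖s‖ ≤ 1 / 2 := one_div_le_one_div_of_le (by norm_num) hn
  have h3 : 1 / 2 ≤ ‖sA s / ((√(2 * Real.pi) : ℝ) : ℂ)‖ := by
    have h4 := norm_sub_norm_le (1 : ℂ) (1 - (sA s / ((√(2 * Real.pi) : ℝ) : ℂ)))
    have h5 : ‖1 - sA s / ((√(2 * Real.pi) : ℝ) : ℂ)‖ ≤ 1 / 2 := by
      rw [norm_sub_rev]; linarith
    rw [norm_one, sub_sub_cancel] at h4
    linarith
  have h6 : (2 : ℝ) ≤ √(2 * Real.pi) := by
    apply Real.le_sqrt_of_sq_le
    nlinarith [Real.pi_gt_three]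
  have h7 : 1 ≤ ‖sA s‖ := by
    rw [norm_div, norm_real, Real.norm_eq_abs, abs_of_pos (by positivity), le_div_iff₀ (by positivity)] at h3
    linarith
  unfold sA at h7
  have hG : Gamma s ≠ 0 := by
    intro h
    rw [h, zero_mul, norm_zero] at h7
    linarith
  rw [norm_mul, Complex.norm_exp] at h7
  rw [norm_inv, inv_le_iff_one_le_mul₀ (norm_pos_iff.2 hG)]
  rw [mul_comm] at h7
  refine h7.trans (mul_le_mul_of_nonneg_right (Real.exp_le_exp.2 ?_) (norm_nonneg _))
  have e1 : (-((s - 1 / 2) * log s - s)).re =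
      -((s.re - 1 / 2) * Real.log ‖s‖) + s.im * s.arg + s.re := by
    simp only [neg_re, sub_re, mul_re, sub_im, log_re, log_im]
    norm_num
    ring
  rw [e1]
  have h8 : 0 ≤ (s.re - 1 / 2) * Real.log ‖s‖ :=
    mul_nonneg (by linarith) (Real.log_nonneg (by linarith))
  have h9 : s.im * s.arg ≤ 2 * |s.im| := by
    have h10 : |s.arg| ≤ Real.pi / 2 := abs_arg_le_pi_div_two_iff.2 (by linarith)
    have h11 := Real.pi_le_four
    calc s.im * s.arg ≤ |s.im * s.arg| := le_abs_self _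
      _ = |s.im| * |s.arg| := abs_mul _ _
      _ ≤ |s.im| * 2 := by
        refine mul_le_mul_of_nonneg_left (by linarith) (abs_nonneg _)
      _ = _ := mul_comm _ _
  linarith

/-- Uniform bound for the completed function. -/
lemma Lam_bound : ∃ M : ℝ, 0 ≤ M ∧ ∀ s : ℂ, |s.re - 6| ≤ 4 → ‖Lam s‖ ≤ M := by
  obtain ⟨C, hC⟩ := Dec_Phi 5
  have hC0 : 0 ≤ C := by
    have := hC 0
    have h2 := norm_nonneg ((Phi 0 : ℂ))
    simp only [abs_zero, mul_zero, neg_zero, Real.exp_zero, mul_one] at this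
    linarith
  refine ⟨∫ u : ℝ, C * Real.exp (-|u|), integral_nonneg fun u => by positivity, fun s hs => ?_⟩
  unfold Lam LT
  refine norm_integral_le_of_norm_le (integrable_exp_neg_abs.const_mul C) (ae_of_all _ fun u => ?_)
  rw [norm_mul]
  have h1 := hC u
  have h2 := norm_exp_mul_le (s - 6) u
  have h3 : |(s - 6).re| ≤ 4 := by simpa using hs
  calc ‖(Phi u : ℂ)‖ * ‖cexp ((s - 6) * u)‖
      ≤ (C * Real.exp (-(5 * |u|))) * Real.exp (4 * |u|) := by
        refine mul_le_mul h1 (h2.trans ?_) (norm_nonneg _) ((norm_nonneg _).trans h1)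
        exact Real.exp_le_exp.2 (mul_le_mul_of_nonneg_right h3 (abs_nonneg _))
    _ = C * Real.exp (-|u|) := by
        rw [mul_assoc, ← Real.exp_add]
        congr 2
        ring

lemma Gamma_shift8 {s : ℂ} (hs : 0 < s.re) :
    Gamma (s + 8) = (s + 7) * (s + 6) * (s + 5) * (s + 4) * (s + 3) * (s + 2) * (s + 1) * s * Gamma s := by
  have h : ∀ n : ℕ, s + n ≠ 0 := by
    intro n h
    have := congrArg Complex.re h
    simp at this
    have hn : (0 : ℝ) ≤ n := Nat.cast_nonneg n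
    linarith
  have h0 : s ≠ 0 := by simpa using h 0
  have h1 : s + 1 ≠ 0 := by simpa using h 1
  have h2 : s + 2 ≠ 0 := by simpa using h 2
  have h3 : s + 3 ≠ 0 := by simpa using h 3
  have h4 : s + 4 ≠ 0 := by simpa using h 4
  have h5 : s + 5 ≠ 0 := by simpa using h 5
  have h6 : s + 6 ≠ 0 := by simpa using h 6
  have h7 : s + 7 ≠ 0 := by simpa using h 7
  rw [show s + 8 = (s + 7) + 1 by ring, Gamma_add_one _ h7,
    show s + 7 = (s + 6) + 1 by ring, Gamma_add_one _ h6,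
    show s + 6 = (s + 5) + 1 by ring, Gamma_add_one _ h5,
    show s + 5 = (s + 4) + 1 by ring, Gamma_add_one _ h4,
    show s + 4 = (s + 3) + 1 by ring, Gamma_add_one _ h3,
    show s + 3 = (s + 2) + 1 by ring, Gamma_add_one _ h2,
    show s + 2 = (s + 1) + 1 by ring, Gamma_add_one _ h1,
    Gamma_add_one _ h0]
  ring

lemma Gamma_norm_shift (t : ℝ) :
    ‖Gamma (10 - t * I)‖ ≤ (3 * ‖(3 : ℂ) + t * I‖) ^ 8 * ‖Gamma (2 + t * I)‖ := by
  have e0 : (10 : ℂ) - t * I = (starRingEnd ℂ) ((2 + t * I) + 8) := by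
    simp only [map_add, map_mul, conj_ofReal, conj_I, map_ofNat]
    ring
  rw [e0, Gamma_conj, norm_conj, Gamma_shift8 (by simp)]
  simp only [norm_mul]
  have hk : ∀ a : ℝ, 0 ≤ a → a ≤ 9 → ‖(a : ℂ) + t * I‖ ≤ 3 * ‖(3 : ℂ) + t * I‖ := by
    intro a ha0 ha
    have h1 : ‖(a : ℂ) + t * I‖ ^ 2 = a ^ 2 + t ^ 2 := by
      rw [Complex.sq_norm, Complex.normSq_apply]
      simp
      ring
    have h2 : ‖(3 : ℂ) + t * I‖ ^ 2 = 9 + t ^ 2 := by
      rw [Complex.sq_norm, Complex.normSq_apply]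
      simp
      ring
    refine abs_le_of_sq_le_sq' ?_ (by positivity) |>.2
    rw [mul_pow, h1, h2]
    nlinarith [sq_nonneg t]
  have hc : ∀ a : ℝ, 0 ≤ a → a ≤ 7 → ‖(2 : ℂ) + t * I + a‖ ≤ 3 * ‖(3 : ℂ) + t * I‖ := by
    intro a ha0 ha
    have := hk (a + 2) (by linarith) (by linarith)
    convert this using 2
    push_cast
    ring
  have h7 := hc 7 (by norm_num) (by norm_num)
  have h6 := hc 6 (by norm_num) (by norm_num)
  have h5 := hc 5 (by norm_num) (by norm_num)
  have h4 := hc 4 (by norm_num) (by norm_num)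
  have h3 := hc 3 (by norm_num) (by norm_num)
  have h2 := hc 2 (by norm_num) (by norm_num)
  have h1 := hc 1 (by norm_num) (by norm_num)
  have h0 := hc 0 (by norm_num) (by norm_num)
  simp only [ofReal_zero, add_zero, ofReal_one, ofReal_ofNat] at h7 h6 h5 h4 h3 h2 h1 h0
  have hp : (3 * ‖(3 : ℂ) + t * I‖) ^ 8 = 3 * ‖(3 : ℂ) + t * I‖ * (3 * ‖(3 : ℂ) + t * I‖) *
      (3 * ‖(3 : ℂ) + t * I‖) * (3 * ‖(3 : ℂ) + t * I‖) * (3 * ‖(3 : ℂ) + t * I‖) *
      (3 * ‖(3 : ℂ) + t * I‖) * (3 * ‖(3 : ℂ) + t * I‖) * (3 * ‖(3 : ℂ) + t * I‖) := by ring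
  rw [hp]
  gcongr

/-- Polynomial growth of `L(s, Δ)`. -/
theorem Ld_growth : ∃ C : ℝ, 0 ≤ C ∧ ∀ s : ℂ, 2 ≤ s.re → s.re ≤ 10 → ‖Ld s‖ ≤ C * ‖s + 1‖ ^ 8 := by
  obtain ⟨C1, hC10, hC1⟩ := cf_bound
  obtain ⟨M, hM0, hM⟩ := Lam_bound
  have hright : ∀ s : ℂ, 8 ≤ s.re → ‖Ld s‖ ≤ 1 + C1 := by
    intro s hs
    have h1 := hC1 s hs
    have h2 : (2 : ℝ) ^ (-s.re) ≤ 1 := Real.rpow_le_one_of_one_le_of_nonpos (by norm_num) (by linarith)
    have h3 := norm_add_le (Ld s - 1) 1
    rw [sub_add_cancel, norm_one] at h3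
    nlinarith
  set C : ℝ := (1 + C1) * 3 ^ 8 with hC
  have hCge : 1 + C1 ≤ C := by
    rw [hC]
    nlinarith
  have hne : ∀ s : ℂ, 2 ≤ s.re → s + 1 ≠ 0 := by
    intro s hs h
    have := congrArg Complex.re h
    simp at this
    linarith
  have hn1 : ∀ s : ℂ, 2 ≤ s.re → 1 ≤ ‖s + 1‖ := by
    intro s hs
    have := abs_re_le_norm (s + 1)
    simp only [add_re, one_re] at this
    have h2 := le_abs_self (s.re + 1)
    linarith
  have hdiff : ∀ s : ℂ, 2 ≤ s.re → DifferentiableAt ℂ (fun s => Ld s / (s + 1) ^ 8) s := by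
    intro s hs
    exact (Ld_differentiable s).div (by fun_prop) (pow_ne_zero 8 (hne s hs))
  refine ⟨C, by positivity, fun s hs2 hs10 => ?_⟩
  have key : ‖Ld s / (s + 1) ^ 8‖ ≤ C := by
    refine PhragmenLindelof.vertical_strip (f := fun s => Ld s / (s + 1) ^ 8) (a := 2) (b := 10) ?_ ?_ ?_ ?_ hs2 hs10
    · refine ⟨fun z hz => (hdiff z (le_of_lt hz.1)).differentiableWithinAt, ?_⟩
      intro z hz
      have hz2 : z ∈ re ⁻¹' Icc 2 10 := by
        have h1 : closure (re ⁻¹' Ioo (2 : ℝ) 10) ⊆ re ⁻¹' Icc 2 10 := by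
          refine closure_minimal (preimage_mono Ioo_subset_Icc_self) ?_
          exact isClosed_Icc.preimage continuous_re
        exact h1 hz
      exact (hdiff z hz2.1).continuousAt.continuousWithinAt
    · refine ⟨1 / 4, ?_, 20, ?_⟩
      · have := Real.pi_gt_three
        rw [lt_div_iff₀ (by norm_num)]
        linarith
      · refine Asymptotics.IsBigO.of_bound (M * (2 * Real.pi) ^ (10 : ℝ)) ?_
        refine mem_inf_of_right (mem_principal.2 fun z hz => ?_)
        have hz2 : 2 < z.re := hz.1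
        have hz10 : z.re < 10 := hz.2
        simp only [mem_ofPred_eq]
        have h1 : ‖Ld z / (z + 1) ^ 8‖ ≤ ‖Ld z‖ := by
          rw [norm_div, norm_pow]
          exact div_le_self (norm_nonneg _) (one_le_pow₀ (hn1 z hz2.le))
        refine h1.trans ?_
        unfold Ld
        rw [norm_mul, norm_mul]
        have h2 : ‖Lam z‖ ≤ M := hM z (abs_le.2 ⟨by linarith, by linarith⟩)
        have h3 : ‖((2 * Real.pi : ℝ) : ℂ) ^ z‖ ≤ (2 * Real.pi) ^ (10 : ℝ) := by
          rw [norm_cpow_eq_rpow_re_of_pos (by positivity)]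
          refine Real.rpow_le_rpow_of_exponent_le ?_ hz10.le
          have := Real.pi_gt_three
          linarith
        have hzn : 2 ≤ ‖z‖ := by
          have := abs_re_le_norm z
          have h2 := le_abs_self z.re
          linarith
        have h4 := inv_Gamma_le (by linarith : 1 / 2 ≤ z.re) hzn
        have h5 : Real.exp (2 * |z.im| + z.re) ≤ ‖Real.exp (20 * Real.exp (1 / 4 * |z.im|))‖ := by
          rw [Real.norm_eq_abs, abs_of_pos (Real.exp_pos _)]
          apply Real.exp_le_exp.2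
          have := Real.add_one_le_exp (1 / 4 * |z.im|)
          have h6 := abs_nonneg z.im
          linarith
        refine mul_le_mul (mul_le_mul h2 h3 (norm_nonneg _) hM0) (h4.trans h5) (norm_nonneg _) (by positivity)
    · intro z hz
      have hzr : 2 ≤ z.re := by linarith
      have ez : z = 2 + z.im * I := by
        apply Complex.ext
        · simp [hz]
        · simp
      have hG : Gamma z ≠ 0 := Gamma_ne_zero_of_re_pos (by linarith)
      have hG2 : Gamma (12 - z) ≠ 0 := Gamma_ne_zero_of_re_pos (by simp; linarith)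
      have h12 : (12 - z).re = 10 := by simp [hz]; norm_num
      have h1 : ‖Ld z‖ ≤ (3 * ‖z + 1‖) ^ 8 * (1 + C1) := by
        have h2 : Ld z = ((2 * Real.pi : ℝ) : ℂ) ^ (-(12 - z)) * Gamma (12 - z) * Ld (12 - z) *
            ((2 * Real.pi : ℝ) : ℂ) ^ z * (Gamma z)⁻¹ := by
          rw [← Lam_eq hG2, Lam_symm]
          rfl
        have e12 : 12 - z = 10 - z.im * I := by
          rw [ez]
          simp
          ring
        have h3 := Gamma_norm_shift z.im
        rw [← e12, ← ez, show (3 : ℂ) + z.im * I = z + 1 by rw [ez]; simp; ring] at h3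
        have h4 := hright (12 - z) (by rw [h12]; norm_num)
        rw [h2]
        simp only [norm_mul, norm_inv]
        rw [norm_cpow_eq_rpow_re_of_pos (by positivity), norm_cpow_eq_rpow_re_of_pos (by positivity),
          neg_re, h12, hz]
        have hGp : 0 < ‖Gamma z‖ := norm_pos_iff.2 hG
        have h5 : (2 * Real.pi : ℝ) ^ (-10 : ℝ) * (2 * Real.pi : ℝ) ^ (2 : ℝ) ≤ 1 := by
          rw [← Real.rpow_add (by positivity)]
          apply Real.rpow_le_one_of_one_le_of_nonpos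
          · have := Real.pi_gt_three
            linarith
          · norm_num
        have h6 : 0 ≤ (2 * Real.pi : ℝ) ^ (-10 : ℝ) * (2 * Real.pi : ℝ) ^ (2 : ℝ) := by positivity
        calc (2 * Real.pi) ^ (-10 : ℝ) * ‖Gamma (12 - z)‖ * ‖Ld (12 - z)‖ * (2 * Real.pi) ^ (2 : ℝ) * ‖Gamma z‖⁻¹
            = ((2 * Real.pi : ℝ) ^ (-10 : ℝ) * (2 * Real.pi : ℝ) ^ (2 : ℝ)) *
              ((‖Gamma (12 - z)‖ * ‖Gamma z‖⁻¹) * ‖Ld (12 - z)‖) := by ring
          _ ≤ 1 * ((3 * ‖z + 1‖) ^ 8 * (1 + C1)) := by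
              refine mul_le_mul h5 ?_ (by positivity) zero_le_one
              refine mul_le_mul ?_ h4 (norm_nonneg _) (by positivity)
              rw [← div_eq_mul_inv, div_le_iff₀ hGp]
              exact h3
          _ = _ := one_mul _
      rw [norm_div, norm_pow, div_le_iff₀ (by have := hn1 z hzr; positivity)]
      refine h1.trans (le_of_eq ?_)
      rw [hC]
      ring
    · intro z hz
      have hzr : 2 ≤ z.re := by linarith
      have h1 : ‖Ld z / (z + 1) ^ 8‖ ≤ ‖Ld z‖ := by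
        rw [norm_div, norm_pow]
        exact div_le_self (norm_nonneg _) (one_le_pow₀ (hn1 z hzr))
      exact (h1.trans (hright z (by linarith))).trans hCge
  rw [norm_div, norm_pow, div_le_iff₀ (by have := hn1 s hs2; positivity)] at key
  exact key

end Pool.Agent.Helper36.XD
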