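import Pool.Agent.Helper36.XD2

set_option autoImplicit false

/-! # The Gaussian weight -/

namespace Pool.Agent.Helper36.XD

open Complex MeasureTheory Filter Topology Set

lemma gauss_real {k : ℝ} (hk : 0 < k) (p : ℝ) :
    Integrable (fun y : ℝ => Real.exp (p * y - k * y ^ 2)) ∧
      ∫ y : ℝ, Real.exp (p * y - k * y ^ 2) = √(Real.pi / k) * Real.exp (p ^ 2 / (4 * k)) := by
  have e : (fun y : ℝ => Real.exp (p * y - k * y ^ 2)) =
      fun y : ℝ => Real.exp (p ^ 2 / (4 * k)) * Real.exp (-k * (y - p / (2 * k)) ^ 2) := by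
    funext y
    rw [← Real.exp_add]
    congr 1
    field_simp
    ring
  rw [e]
  refine ⟨((integrable_exp_neg_mul_sq hk).comp_sub_right (p / (2 * k))).const_mul _, ?_⟩
  rw [integral_const_mul, integral_sub_right_eq_self (fun y : ℝ => Real.exp (-k * y ^ 2)) (p / (2 * k)),
    integral_gaussian, mul_comm]

/-- The Gaussian density of variance `2 lam`. -/
noncomputable def gau (lam y : ℝ) : ℝ := (√(4 * Real.pi * lam))⁻¹ * Real.exp (-(y ^ 2 / (4 * lam)))

lemma gau_nonneg (lam y : ℝ) : 0 ≤ gau lam y := by unfold gau; positivity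

lemma gau_cont (lam : ℝ) : Continuous (gau lam) := by unfold gau; fun_prop

lemma gau_even (lam y : ℝ) : gau lam (-y) = gau lam y := by unfold gau; rw [neg_sq]

lemma gau_int {lam : ℝ} (hl : 0 < lam) {q : ℝ} (hq : 4 * lam * q < 1) (p : ℝ) :
    Integrable (fun y : ℝ => Real.exp (p * y + q * y ^ 2) * gau lam y) ∧
      ∫ y : ℝ, Real.exp (p * y + q * y ^ 2) * gau lam y =
        (√(1 - 4 * lam * q))⁻¹ * Real.exp (lam * p ^ 2 / (1 - 4 * lam * q)) := by
  have hd : 0 < 1 - 4 * lam * q := by linarith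
  have hk : 0 < 1 / (4 * lam) - q := by
    have : 1 / (4 * lam) - q = (1 - 4 * lam * q) / (4 * lam) := by field_simp
    rw [this]
    positivity
  obtain ⟨h1, h2⟩ := gauss_real hk p
  have e : (fun y : ℝ => Real.exp (p * y + q * y ^ 2) * gau lam y) =
      fun y : ℝ => (√(4 * Real.pi * lam))⁻¹ * Real.exp (p * y - (1 / (4 * lam) - q) * y ^ 2) := by
    funext y
    unfold gau
    rw [mul_left_comm, ← Real.exp_add]
    congr 2
    ring
  rw [e]
  refine ⟨h1.const_mul _, ?_⟩
  rw [integral_const_mul, h2, ← mul_assoc]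
  have hpi := Real.pi_pos
  congr 1
  · rw [← Real.sqrt_inv, ← Real.sqrt_inv, ← Real.sqrt_mul (by positivity)]
    congr 1
    have : (1 / (4 * lam) - q) = (1 - 4 * lam * q) / (4 * lam) := by field_simp
    rw [this]
    field_simp
  · congr 1
    have : (1 / (4 * lam) - q) = (1 - 4 * lam * q) / (4 * lam) := by field_simp
    rw [this]
    field_simp

lemma gau_cint {lam : ℝ} (hl : 0 < lam) (c : ℂ) :
    ∫ y : ℝ, cexp (c * y) * (gau lam y : ℂ) = cexp (lam * c ^ 2) := by
  have hb : ((-(1 / (4 * lam)) : ℝ) : ℂ).re < 0 := by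
    rw [ofReal_re]
    have : 0 < 1 / (4 * lam) := by positivity
    linarith
  have h := integral_cexp_quadratic hb c 0
  have hl' : (lam : ℂ) ≠ 0 := by exact_mod_cast hl.ne'
  have e : (fun y : ℝ => cexp (c * y) * (gau lam y : ℂ)) =
      fun y : ℝ => (((√(4 * Real.pi * lam))⁻¹ : ℝ) : ℂ) *
        cexp (((-(1 / (4 * lam)) : ℝ) : ℂ) * y ^ 2 + c * y + 0) := by
    funext y
    unfold gau
    rw [ofReal_mul, mul_left_comm, ofReal_exp, ← Complex.exp_add]
    congr 2
    push_cast
    ring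
  rw [e, integral_const_mul, h, ← mul_assoc]
  have hpi := Real.pi_pos
  have h3 : (((√(4 * Real.pi * lam))⁻¹ : ℝ) : ℂ) *
      ((Real.pi : ℂ) / -((-(1 / (4 * lam)) : ℝ) : ℂ)) ^ (1 / 2 : ℂ) = 1 := by
    have h4 : ((Real.pi : ℂ) / -((-(1 / (4 * lam)) : ℝ) : ℂ)) = ((4 * Real.pi * lam : ℝ) : ℂ) := by
      push_cast
      field_simp
    rw [h4, show (1 / 2 : ℂ) = ((1 / 2 : ℝ) : ℂ) by push_cast; rfl, ← ofReal_cpow (by positivity),
      ← Real.sqrt_eq_rpow, ← ofReal_mul, inv_mul_cancel₀ (by positivity), ofReal_one]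
  rw [h3, one_mul]
  congr 1
  push_cast
  field_simp
  ring

lemma gau_cintegrable {lam : ℝ} (hl : 0 < lam) (c : ℂ) :
    Integrable (fun y : ℝ => cexp (c * y) * (gau lam y : ℂ)) := by
  obtain ⟨h1, _⟩ := gau_int hl (q := 0) (by norm_num) c.re
  refine h1.mono' (by have := gau_cont lam; fun_prop) (ae_of_all _ fun y => ?_)
  rw [norm_mul, norm_real, Real.norm_eq_abs, abs_of_nonneg (gau_nonneg _ _), Complex.norm_exp]
  simp

/-- Half of the Gaussian. -/
noncomputable def hg (lam : ℝ) : ℝ → ℝ := (Ioi (0 : ℝ)).indicator (gau lam)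

lemma hg_nonneg (lam y : ℝ) : 0 ≤ hg lam y := indicator_nonneg (fun _ _ => gau_nonneg _ _) _

lemma hg_le (lam y : ℝ) : hg lam y ≤ gau lam y := indicator_le_self' (fun _ _ => gau_nonneg _ _) _

lemma hg_meas (lam : ℝ) : Measurable (hg lam) := (gau_cont lam).measurable.indicator measurableSet_Ioi

lemma Dec_hg {lam : ℝ} (hl : 0 < lam) : Dec (fun y => (hg lam y : ℂ)) := by
  intro N
  refine ⟨(√(4 * Real.pi * lam))⁻¹ * Real.exp (lam * N ^ 2), fun y => ?_⟩
  rw [norm_real, Real.norm_eq_abs, abs_of_nonneg (hg_nonneg _ _)]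
  refine (hg_le _ _).trans ?_
  unfold gau
  rw [mul_assoc (√(4 * Real.pi * lam))⁻¹, ← Real.exp_add]
  refine mul_le_mul_of_nonneg_left (Real.exp_le_exp.2 ?_) (by positivity)
  have h1 : y ^ 2 = |y| ^ 2 := (sq_abs y).symm
  rw [h1]
  have h2 : lam * N ^ 2 + -(N * |y|) - -(|y| ^ 2 / (4 * lam)) = (2 * lam * N - |y|) ^ 2 / (4 * lam) := by
    field_simp
    ring
  have h3 : 0 ≤ (2 * lam * N - |y|) ^ 2 / (4 * lam) := by positivity
  linarith

lemma hg_meas' (lam : ℝ) : AEStronglyMeasurable (fun y => (hg lam y : ℂ)) volume :=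
  (Complex.measurable_ofReal.comp (hg_meas lam)).aestronglyMeasurable

/-- The weight `w(u) = ∫_{y > 0} g(y) e^{u y} dy`. -/
noncomputable def wt (lam u : ℝ) : ℝ := ∫ y : ℝ, hg lam y * Real.exp (u * y)

lemma wt_eq_LT (lam u : ℝ) : ((wt lam u : ℝ) : ℂ) = LT (fun y => (hg lam y : ℂ)) u := by
  unfold wt LT
  rw [← integral_complex_ofReal]
  refine integral_congr_ae (ae_of_all _ fun y => ?_)
  push_cast
  rfl

lemma wt_integrable {lam : ℝ} (hl : 0 < lam) (u : ℝ) :
    Integrable (fun y : ℝ => hg lam y * Real.exp (u * y)) := by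
  have h := ((Dec_hg hl).integrable (hg_meas' lam) u).re
  refine h.congr (ae_of_all _ fun y => ?_)
  simp only [RCLike.re_to_complex]
  rw [← ofReal_mul, ← ofReal_exp, ← ofReal_mul, ofReal_re]

lemma wt_cont {lam : ℝ} (hl : 0 < lam) : Continuous (wt lam) := by
  have h1 : Continuous (fun u : ℝ => LT (fun y => (hg lam y : ℂ)) u) :=
    (LT_differentiable (hg_meas' lam) (Dec_hg hl)).continuous.comp continuous_ofReal
  have h2 : wt lam = fun u : ℝ => (LT (fun y => (hg lam y : ℂ)) u).re := by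
    funext u
    rw [← wt_eq_LT, ofReal_re]
  rw [h2]
  exact continuous_re.comp h1

lemma wt_nonneg (lam u : ℝ) : 0 ≤ wt lam u :=
  integral_nonneg fun y => mul_nonneg (hg_nonneg _ _) (Real.exp_pos _).le

lemma wt_add {lam : ℝ} (hl : 0 < lam) (u : ℝ) : wt lam u + wt lam (-u) = Real.exp (lam * u ^ 2) := by
  obtain ⟨h1, h2⟩ := gau_int hl (q := 0) (by norm_num) u
  have e0 : (√(1 - 4 * lam * 0))⁻¹ * Real.exp (lam * u ^ 2 / (1 - 4 * lam * 0)) =
      Real.exp (lam * u ^ 2) := by simp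
  rw [e0] at h2
  rw [← h2]
  have h3 : wt lam (-u) = ∫ y : ℝ, hg lam (-y) * Real.exp (u * y) := by
    unfold wt
    rw [← integral_neg_eq_self]
    refine integral_congr_ae (ae_of_all _ fun y => ?_)
    simp only
    congr 2
    ring
  rw [h3]
  unfold wt
  have h4 : Integrable (fun y : ℝ => hg lam (-y) * Real.exp (u * y)) := by
    have := (wt_integrable hl (-u)).comp_neg
    refine this.congr (ae_of_all _ fun y => ?_)
    simp only
    congr 2
    ring
  rw [← integral_add (wt_integrable hl u) h4]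
  have hne : ∀ᵐ y : ℝ, y ≠ 0 := by
    have : (volume : Measure ℝ) {0} = 0 := Real.volume_singleton
    exact compl_mem_ae_iff.2 this
  refine integral_congr_ae ?_
  filter_upwards [hne] with y hy
  rw [← add_mul, zero_mul, add_zero, mul_comm]
  congr 1
  unfold hg
  rcases lt_or_gt_of_ne hy with h | h
  · rw [indicator_of_notMem (by simpa using h.le), indicator_of_mem (by simpa using h), zero_add, gau_even]
  · rw [indicator_of_mem (by simpa using h), indicator_of_notMem (by simpa using h.le), add_zero]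

lemma wt_le {lam : ℝ} (hl : 0 < lam) (u : ℝ) : wt lam u ≤ Real.exp (lam * u ^ 2) := by
  rw [← wt_add hl u]
  linarith [wt_nonneg lam (-u)]

/-- One half of the heat flow. -/
noncomputable def Ah (lam : ℝ) (s : ℂ) : ℂ := LT (fun u => ((Phi u * wt lam u : ℝ) : ℂ)) (s - 6)

lemma Dec_Pw {lam : ℝ} (hl : 0 < lam) : Dec (fun u => ((Phi u * wt lam u : ℝ) : ℂ)) := by
  refine Dec_of_le (lam := lam) fun u => ?_
  rw [norm_real, Real.norm_eq_abs, abs_of_nonneg (mul_nonneg (Phi_pos u).le (wt_nonneg _ _))]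
  exact mul_le_mul_of_nonneg_left (wt_le hl u) (Phi_pos u).le

lemma Pw_cont {lam : ℝ} (hl : 0 < lam) : Continuous (fun u => ((Phi u * wt lam u : ℝ) : ℂ)) :=
  continuous_ofReal.comp (Phi_cont.mul (wt_cont hl))

lemma Ah_differentiable {lam : ℝ} (hl : 0 < lam) : Differentiable ℂ (Ah lam) :=
  (LT_differentiable (Pw_cont hl).aestronglyMeasurable (Dec_Pw hl)).comp (differentiable_id.sub_const 6)

lemma Ah_conj (lam : ℝ) (s : ℂ) : Ah lam ((starRingEnd ℂ) s) = (starRingEnd ℂ) (Ah lam s) := by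
  unfold Ah LT
  rw [← integral_conj]
  refine integral_congr_ae (ae_of_all _ fun u => ?_)
  simp only [map_mul, conj_ofReal, ← Complex.exp_conj, map_sub, map_ofNat]

/-- The heat flow of the Ramanujan Xi function: `∫ Φ(u) e^{lam u^2} e^{i z u} du`. -/
noncomputable def XiHeat (lam : ℝ) (z : ℂ) : ℂ :=
  ∫ u : ℝ, ((Phi u * Real.exp (lam * u ^ 2) : ℝ) : ℂ) * cexp (I * z * u)

lemma XiHeat_eq {lam : ℝ} (hl : 0 < lam) (z : ℂ) :
    XiHeat lam z = Ah lam (6 + I * z) + Ah lam (6 - I * z) := by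
  have h1 := (Dec_Pw hl).integrable (Pw_cont hl).aestronglyMeasurable (I * z)
  have h2 := (Dec_Pw hl).integrable (Pw_cont hl).aestronglyMeasurable (-(I * z))
  have e2 : Ah lam (6 - I * z) =
      ∫ u : ℝ, ((Phi u * wt lam (-u) : ℝ) : ℂ) * cexp (I * z * u) := by
    unfold Ah LT
    rw [← integral_neg_eq_self]
    refine integral_congr_ae (ae_of_all _ fun u => ?_)
    simp only [Phi_even]
    congr 2
    push_cast
    ring
  have h3 : Integrable (fun u : ℝ => ((Phi u * wt lam (-u) : ℝ) : ℂ) * cexp (I * z * u)) := by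
    refine h2.comp_neg.congr (ae_of_all _ fun u => ?_)
    simp only [Phi_even]
    congr 2
    push_cast
    ring
  rw [e2]
  unfold Ah LT
  rw [show 6 + I * z - 6 = I * z by ring, ← integral_add h1 h3]
  refine integral_congr_ae (ae_of_all _ fun u => ?_)
  simp only
  rw [← add_mul, ← ofReal_add, ← mul_add, wt_add hl u]

/-- Fubini. -/
lemma Ah_eq {lam : ℝ} (hl : 0 < lam) (s : ℂ) :
    Ah lam s = ∫ y : ℝ, Lam (s + y) * (hg lam y : ℂ) := by
  have hmeas : AEStronglyMeasurable (Function.uncurry fun (u y : ℝ) =>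
      (Phi u : ℂ) * cexp ((s - 6) * u) * ((hg lam y : ℂ) * cexp ((u : ℂ) * y))) (volume.prod volume) := by
    have h1 : Measurable (fun p : ℝ × ℝ => (hg lam p.2 : ℂ)) :=
      Complex.measurable_ofReal.comp ((hg_meas lam).comp measurable_snd)
    have h2 : Continuous (fun p : ℝ × ℝ => (Phi p.1 : ℂ) * cexp ((s - 6) * p.1)) := by
      exact (Phi_contC.comp continuous_fst).mul (by fun_prop)
    have h3 : Continuous (fun p : ℝ × ℝ => cexp ((p.1 : ℂ) * p.2)) := by fun_prop
    exact (h2.measurable.mul (h1.mul h3.measurable)).aestronglyMeasurable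
  have hInt : Integrable (Function.uncurry fun (u y : ℝ) =>
      (Phi u : ℂ) * cexp ((s - 6) * u) * ((hg lam y : ℂ) * cexp ((u : ℂ) * y))) (volume.prod volume) := by
    refine (integrable_prod_iff hmeas).2 ⟨ae_of_all _ fun u => ?_, ?_⟩
    · simp only [Function.uncurry]
      exact ((Dec_hg hl).integrable (hg_meas' lam) u).const_mul _
    · simp only [Function.uncurry]
      have h4 := ((Dec_Pw hl).integrable (Pw_cont hl).aestronglyMeasurable (s - 6)).norm
      refine h4.congr (ae_of_all _ fun u => ?_)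
      simp only [norm_mul, norm_real, Real.norm_eq_abs]
      rw [integral_const_mul]
      have h5 : ∫ y : ℝ, |hg lam y| * ‖cexp ((u : ℂ) * y)‖ = wt lam u := by
        unfold wt
        refine integral_congr_ae (ae_of_all _ fun y => ?_)
        simp only
        rw [abs_of_nonneg (hg_nonneg _ _), ← ofReal_mul, ← ofReal_exp, norm_real, Real.norm_eq_abs,
          abs_of_pos (Real.exp_pos _)]
      rw [h5, abs_of_nonneg (wt_nonneg _ _)]
      ring
  have hL : Ah lam s = ∫ u : ℝ, ∫ y : ℝ,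
      (Phi u : ℂ) * cexp ((s - 6) * u) * ((hg lam y : ℂ) * cexp ((u : ℂ) * y)) := by
    unfold Ah LT
    refine integral_congr_ae (ae_of_all _ fun u => ?_)
    simp only
    rw [integral_const_mul, ofReal_mul, wt_eq_LT]
    unfold LT
    ring
  rw [hL, integral_integral_swap hInt]
  refine integral_congr_ae (ae_of_all _ fun y => ?_)
  simp only
  unfold Lam LT
  rw [← integral_mul_const]
  refine integral_congr_ae (ae_of_all _ fun u => ?_)
  simp only
  rw [show (s + y - 6) * (u : ℂ) = (s - 6) * u + (u : ℂ) * y by ring, Complex.exp_add]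
  ring

end Pool.Agent.Helper36.XD
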