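import Pool.Graph.R_seed8.TH814.GS.Stir

set_option autoImplicit false

/-! # Quotients of Gamma functions in the right half-plane -/

namespace Pool.Agent.Helper36.XD

open Complex Filter Topology Set Pool.Agent.H401R2 Pool.Agent.TH814.GS

lemma one_add_slit {v : ℂ} (hv : 0 ≤ v.re) : 1 + v ∈ slitPlane := by
  left
  simp
  linarith

lemma one_le_norm_one_add {v : ℂ} (hv : 0 ≤ v.re) : 1 ≤ ‖1 + v‖ := by
  have h1 := abs_re_le_norm (1 + v)
  simp only [add_re, one_re] at h1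
  have h2 := le_abs_self (1 + v.re)
  linarith

lemma conv_right : Convex ℝ {v : ℂ | 0 ≤ v.re} := convex_halfSpace_re_ge 0

lemma norm_log_le {v : ℂ} (hv : 0 ≤ v.re) : ‖log (1 + v)‖ ≤ ‖v‖ := by
  have h := Convex.norm_image_sub_le_of_norm_hasDerivWithin_le (𝕜 := ℂ)
    (f := fun v : ℂ => log (1 + v)) (f' := fun v : ℂ => 1 / (1 + v)) (C := 1)
    (s := {v : ℂ | 0 ≤ v.re}) (x := 0) (y := v) ?_ ?_ conv_right (by simp) hv
  · simpa using h
  · intro w hw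
    have h1 : HasDerivAt (fun v : ℂ => 1 + v) 1 w := by
      simpa using (hasDerivAt_id w).const_add (1 : ℂ)
    exact (h1.clog (one_add_slit hw)).hasDerivWithinAt
  · intro w hw
    rw [norm_div, norm_one]
    have := one_le_norm_one_add hw
    rw [div_le_one (by linarith)]
    exact this

lemma norm_hh_le {v : ℂ} (hv : 0 ≤ v.re) : ‖(1 + v) * log (1 + v) - v‖ ≤ ‖v‖ ^ 2 := by
  have h := Convex.norm_image_sub_le_of_norm_hasDerivWithin_le (𝕜 := ℂ)
    (f := fun v : ℂ => (1 + v) * log (1 + v) - v) (f' := fun v : ℂ => log (1 + v)) (C := ‖v‖)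
    (s := {w : ℂ | 0 ≤ w.re} ∩ Metric.closedBall 0 ‖v‖) (x := 0) (y := v) ?_ ?_
    (conv_right.inter (convex_closedBall _ _)) (by simp) ⟨hv, by simp⟩
  · simp only [add_zero, log_one, mul_zero, sub_zero] at h
    rw [sq]
    exact h
  · intro w hw
    have h1 : HasDerivAt (fun v : ℂ => 1 + v) 1 w := by
      simpa using (hasDerivAt_id w).const_add (1 : ℂ)
    have h2 := (h1.mul (h1.clog (one_add_slit hw.1))).sub (hasDerivAt_id w)
    refine (h2.congr_deriv ?_).hasDerivWithinAt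
    have h3 : 1 + w ≠ 0 := slitPlane_ne_zero (one_add_slit hw.1)
    field_simp
    ring
  · intro w hw
    refine (norm_log_le hw.1).trans ?_
    simpa using hw.2

lemma log_add_eq {s : ℂ} (hs : 0 ≤ s.re) (h0 : s ≠ 0) {y : ℝ} (hy : 0 ≤ y) :
    0 ≤ ((y : ℂ) / s).re ∧ log (s + y) = log s + log (1 + y / s) := by
  have hv : 0 ≤ ((y : ℂ) / s).re := by
    rw [div_re]
    simp only [ofReal_re, ofReal_im, zero_mul, zero_div, add_zero]
    have : 0 < normSq s := normSq_pos.2 h0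
    positivity
  refine ⟨hv, ?_⟩
  have e : s + y = s * (1 + y / s) := by field_simp
  have h1 : 1 + (y : ℂ) / s ≠ 0 := slitPlane_ne_zero (one_add_slit hv)
  rw [e]
  refine (log_mul_eq_add_log_iff h0 h1).2 ?_
  have h2 : |s.arg| ≤ Real.pi / 2 := abs_arg_le_pi_div_two_iff.2 hs
  have h3 : |(1 + (y : ℂ) / s).arg| < Real.pi / 2 := by
    rw [abs_arg_lt_pi_div_two_iff]
    left
    simp only [add_re, one_re]
    linarith
  have h4 := abs_le.1 h2
  have h5 := abs_lt.1 h3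
  constructor <;> linarith [h4.1, h4.2, h5.1, h5.2]

lemma norm_add_ge {s : ℂ} (hs : 0 ≤ s.re) {y : ℝ} (hy : 0 ≤ y) : ‖s‖ ≤ ‖s + y‖ := by
  have e1 : ‖s‖ ^ 2 ≤ ‖s + y‖ ^ 2 := by
    rw [Complex.sq_norm, Complex.normSq_apply, Complex.sq_norm, Complex.normSq_apply]
    simp only [add_re, ofReal_re, add_im, ofReal_im]
    nlinarith [mul_nonneg hs hy]
  exact (sq_le_sq₀ (norm_nonneg _) (norm_nonneg _)).1 e1

/-- The quotient of Gamma functions. -/
theorem gamma_ratio {s : ℂ} (hs : 0 ≤ s.re) (hn : 2 ≤ ‖s‖) {y : ℝ} (hy : 0 ≤ y) :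
    ‖Gamma (s + y) / Gamma s - cexp (y * log s)‖ ≤
      8 * (1 + y) ^ 2 / ‖s‖ * Real.exp (2 / ‖s‖ * y ^ 2) * Real.exp (y * Real.log ‖s‖) := by
  have h0 : s ≠ 0 := by
    intro h
    rw [h, norm_zero] at hn
    linarith
  have hnpos : 0 < ‖s‖ := by linarith
  obtain ⟨hv, hlog⟩ := log_add_eq hs h0 hy
  have hge := norm_add_ge hs hy
  set v : ℂ := (y : ℂ) / s with hvdef
  have hys : (y : ℂ) = s * v := by rw [hvdef]; field_simp
  have hvn : ‖v‖ = y / ‖s‖ := by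
    rw [hvdef, norm_div, norm_real, Real.norm_eq_abs, abs_of_nonneg hy]
  have hs2pi : ((√(2 * Real.pi) : ℝ) : ℂ) ≠ 0 := sqrt_ne
  set a0 : ℂ := sA s / ((√(2 * Real.pi) : ℝ) : ℂ) with ha0
  set a1 : ℂ := sA (s + y) / ((√(2 * Real.pi) : ℝ) : ℂ) with ha1
  have h1 : ‖a0 - 1‖ ≤ 1 / ‖s‖ := stir_right hs (by linarith)
  have h2 : ‖a1 - 1‖ ≤ 1 / ‖s‖ := by
    have hre : 0 ≤ (s + (y : ℂ)).re := by simp; linarith
    refine (stir_right hre (by linarith)).trans ?_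
    exact one_div_le_one_div_of_le hnpos hge
  have hhalf : 1 / ‖s‖ ≤ 1 / 2 := one_div_le_one_div_of_le (by norm_num) hn
  have h3 : 1 / 2 ≤ ‖a0‖ := by
    have h4 := norm_sub_norm_le (1 : ℂ) (1 - a0)
    rw [norm_one, sub_sub_cancel, norm_sub_rev 1 a0] at h4
    linarith
  have h4 : ‖a1‖ ≤ 3 / 2 := by
    have h5 := norm_add_le (a1 - 1) 1
    rw [sub_add_cancel, norm_one] at h5
    linarith
  have ha0ne : a0 ≠ 0 := by
    intro h
    rw [h, norm_zero] at h3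
    linarith
  have h5 : ‖a1 / a0‖ ≤ 3 := by
    rw [norm_div, div_le_iff₀ (by linarith)]
    linarith
  have h6 : ‖a1 / a0 - 1‖ ≤ 4 / ‖s‖ := by
    have e : a1 / a0 - 1 = ((a1 - 1) - (a0 - 1)) / a0 := by
      field_simp
      ring
    rw [e, norm_div, div_le_iff₀ (by linarith)]
    have h7 := norm_sub_le (a1 - 1) (a0 - 1)
    have h8 : 4 / ‖s‖ * ‖a0‖ ≥ 4 / ‖s‖ * (1 / 2) := mul_le_mul_of_nonneg_left h3 (by positivity)
    have h9 : 4 / ‖s‖ * (1 / 2) = 1 / ‖s‖ + 1 / ‖s‖ := by ring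
    linarith
  set E : ℂ := s * ((1 + v) * log (1 + v) - v) - 1 / 2 * log (1 + v) with hE
  have hEn : ‖E‖ ≤ (y ^ 2 + y / 2) / ‖s‖ := by
    have h7 := norm_hh_le hv
    have h8 := norm_log_le hv
    have h9 := norm_sub_le (s * ((1 + v) * log (1 + v) - v)) (1 / 2 * log (1 + v))
    rw [norm_mul, norm_mul] at h9
    have h10 : ‖s‖ * ‖(1 + v) * log (1 + v) - v‖ ≤ y ^ 2 / ‖s‖ := by
      refine (mul_le_mul_of_nonneg_left h7 (norm_nonneg _)).trans (le_of_eq ?_)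
      rw [hvn]
      field_simp
    have h11 : ‖(1 / 2 : ℂ)‖ * ‖log (1 + v)‖ ≤ y / 2 / ‖s‖ := by
      have : ‖(1 / 2 : ℂ)‖ = 1 / 2 := by simp
      rw [this]
      rw [hvn] at h8
      calc 1 / 2 * ‖log (1 + v)‖ ≤ 1 / 2 * (y / ‖s‖) := by linarith
        _ = _ := by ring
    calc ‖E‖ ≤ _ := h9
      _ ≤ y ^ 2 / ‖s‖ + y / 2 / ‖s‖ := add_le_add h10 h11
      _ = _ := by ring
  have hratio : Gamma (s + y) / Gamma s = (a1 / a0 * cexp E) * cexp (y * log s) := by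
    have hG0 : Gamma s = a0 * ((√(2 * Real.pi) : ℝ) : ℂ) * cexp ((s - 1 / 2) * log s - s) := by
      rw [ha0, div_mul_cancel₀ _ hs2pi]
      unfold sA
      rw [mul_assoc, ← Complex.exp_add]
      simp
    have hG1 : Gamma (s + y) = a1 * ((√(2 * Real.pi) : ℝ) : ℂ) *
        cexp ((s + y - 1 / 2) * log (s + y) - (s + y)) := by
      rw [ha1, div_mul_cancel₀ _ hs2pi]
      unfold sA
      rw [mul_assoc, ← Complex.exp_add]
      simp
    rw [hG0, hG1, hlog]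
    have e1 : cexp ((s + y - 1 / 2) * (log s + log (1 + v)) - (s + y)) =
        cexp ((s - 1 / 2) * log s - s) * cexp E * cexp (y * log s) := by
      rw [← Complex.exp_add, ← Complex.exp_add]
      congr 1
      rw [hE]
      rw [hys]
      ring
    rw [e1]
    have := Complex.exp_ne_zero ((s - 1 / 2) * log s - s)
    field_simp
  rw [hratio]
  have e2 : a1 / a0 * cexp E * cexp (y * log s) - cexp (y * log s) =
      (a1 / a0 * (cexp E - 1) + (a1 / a0 - 1)) * cexp (y * log s) := by ring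
  rw [e2, norm_mul]
  have e3 : ‖cexp ((y : ℂ) * log s)‖ = Real.exp (y * Real.log ‖s‖) := by
    rw [Complex.norm_exp]
    simp [log_re]
  rw [e3]
  refine mul_le_mul_of_nonneg_right ?_ (Real.exp_pos _).le
  have h7 : ‖cexp E - 1‖ ≤ ‖E‖ * Real.exp ‖E‖ := by
    have := Complex.norm_exp_sub_sum_le_norm_mul_exp E 1
    simpa using this
  have h8 : ‖E‖ ≤ 2 / ‖s‖ * y ^ 2 + 1 / 32 := by
    refine hEn.trans ?_
    have h9 : y / 2 ≤ y ^ 2 + 1 / 16 := by nlinarith [sq_nonneg (y - 1 / 4)]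
    calc (y ^ 2 + y / 2) / ‖s‖ ≤ (y ^ 2 + (y ^ 2 + 1 / 16)) / ‖s‖ := by gcongr
      _ = 2 / ‖s‖ * y ^ 2 + 1 / 16 * (1 / ‖s‖) := by ring
      _ ≤ _ := by linarith
  have h9 : Real.exp ‖E‖ ≤ 11 / 10 * Real.exp (2 / ‖s‖ * y ^ 2) := by
    refine (Real.exp_le_exp.2 h8).trans ?_
    rw [Real.exp_add, mul_comm]
    refine mul_le_mul_of_nonneg_right ?_ (Real.exp_pos _).le
    have := Real.exp_bound' (x := 1 / 32) (by norm_num) (by norm_num) (n := 2) (by norm_num)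
    refine this.trans ?_
    norm_num [Finset.sum_range_succ, Nat.factorial]
  have h10 : (y ^ 2 + y / 2) / ‖s‖ ≤ (1 + y) ^ 2 / ‖s‖ := by
    gcongr
    nlinarith
  have h11 : 1 ≤ Real.exp (2 / ‖s‖ * y ^ 2) := Real.one_le_exp (by positivity)
  have h12 : (1 : ℝ) ≤ (1 + y) ^ 2 := one_le_pow₀ (by linarith)
  calc ‖a1 / a0 * (cexp E - 1) + (a1 / a0 - 1)‖
      ≤ ‖a1 / a0‖ * ‖cexp E - 1‖ + ‖a1 / a0 - 1‖ := by
        refine (norm_add_le _ _).trans ?_
        rw [norm_mul]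
    _ ≤ 3 * (((1 + y) ^ 2 / ‖s‖) * (11 / 10 * Real.exp (2 / ‖s‖ * y ^ 2))) + 4 / ‖s‖ := by
        refine add_le_add (mul_le_mul h5 (h7.trans ?_) (norm_nonneg _) (by norm_num)) h6
        exact mul_le_mul (hEn.trans h10) h9 (Real.exp_pos _).le (by positivity)
    _ ≤ 3 * (((1 + y) ^ 2 / ‖s‖) * (11 / 10 * Real.exp (2 / ‖s‖ * y ^ 2))) +
        4 * ((1 + y) ^ 2 / ‖s‖ * Real.exp (2 / ‖s‖ * y ^ 2)) := by
        have h13 : 1 / ‖s‖ ≤ (1 + y) ^ 2 / ‖s‖ * Real.exp (2 / ‖s‖ * y ^ 2) := by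
          calc 1 / ‖s‖ = 1 / ‖s‖ * 1 := (mul_one _).symm
            _ ≤ (1 + y) ^ 2 / ‖s‖ * Real.exp (2 / ‖s‖ * y ^ 2) := by
              refine mul_le_mul ?_ h11 zero_le_one (by positivity)
              gcongr
        have h14 : 4 / ‖s‖ = 4 * (1 / ‖s‖) := by ring
        rw [h14]
        linarith
    _ ≤ 8 * (1 + y) ^ 2 / ‖s‖ * Real.exp (2 / ‖s‖ * y ^ 2) := by
        have h15 : 0 ≤ (1 + y) ^ 2 / ‖s‖ * Real.exp (2 / ‖s‖ * y ^ 2) := by positivity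
        have e4 : 8 * (1 + y) ^ 2 / ‖s‖ * Real.exp (2 / ‖s‖ * y ^ 2) =
          8 * ((1 + y) ^ 2 / ‖s‖ * Real.exp (2 / ‖s‖ * y ^ 2)) := by ring
        rw [e4]
        nlinarith

end Pool.Agent.Helper36.XD
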