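import Pool.Agent.Helper36.XD4
import Pool.Agent.Helper36.XD5
import Pool.Agent.Helper36.XD6

set_option autoImplicit false

/-! # Asymptotics of one half of the heat flow -/

namespace Pool.Agent.Helper36.XD

open Complex MeasureTheory Filter Topology Set

/-- The archimedean factor. -/
noncomputable def PP (s : ℂ) : ℂ := ((2 * Real.pi : ℝ) : ℂ) ^ (-s) * Gamma s

/-- `log (s / 2π)`. -/
noncomputable def ell (s : ℂ) : ℂ := log s - (Real.log (2 * Real.pi) : ℂ)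

/-- Its real component. -/
noncomputable def xx (s : ℂ) : ℝ := Real.log ‖s‖ - Real.log (2 * Real.pi)

lemma ell_re (s : ℂ) : (ell s).re = xx s := by
  unfold ell xx
  rw [sub_re, log_re, ofReal_re]

lemma norm_s {s : ℂ} (h : 0 < ‖s‖) : ‖s‖ = 2 * Real.pi * Real.exp (xx s) := by
  unfold xx
  rw [Real.exp_sub, Real.exp_log h, Real.exp_log (by positivity)]
  field_simp

lemma norm_big {s : ℂ} (h0 : 0 < ‖s‖) (hx : 1 ≤ xx s) : 16 ≤ ‖s‖ := by
  rw [norm_s h0]
  have h1 : Real.exp 1 ≤ Real.exp (xx s) := Real.exp_le_exp.2 hx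
  have h2 := Real.exp_one_gt_d9
  have h3 := Real.pi_gt_three
  nlinarith

lemma Ld_bound2 : ∃ C : ℝ, 0 ≤ C ∧ ∀ s : ℂ, 2 ≤ s.re → 1 ≤ xx s → ∀ y : ℝ, 0 ≤ y →
    ‖Ld (s + y) - 1‖ ≤ C * (Real.exp (-(y / 2)) + ‖s‖ ^ 8 * Real.exp (xx s * (6 - y))) := by
  obtain ⟨C1, hC1, h1⟩ := cf_bound
  obtain ⟨C2, hC2, h2⟩ := Ld_growth
  refine ⟨C1 + 1 + 256 * C2, by positivity, fun s hs hx y hy => ?_⟩
  have hpos : 0 < ‖s‖ := by
    have := abs_re_le_norm s
    have h3 := le_abs_self s.re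
    linarith
  have h16 := norm_big hpos hx
  have hre : (s + (y : ℂ)).re = s.re + y := by simp
  have hE1 : 0 ≤ Real.exp (-(y / 2)) := (Real.exp_pos _).le
  have hE2 : 0 ≤ ‖s‖ ^ 8 * Real.exp (xx s * (6 - y)) := by positivity
  rcases le_or_gt 8 (s.re + y) with h | h
  · have h3 := h1 (s + y) (by rw [hre]; exact h)
    have h4 : (2 : ℝ) ^ (-(s + (y : ℂ)).re) ≤ Real.exp (-(y / 2)) := by
      rw [hre, Real.rpow_def_of_pos (by norm_num)]
      apply Real.exp_le_exp.2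
      have h5 := Real.log_two_gt_d9
      nlinarith
    calc ‖Ld (s + y) - 1‖ ≤ C1 * Real.exp (-(y / 2)) := h3.trans (mul_le_mul_of_nonneg_left h4 hC1)
      _ ≤ _ := by nlinarith
  · have hy6 : y ≤ 6 := by linarith
    have h3 := h2 (s + y) (by rw [hre]; linarith) (by rw [hre]; linarith)
    have h4 : ‖s + y + 1‖ ≤ 2 * ‖s‖ := by
      have h5 := norm_add_le (s + (y : ℂ)) 1
      have h6 := norm_add_le s (y : ℂ)
      rw [norm_one] at h5
      rw [norm_real, Real.norm_eq_abs, abs_of_nonneg hy] at h6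
      linarith
    have h5 : ‖s + y + 1‖ ^ 8 ≤ 256 * ‖s‖ ^ 8 := by
      have := pow_le_pow_left₀ (norm_nonneg _) h4 8
      rw [mul_pow] at this
      norm_num at this
      exact this
    have h6 : (1 : ℝ) ≤ ‖s‖ ^ 8 := one_le_pow₀ (by linarith)
    have h7 : 1 ≤ Real.exp (xx s * (6 - y)) :=
      Real.one_le_exp (mul_nonneg (by linarith) (by linarith))
    have h8 : ‖s‖ ^ 8 ≤ ‖s‖ ^ 8 * Real.exp (xx s * (6 - y)) := le_mul_of_one_le_right (by positivity) h7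
    have h9 := norm_sub_le (Ld (s + y)) 1
    rw [norm_one] at h9
    have h10 : C2 * ‖s + y + 1‖ ^ 8 ≤ C2 * (256 * ‖s‖ ^ 8) := mul_le_mul_of_nonneg_left h5 hC2
    have h11 : ‖Ld (s + y) - 1‖ ≤ (1 + 256 * C2) * ‖s‖ ^ 8 := by nlinarith
    calc ‖Ld (s + y) - 1‖ ≤ (1 + 256 * C2) * ‖s‖ ^ 8 := h11
      _ ≤ (1 + 256 * C2) * (‖s‖ ^ 8 * Real.exp (xx s * (6 - y))) :=
          mul_le_mul_of_nonneg_left h8 (by positivity)
      _ ≤ _ := by nlinarith

/-- The quotient `Lam (s + y) / PP s`. -/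
noncomputable def Fq (s : ℂ) (y : ℝ) : ℂ :=
  Gamma (s + y) / Gamma s * cexp (-(y * (Real.log (2 * Real.pi) : ℂ))) * Ld (s + y)

lemma Lam_Fq {s : ℂ} (hs : 0 < s.re) {y : ℝ} (hy : 0 ≤ y) : Lam (s + y) = PP s * Fq s y := by
  have h1 : Gamma s ≠ 0 := Gamma_ne_zero_of_re_pos hs
  have h2 : Gamma (s + y) ≠ 0 := Gamma_ne_zero_of_re_pos (by simp; linarith)
  rw [Lam_eq h2]
  unfold PP Fq
  have e : ((2 * Real.pi : ℝ) : ℂ) ^ (-(s + y)) =
      ((2 * Real.pi : ℝ) : ℂ) ^ (-s) * cexp (-(y * (Real.log (2 * Real.pi) : ℂ))) := by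
    rw [neg_add, cpow_add _ _ twopi_ne]
    congr 1
    rw [cpow_def_of_ne_zero twopi_ne, ← ofReal_log (by positivity)]
    congr 1
    ring
  rw [e]
  field_simp

lemma sq_le_exp (y : ℝ) (hy : 0 ≤ y) : (1 + y) ^ 2 ≤ 256 * Real.exp (1 / 8 * y) := by
  have h1 := Real.quadratic_le_exp_of_nonneg (show 0 ≤ 1 / 8 * y by linarith)
  nlinarith

/-- The bound for the difference. -/
noncomputable def Bd (C : ℝ) (s : ℂ) (y : ℝ) : ℝ :=
  2048 * (1 + C) / ‖s‖ * Real.exp ((xx s + 1 / 8) * y + 2 / ‖s‖ * y ^ 2) +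
  2048 * C * ‖s‖ ^ 7 * Real.exp (6 * xx s) * Real.exp ((1 / 8) * y + 2 / ‖s‖ * y ^ 2) +
  C * Real.exp ((xx s - 1 / 2) * y + 0 * y ^ 2) +
  C * ‖s‖ ^ 8 * Real.exp (6 * xx s) * Real.exp (0 * y + 0 * y ^ 2)

lemma Fq_bound {C : ℝ} (hC : 0 ≤ C) (hL : ∀ s : ℂ, 2 ≤ s.re → 1 ≤ xx s → ∀ y : ℝ, 0 ≤ y →
    ‖Ld (s + y) - 1‖ ≤ C * (Real.exp (-(y / 2)) + ‖s‖ ^ 8 * Real.exp (xx s * (6 - y))))
    {s : ℂ} (hs : 2 ≤ s.re) (hx : 1 ≤ xx s) {y : ℝ} (hy : 0 ≤ y) :
    ‖Fq s y - cexp (ell s * y)‖ ≤ Bd C s y := by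
  have hpos : 0 < ‖s‖ := by
    have := abs_re_le_norm s
    have h3 := le_abs_self s.re
    linarith
  have h16 := norm_big hpos hx
  have hG := gamma_ratio (by linarith : 0 ≤ s.re) (by linarith : 2 ≤ ‖s‖) hy
  have hLd := hL s hs hx y hy
  set m : ℂ := cexp (ell s * y) with hm
  set r : ℂ := Gamma (s + y) / Gamma s * cexp (-(y * (Real.log (2 * Real.pi) : ℂ))) with hr
  have hmr : ‖r - m‖ ≤ 8 * (1 + y) ^ 2 / ‖s‖ * Real.exp (2 / ‖s‖ * y ^ 2) * Real.exp (xx s * y) := by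
    have e1 : r - m = (Gamma (s + y) / Gamma s - cexp (y * log s)) *
        cexp (-(y * (Real.log (2 * Real.pi) : ℂ))) := by
      rw [hr, hm, sub_mul, ← Complex.exp_add]
      congr 2
      unfold ell
      ring
    have e2 : ‖cexp (-((y : ℂ) * (Real.log (2 * Real.pi) : ℂ)))‖ =
        Real.exp (-(y * Real.log (2 * Real.pi))) := by
      rw [← ofReal_mul, ← ofReal_neg, ← ofReal_exp, norm_real, Real.norm_eq_abs,
        abs_of_pos (Real.exp_pos _)]
    rw [e1, norm_mul, e2]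
    refine (mul_le_mul_of_nonneg_right hG (Real.exp_pos _).le).trans (le_of_eq ?_)
    rw [mul_assoc, ← Real.exp_add]
    congr 2
    unfold xx
    ring
  have hmn : ‖m‖ = Real.exp (xx s * y) := by
    rw [hm, Complex.norm_exp, mul_re, ofReal_re, ofReal_im, mul_zero, sub_zero, ell_re]
  have e3 : Fq s y - m = (r - m) * (1 + (Ld (s + y) - 1)) + m * (Ld (s + y) - 1) := by
    unfold Fq
    rw [← hr]
    ring
  rw [e3]
  set l : ℝ := ‖Ld (s + y) - 1‖ with hl
  have h1 : ‖(r - m) * (1 + (Ld (s + y) - 1)) + m * (Ld (s + y) - 1)‖ ≤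
      ‖r - m‖ * (1 + l) + Real.exp (xx s * y) * l := by
    refine (norm_add_le _ _).trans ?_
    rw [norm_mul, norm_mul, hmn]
    have := norm_add_le (1 : ℂ) (Ld (s + y) - 1)
    rw [norm_one] at this
    exact add_le_add (mul_le_mul_of_nonneg_left this (norm_nonneg _)) le_rfl
  refine h1.trans ?_
  have h2 := sq_le_exp y hy
  have h3 : ‖r - m‖ ≤ 2048 / ‖s‖ * Real.exp ((xx s + 1 / 8) * y + 2 / ‖s‖ * y ^ 2) := by
    refine hmr.trans ?_
    calc 8 * (1 + y) ^ 2 / ‖s‖ * Real.exp (2 / ‖s‖ * y ^ 2) * Real.exp (xx s * y)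
        ≤ 8 * (256 * Real.exp (1 / 8 * y)) / ‖s‖ * Real.exp (2 / ‖s‖ * y ^ 2) * Real.exp (xx s * y) := by
          gcongr
      _ = 2048 / ‖s‖ * (Real.exp (1 / 8 * y) * Real.exp (2 / ‖s‖ * y ^ 2) * Real.exp (xx s * y)) := by
          ring
      _ = _ := by
          rw [← Real.exp_add, ← Real.exp_add]
          congr 2
          ring
  have h4 : l ≤ C * (1 + ‖s‖ ^ 8 * Real.exp (xx s * (6 - y))) := by
    refine hLd.trans (mul_le_mul_of_nonneg_left ?_ hC)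
    have : Real.exp (-(y / 2)) ≤ 1 := by
      rw [Real.exp_le_one_iff]
      linarith
    linarith
  have hl0 : 0 ≤ l := norm_nonneg _
  have e4 : Real.exp ((xx s + 1 / 8) * y + 2 / ‖s‖ * y ^ 2) * Real.exp (xx s * (6 - y)) =
      Real.exp (6 * xx s) * Real.exp ((1 / 8) * y + 2 / ‖s‖ * y ^ 2) := by
    rw [← Real.exp_add, ← Real.exp_add]
    congr 1
    ring
  have e5 : Real.exp (xx s * y) * Real.exp (-(y / 2)) = Real.exp ((xx s - 1 / 2) * y + 0 * y ^ 2) := by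
    rw [← Real.exp_add]
    congr 1
    ring
  have e6 : Real.exp (xx s * y) * Real.exp (xx s * (6 - y)) =
      Real.exp (6 * xx s) * Real.exp (0 * y + 0 * y ^ 2) := by
    rw [← Real.exp_add, ← Real.exp_add]
    congr 1
    ring
  calc ‖r - m‖ * (1 + l) + Real.exp (xx s * y) * l
      ≤ (2048 / ‖s‖ * Real.exp ((xx s + 1 / 8) * y + 2 / ‖s‖ * y ^ 2)) *
          (1 + C * (1 + ‖s‖ ^ 8 * Real.exp (xx s * (6 - y)))) +
        Real.exp (xx s * y) * (C * (Real.exp (-(y / 2)) + ‖s‖ ^ 8 * Real.exp (xx s * (6 - y)))) := by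
        refine add_le_add (mul_le_mul h3 (by linarith) (by linarith) (by positivity)) ?_
        exact mul_le_mul_of_nonneg_left hLd (Real.exp_pos _).le
    _ = 2048 * (1 + C) / ‖s‖ * Real.exp ((xx s + 1 / 8) * y + 2 / ‖s‖ * y ^ 2) +
        2048 * C * (‖s‖ ^ 8 / ‖s‖) *
          (Real.exp ((xx s + 1 / 8) * y + 2 / ‖s‖ * y ^ 2) * Real.exp (xx s * (6 - y))) +
        C * (Real.exp (xx s * y) * Real.exp (-(y / 2))) +
        C * ‖s‖ ^ 8 * (Real.exp (xx s * y) * Real.exp (xx s * (6 - y))) := by ring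
    _ = Bd C s y := by
        rw [e4, e5, e6]
        unfold Bd
        have : ‖s‖ ^ 8 / ‖s‖ = ‖s‖ ^ 7 := by field_simp
        rw [this]
        ring

lemma J_le {lam q : ℝ} (hl : 0 < lam) (hl1 : lam ≤ 1) (hq : 0 ≤ q) (hq1 : 8 * q ≤ 1) (p : ℝ) :
    (√(1 - 4 * lam * q))⁻¹ * Real.exp (lam * p ^ 2 / (1 - 4 * lam * q)) ≤
      2 * Real.exp (lam * p ^ 2 + 8 * q * p ^ 2) := by
  set d : ℝ := 4 * lam * q with hd
  have hd0 : 0 ≤ d := by positivity
  have hd4 : d ≤ 4 * q := by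
    rw [hd]
    nlinarith
  have hd1 : d ≤ 1 / 2 := by linarith
  have h1 : 1 / 2 ≤ √(1 - d) := by
    apply Real.le_sqrt_of_sq_le
    linarith
  have h2 : (√(1 - d))⁻¹ ≤ 2 := by
    rw [inv_le_comm₀ (by linarith) (by norm_num)]
    linarith
  refine mul_le_mul h2 (Real.exp_le_exp.2 ?_) (Real.exp_pos _).le (by norm_num)
  rw [div_le_iff₀ (by linarith)]
  have hp : 0 ≤ p ^ 2 := sq_nonneg p
  have h3 : lam * p ^ 2 * d ≤ 8 * q * p ^ 2 * (1 / 2) := by
    have h4 : lam * p ^ 2 ≤ p ^ 2 := by nlinarith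
    calc lam * p ^ 2 * d ≤ p ^ 2 * (4 * q) := mul_le_mul h4 hd4 hd0 hp
      _ = _ := by ring
  have h5 : 8 * q * p ^ 2 * (1 / 2) ≤ 8 * q * p ^ 2 * (1 - d) :=
    mul_le_mul_of_nonneg_left (by linarith) (by positivity)
  nlinarith

lemma int4 {f1 f2 f3 f4 : ℝ → ℝ} (h1 : Integrable f1) (h2 : Integrable f2) (h3 : Integrable f3)
    (h4 : Integrable f4) : Integrable (fun y => f1 y + f2 y + f3 y + f4 y) ∧
    ∫ y, (f1 y + f2 y + f3 y + f4 y) =
      (∫ y, f1 y) + (∫ y, f2 y) + (∫ y, f3 y) + (∫ y, f4 y) := by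
  have h12 : Integrable (fun y => f1 y + f2 y) := h1.add h2
  have h123 : Integrable (fun y => f1 y + f2 y + f3 y) := h12.add h3
  refine ⟨h123.add h4, ?_⟩
  rw [integral_add h123 h4, integral_add h12 h3, integral_add h1 h2]

/-- Gaussian integrals of the bound. -/
lemma Bd_int {C : ℝ} (hC : 0 ≤ C) {lam : ℝ} (hl : 0 < lam) (hl1 : lam ≤ 1) {s : ℂ}
    (hs : 0 < ‖s‖) (hx : 1 ≤ xx s) :
    Integrable (fun y : ℝ => Bd C s y * gau lam y) ∧
    ∫ y : ℝ, Bd C s y * gau lam y ≤ 10 ^ 12 * (1 + C) *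
      (Real.exp (-(3 / 4) * xx s) + Real.exp (14 * xx s - lam * xx s ^ 2) +
        Real.exp (-(lam * xx s))) * Real.exp (lam * xx s ^ 2) := by
  have h16 := norm_big hs hx
  have hn := norm_s hs
  set x : ℝ := xx s with hxdef
  set n : ℝ := ‖s‖ with hndef
  have hq0 : 0 ≤ 2 / n := by positivity
  have hq1 : 8 * (2 / n) ≤ 1 := by
    rw [← mul_div_assoc, div_le_one hs]
    linarith
  have hq2 : 4 * lam * (2 / n) < 1 := by nlinarith
  obtain ⟨i1, j1⟩ := gau_int hl hq2 (x + 1 / 8)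
  obtain ⟨i2, j2⟩ := gau_int hl hq2 (1 / 8)
  obtain ⟨i3, j3⟩ := gau_int hl (q := 0) (by norm_num) (x - 1 / 2)
  obtain ⟨i4, j4⟩ := gau_int hl (q := 0) (by norm_num) 0
  have e : (fun y : ℝ => Bd C s y * gau lam y) = fun y : ℝ =>
      2048 * (1 + C) / n * (Real.exp ((x + 1 / 8) * y + 2 / n * y ^ 2) * gau lam y) +
      2048 * C * n ^ 7 * Real.exp (6 * x) * (Real.exp ((1 / 8) * y + 2 / n * y ^ 2) * gau lam y) +
      C * (Real.exp ((x - 1 / 2) * y + 0 * y ^ 2) * gau lam y) +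
      C * n ^ 8 * Real.exp (6 * x) * (Real.exp (0 * y + 0 * y ^ 2) * gau lam y) := by
    funext y
    unfold Bd
    ring
  have k1 := i1.const_mul (2048 * (1 + C) / n)
  have k2 := i2.const_mul (2048 * C * n ^ 7 * Real.exp (6 * x))
  have k3 := i3.const_mul C
  have k4 := i4.const_mul (C * n ^ 8 * Real.exp (6 * x))
  obtain ⟨m1, m2⟩ := int4 k1 k2 k3 k4
  rw [e]
  refine ⟨m1, ?_⟩
  rw [m2, integral_const_mul, integral_const_mul, integral_const_mul, integral_const_mul, j1, j2, j3, j4]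
  have b1 := J_le hl hl1 hq0 hq1 (x + 1 / 8)
  have b2 := J_le hl hl1 hq0 hq1 (1 / 8)
  have e3 : (√(1 - 4 * lam * 0))⁻¹ * Real.exp (lam * (x - 1 / 2) ^ 2 / (1 - 4 * lam * 0)) =
      Real.exp (lam * (x - 1 / 2) ^ 2) := by simp
  have e4 : (√(1 - 4 * lam * 0))⁻¹ * Real.exp (lam * 0 ^ 2 / (1 - 4 * lam * 0)) = 1 := by simp
  rw [e3, e4]
  have hpi3 := Real.pi_gt_three
  have hpi4 : Real.pi ≤ 3.15 := Real.pi_lt_d2.le
  have hex0 := Real.exp_pos x
  have hn6 : 6 * Real.exp x ≤ n := by rw [hn]; nlinarith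
  have hn7 : n ≤ 7 * Real.exp x := by rw [hn]; nlinarith
  have he : Real.exp 1 ≤ 3 := by
    have := Real.exp_one_lt_d9
    linarith
  -- first term
  have t1 : 2048 * (1 + C) / n * ((√(1 - 4 * lam * (2 / n)))⁻¹ *
      Real.exp (lam * (x + 1 / 8) ^ 2 / (1 - 4 * lam * (2 / n)))) ≤
      10 ^ 7 * (1 + C) * (Real.exp (-(3 / 4) * x) * Real.exp (lam * x ^ 2)) := by
    have h1 : 8 * (2 / n) * (x + 1 / 8) ^ 2 ≤ 6 := by
      have h2 := Real.quadratic_le_exp_of_nonneg (show 0 ≤ x by linarith)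
      rw [← mul_div_assoc, div_mul_eq_mul_div, div_le_iff₀ hs]
      nlinarith
    have h2 : lam * (x + 1 / 8) ^ 2 + 8 * (2 / n) * (x + 1 / 8) ^ 2 ≤ lam * x ^ 2 + x / 4 + 7 := by
      nlinarith
    have h3 : Real.exp (lam * (x + 1 / 8) ^ 2 + 8 * (2 / n) * (x + 1 / 8) ^ 2) ≤
        2187 * (Real.exp (x / 4) * Real.exp (lam * x ^ 2)) := by
      refine (Real.exp_le_exp.2 h2).trans ?_
      have h4 : Real.exp (lam * x ^ 2 + x / 4 + 7) =
          Real.exp 1 ^ 7 * (Real.exp (x / 4) * Real.exp (lam * x ^ 2)) := by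
        rw [← Real.exp_nat_mul, ← Real.exp_add, ← Real.exp_add]
        congr 1
        push_cast
        ring
      rw [h4]
      refine mul_le_mul_of_nonneg_right ?_ (by positivity)
      calc Real.exp 1 ^ 7 ≤ 3 ^ 7 := pow_le_pow_left₀ (Real.exp_pos _).le he 7
        _ = 2187 := by norm_num
    have h5 : 2048 * (1 + C) / n ≤ 2048 * (1 + C) / (6 * Real.exp x) :=
      div_le_div_of_nonneg_left (by positivity) (by positivity) hn6
    calc 2048 * (1 + C) / n * ((√(1 - 4 * lam * (2 / n)))⁻¹ *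
          Real.exp (lam * (x + 1 / 8) ^ 2 / (1 - 4 * lam * (2 / n))))
        ≤ 2048 * (1 + C) / (6 * Real.exp x) *
          (2 * (2187 * (Real.exp (x / 4) * Real.exp (lam * x ^ 2)))) := by
          refine mul_le_mul h5 (b1.trans (mul_le_mul_of_nonneg_left h3 (by norm_num))) (by positivity)
            (by positivity)
      _ = (2048 * 2 * 2187 / 6) * (1 + C) * ((Real.exp (x / 4) / Real.exp x) *
          Real.exp (lam * x ^ 2)) := by
          field_simp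
      _ = (2048 * 2 * 2187 / 6) * (1 + C) * (Real.exp (-(3 / 4) * x) * Real.exp (lam * x ^ 2)) := by
          rw [← Real.exp_sub]
          congr 4
          ring
      _ ≤ _ := by
          have h6 : 0 ≤ (1 + C) * (Real.exp (-(3 / 4) * x) * Real.exp (lam * x ^ 2)) := by positivity
          nlinarith
  have hX : Real.exp (14 * x) = Real.exp (14 * x - lam * x ^ 2) * Real.exp (lam * x ^ 2) := by
    rw [← Real.exp_add]
    congr 1
    ring
  have t2 : 2048 * C * n ^ 7 * Real.exp (6 * x) * ((√(1 - 4 * lam * (2 / n)))⁻¹ *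
      Real.exp (lam * (1 / 8) ^ 2 / (1 - 4 * lam * (2 / n)))) ≤ 10 ^ 11 * C * Real.exp (14 * x) := by
    have h1 : Real.exp (lam * (1 / 8) ^ 2 + 8 * (2 / n) * (1 / 8) ^ 2) ≤ 3 := by
      refine (Real.exp_le_exp.2 ?_).trans he
      nlinarith
    have h2 : n ^ 7 ≤ (7 * Real.exp x) ^ 7 := pow_le_pow_left₀ hs.le hn7 7
    calc 2048 * C * n ^ 7 * Real.exp (6 * x) * ((√(1 - 4 * lam * (2 / n)))⁻¹ *
          Real.exp (lam * (1 / 8) ^ 2 / (1 - 4 * lam * (2 / n))))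
        ≤ 2048 * C * (7 * Real.exp x) ^ 7 * Real.exp (6 * x) * (2 * 3) := by
          refine mul_le_mul ?_ (b2.trans (mul_le_mul_of_nonneg_left h1 (by norm_num)))
            (by positivity) (by positivity)
          gcongr
      _ = (2048 * 7 ^ 7 * 6) * C * (Real.exp x ^ 7 * Real.exp (6 * x)) := by ring
      _ = (2048 * 7 ^ 7 * 6) * C * Real.exp (13 * x) := by
          rw [← Real.exp_nat_mul, ← Real.exp_add]
          congr 2
          push_cast
          ring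
      _ ≤ 10 ^ 11 * C * Real.exp (14 * x) := by
          have h3 : Real.exp (13 * x) ≤ Real.exp (14 * x) := Real.exp_le_exp.2 (by linarith)
          have h4 := Real.exp_pos (13 * x)
          refine mul_le_mul ?_ h3 h4.le (by positivity)
          nlinarith
  have t3 : C * Real.exp (lam * (x - 1 / 2) ^ 2) ≤
      3 * C * (Real.exp (-(lam * x)) * Real.exp (lam * x ^ 2)) := by
    have h1 : Real.exp (lam * (x - 1 / 2) ^ 2) ≤ 3 * (Real.exp (-(lam * x)) * Real.exp (lam * x ^ 2)) := by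
      calc Real.exp (lam * (x - 1 / 2) ^ 2) ≤ Real.exp (1 + (-(lam * x) + lam * x ^ 2)) := by
            apply Real.exp_le_exp.2
            nlinarith
        _ = Real.exp 1 * (Real.exp (-(lam * x)) * Real.exp (lam * x ^ 2)) := by
            rw [Real.exp_add, Real.exp_add]
        _ ≤ _ := mul_le_mul_of_nonneg_right he (by positivity)
    nlinarith
  have t4 : C * n ^ 8 * Real.exp (6 * x) * 1 ≤ 10 ^ 7 * C * Real.exp (14 * x) := by
    have h2 : n ^ 8 ≤ (7 * Real.exp x) ^ 8 := pow_le_pow_left₀ hs.le hn7 8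
    calc C * n ^ 8 * Real.exp (6 * x) * 1 ≤ C * (7 * Real.exp x) ^ 8 * Real.exp (6 * x) * 1 := by
          gcongr
      _ = 7 ^ 8 * C * (Real.exp x ^ 8 * Real.exp (6 * x)) := by ring
      _ = 7 ^ 8 * C * Real.exp (14 * x) := by
          rw [← Real.exp_nat_mul, ← Real.exp_add]
          congr 2
          push_cast
          ring
      _ ≤ _ := by
          have h3 : 0 ≤ C * Real.exp (14 * x) := by positivity
          nlinarith
  rw [hX] at t2 t4
  set a : ℝ := Real.exp (-(3 / 4) * x) * Real.exp (lam * x ^ 2) with ha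
  set b : ℝ := Real.exp (14 * x - lam * x ^ 2) * Real.exp (lam * x ^ 2) with hb
  set c : ℝ := Real.exp (-(lam * x)) * Real.exp (lam * x ^ 2) with hc
  have ha0 : 0 ≤ a := by positivity
  have hb0 : 0 ≤ b := by positivity
  have hc0 : 0 ≤ c := by positivity
  have e5 : 10 ^ 12 * (1 + C) * (Real.exp (-(3 / 4) * x) + Real.exp (14 * x - lam * x ^ 2) +
      Real.exp (-(lam * x))) * Real.exp (lam * x ^ 2) = 10 ^ 12 * (1 + C) * (a + b + c) := by
    rw [ha, hb, hc]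
    ring
  rw [e5]
  have z1 : 0 ≤ (1 + C) * a := by positivity
  have z2 : 0 ≤ C * b := by positivity
  have z3 : 0 ≤ C * c := by positivity
  nlinarith

end Pool.Agent.Helper36.XD
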