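import Pool.Agent.Helper36.XD7

set_option autoImplicit false

/-! # Asymptotics of one half of the heat flow: the theorem -/

namespace Pool.Agent.Helper36.XD

open Complex MeasureTheory Filter Topology Set

/-- The error function. -/
noncomputable def Er (D lam x : ℝ) : ℝ :=
  D * (Real.exp (-(3 / 4) * x) + Real.exp (14 * x - lam * x ^ 2) + Real.exp (-(lam * x)))

theorem Ah_asym : ∃ D : ℝ, 1 ≤ D ∧ ∀ lam : ℝ, 0 < lam → lam ≤ 1 → ∀ s : ℂ, 2 ≤ s.re → 1 ≤ xx s →
    ‖Ah lam s - PP s * cexp (lam * ell s ^ 2)‖ ≤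
      ‖PP s‖ * (Er D lam (xx s) * Real.exp (lam * xx s ^ 2)) ∧
    Integrable (fun y : ℝ => Lam (s + y) * (hg lam y : ℂ)) ∧
    ∫ y : ℝ, ‖Lam (s + y) * (hg lam y : ℂ)‖ ≤
      ‖PP s‖ * ((1 + Er D lam (xx s)) * Real.exp (lam * xx s ^ 2)) := by
  obtain ⟨C, hC, hL⟩ := Ld_bound2
  refine ⟨10 ^ 12 * (1 + C) + 1, by nlinarith, fun lam hl hl1 s hs hx => ?_⟩
  have hpos : 0 < ‖s‖ := by
    have := abs_re_le_norm s
    have h3 := le_abs_self s.re
    linarith
  obtain ⟨hB1, hB2⟩ := Bd_int hC hl hl1 hpos hx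
  set x : ℝ := xx s with hxdef
  have hmeasL : AEStronglyMeasurable (fun y : ℝ => Lam (s + y) * (hg lam y : ℂ)) volume := by
    have h1 : Continuous (fun y : ℝ => Lam (s + y)) := by
      have := Lam_differentiable.continuous
      exact this.comp (by fun_prop)
    exact h1.aestronglyMeasurable.mul (hg_meas' lam)
  have hIm : Integrable (fun y : ℝ => cexp (ell s * y) * (hg lam y : ℂ)) := by
    have := (Dec_hg hl).integrable (hg_meas' lam) (ell s)
    refine this.congr (ae_of_all _ fun y => ?_)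
    simp only
    ring
  have hBd0 : ∀ y : ℝ, 0 ≤ Bd C s y := by
    intro y
    unfold Bd
    positivity
  have hpt : ∀ y : ℝ, ‖Lam (s + y) * (hg lam y : ℂ) - PP s * (cexp (ell s * y) * (hg lam y : ℂ))‖ ≤
      ‖PP s‖ * (Bd C s y * gau lam y) := by
    intro y
    rcases le_or_gt y 0 with hy | hy
    · have h0 : hg lam y = 0 := indicator_of_notMem (by simpa using hy) _
      rw [h0]
      simp only [ofReal_zero, mul_zero, sub_zero, norm_zero]
      have := hBd0 y
      have h2 := gau_nonneg lam y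
      positivity
    · rw [Lam_Fq (by linarith) hy.le, mul_assoc, ← mul_sub, ← sub_mul, norm_mul, norm_mul, norm_real,
        Real.norm_eq_abs, abs_of_nonneg (hg_nonneg _ _)]
      refine mul_le_mul_of_nonneg_left ?_ (norm_nonneg _)
      exact mul_le_mul (Fq_bound hC hL hs hx hy.le) (hg_le _ _) (hg_nonneg _ _) (hBd0 y)
  have hdiffInt : Integrable (fun y : ℝ => Lam (s + y) * (hg lam y : ℂ) -
      PP s * (cexp (ell s * y) * (hg lam y : ℂ))) :=
    (hB1.const_mul ‖PP s‖).mono' (hmeasL.sub (hIm.aestronglyMeasurable.const_mul _)) (ae_of_all _ hpt)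
  have hInt : Integrable (fun y : ℝ => Lam (s + y) * (hg lam y : ℂ)) := by
    have h1 := hdiffInt.add (hIm.const_mul (PP s))
    refine h1.congr (ae_of_all _ fun y => ?_)
    simp only [Pi.add_apply, sub_add_cancel]
  have hE0 : (1 : ℝ) ≤ Real.exp (14 * x - lam * x ^ 2) * Real.exp (lam * x ^ 2) := by
    rw [← Real.exp_add]
    apply Real.one_le_exp
    linarith
  have hW : 10 ^ 12 * (1 + C) * (Real.exp (-(3 / 4) * x) + Real.exp (14 * x - lam * x ^ 2) +
      Real.exp (-(lam * x))) * Real.exp (lam * x ^ 2) + 1 ≤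
      Er (10 ^ 12 * (1 + C) + 1) lam x * Real.exp (lam * x ^ 2) := by
    unfold Er
    have h1 := Real.exp_pos (-(3 / 4) * x)
    have h2 := Real.exp_pos (-(lam * x))
    have h3 := Real.exp_pos (lam * x ^ 2)
    nlinarith [mul_pos h1 h3, mul_pos h2 h3]
  have hxn : ∀ y : ℝ, ‖cexp (ell s * y)‖ = Real.exp (x * y) := by
    intro y
    rw [Complex.norm_exp, mul_re, ofReal_re, ofReal_im, mul_zero, sub_zero, ell_re]
  refine ⟨?_, hInt, ?_⟩
  · have h1 : Ah lam s - PP s * cexp (lam * ell s ^ 2) =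
        (∫ y : ℝ, (Lam (s + y) * (hg lam y : ℂ) - PP s * (cexp (ell s * y) * (hg lam y : ℂ)))) -
        PP s * ∫ y : ℝ, cexp (ell s * y) * ((gau lam y - hg lam y : ℝ) : ℂ) := by
      have h2 : ∫ y : ℝ, cexp (ell s * y) * ((gau lam y - hg lam y : ℝ) : ℂ) =
          cexp (lam * ell s ^ 2) - ∫ y : ℝ, cexp (ell s * y) * (hg lam y : ℂ) := by
        rw [← gau_cint hl, ← integral_sub (gau_cintegrable hl _) hIm]
        refine integral_congr_ae (ae_of_all _ fun y => ?_)
        simp only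
        push_cast
        ring
      rw [h2, integral_sub hInt (hIm.const_mul _), integral_const_mul, Ah_eq hl]
      ring
    rw [h1]
    have h3 : ‖∫ y : ℝ, (Lam (s + y) * (hg lam y : ℂ) - PP s * (cexp (ell s * y) * (hg lam y : ℂ)))‖ ≤
        ‖PP s‖ * ∫ y : ℝ, Bd C s y * gau lam y := by
      rw [← integral_const_mul]
      exact norm_integral_le_of_norm_le (hB1.const_mul _) (ae_of_all _ hpt)
    have h4 : ‖∫ y : ℝ, cexp (ell s * y) * ((gau lam y - hg lam y : ℝ) : ℂ)‖ ≤ 1 := by
      obtain ⟨g1, g2⟩ := gau_int hl (q := 0) (by norm_num) 0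
      have e1 : (√(1 - 4 * lam * 0))⁻¹ * Real.exp (lam * 0 ^ 2 / (1 - 4 * lam * 0)) = 1 := by simp
      rw [e1] at g2
      rw [← g2]
      refine norm_integral_le_of_norm_le g1 (ae_of_all _ fun y => ?_)
      rw [norm_mul, hxn, norm_real, Real.norm_eq_abs]
      have hg0 := gau_nonneg lam y
      rcases le_or_gt y 0 with hy | hy
      · have h0 : hg lam y = 0 := indicator_of_notMem (by simpa using hy) _
        rw [h0, sub_zero, abs_of_nonneg hg0]
        refine mul_le_mul_of_nonneg_right (Real.exp_le_exp.2 ?_) hg0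
        nlinarith
      · have h0 : hg lam y = gau lam y := indicator_of_mem (by simpa using hy) _
        rw [h0, sub_self, abs_zero, mul_zero]
        positivity
    calc _ ≤ ‖PP s‖ * (∫ y : ℝ, Bd C s y * gau lam y) + ‖PP s‖ * 1 := by
          refine (norm_sub_le _ _).trans (add_le_add h3 ?_)
          rw [norm_mul]
          exact mul_le_mul_of_nonneg_left h4 (norm_nonneg _)
      _ = ‖PP s‖ * ((∫ y : ℝ, Bd C s y * gau lam y) + 1) := by ring
      _ ≤ _ := mul_le_mul_of_nonneg_left (le_trans (add_le_add hB2 le_rfl) hW) (norm_nonneg _)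
  · have g1 := (gau_int hl (q := 0) (by norm_num) x)
    have e1 : (√(1 - 4 * lam * 0))⁻¹ * Real.exp (lam * x ^ 2 / (1 - 4 * lam * 0)) =
      Real.exp (lam * x ^ 2) := by simp
    rw [e1] at g1
    have h5 : ∫ y : ℝ, ‖Lam (s + y) * (hg lam y : ℂ)‖ ≤
        ∫ y : ℝ, (‖PP s‖ * (Bd C s y * gau lam y) +
          ‖PP s‖ * (Real.exp (x * y + 0 * y ^ 2) * gau lam y)) := by
      refine integral_mono hInt.norm ((hB1.const_mul _).add (g1.1.const_mul _)) fun y => ?_
      simp only
      have h6 := norm_add_le (Lam (s + y) * (hg lam y : ℂ) - PP s * (cexp (ell s * y) * (hg lam y : ℂ)))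
        (PP s * (cexp (ell s * y) * (hg lam y : ℂ)))
      rw [sub_add_cancel] at h6
      refine h6.trans (add_le_add (hpt y) ?_)
      rw [norm_mul, norm_mul, hxn, norm_real, Real.norm_eq_abs, abs_of_nonneg (hg_nonneg _ _)]
      refine mul_le_mul_of_nonneg_left ?_ (norm_nonneg _)
      rw [zero_mul, add_zero]
      exact mul_le_mul_of_nonneg_left (hg_le _ _) (Real.exp_pos _).le
    refine h5.trans ?_
    rw [integral_add (hB1.const_mul _) (g1.1.const_mul _), integral_const_mul, integral_const_mul, g1.2,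
      ← mul_add]
    refine mul_le_mul_of_nonneg_left ?_ (norm_nonneg _)
    have h7 := le_trans (add_le_add hB2 (le_refl (1 : ℝ))) hW
    rw [add_mul, one_mul]
    linarith

end Pool.Agent.Helper36.XD
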