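import Pool.Agent.Helper36.XD8
import Pool.Graph.R_seed8.H382R2.Digamma

set_option autoImplicit false

/-! # The logarithmic derivative of one half of the heat flow -/

namespace Pool.Agent.Helper36.XD

open Complex MeasureTheory Filter Topology Set

lemma Er_small {D : ℝ} (hD : 1 ≤ D) : ∀ lam x : ℝ, 0 < lam → lam ≤ 1 →
    (15 + 12000 * D) / lam ≤ x → Er D lam x ≤ 1 / 2000 := by
  intro lam x hl hl1 hx
  set K : ℝ := 15 + 12000 * D with hK
  have hlx : K ≤ lam * x := by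
    rw [div_le_iff₀ hl] at hx
    linarith
  have hxK : K ≤ x := by
    have hx0 : 0 ≤ x := by
      by_contra h
      push Not at h
      nlinarith
    nlinarith
  have h1 : Real.exp (-(K / 2)) ≤ 2 / K := by
    have h2 := Real.add_one_le_exp (K / 2)
    rw [Real.exp_neg, ← one_div, div_le_div_iff₀ (Real.exp_pos _) (by linarith)]
    linarith
  have e1 : Real.exp (-(3 / 4) * x) ≤ Real.exp (-(K / 2)) := Real.exp_le_exp.2 (by linarith)
  have e2 : Real.exp (14 * x - lam * x ^ 2) ≤ Real.exp (-(K / 2)) := by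
    apply Real.exp_le_exp.2
    nlinarith
  have e3 : Real.exp (-(lam * x)) ≤ Real.exp (-(K / 2)) := Real.exp_le_exp.2 (by linarith)
  unfold Er
  have h3 : Real.exp (-(3 / 4) * x) + Real.exp (14 * x - lam * x ^ 2) + Real.exp (-(lam * x)) ≤
      3 * (2 / K) := by linarith
  have h4 : D * (3 * (2 / K)) ≤ 1 / 2000 := by
    have : D * (3 * (2 / K)) = 6 * D / K := by ring
    rw [this, div_le_iff₀ (by linarith)]
    linarith
  exact (mul_le_mul_of_nonneg_left h3 (by linarith)).trans h4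

lemma PP_ne {s : ℂ} (hs : 0 < s.re) : PP s ≠ 0 :=
  mul_ne_zero ((cpow_ne_zero_iff (y := -s)).mpr (Or.inl twopi_ne)) (Gamma_ne_zero_of_re_pos hs)

/-- The main term. -/
noncomputable def MM (lam : ℝ) (s : ℂ) : ℂ := PP s * cexp (lam * ell s ^ 2)

lemma MM_ne {lam : ℝ} {s : ℂ} (hs : 0 < s.re) : MM lam s ≠ 0 := mul_ne_zero (PP_ne hs) (Complex.exp_ne_zero _)

lemma norm_cexp_ge {lam : ℝ} (hl : 0 < lam) (hl1 : lam ≤ 1) {s : ℂ} (hs : 0 ≤ s.re) :
    Real.exp (lam * xx s ^ 2) ≤ 12 * ‖cexp (lam * ell s ^ 2)‖ := by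
  rw [Complex.norm_exp]
  have e : ((lam : ℂ) * ell s ^ 2).re = lam * xx s ^ 2 - lam * s.arg ^ 2 := by
    have h1 : (ell s).im = s.arg := by
      unfold ell
      rw [sub_im, log_im, ofReal_im, sub_zero]
    rw [sq, ← ell_re]
    simp only [mul_re, ofReal_re, ofReal_im, zero_mul, sub_zero, h1]
    ring
  rw [e, Real.exp_sub]
  have h2 : |s.arg| ≤ Real.pi / 2 := abs_arg_le_pi_div_two_iff.2 hs
  have h3 : s.arg ^ 2 ≤ (Real.pi / 2) ^ 2 := by
    rw [← sq_abs]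
    exact pow_le_pow_left₀ (abs_nonneg _) h2 2
  have hpi : Real.pi ≤ 3.15 := Real.pi_lt_d2.le
  have hpi0 := Real.pi_pos
  have h4 : lam * s.arg ^ 2 ≤ 2.4807 := by nlinarith [sq_nonneg s.arg]
  have h5 : Real.exp (lam * s.arg ^ 2) ≤ 12 := by
    refine (Real.exp_le_exp.2 h4).trans ?_
    have h6 : Real.exp 2.4807 = Real.exp 1 ^ 2 * Real.exp 0.4807 := by
      rw [← Real.exp_nat_mul, ← Real.exp_add]
      norm_num
    rw [h6]
    have h7 := Real.exp_one_lt_d9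
    have h8 : Real.exp 0.4807 ≤ 1.62 := by
      have := Real.exp_bound' (x := 0.4807) (by norm_num) (by norm_num) (n := 5) (by norm_num)
      refine this.trans ?_
      norm_num [Finset.sum_range_succ, Nat.factorial]
    have h9 := Real.exp_pos 1
    have h10 : Real.exp 1 ^ 2 ≤ 7.39 := by nlinarith
    nlinarith [Real.exp_pos 0.4807]
  rw [mul_div_assoc', le_div_iff₀ (Real.exp_pos _), mul_comm]
  exact mul_le_mul_of_nonneg_right h5 (Real.exp_pos _).le

theorem Ah_ratio : ∃ K : ℝ, 1 ≤ K ∧ ∀ lam : ℝ, 0 < lam → lam ≤ 1 → ∀ s : ℂ, 2 ≤ s.re →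
    K / lam ≤ xx s →
    ‖Ah lam s / MM lam s - 1‖ ≤ 1 / 100 ∧
    ‖PP s‖ * Real.exp (lam * xx s ^ 2) ≤ 13 * ‖Ah lam s‖ ∧
    Integrable (fun y : ℝ => Lam (s + y) * (hg lam y : ℂ)) ∧
    ∫ y : ℝ, ‖Lam (s + y) * (hg lam y : ℂ)‖ ≤ 2 * (‖PP s‖ * Real.exp (lam * xx s ^ 2)) := by
  obtain ⟨D, hD, h⟩ := Ah_asym
  refine ⟨15 + 12000 * D, by linarith, fun lam hl hl1 s hs hx => ?_⟩
  have hx1 : 1 ≤ xx s := by
    have h2 : (15 + 12000 * D) ≤ (15 + 12000 * D) / lam := by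
      rw [le_div_iff₀ hl]
      nlinarith
    linarith
  obtain ⟨h1, h2, h3⟩ := h lam hl hl1 s hs hx1
  have hE := Er_small hD lam (xx s) hl hl1 hx
  have hM := MM_ne (lam := lam) (by linarith : 0 < s.re)
  have hP := norm_pos_iff.2 (PP_ne (by linarith : 0 < s.re))
  have hMn : ‖MM lam s‖ = ‖PP s‖ * ‖cexp (lam * ell s ^ 2)‖ := norm_mul _ _
  have h12 := norm_cexp_ge hl hl1 (by linarith : 0 ≤ s.re)
  have hEx := Real.exp_pos (lam * xx s ^ 2)
  have h4 : ‖Ah lam s - MM lam s‖ ≤ ‖PP s‖ * (1 / 2000 * Real.exp (lam * xx s ^ 2)) :=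
    h1.trans (mul_le_mul_of_nonneg_left (mul_le_mul_of_nonneg_right hE hEx.le) hP.le)
  have h5 : ‖Ah lam s - MM lam s‖ ≤ 1 / 100 * ‖MM lam s‖ := by
    rw [hMn]
    nlinarith [mul_le_mul_of_nonneg_left h12 hP.le]
  have hMpos := norm_pos_iff.2 hM
  refine ⟨?_, ?_, h2, ?_⟩
  · have e : Ah lam s / MM lam s - 1 = (Ah lam s - MM lam s) / MM lam s := by
      rw [sub_div, div_self hM]
    rw [e, norm_div, div_le_iff₀ hMpos]
    exact h5
  · have h6 : 99 / 100 * ‖MM lam s‖ ≤ ‖Ah lam s‖ := by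
      have := norm_sub_norm_le (MM lam s) (MM lam s - Ah lam s)
      rw [sub_sub_cancel, norm_sub_rev] at this
      linarith
    have h7 : ‖PP s‖ * Real.exp (lam * xx s ^ 2) ≤ 12 * ‖MM lam s‖ := by
      rw [hMn]
      nlinarith [mul_le_mul_of_nonneg_left h12 hP.le]
    linarith
  · refine h3.trans ?_
    have h8 : (1 + Er D lam (xx s)) * Real.exp (lam * xx s ^ 2) ≤ 2 * Real.exp (lam * xx s ^ 2) :=
      mul_le_mul_of_nonneg_right (by linarith) hEx.le
    calc _ ≤ ‖PP s‖ * (2 * Real.exp (lam * xx s ^ 2)) := mul_le_mul_of_nonneg_left h8 hP.le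
      _ = _ := by ring

end Pool.Agent.Helper36.XD
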