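import Mathlib

set_option autoImplicit false

/-! # Limits of real polynomials with zeros in a horizontal strip -/

namespace Pool.Agent.Helper36.YD

open Complex Filter Topology Set Polynomial

/-- A complex polynomial which is real on the real axis. -/
def RealP (p : ℂ[X]) : Prop := ∀ w : ℂ, p.eval ((starRingEnd ℂ) w) = (starRingEnd ℂ) (p.eval w)

/-- Nonzero real polynomials with all zeros in the strip `|im z| ≤ D`. -/
def InP (D : ℝ) (p : ℂ[X]) : Prop := p ≠ 0 ∧ RealP p ∧ ∀ w : ℂ, p.eval w = 0 → |w.im| ≤ D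

/-- Locally uniform limits of such polynomials. -/
def InL (D : ℝ) (f : ℂ → ℂ) : Prop :=
  ∀ R e : ℝ, 0 < e → ∃ p : ℂ[X], InP D p ∧ ∀ z : ℂ, ‖z‖ ≤ R → ‖p.eval z - f z‖ ≤ e

lemma eval_prod (p : ℂ[X]) (w : ℂ) :
    p.eval w = p.leadingCoeff * (p.roots.map fun a => w - a).prod := by
  have h := IsAlgClosed.splits p
  conv_lhs => rw [h.eq_prod_roots]
  rw [eval_mul, eval_C, eval_multiset_prod, Multiset.map_map]
  congr 2
  refine Multiset.map_congr rfl fun a _ => ?_
  simp

lemma norm_eval (p : ℂ[X]) (w : ℂ) :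
    ‖p.eval w‖ = ‖p.leadingCoeff‖ * (p.roots.map fun a => ‖w - a‖).prod := by
  rw [eval_prod, norm_mul]
  congr 1
  generalize p.roots = S
  induction S using Multiset.induction_on with
  | empty => simp
  | cons a s ih =>
    rw [Multiset.map_cons, Multiset.prod_cons, Multiset.map_cons, Multiset.prod_cons, norm_mul, ih]

lemma norm_eval_sq {p : ℂ[X]} (hp : RealP p) (w : ℂ) :
    ‖p.eval w‖ ^ 2 = ‖p.leadingCoeff‖ ^ 2 *
      (p.roots.map fun a => ‖w - a‖ * ‖w - (starRingEnd ℂ) a‖).prod := by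
  have h1 : ‖p.eval ((starRingEnd ℂ) w)‖ = ‖p.eval w‖ := by rw [hp w, norm_conj]
  have h2 : ‖p.eval w‖ ^ 2 = ‖p.eval w‖ * ‖p.eval ((starRingEnd ℂ) w)‖ := by rw [h1, sq]
  rw [h2, norm_eval, norm_eval, Multiset.prod_map_mul]
  have h3 : (p.roots.map fun a => ‖(starRingEnd ℂ) w - a‖) =
      p.roots.map fun a => ‖w - (starRingEnd ℂ) a‖ := by
    refine Multiset.map_congr rfl fun a _ => ?_
    rw [← norm_conj, map_sub, Complex.conj_conj]
  rw [h3]
  ring

/-- The comparison for a pair of conjugate zeros. -/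
lemma pair_lt {z a : ℂ} {h : ℝ} (hh : 0 < h) (hz : 0 < z.im) (hb : a.im ^ 2 < z.im ^ 2 + h ^ 2) :
    ‖z - I * h - a‖ * ‖z - I * h - (starRingEnd ℂ) a‖ <
      ‖z + I * h - a‖ * ‖z + I * h - (starRingEnd ℂ) a‖ := by
  have e : ∀ w : ℂ, (‖w - a‖ * ‖w - (starRingEnd ℂ) a‖) ^ 2 =
      ((w.re - a.re) ^ 2 + (w.im - a.im) ^ 2) * ((w.re - a.re) ^ 2 + (w.im + a.im) ^ 2) := by
    intro w
    rw [mul_pow, Complex.sq_norm, Complex.sq_norm, normSq_apply, normSq_apply]
    simp only [sub_re, sub_im, conj_re, conj_im]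
    ring
  refine lt_of_pow_lt_pow_left₀ 2 (by positivity) ?_
  rw [e, e]
  have h1 : (z - I * h).re = z.re := by simp
  have h2 : (z - I * h).im = z.im - h := by simp
  have h3 : (z + I * h).re = z.re := by simp
  have h4 : (z + I * h).im = z.im + h := by simp
  rw [h1, h2, h3, h4]
  have h5 : 0 < z.im * h := mul_pos hz hh
  nlinarith [mul_pos h5 (show 0 < (z.re - a.re) ^ 2 + z.im ^ 2 + h ^ 2 - a.im ^ 2 by
    nlinarith [sq_nonneg (z.re - a.re)])]

lemma prod_le_aux {S : Multiset ℂ} {f g : ℂ → ℝ} (hf : ∀ a ∈ S, 0 ≤ f a) (h : ∀ a ∈ S, f a < g a) :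
    0 ≤ (S.map f).prod ∧ (S.map f).prod ≤ (S.map g).prod ∧ (S ≠ 0 → (S.map f).prod < (S.map g).prod) := by
  induction S using Multiset.induction_on with
  | empty => simp
  | cons a s ih =>
    obtain ⟨i0, i1, -⟩ := ih (fun b hb => hf b (Multiset.mem_cons_of_mem hb))
      (fun b hb => h b (Multiset.mem_cons_of_mem hb))
    have ha := hf a (Multiset.mem_cons_self a s)
    have hb := h a (Multiset.mem_cons_self a s)
    have hg : 0 < (s.map g).prod := by
      refine Multiset.prod_pos fun x hx => ?_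
      obtain ⟨b, hb, rfl⟩ := Multiset.mem_map.1 hx
      exact (hf b (Multiset.mem_cons_of_mem hb)).trans_lt (h b (Multiset.mem_cons_of_mem hb))
    rw [Multiset.map_cons, Multiset.prod_cons, Multiset.map_cons, Multiset.prod_cons]
    have hlt : f a * (s.map f).prod < g a * (s.map g).prod :=
      calc f a * (s.map f).prod ≤ f a * (s.map g).prod := mul_le_mul_of_nonneg_left i1 ha
        _ < g a * (s.map g).prod := mul_lt_mul_of_pos_right hb hg
    exact ⟨mul_nonneg ha i0, hlt.le, fun _ => hlt⟩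

/-- The symmetric shift of a polynomial. -/
noncomputable def shp (h : ℝ) (p : ℂ[X]) : ℂ[X] :=
  C (1 / 2) * (p.comp (X + C (I * h)) + p.comp (X - C (I * h)))

lemma shp_eval (h : ℝ) (p : ℂ[X]) (z : ℂ) :
    (shp h p).eval z = (p.eval (z + I * h) + p.eval (z - I * h)) / 2 := by
  unfold shp
  simp only [eval_mul, eval_C, eval_add, eval_comp, eval_X, eval_sub]
  ring

lemma shp_real (h : ℝ) {p : ℂ[X]} (hp : RealP p) : RealP (shp h p) := by
  intro w
  rw [shp_eval, shp_eval, map_div₀, map_add, ← hp, ← hp, map_add, map_sub, map_mul, conj_I, conj_ofReal,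
    map_ofNat]
  rw [add_comm]
  congr 3 <;> ring

/-- De Bruijn's inequality. -/
lemma shp_ne {h D : ℝ} (hh : 0 < h) {p : ℂ[X]} (hp : InP D p) {z : ℂ} (hz : 0 < z.im)
    (hD : D ^ 2 < z.im ^ 2 + h ^ 2) : (shp h p).eval z ≠ 0 := by
  obtain ⟨h0, hr, hs⟩ := hp
  rw [shp_eval]
  intro h1
  have h2 : p.eval (z + I * h) = -p.eval (z - I * h) := by
    have : p.eval (z + I * h) + p.eval (z - I * h) = 0 := by
      rw [div_eq_zero_iff] at h1
      rcases h1 with h1 | h1
      · exact h1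
      · norm_num at h1
    exact eq_neg_of_add_eq_zero_left this
  have h3 : ‖p.eval (z + I * h)‖ ^ 2 = ‖p.eval (z - I * h)‖ ^ 2 := by rw [h2, norm_neg]
  have hroot : ∀ a ∈ p.roots, a.im ^ 2 < z.im ^ 2 + h ^ 2 := by
    intro a ha
    have h4 := hs a ((mem_roots h0).1 ha)
    have h5 : a.im ^ 2 ≤ D ^ 2 := by
      rw [← sq_abs a.im]
      exact pow_le_pow_left₀ (abs_nonneg _) h4 2
    linarith
  have hl : 0 < ‖p.leadingCoeff‖ ^ 2 := by
    have := norm_pos_iff.2 (leadingCoeff_ne_zero.2 h0)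
    positivity
  obtain ⟨-, -, h6⟩ := prod_le_aux (S := p.roots)
    (f := fun a => ‖z - I * h - a‖ * ‖z - I * h - (starRingEnd ℂ) a‖)
    (g := fun a => ‖z + I * h - a‖ * ‖z + I * h - (starRingEnd ℂ) a‖)
    (fun a _ => by positivity) (fun a ha => pair_lt hh hz (hroot a ha))
  rcases eq_or_ne p.roots 0 with h7 | h7
  · have h8 : ∀ w : ℂ, p.eval w = p.leadingCoeff := by
      intro w
      rw [eval_prod, h7]
      simp
    rw [h8, h8] at h2
    have h9 : p.leadingCoeff = 0 := by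
      have : (2 : ℂ) * p.leadingCoeff = 0 := by linear_combination h2
      simpa using this
    exact leadingCoeff_ne_zero.2 h0 h9
  · have h8 := h6 h7
    rw [norm_eval_sq hr, norm_eval_sq hr] at h3
    have h9 := mul_lt_mul_of_pos_left h8 hl
    linarith

/-- The strip after a shift. -/
lemma shp_InP {h D D' : ℝ} (hh : 0 < h) (hD' : 0 ≤ D') (hDD : D ^ 2 ≤ D' ^ 2 + h ^ 2) {p : ℂ[X]}
    (hp : InP D p) : InP D' (shp h p) := by
  have key : ∀ z : ℂ, D' < z.im → (shp h p).eval z ≠ 0 := by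
    intro z hz
    refine shp_ne hh hp (by linarith) ?_
    have : D' ^ 2 < z.im ^ 2 := pow_lt_pow_left₀ hz hD' (by norm_num)
    linarith
  refine ⟨?_, shp_real h hp.2.1, fun w hw => ?_⟩
  · intro h0
    have := key (I * (D' + 1)) (by simp)
    rw [h0, eval_zero] at this
    exact this rfl
  · by_contra h1
    push Not at h1
    rcases abs_cases w.im with ⟨h2, _⟩ | ⟨h2, _⟩
    · exact key w (by linarith) hw
    · refine key ((starRingEnd ℂ) w) (by rw [conj_im]; linarith) ?_
      rw [shp_real h hp.2.1 w, hw, map_zero]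

/-- The symmetric shift. -/
noncomputable def shf (h : ℝ) (f : ℂ → ℂ) (z : ℂ) : ℂ := (f (z + I * h) + f (z - I * h)) / 2

lemma InL.shift {h D D' : ℝ} (hh : 0 < h) (hD' : 0 ≤ D') (hDD : D ^ 2 ≤ D' ^ 2 + h ^ 2) {f : ℂ → ℂ}
    (hf : InL D f) : InL D' (shf h f) := by
  intro R e he
  obtain ⟨p, hp, hpe⟩ := hf (R + h) e he
  refine ⟨shp h p, shp_InP hh hD' hDD hp, fun z hz => ?_⟩
  rw [shp_eval]
  unfold shf
  have h1 : ‖z + I * h‖ ≤ R + h := by
    refine (norm_add_le _ _).trans ?_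
    rw [norm_mul, norm_I, one_mul, norm_real, Real.norm_eq_abs, abs_of_pos hh]
    linarith
  have h2 : ‖z - I * h‖ ≤ R + h := by
    refine (norm_sub_le _ _).trans ?_
    rw [norm_mul, norm_I, one_mul, norm_real, Real.norm_eq_abs, abs_of_pos hh]
    linarith
  have h3 := hpe _ h1
  have h4 := hpe _ h2
  have e1 : (p.eval (z + I * h) + p.eval (z - I * h)) / 2 - (f (z + I * h) + f (z - I * h)) / 2 =
      ((p.eval (z + I * h) - f (z + I * h)) + (p.eval (z - I * h) - f (z - I * h))) / 2 := by ring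
  rw [e1, norm_div]
  have h5 := norm_add_le (p.eval (z + I * h) - f (z + I * h)) (p.eval (z - I * h) - f (z - I * h))
  have h6 : ‖(2 : ℂ)‖ = 2 := by simp
  rw [h6, div_le_iff₀ (by norm_num)]
  linarith

lemma InL.limit {D : ℝ} {f : ℂ → ℂ} (h : ∀ R e : ℝ, 0 < e → ∃ g : ℂ → ℂ, InL D g ∧
    ∀ z : ℂ, ‖z‖ ≤ R → ‖g z - f z‖ ≤ e) : InL D f := by
  intro R e he
  obtain ⟨g, hg, hge⟩ := h R (e / 2) (by linarith)
  obtain ⟨p, hp, hpe⟩ := hg R (e / 2) (by linarith)
  refine ⟨p, hp, fun z hz => ?_⟩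
  have := norm_add_le (p.eval z - g z) (g z - f z)
  rw [sub_add_sub_cancel] at this
  linarith [hpe z hz, hge z hz]

lemma InL.mono {D D' : ℝ} (h : D ≤ D') {f : ℂ → ℂ} (hf : InL D f) : InL D' f := by
  intro R e he
  obtain ⟨p, hp, hpe⟩ := hf R e he
  exact ⟨p, ⟨hp.1, hp.2.1, fun w hw => (hp.2.2 w hw).trans h⟩, hpe⟩

/-- Vertical monotonicity for polynomials. -/
lemma norm_mono_poly {D : ℝ} {p : ℂ[X]} (hp : InP D p) {x y y' : ℝ} (hy : D ≤ y) (hyy : y ≤ y') :
    ‖p.eval (x + y * I)‖ ≤ ‖p.eval (x + y' * I)‖ := by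
  rw [norm_eval, norm_eval]
  refine mul_le_mul_of_nonneg_left ?_ (norm_nonneg _)
  have key : ∀ a ∈ p.roots, ‖(x : ℂ) + y * I - a‖ ≤ ‖(x : ℂ) + y' * I - a‖ := by
    intro a ha
    have h1 := hp.2.2 a ((mem_roots hp.1).1 ha)
    have h2 := (abs_le.1 h1).2
    have h3 : ‖(x : ℂ) + y * I - a‖ ^ 2 ≤ ‖(x : ℂ) + y' * I - a‖ ^ 2 := by
      rw [Complex.sq_norm, Complex.sq_norm, normSq_apply, normSq_apply]
      simp
      nlinarith
    exact le_of_pow_le_pow_left₀ (by norm_num) (norm_nonneg _) h3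
  generalize p.roots = S at key
  induction S using Multiset.induction_on with
  | empty => simp
  | cons a s ih =>
    rw [Multiset.map_cons, Multiset.prod_cons, Multiset.map_cons, Multiset.prod_cons]
    refine mul_le_mul (key a (Multiset.mem_cons_self a s))
      (ih fun b hb => key b (Multiset.mem_cons_of_mem hb)) ?_ (norm_nonneg _)
    refine Multiset.prod_nonneg fun x hx => ?_
    obtain ⟨b, _, rfl⟩ := Multiset.mem_map.1 hx
    exact norm_nonneg _

lemma InL.norm_mono {D : ℝ} {f : ℂ → ℂ} (hf : InL D f) {x y y' : ℝ} (hy : D ≤ y) (hyy : y ≤ y') :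
    ‖f (x + y * I)‖ ≤ ‖f (x + y' * I)‖ := by
  refine le_of_forall_pos_le_add fun e he => ?_
  obtain ⟨p, hp, hpe⟩ := hf (‖(x : ℂ) + y * I‖ + ‖(x : ℂ) + y' * I‖) (e / 2) (by linarith)
  have h1 := hpe (x + y * I) (by linarith [norm_nonneg ((x : ℂ) + y' * I)])
  have h2 := hpe (x + y' * I) (by linarith [norm_nonneg ((x : ℂ) + y * I)])
  have h3 := norm_mono_poly hp (x := x) hy hyy
  have h4 := norm_sub_norm_le (f (x + y * I)) (p.eval ((x : ℂ) + y * I))
  have h5 := norm_sub_norm_le (p.eval ((x : ℂ) + y' * I)) (f (x + y' * I))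
  rw [norm_sub_rev] at h4
  linarith

lemma InL.conj {D : ℝ} {f : ℂ → ℂ} (hf : InL D f) (w : ℂ) :
    f ((starRingEnd ℂ) w) = (starRingEnd ℂ) (f w) := by
  have h : ∀ e : ℝ, 0 < e → ‖f ((starRingEnd ℂ) w) - (starRingEnd ℂ) (f w)‖ ≤ e := by
    intro e he
    obtain ⟨p, hp, hpe⟩ := hf ‖w‖ (e / 2) (by linarith)
    have h1 := hpe ((starRingEnd ℂ) w) (by rw [norm_conj])
    have h2 := hpe w le_rfl
    have h3 : f ((starRingEnd ℂ) w) - (starRingEnd ℂ) (f w) =
        -(p.eval ((starRingEnd ℂ) w) - f ((starRingEnd ℂ) w)) + (starRingEnd ℂ) (p.eval w - f w) := by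
      rw [map_sub, ← hp.2.1 w]
      ring
    rw [h3]
    refine (norm_add_le _ _).trans ?_
    rw [norm_neg, norm_conj]
    linarith
  have := le_of_forall_pos_le_add (a := ‖f ((starRingEnd ℂ) w) - (starRingEnd ℂ) (f w)‖) (b := 0)
    fun e he => by rw [zero_add]; exact h e he
  exact sub_eq_zero.1 (norm_le_zero_iff.1 this)

/-- The zeros of a limit. -/
theorem InL.zeros {D : ℝ} {f : ℂ → ℂ} (hf : InL D f) (hd : Differentiable ℂ f) {z1 : ℂ} (hz1 : f z1 ≠ 0)
    {z : ℂ} (hz : f z = 0) : |z.im| ≤ D := by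
  have key : ∀ w : ℂ, D < w.im → f w ≠ 0 := by
    intro w hw h0
    have h1 : ∀ y : ℝ, D ≤ y → y ≤ w.im → f ((w.re : ℂ) + y * I) = 0 := by
      intro y hy hyw
      have h2 := hf.norm_mono (x := w.re) hy hyw
      rw [re_add_im, h0, norm_zero] at h2
      exact norm_le_zero_iff.1 h2
    have han : AnalyticOnNhd ℂ f univ := fun z _ => hd.analyticAt z
    have hfr : ∃ᶠ v in 𝓝[≠] w, f v = 0 := by
      have hseq : Tendsto (fun n : ℕ => (w.re : ℂ) + ((w.im - (w.im - D) / (n + 1) : ℝ) : ℂ) * I)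
          atTop (𝓝[≠] w) := by
        refine tendsto_nhdsWithin_iff.2 ⟨?_, Eventually.of_forall fun n => ?_⟩
        · have h3 : Tendsto (fun n : ℕ => w.im - (w.im - D) / ((n : ℝ) + 1)) atTop (𝓝 (w.im - 0)) := by
            refine tendsto_const_nhds.sub ?_
            have := tendsto_one_div_add_atTop_nhds_zero_nat (𝕜 := ℝ)
            have h4 := this.const_mul (w.im - D)
            rw [mul_zero] at h4
            refine h4.congr fun n => ?_
            ring
          rw [sub_zero] at h3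
          have h5 := (tendsto_const_nhds (x := (w.re : ℂ))).add
            (((continuous_ofReal.tendsto _).comp h3).mul_const I)
          rw [re_add_im] at h5
          exact h5
        · simp only [mem_compl_iff, mem_singleton_iff]
          intro h3
          have h4 := congrArg Complex.im h3
          rw [add_im, ofReal_im, im_ofReal_mul, I_im, mul_one, zero_add] at h4
          have h5 : 0 < (w.im - D) / ((n : ℝ) + 1) := div_pos (by linarith) (by positivity)
          linarith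
      refine hseq.frequently (Frequently.of_forall fun n => ?_)
      have hn : (0 : ℝ) < (n : ℝ) + 1 := by positivity
      have hdiv : (w.im - D) / ((n : ℝ) + 1) ≤ w.im - D := div_le_self (by linarith) (by linarith)
      have hdiv0 : 0 ≤ (w.im - D) / ((n : ℝ) + 1) := div_nonneg (by linarith) hn.le
      exact h1 _ (by linarith) (by linarith)
    have h6 := han.eqOn_zero_of_preconnected_of_frequently_eq_zero isPreconnected_univ (mem_univ w) hfr
    exact hz1 (h6 (mem_univ z1))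
  by_contra h1
  push Not at h1
  rcases abs_cases z.im with ⟨h2, _⟩ | ⟨h2, _⟩
  · exact key z (by linarith) hz
  · refine key ((starRingEnd ℂ) z) (by rw [conj_im]; linarith) ?_
    rw [hf.conj z, hz, map_zero]

end Pool.Agent.Helper36.YD
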