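import Pool.Agent.Helper36.YD1

set_option autoImplicit false

/-! # Extracting zeros of entire functions -/

namespace Pool.Agent.Helper36.YD

open Complex Filter Topology Set Polynomial Metric

/-- The finite product. -/
noncomputable def PS (S : Multiset ℂ) (z : ℂ) : ℂ := (S.map fun a => 1 - z / a).prod

@[simp] lemma PS_zero (z : ℂ) : PS 0 z = 1 := by simp [PS]

lemma PS_cons (a : ℂ) (S : Multiset ℂ) (z : ℂ) : PS (a ::ₘ S) z = (1 - z / a) * PS S z := by
  simp [PS]

lemma PS_at_zero (S : Multiset ℂ) : PS S 0 = 1 := by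
  induction S using Multiset.induction_on with
  | empty => simp
  | cons a s ih => rw [PS_cons, ih]; simp

lemma PS_differentiable (S : Multiset ℂ) : Differentiable ℂ (PS S) := by
  induction S using Multiset.induction_on with
  | empty =>
    have : PS 0 = fun _ => (1 : ℂ) := by funext z; simp
    rw [this]
    exact differentiable_const _
  | cons a s ih =>
    have : PS (a ::ₘ s) = fun z => (1 - z / a) * PS s z := by funext z; rw [PS_cons]
    rw [this]
    exact (by fun_prop : Differentiable ℂ fun z : ℂ => 1 - z / a).mul ih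

lemma PS_eq_zero {S : Multiset ℂ} {z : ℂ} (h : PS S z = 0) : z ∈ S := by
  induction S using Multiset.induction_on with
  | empty => simp at h
  | cons a s ih =>
    rw [PS_cons, mul_eq_zero] at h
    rcases h with h | h
    · rw [Multiset.mem_cons]
      left
      rcases eq_or_ne a 0 with h0 | h0
      · rw [h0] at h
        simp at h
      · field_simp at h
        rw [mul_zero] at h
        exact (sub_eq_zero.1 h).symm
    · exact Multiset.mem_cons_of_mem (ih h)

lemma PS_mem {S : Multiset ℂ} {z : ℂ} (hz : z ≠ 0) (h : z ∈ S) : PS S z = 0 := by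
  obtain ⟨T, rfl⟩ := Multiset.exists_cons_of_mem h
  rw [PS_cons, div_self hz, sub_self, zero_mul]

/-- A factorization of `f` with zeros extracted from the closed disc of radius `R`. -/
structure Fac (f : ℂ → ℂ) (R : ℝ) (S : Multiset ℂ) (g : ℂ → ℂ) : Prop where
  diff : Differentiable ℂ g
  mem : ∀ a ∈ S, a ≠ 0 ∧ ‖a‖ ≤ R
  eq : ∀ z, f z = PS S z * g z

lemma Fac.zero {f : ℂ → ℂ} {R : ℝ} {S : Multiset ℂ} {g : ℂ → ℂ} (h : Fac f R S g) : g 0 = f 0 := by
  rw [h.eq 0, PS_at_zero, one_mul]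

lemma Fac.root {f : ℂ → ℂ} {R : ℝ} {S : Multiset ℂ} {g : ℂ → ℂ} (h : Fac f R S g) {a : ℂ} (ha : a ∈ S) :
    f a = 0 := by
  rw [h.eq a, PS_mem (h.mem a ha).1 ha, zero_mul]

lemma PS_lower {S : Multiset ℂ} {R : ℝ} (h : ∀ a ∈ S, a ≠ 0 ∧ ‖a‖ ≤ R) {k : ℝ} (hk : 0 ≤ k) {z : ℂ}
    (hz : (k + 1) * R ≤ ‖z‖) : k ^ (Multiset.card S) ≤ ‖PS S z‖ := by
  induction S using Multiset.induction_on with
  | empty => simp
  | cons a s ih =>
    have h1 := ih fun b hb => h b (Multiset.mem_cons_of_mem hb)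
    obtain ⟨ha0, haR⟩ := h a (Multiset.mem_cons_self a s)
    have hapos := norm_pos_iff.2 ha0
    have h2 : k ≤ ‖1 - z / a‖ := by
      have h3 := norm_sub_norm_le (z / a) 1
      rw [norm_sub_rev, norm_one, norm_div] at h3
      have h4 : k + 1 ≤ ‖z‖ / ‖a‖ := by
        rw [le_div_iff₀ hapos]
        nlinarith
      linarith
    rw [PS_cons, Multiset.card_cons, norm_mul, pow_succ, mul_comm]
    exact mul_le_mul h2 h1 (by positivity) (norm_nonneg _)

/-- Maximum modulus for the cofactor. -/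
lemma Fac.bound {f : ℂ → ℂ} {R : ℝ} {S : Multiset ℂ} {g : ℂ → ℂ} (h : Fac f R S g) (hR : 0 < R)
    {k : ℝ} (hk : 0 < k) {M : ℝ} (hM : ∀ z : ℂ, ‖z‖ = (k + 1) * R → ‖f z‖ ≤ M) {z : ℂ}
    (hz : ‖z‖ ≤ (k + 1) * R) : k ^ (Multiset.card S) * ‖g z‖ ≤ M := by
  have hr : (k + 1) * R ≠ 0 := by positivity
  have hfr : ∀ w ∈ frontier (ball (0 : ℂ) ((k + 1) * R)), ‖g w‖ ≤ M / k ^ (Multiset.card S) := by
    intro w hw
    rw [frontier_ball _ hr, mem_sphere_zero_iff_norm] at hw
    have h1 := PS_lower h.mem hk.le (z := w) hw.ge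
    have h2 := hM w hw
    rw [h.eq w, norm_mul] at h2
    rw [le_div_iff₀ (by positivity)]
    calc ‖g w‖ * k ^ (Multiset.card S) ≤ ‖g w‖ * ‖PS S w‖ := mul_le_mul_of_nonneg_left h1 (norm_nonneg _)
      _ = ‖PS S w‖ * ‖g w‖ := mul_comm _ _
      _ ≤ M := h2
  have hcl : z ∈ closure (ball (0 : ℂ) ((k + 1) * R)) := by
    rw [closure_ball _ hr]
    simpa using hz
  have h3 := Complex.norm_le_of_forall_mem_frontier_norm_le isBounded_ball
    h.diff.diffContOnCl hfr hcl
  rw [le_div_iff₀ (by positivity)] at h3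
  linarith

/-- One more zero. -/
lemma Fac.cons {f : ℂ → ℂ} {R : ℝ} {S : Multiset ℂ} {g : ℂ → ℂ} (h : Fac f R S g) {a : ℂ} (ha0 : a ≠ 0)
    (haR : ‖a‖ ≤ R) (hg : g a = 0) : Fac f R (a ::ₘ S) (fun z => -a * dslope g a z) := by
  refine ⟨?_, ?_, ?_⟩
  · have h1 : DifferentiableOn ℂ (dslope g a) univ :=
      (Complex.differentiableOn_dslope univ_mem).2 h.diff.differentiableOn
    exact (differentiableOn_univ.1 h1).const_mul _
  · intro b hb
    rcases Multiset.mem_cons.1 hb with rfl | hb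
    · exact ⟨ha0, haR⟩
    · exact h.mem b hb
  · intro z
    have h1 : (z - a) * dslope g a z = g z := by
      have := sub_smul_dslope g a z
      rw [hg, sub_zero, smul_eq_mul] at this
      exact this
    rw [h.eq z, PS_cons, ← h1]
    field_simp
    ring

/-- The maximal factorization. -/
theorem exists_fac {f : ℂ → ℂ} (hf : Differentiable ℂ f) (h0 : f 0 ≠ 0) {R : ℝ} (hR : 0 < R) :
    ∃ S g, Fac f R S g ∧ ∀ z : ℂ, ‖z‖ ≤ R → g z ≠ 0 := by
  obtain ⟨M, hM⟩ : ∃ M : ℝ, ∀ z : ℂ, ‖z‖ = (2 + 1) * R → ‖f z‖ ≤ M := by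
    obtain ⟨M, hM⟩ := (isCompact_sphere (0 : ℂ) ((2 + 1) * R)).exists_bound_of_continuousOn
      hf.continuous.continuousOn
    exact ⟨M, fun z hz => hM z (by simpa using hz)⟩
  set A : Set ℕ := {n | ∃ S g, Fac f R S g ∧ Multiset.card S = n} with hA
  have hne : A.Nonempty := ⟨0, 0, f, ⟨hf, by simp, by simp⟩, by simp⟩
  have hbd : BddAbove A := by
    obtain ⟨N, hN⟩ := pow_unbounded_of_one_lt (M / ‖f 0‖) (one_lt_two : (1 : ℝ) < 2)
    refine ⟨N, fun n hn => ?_⟩
    obtain ⟨S, g, hS, rfl⟩ := hn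
    by_contra hlt
    push Not at hlt
    have h1 := hS.bound hR (k := 2) (by norm_num) hM (z := 0) (by rw [norm_zero]; positivity)
    rw [hS.zero] at h1
    have h2 : (2 : ℝ) ^ N ≤ 2 ^ (Multiset.card S) := pow_le_pow_right₀ (by norm_num) hlt.le
    rw [div_lt_iff₀ (norm_pos_iff.2 h0)] at hN
    have h3 := mul_le_mul_of_nonneg_right h2 (norm_nonneg (f 0))
    linarith
  obtain ⟨S, g, hS, hcard⟩ := Nat.sSup_mem hne hbd
  refine ⟨S, g, hS, fun z hz hg => ?_⟩
  have hz0 : z ≠ 0 := by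
    rintro rfl
    rw [hS.zero] at hg
    exact h0 hg
  have h1 : Multiset.card S + 1 ∈ A := ⟨z ::ₘ S, _, hS.cons hz0 hz hg, by simp⟩
  have h2 := le_csSup hbd h1
  omega

/-- Uniqueness. -/
theorem fac_unique {R : ℝ} {S T : Multiset ℂ} (hS : ∀ a ∈ S, a ≠ 0 ∧ ‖a‖ ≤ R)
    (hT : ∀ a ∈ T, a ≠ 0 ∧ ‖a‖ ≤ R) {g k : ℂ → ℂ} (hgd : Continuous g) (hkd : Continuous k)
    (hg : ∀ z : ℂ, ‖z‖ ≤ R → g z ≠ 0) (hk : ∀ z : ℂ, ‖z‖ ≤ R → k z ≠ 0)
    (h : ∀ z, PS S z * g z = PS T z * k z) : S = T := by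
  induction S using Multiset.induction_on generalizing T with
  | empty =>
    symm
    rw [Multiset.eq_zero_iff_forall_notMem]
    intro b hb
    have h1 := h b
    rw [PS_zero, one_mul, PS_mem (hT b hb).1 hb, zero_mul] at h1
    exact hg b (hT b hb).2 h1
  | cons a s ih =>
    obtain ⟨ha0, haR⟩ := hS a (Multiset.mem_cons_self a s)
    have h1 := h a
    rw [PS_mem ha0 (Multiset.mem_cons_self a s), zero_mul] at h1
    have h2 : a ∈ T := by
      rcases mul_eq_zero.1 h1.symm with h3 | h3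
      · exact PS_eq_zero h3
      · exact absurd h3 (hk a haR)
    obtain ⟨T', rfl⟩ := Multiset.exists_cons_of_mem h2
    congr 1
    refine ih (fun b hb => hS b (Multiset.mem_cons_of_mem hb))
      (fun b hb => hT b (Multiset.mem_cons_of_mem hb)) ?_
    have h3 : ∀ z, z ≠ a → PS s z * g z = PS T' z * k z := by
      intro z hz
      have h4 := h z
      rw [PS_cons, PS_cons, mul_assoc, mul_assoc] at h4
      refine mul_left_cancel₀ ?_ h4
      rw [sub_ne_zero]
      intro h5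
      apply hz
      field_simp at h5
      exact h5.symm
    have h4 : (fun z => PS s z * g z) = fun z => PS T' z * k z := by
      refine Continuous.ext_on (s := {a}ᶜ) (dense_compl_singleton a)
        ((PS_differentiable s).continuous.mul hgd) ((PS_differentiable T').continuous.mul hkd) ?_
      intro z hz
      exact h3 z hz
    intro z
    exact congrFun h4 z

lemma PS_conj (S : Multiset ℂ) (z : ℂ) :
    PS (S.map (starRingEnd ℂ)) ((starRingEnd ℂ) z) = (starRingEnd ℂ) (PS S z) := by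
  induction S using Multiset.induction_on with
  | empty => simp
  | cons a s ih => rw [Multiset.map_cons, PS_cons, PS_cons, ih, map_mul, map_sub, map_div₀, map_one]

lemma PS_neg (S : Multiset ℂ) (z : ℂ) : PS (S.map fun a => -a) (-z) = PS S z := by
  induction S using Multiset.induction_on with
  | empty => simp
  | cons a s ih => rw [Multiset.map_cons, PS_cons, PS_cons, ih, neg_div_neg_eq]

lemma fac_conj {f : ℂ → ℂ} {R : ℝ} {S : Multiset ℂ} {g : ℂ → ℂ} (h : Fac f R S g)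
    (hg : ∀ z : ℂ, ‖z‖ ≤ R → g z ≠ 0) (hf : ∀ z, f ((starRingEnd ℂ) z) = (starRingEnd ℂ) (f z)) :
    S.map (starRingEnd ℂ) = S := by
  have hc : Continuous (fun z : ℂ => (starRingEnd ℂ) (g ((starRingEnd ℂ) z))) :=
    continuous_conj.comp (h.diff.continuous.comp continuous_conj)
  refine fac_unique (R := R) (k := g) (g := fun z => (starRingEnd ℂ) (g ((starRingEnd ℂ) z)))
    ?_ h.mem hc h.diff.continuous ?_ hg ?_
  · intro a ha
    obtain ⟨b, hb, rfl⟩ := Multiset.mem_map.1 ha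
    obtain ⟨h1, h2⟩ := h.mem b hb
    exact ⟨by simpa using h1, by rwa [norm_conj]⟩
  · intro z hz
    simpa using hg ((starRingEnd ℂ) z) (by rwa [norm_conj])
  · intro z
    rw [← h.eq z]
    have h1 := PS_conj S ((starRingEnd ℂ) z)
    rw [Complex.conj_conj] at h1
    rw [h1, ← map_mul, ← h.eq, hf, Complex.conj_conj]

lemma fac_neg {f : ℂ → ℂ} {R : ℝ} {S : Multiset ℂ} {g : ℂ → ℂ} (h : Fac f R S g)
    (hg : ∀ z : ℂ, ‖z‖ ≤ R → g z ≠ 0) (hf : ∀ z, f (-z) = f z) : S.map (fun a => -a) = S := by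
  refine fac_unique (R := R) (k := g) (g := fun z => g (-z)) ?_ h.mem
    (h.diff.continuous.comp continuous_neg) h.diff.continuous ?_ hg ?_
  · intro a ha
    obtain ⟨b, hb, rfl⟩ := Multiset.mem_map.1 ha
    obtain ⟨h1, h2⟩ := h.mem b hb
    exact ⟨neg_ne_zero.2 h1, by rwa [norm_neg]⟩
  · intro z hz
    exact hg (-z) (by rwa [norm_neg])
  · intro z
    have h1 := PS_neg S (-z)
    rw [neg_neg] at h1
    rw [h1, ← h.eq, ← h.eq, hf]

lemma cof_even {f : ℂ → ℂ} {R : ℝ} {S : Multiset ℂ} {g : ℂ → ℂ} (h : Fac f R S g)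
    (hg : ∀ z : ℂ, ‖z‖ ≤ R → g z ≠ 0) (hf : ∀ z, f (-z) = f z) (z : ℂ) : g (-z) = g z := by
  have hS := fac_neg h hg hf
  have h1 : ∀ z, z ∉ S.toFinset → g (-z) = g z := by
    intro z hz
    have h2 := h.eq (-z)
    have h3 := PS_neg S z
    rw [hS] at h3
    rw [hf, h3, h.eq z] at h2
    refine (mul_left_cancel₀ ?_ h2).symm
    intro h4
    exact hz (Multiset.mem_toFinset.2 (PS_eq_zero h4))
  have h2 : (fun z => g (-z)) = g := by
    refine Continuous.ext_on (s := ((S.toFinset : Set ℂ))ᶜ) ?_ (h.diff.continuous.comp continuous_neg)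
      h.diff.continuous ?_
    · exact (Finset.finite_toSet _).countable.dense_compl ℝ
    · intro z hz
      exact h1 z (by simpa using hz)
  exact congrFun h2 z

end Pool.Agent.Helper36.YD
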