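import Pool.Agent.Helper36.YD2

set_option autoImplicit false

/-! # Even entire functions of order less than two are limits of polynomials -/

namespace Pool.Agent.Helper36.YD

open Complex Filter Topology Set Polynomial Metric

/-- Growth less than order two. -/
def Small (f : ℂ → ℂ) : Prop :=
  ∀ e : ℝ, 0 < e → ∃ R1 : ℝ, ∀ R : ℝ, R1 ≤ R → ∀ z : ℂ, ‖z‖ ≤ R → ‖f z‖ ≤ Real.exp (e * R ^ 2)

lemma even_deriv {g : ℂ → ℂ} (hd : Differentiable ℂ g) (he : ∀ z, g (-z) = g z) : deriv g 0 = 0 := by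
  have h1 := (hd 0).hasDerivAt
  have h2 : HasDerivAt (fun z => g (-z)) (-deriv g 0) 0 := by
    have h3 : HasDerivAt (fun z : ℂ => -z) (-1) 0 := (hasDerivAt_id (0 : ℂ)).neg
    have h4 : HasDerivAt g (deriv g 0) (-(0 : ℂ)) := by rw [neg_zero]; exact h1
    have h5 : HasDerivAt (fun z => g (-z)) (deriv g 0 * -1) 0 := h4.comp (0 : ℂ) h3
    rwa [mul_neg_one] at h5
  have h3 : (fun z => g (-z)) = g := funext he
  rw [h3] at h2
  have h4 := h1.unique h2
  have h5 : (2 : ℂ) * deriv g 0 = 0 := by linear_combination h4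
  simpa using h5

/-- The logarithm of a function without zeros. -/
lemma log_bound {g : ℂ → ℂ} (hd : Differentiable ℂ g) (he : ∀ z, g (-z) = g z) {R A : ℝ} (hR : 0 < R)
    (hA : 0 < A) (hne : ∀ z : ℂ, ‖z‖ ≤ R → g z ≠ 0)
    (hb : ∀ z : ℂ, ‖z‖ ≤ R → ‖g z‖ ≤ ‖g 0‖ * Real.exp A) :
    ∀ z : ℂ, ‖z‖ < R / 2 → ∃ w : ℂ, ‖w‖ ≤ 2 * A * (‖z‖ / (R / 2)) ^ 2 ∧ g z = g 0 * cexp w := by
  have hφ : DifferentiableOn ℂ (fun z => deriv g z / g z) (ball 0 R) := by
    intro z hz
    have hz1 : ‖z‖ < R := by simpa using hz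
    have h1 : Differentiable ℂ (deriv g) := by
      have := (hd.contDiff (n := 2)).differentiable_deriv_two
      exact this
    exact ((h1 z).div (hd z) (hne z hz1.le)).differentiableWithinAt
  obtain ⟨h, h0, hh⟩ := hφ.isExactOn_ball.with_val_at 0 0
  have hconst : ∀ z ∈ ball (0 : ℂ) R, g z * cexp (-h z) = g 0 := by
    intro z hz
    have hdF : ∀ w ∈ ball (0 : ℂ) R, HasDerivAt (fun w => g w * cexp (-h w)) 0 w := by
      intro w hw
      have hw1 : ‖w‖ < R := by simpa using hw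
      have h1 := (hd w).hasDerivAt.mul (hh w hw).neg.cexp
      refine h1.congr_deriv ?_
      have := hne w hw1.le
      field_simp
      ring
    have h2 := isOpen_ball.is_const_of_deriv_eq_zero (isPreconnected_ball (x := (0 : ℂ)) (r := R))
      (f := fun w => g w * cexp (-h w)) (fun w hw => (hdF w hw).differentiableAt.differentiableWithinAt)
      (fun w hw => (hdF w hw).deriv) hz (mem_ball_self hR)
    simp only [h0, neg_zero, Complex.exp_zero, mul_one] at h2
    exact h2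
  have hg : ∀ z ∈ ball (0 : ℂ) R, g z = g 0 * cexp (h z) := by
    intro z hz
    rw [← hconst z hz, mul_assoc, ← Complex.exp_add]
    simp
  have hg0 : 0 < ‖g 0‖ := norm_pos_iff.2 (hne 0 (by rw [norm_zero]; exact hR.le))
  have hre : MapsTo h (ball 0 R) {z | z.re ≤ A} := by
    intro z hz
    have hz1 : ‖z‖ < R := by simpa using hz
    have h1 := hb z hz1.le
    rw [hg z hz, norm_mul, Complex.norm_exp] at h1
    exact Real.exp_le_exp.1 (le_of_mul_le_mul_left h1 hg0)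
  have hhd : DifferentiableOn ℂ h (ball 0 R) := fun z hz => (hh z hz).differentiableAt.differentiableWithinAt
  have hBC : ∀ z : ℂ, ‖z‖ < R / 2 → ‖h z‖ ≤ 2 * A := by
    intro z hz
    have h1 := Complex.borelCaratheodory_zero hA hhd hre hR (z := z) (by simp; linarith) h0
    refine h1.trans ?_
    rw [div_le_iff₀ (by linarith)]
    nlinarith [norm_nonneg z]
  intro z hz
  refine ⟨h z, ?_, hg z (by simp; linarith)⟩
  have hsub : ball (0 : ℂ) (R / 2) ⊆ ball 0 R := ball_subset_ball (by linarith)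
  have h2 := Complex.dist_le_mul_div_pow_of_mapsTo_ball_of_isLittleO (f := h) (c := 0) (z := z)
    (R₁ := R / 2) (R₂ := 2 * A) (n := 1) (hhd.mono hsub) ?_ ?_ (by simpa using hz)
  · rw [dist_eq_norm, dist_eq_norm, h0, sub_zero, sub_zero] at h2
    simpa using h2
  · intro w hw
    rw [h0, mem_closedBall_zero_iff]
    exact hBC w (by simpa using hw)
  · have h3 : HasDerivAt h 0 0 := by
      have h4 := hh 0 (mem_ball_self hR)
      rw [even_deriv hd he, zero_div] at h4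
      exact h4
    have h5 := hasDerivAt_iff_isLittleO.1 h3
    simp only [smul_zero, sub_zero] at h5
    refine (h5.norm_right).congr_right fun w => ?_
    rw [sub_zero, pow_one]

theorem cof_small {f : ℂ → ℂ} (hf : Differentiable ℂ f) (he : ∀ z, f (-z) = f z) (h0 : f 0 ≠ 0)
    (hs : Small f) (R0 e R2 : ℝ) (he0 : 0 < e) : ∃ R S g, R2 ≤ R ∧ 0 < R ∧ Fac f R S g ∧
      (∀ z : ℂ, ‖z‖ ≤ R → g z ≠ 0) ∧ ∀ z : ℂ, ‖z‖ ≤ R0 → ‖g z - f 0‖ ≤ e := by
  have hf0 : 0 < ‖f 0‖ := norm_pos_iff.2 h0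
  set δ : ℝ := min 1 (e / (2 * ‖f 0‖)) with hδ
  have hδ0 : 0 < δ := by positivity
  have hδ1 : δ ≤ 1 := min_le_left _ _
  have hδ2 : δ ≤ e / (2 * ‖f 0‖) := min_le_right _ _
  set r : ℝ := |R0| + 1 with hr
  have hr0 : 0 < r := by positivity
  set ε : ℝ := δ / (64 * r ^ 2) with hε
  have hε0 : 0 < ε := by positivity
  obtain ⟨R1, hR1⟩ := hs ε hε0
  set L : ℝ := 1 + |Real.log ‖f 0‖| with hL
  have hL1 : 1 ≤ L := by
    have := abs_nonneg (Real.log ‖f 0‖)
    linarith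
  set R : ℝ := |R1| + |R2| + 4 * r + 16 * L * r ^ 2 / δ with hRdef
  have hp : 0 ≤ 16 * L * r ^ 2 / δ := by positivity
  have hR2 : R2 ≤ R := by
    have := le_abs_self R2
    have := abs_nonneg R1
    linarith
  have hR1' : R1 ≤ 2 * R := by
    have h1 := le_abs_self R1
    have h2 := abs_nonneg R2
    have h3 := abs_nonneg R1
    linarith
  have hR4 : 4 * r ≤ R := by
    have := abs_nonneg R1
    have := abs_nonneg R2
    linarith
  have hr1 : 1 ≤ r := by
    have := abs_nonneg R0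
    linarith
  have hRpos : 0 < R := by linarith
  have hRbig : 16 * L * r ^ 2 ≤ δ * R ^ 2 := by
    have h1 : 16 * L * r ^ 2 / δ ≤ R := by
      have := abs_nonneg R1
      have := abs_nonneg R2
      linarith
    rw [div_le_iff₀ hδ0] at h1
    have h2 : R * δ ≤ δ * R ^ 2 := by
      have h3 := mul_nonneg (mul_nonneg hδ0.le hRpos.le) (show 0 ≤ R - 1 by linarith)
      nlinarith
    linarith
  obtain ⟨S, g, hS, hg⟩ := exists_fac hf h0 hRpos
  refine ⟨R, S, g, hR2, hRpos, hS, hg, ?_⟩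
  have hM : ∀ z : ℂ, ‖z‖ = (1 + 1) * R → ‖f z‖ ≤ Real.exp (ε * (2 * R) ^ 2) := by
    intro z hz
    exact hR1 (2 * R) hR1' z (by rw [hz]; linarith)
  set A : ℝ := 4 * ε * R ^ 2 + L with hA
  have hA0 : 0 < A := by positivity
  have hgb : ∀ z : ℂ, ‖z‖ ≤ R → ‖g z‖ ≤ ‖g 0‖ * Real.exp A := by
    intro z hz
    have h1 := hS.bound hRpos (k := 1) one_pos hM (z := z) (by linarith)
    rw [one_pow, one_mul] at h1
    rw [hS.zero]
    refine h1.trans ?_
    have h2 : ‖f 0‖ = Real.exp (Real.log ‖f 0‖) := (Real.exp_log hf0).symm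
    rw [h2, ← Real.exp_add]
    apply Real.exp_le_exp.2
    have h3 := neg_abs_le (Real.log ‖f 0‖)
    rw [hA, hL]
    nlinarith
  intro z hz
  have hzr : ‖z‖ ≤ r := by
    have := le_abs_self R0
    linarith
  obtain ⟨w, hw, hgw⟩ := log_bound hS.diff (cof_even hS hg he) hRpos hA0 hg hgb z (by linarith)
  have hw1 : ‖w‖ ≤ δ := by
    refine hw.trans ?_
    have h1 : 2 * A * (‖z‖ / (R / 2)) ^ 2 ≤ 2 * A * (r / (R / 2)) ^ 2 := by gcongr
    refine h1.trans ?_
    have h2 : 2 * A * (r / (R / 2)) ^ 2 = 8 * A * r ^ 2 / R ^ 2 := by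
      field_simp
      ring
    rw [h2, div_le_iff₀ (by positivity), hA]
    have h3 : 8 * (4 * ε * R ^ 2) * r ^ 2 = δ / 2 * R ^ 2 := by
      rw [hε]
      field_simp
      ring
    nlinarith
  have h3 : ‖cexp w - 1‖ ≤ 2 * ‖w‖ := Complex.norm_exp_sub_one_le (hw1.trans hδ1)
  rw [hgw, hS.zero]
  have h4 : f 0 * cexp w - f 0 = f 0 * (cexp w - 1) := by ring
  rw [h4, norm_mul]
  calc ‖f 0‖ * ‖cexp w - 1‖ ≤ ‖f 0‖ * (2 * δ) := by
        refine mul_le_mul_of_nonneg_left (h3.trans (by linarith)) hf0.le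
    _ ≤ ‖f 0‖ * (2 * (e / (2 * ‖f 0‖))) := by gcongr
    _ = e := by field_simp

/-- The polynomial of the product. -/
noncomputable def PP (S : Multiset ℂ) : ℂ[X] := (S.map fun a => 1 - C (a⁻¹) * X).prod

lemma PP_eval (S : Multiset ℂ) (z : ℂ) : (PP S).eval z = PS S z := by
  unfold PP PS
  rw [eval_multiset_prod, Multiset.map_map]
  congr 1
  refine Multiset.map_congr rfl fun a _ => ?_
  simp only [Function.comp_apply, eval_sub, eval_one, eval_mul, eval_C, eval_X]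
  rw [div_eq_inv_mul]

lemma PP_InP {D : ℝ} {S : Multiset ℂ} {c : ℂ} (hc : c ≠ 0) (hcr : (starRingEnd ℂ) c = c)
    (hS : ∀ a ∈ S, |a.im| ≤ D) (hconj : S.map (starRingEnd ℂ) = S) : InP D (C c * PP S) := by
  refine ⟨?_, ?_, ?_⟩
  · intro h
    have h1 := congrArg (fun p : ℂ[X] => p.eval 0) h
    simp only [eval_mul, eval_C, PP_eval, PS_at_zero, mul_one, eval_zero] at h1
    exact hc h1
  · intro w
    rw [eval_mul, eval_C, eval_mul, eval_C, PP_eval, PP_eval, map_mul, hcr, ← PS_conj, hconj]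
  · intro w hw
    rw [eval_mul, eval_C, PP_eval] at hw
    exact hS w (PS_eq_zero ((mul_eq_zero.1 hw).resolve_left hc))

/-- The main statement: `q` is `f` divided by a finite product over real zeros. -/
theorem InL_of_zeros {f q : ℂ → ℂ} {T : Multiset ℂ} {D : ℝ} (hf : Differentiable ℂ f)
    (hq : Continuous q) (he : ∀ z, f (-z) = f z)
    (hr : ∀ z, f ((starRingEnd ℂ) z) = (starRingEnd ℂ) (f z)) (h0 : f 0 ≠ 0) (hs : Small f)
    (hz : ∀ z, f z = 0 → |z.im| ≤ D) (hT : T = 0 ∨ ∃ r : ℝ, r ≠ 0 ∧ T = {(r : ℂ)})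
    (hfq : ∀ z, f z = PS T z * q z) : InL D q := by
  intro R0 e he0
  obtain ⟨Mq, hMq⟩ : ∃ M : ℝ, ∀ z : ℂ, ‖z‖ ≤ R0 → ‖q z‖ ≤ M := by
    obtain ⟨M, hM⟩ := (isCompact_closedBall (0 : ℂ) R0).exists_bound_of_continuousOn hq.continuousOn
    exact ⟨M, fun z hz => hM z (by simpa using hz)⟩
  have hf0 : 0 < ‖f 0‖ := norm_pos_iff.2 h0
  set M : ℝ := |Mq| + 1 with hM
  have hMpos : 0 < M := by positivity
  set e1 : ℝ := min (‖f 0‖ / 2) (e * ‖f 0‖ / (2 * M)) with he1
  have he10 : 0 < e1 := by positivity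
  obtain ⟨R2, hR2⟩ : ∃ R2 : ℝ, ∀ a ∈ T, ‖a‖ ≤ R2 := by
    rcases hT with rfl | ⟨r, _, rfl⟩
    · exact ⟨0, by simp⟩
    · exact ⟨‖(r : ℂ)‖, by simp⟩
  obtain ⟨R, S, g, hRR, hRpos, hS, hg, hge⟩ := cof_small hf he h0 hs R0 e1 R2 he10
  have hconjS := fac_conj hS hg hr
  -- remove T from S
  obtain ⟨S', hS', hconj'⟩ : ∃ S' : Multiset ℂ, S = T + S' ∧ S'.map (starRingEnd ℂ) = S' := by
    rcases hT with rfl | ⟨r, hr0, rfl⟩
    · exact ⟨S, by simp, hconjS⟩
    · have h1 : f r = 0 := by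
        rw [hfq r, PS_mem (by exact_mod_cast hr0) (Multiset.mem_singleton_self _), zero_mul]
      have h2 : (r : ℂ) ∈ S := by
        rw [hS.eq r] at h1
        have h3 := hg r ((hR2 r (Multiset.mem_singleton_self _)).trans hRR)
        exact PS_eq_zero ((mul_eq_zero.1 h1).resolve_right h3)
      obtain ⟨S', rfl⟩ := Multiset.exists_cons_of_mem h2
      refine ⟨S', by simp, ?_⟩
      rw [Multiset.map_cons, conj_ofReal] at hconjS
      exact (Multiset.cons_inj_right _).1 hconjS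
  have hmem' : ∀ a ∈ S', a ∈ S := fun a ha => by rw [hS']; exact Multiset.mem_add.2 (Or.inr ha)
  have hPS : ∀ z, PS S z = PS T z * PS S' z := by
    intro z
    rw [hS']
    unfold PS
    rw [Multiset.map_add, Multiset.prod_add]
  have hqz : ∀ z, q z = PS S' z * g z := by
    have h1 : q = fun z => PS S' z * g z := by
      refine Continuous.ext_on (s := ((T.toFinset : Set ℂ))ᶜ) ?_ hq
        ((PS_differentiable S').continuous.mul hS.diff.continuous) ?_
      · exact (Finset.finite_toSet _).countable.dense_compl ℝ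
      · intro z hz
        have h2 : PS T z ≠ 0 := by
          intro h3
          exact hz (by simpa using PS_eq_zero h3)
        refine mul_left_cancel₀ h2 ?_
        rw [← hfq z, hS.eq z, hPS z, mul_assoc]
    exact fun z => congrFun h1 z
  have hf0r : (starRingEnd ℂ) (f 0) = f 0 := by
    have := hr 0
    rw [map_zero] at this
    exact this.symm
  refine ⟨C (f 0) * PP S', PP_InP h0 hf0r (fun a ha => hz a (hS.root (hmem' a ha))) hconj', ?_⟩
  intro z hzR
  rw [eval_mul, eval_C, PP_eval, hqz z]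
  have h1 := hge z hzR
  have h2 : ‖f 0‖ / 2 ≤ ‖g z‖ := by
    have h3 := norm_sub_norm_le (f 0) (f 0 - g z)
    rw [sub_sub_cancel, norm_sub_rev] at h3
    have h4 : e1 ≤ ‖f 0‖ / 2 := min_le_left _ _
    linarith
  have h3 : ‖PS S' z‖ ≤ 2 * M / ‖f 0‖ := by
    have h4 : ‖PS S' z‖ * ‖g z‖ ≤ M := by
      rw [← norm_mul, ← hqz z]
      have := hMq z hzR
      have h5 := le_abs_self Mq
      linarith
    rw [le_div_iff₀ hf0]
    have h5 : ‖PS S' z‖ * (‖f 0‖ / 2) ≤ ‖PS S' z‖ * ‖g z‖ := mul_le_mul_of_nonneg_left h2 (norm_nonneg _)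
    linarith
  have h4 : f 0 * PS S' z - PS S' z * g z = -(PS S' z * (g z - f 0)) := by ring
  rw [h4, norm_neg, norm_mul]
  calc ‖PS S' z‖ * ‖g z - f 0‖ ≤ (2 * M / ‖f 0‖) * (e * ‖f 0‖ / (2 * M)) := by
        refine mul_le_mul h3 (h1.trans (min_le_right _ _)) (norm_nonneg _) (by positivity)
    _ = e := by field_simp

end Pool.Agent.Helper36.YD
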