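import Pool.Agent.Helper36.YD3
import Pool.Agent.Helper36.XD5

set_option autoImplicit false

/-! # The heat flow preserves limits of real polynomials with zeros in a strip -/

namespace Pool.Agent.Helper36.YD

open Complex Filter Topology Set MeasureTheory Pool.Agent.Helper36.XD

/-- Decay faster than every Gaussian. -/
def SupG (K : ℝ → ℂ) : Prop := ∀ N : ℝ, ∃ C : ℝ, ∀ u : ℝ, ‖K u‖ ≤ C * Real.exp (-(N * u ^ 2))

/-- The Fourier integral. -/
noncomputable def FT (K : ℝ → ℂ) (z : ℂ) : ℂ := ∫ u : ℝ, K u * cexp (I * z * u)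

lemma FT_eq (K : ℝ → ℂ) : FT K = fun z => LT K (I * z) := rfl

lemma SupG.dec {K : ℝ → ℂ} (h : SupG K) : Dec K := by
  intro N
  obtain ⟨C, hC⟩ := h 1
  have hC0 : 0 ≤ C := by
    have h1 := hC 0
    have h2 := norm_nonneg (K 0)
    simp only [ne_eq, OfNat.ofNat_ne_zero, not_false_eq_true, zero_pow, mul_zero, neg_zero, Real.exp_zero,
      mul_one] at h1
    linarith
  refine ⟨C * Real.exp (N ^ 2 / 4), fun u => (hC u).trans ?_⟩
  rw [mul_assoc, ← Real.exp_add]
  refine mul_le_mul_of_nonneg_left (Real.exp_le_exp.2 ?_) hC0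
  have h1 : u ^ 2 = |u| ^ 2 := (sq_abs u).symm
  rw [h1]
  nlinarith [sq_nonneg (|u| - N / 2)]

lemma SupG.mul_gauss {K K' : ℝ → ℂ} (h : SupG K) {a c : ℝ} (hc : 0 ≤ c)
    (hb : ∀ u, ‖K' u‖ ≤ ‖K u‖ * (c * Real.exp (a * u ^ 2))) : SupG K' := by
  intro N
  obtain ⟨C, hC⟩ := h (N + a)
  refine ⟨C * c, fun u => (hb u).trans ?_⟩
  calc ‖K u‖ * (c * Real.exp (a * u ^ 2)) ≤ (C * Real.exp (-((N + a) * u ^ 2))) * (c * Real.exp (a * u ^ 2)) :=
        mul_le_mul_of_nonneg_right (hC u) (by positivity)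
    _ = C * c * Real.exp (-(N * u ^ 2)) := by
        rw [show -(N * u ^ 2) = -((N + a) * u ^ 2) + a * u ^ 2 by ring, Real.exp_add]
        ring

/-- The kernel of the heat flow. -/
noncomputable def HK (τ : ℝ) (K : ℝ → ℂ) (u : ℝ) : ℂ := K u * ((Real.exp (τ * u ^ 2) : ℝ) : ℂ)

lemma SupG.heat {K : ℝ → ℂ} (h : SupG K) (τ : ℝ) : SupG (HK τ K) := by
  refine h.mul_gauss (a := τ) (c := 1) (by norm_num) fun u => ?_
  unfold HK
  rw [norm_mul, norm_real, Real.norm_eq_abs, abs_of_pos (Real.exp_pos _), one_mul]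

lemma SupG.id_mul {K : ℝ → ℂ} (h : SupG K) : SupG (fun u => I * (u : ℂ) * K u) := by
  refine h.mul_gauss (a := 1) (c := 1) (by norm_num) fun u => ?_
  rw [norm_mul, norm_mul, norm_I, norm_real, Real.norm_eq_abs, one_mul, one_mul, one_mul, mul_comm]
  refine mul_le_mul_of_nonneg_left ?_ (norm_nonneg _)
  have h1 := Real.add_one_le_exp (u ^ 2)
  have h2 := sq_abs u
  nlinarith [sq_nonneg (|u| - 1), abs_nonneg u]

lemma HK_meas {K : ℝ → ℂ} (hm : AEStronglyMeasurable K volume) (τ : ℝ) :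
    AEStronglyMeasurable (HK τ K) volume := by
  unfold HK
  exact hm.mul (by fun_prop : Continuous fun u : ℝ => ((Real.exp (τ * u ^ 2) : ℝ) : ℂ)).aestronglyMeasurable

lemma FT_integrable {K : ℝ → ℂ} (hm : AEStronglyMeasurable K volume) (hs : SupG K) (z : ℂ) :
    Integrable (fun u : ℝ => K u * cexp (I * z * u)) := hs.dec.integrable hm (I * z)

lemma FT_hasDerivAt {K : ℝ → ℂ} (hm : AEStronglyMeasurable K volume) (hs : SupG K) (z : ℂ) :
    HasDerivAt (FT K) (FT (fun u => I * (u : ℂ) * K u) z) z := by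
  have h1 := LT_hasDerivAt hm hs.dec (I * z)
  have h0 : HasDerivAt (fun z : ℂ => I * z) I z := by simpa using (hasDerivAt_id z).const_mul I
  have h2 := h1.comp z h0
  have e : LT K ∘ (fun z : ℂ => I * z) = FT K := rfl
  rw [e] at h2
  refine h2.congr_deriv ?_
  unfold XD.LT FT
  rw [← integral_mul_const]
  refine integral_congr_ae (ae_of_all _ fun u => ?_)
  simp only
  ring

lemma FT_differentiable {K : ℝ → ℂ} (hm : AEStronglyMeasurable K volume) (hs : SupG K) :
    Differentiable ℂ (FT K) := fun z => (FT_hasDerivAt hm hs z).differentiableAt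

lemma FT_growth {K : ℝ → ℂ} (hs : SupG K) {e : ℝ} (he : 0 < e) :
    ∃ C : ℝ, 0 ≤ C ∧ ∀ z : ℂ, ‖FT K z‖ ≤ C * Real.exp (e * z.im ^ 2) := by
  set N : ℝ := 1 / (4 * e) with hN
  have hNe : 4 * N * e = 1 := by rw [hN]; field_simp
  have hN0 : 0 < N := by positivity
  obtain ⟨C, hC⟩ := hs (N + 1)
  have hC0 : 0 ≤ C := by
    have h1 := hC 0
    have h2 := norm_nonneg (K 0)
    simp only [ne_eq, OfNat.ofNat_ne_zero, not_false_eq_true, zero_pow, mul_zero, neg_zero, Real.exp_zero,
      mul_one] at h1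
    linarith
  refine ⟨C * √(Real.pi / 1), by positivity, fun z => ?_⟩
  have hint : Integrable (fun u : ℝ => C * Real.exp (e * z.im ^ 2) * Real.exp (-1 * u ^ 2)) :=
    (integrable_exp_neg_mul_sq one_pos).const_mul _
  have h1 : ‖FT K z‖ ≤ ∫ u : ℝ, C * Real.exp (e * z.im ^ 2) * Real.exp (-1 * u ^ 2) := by
    refine norm_integral_le_of_norm_le hint (ae_of_all _ fun u => ?_)
    rw [norm_mul, Complex.norm_exp]
    have h2 : (I * z * (u : ℂ)).re = -(z.im * u) := by simp
    rw [h2]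
    calc ‖K u‖ * Real.exp (-(z.im * u)) ≤ (C * Real.exp (-((N + 1) * u ^ 2))) * Real.exp (-(z.im * u)) :=
          mul_le_mul_of_nonneg_right (hC u) (Real.exp_pos _).le
      _ = C * Real.exp (-((N + 1) * u ^ 2) - z.im * u) := by
          rw [mul_assoc, ← Real.exp_add, ← sub_eq_add_neg]
      _ ≤ C * Real.exp (e * z.im ^ 2 + -1 * u ^ 2) := by
          refine mul_le_mul_of_nonneg_left (Real.exp_le_exp.2 ?_) hC0
          have h3 : 0 ≤ e * (z.im + 2 * N * u) ^ 2 := by positivity
          have h4 : e * (z.im + 2 * N * u) ^ 2 = e * z.im ^ 2 + (4 * N * e) * (z.im * u) +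
            (4 * N * e) * (N * u ^ 2) := by ring
          rw [hNe] at h4
          nlinarith
      _ = C * Real.exp (e * z.im ^ 2) * Real.exp (-1 * u ^ 2) := by rw [Real.exp_add, mul_assoc]
  rw [integral_const_mul, integral_gaussian] at h1
  refine h1.trans (le_of_eq (by ring))

lemma FT_small {K : ℝ → ℂ} (hs : SupG K) : Small (FT K) := by
  intro e he
  obtain ⟨C, hC0, hC⟩ := FT_growth hs (e := e / 2) (by linarith)
  refine ⟨2 * C / e + 1, fun R hR z hz => (hC z).trans ?_⟩
  have hp : 0 ≤ 2 * C / e := by positivity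
  have h1 : z.im ^ 2 ≤ R ^ 2 := by
    rw [← sq_abs z.im]
    exact pow_le_pow_left₀ (abs_nonneg _) ((abs_im_le_norm z).trans hz) 2
  have h2 : C ≤ e / 2 * R ^ 2 := by
    have h3 : 2 * C / e ≤ R := by linarith
    rw [div_le_iff₀ he] at h3
    have h4 : 1 ≤ R := by linarith
    have h5 : R * e ≤ R * e * R := by
      have : 0 < R * e := by positivity
      nlinarith
    nlinarith
  have h6 : C ≤ Real.exp (e / 2 * R ^ 2) := by
    have := Real.add_one_le_exp (e / 2 * R ^ 2)
    linarith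
  calc C * Real.exp (e / 2 * z.im ^ 2) ≤ Real.exp (e / 2 * R ^ 2) * Real.exp (e / 2 * R ^ 2) := by
        refine mul_le_mul h6 (Real.exp_le_exp.2 ?_) (Real.exp_pos _).le (Real.exp_pos _).le
        exact mul_le_mul_of_nonneg_left h1 (by linarith)
    _ = Real.exp (e * R ^ 2) := by
        rw [← Real.exp_add]
        congr 1
        ring

lemma shf_FT {K : ℝ → ℂ} (hm : AEStronglyMeasurable K volume) (hd : Dec K) (h : ℝ) :
    shf h (FT K) = FT (fun u => K u * ((Real.cosh (h * u) : ℝ) : ℂ)) := by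
  funext z
  have h1 := hd.integrable hm (I * (z + I * h))
  have h2 := hd.integrable hm (I * (z - I * h))
  unfold shf FT
  rw [← integral_add h1 h2, ← integral_div]
  refine integral_congr_ae (ae_of_all _ fun u => ?_)
  simp only
  have e1 : cexp (I * (z + I * h) * u) = cexp (I * z * u) * cexp (-((h * u : ℝ) : ℂ)) := by
    rw [← Complex.exp_add]
    congr 1
    push_cast
    linear_combination ((h : ℂ) * u) * I_sq
  have e2 : cexp (I * (z - I * h) * u) = cexp (I * z * u) * cexp (((h * u : ℝ) : ℂ)) := by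
    rw [← Complex.exp_add]
    congr 1
    push_cast
    linear_combination (-(h : ℂ) * u) * I_sq
  rw [e1, e2, ofReal_cosh, Complex.cosh]
  ring

lemma cosh_pow_le (h u : ℝ) (n : ℕ) :
    0 ≤ Real.cosh (h * u) ^ n ∧ Real.cosh (h * u) ^ n ≤ Real.exp (n * h ^ 2 / 2 * u ^ 2) := by
  have h1 := Real.cosh_pos (h * u)
  refine ⟨by positivity, ?_⟩
  calc Real.cosh (h * u) ^ n ≤ Real.exp ((h * u) ^ 2 / 2) ^ n :=
        pow_le_pow_left₀ h1.le (Real.cosh_le_exp_half_sq _) n
    _ = Real.exp (n * h ^ 2 / 2 * u ^ 2) := by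
        rw [← Real.exp_nat_mul]
        congr 1
        ring

lemma SupG.cosh {K : ℝ → ℂ} (hs : SupG K) (h : ℝ) (n : ℕ) :
    SupG (fun u => K u * ((Real.cosh (h * u) ^ n : ℝ) : ℂ)) := by
  refine hs.mul_gauss (a := n * h ^ 2 / 2) (c := 1) (by norm_num) fun u => ?_
  rw [norm_mul, norm_real, Real.norm_eq_abs, abs_of_nonneg (cosh_pow_le h u n).1, one_mul]
  exact mul_le_mul_of_nonneg_left (cosh_pow_le h u n).2 (norm_nonneg _)

lemma InL_cosh {K : ℝ → ℂ} (hm : AEStronglyMeasurable K volume) (hs : SupG K) {D h : ℝ} (hh : 0 < h)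
    (hD : InL D (FT K)) (n : ℕ) :
    InL (√(max (D ^ 2 - n * h ^ 2) 0)) (FT (fun u => K u * ((Real.cosh (h * u) ^ n : ℝ) : ℂ))) := by
  induction n with
  | zero =>
    have e : (fun u : ℝ => K u * ((Real.cosh (h * u) ^ 0 : ℝ) : ℂ)) = K := by
      funext u
      simp
    rw [e]
    refine hD.mono ?_
    have h1 : √(max (D ^ 2 - ((0 : ℕ) : ℝ) * h ^ 2) 0) = |D| := by
      rw [Nat.cast_zero, zero_mul, sub_zero, max_eq_left (sq_nonneg D), Real.sqrt_sq_eq_abs]
    rw [h1]
    exact le_abs_self D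
  | succ n ih =>
    have hm' : AEStronglyMeasurable (fun u => K u * ((Real.cosh (h * u) ^ n : ℝ) : ℂ)) volume := by
      refine hm.mul (Continuous.aestronglyMeasurable ?_)
      have : Continuous Real.cosh := Real.continuous_cosh
      fun_prop
    have h1 := ih.shift (D' := √(max (D ^ 2 - ((n + 1 : ℕ) : ℝ) * h ^ 2) 0)) hh (Real.sqrt_nonneg _) ?_
    · rw [shf_FT hm' (hs.cosh h n).dec h] at h1
      have e : (fun u : ℝ => K u * ((Real.cosh (h * u) ^ n : ℝ) : ℂ) * ((Real.cosh (h * u) : ℝ) : ℂ)) =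
          fun u => K u * ((Real.cosh (h * u) ^ (n + 1) : ℝ) : ℂ) := by
        funext u
        rw [mul_assoc, ← ofReal_mul, ← pow_succ]
      rw [e] at h1
      exact h1
    · rw [Real.sq_sqrt (le_max_right _ _), Real.sq_sqrt (le_max_right _ _)]
      refine max_le ?_ ?_
      · have := le_max_left (D ^ 2 - ((n + 1 : ℕ) : ℝ) * h ^ 2) 0
        push_cast at this ⊢
        linarith
      · have := le_max_right (D ^ 2 - ((n + 1 : ℕ) : ℝ) * h ^ 2) 0
        positivity

lemma cosh_ge (x : ℝ) : 1 + x ^ 2 / 2 ≤ Real.cosh x := by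
  have h1 : Real.cosh x = 1 + 2 * Real.sinh (x / 2) ^ 2 := by
    have h2 : x = 2 * (x / 2) := by ring
    conv_lhs => rw [h2]
    rw [Real.cosh_two_mul, Real.cosh_sq]
    ring
  rw [h1]
  have h3 : (x / 2) ^ 2 ≤ Real.sinh (x / 2) ^ 2 := by
    rw [sq_le_sq]
    rcases le_total 0 (x / 2) with h | h
    · rw [abs_of_nonneg h, abs_of_nonneg (Real.sinh_nonneg_iff.2 h)]
      exact Real.self_le_sinh_iff.2 h
    · rw [abs_of_nonpos h, abs_of_nonpos (Real.sinh_nonpos_iff.2 h), ← Real.sinh_neg]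
      exact Real.self_le_sinh_iff.2 (by linarith)
  nlinarith

lemma cosh_tendsto {τ : ℝ} (hτ : 0 < τ) (u : ℝ) :
    Tendsto (fun n : ℕ => Real.cosh (√(2 * τ / n) * u) ^ n) atTop (𝓝 (Real.exp (τ * u ^ 2))) := by
  refine tendsto_of_tendsto_of_tendsto_of_le_of_le' (Real.tendsto_one_add_div_pow_exp (τ * u ^ 2))
    tendsto_const_nhds ?_ ?_
  · filter_upwards [eventually_ge_atTop 1] with n hn
    have hn0 : (0 : ℝ) < n := by exact_mod_cast hn
    refine pow_le_pow_left₀ (by positivity) ?_ n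
    refine le_trans (le_of_eq ?_) (cosh_ge _)
    rw [mul_pow, Real.sq_sqrt (by positivity)]
    ring
  · filter_upwards [eventually_ge_atTop 1] with n hn
    have hn0 : (0 : ℝ) < n := by exact_mod_cast hn
    refine (cosh_pow_le _ _ _).2.trans (le_of_eq ?_)
    congr 1
    rw [Real.sq_sqrt (by positivity)]
    field_simp

/-- De Bruijn's theorem. -/
theorem InL_heat {K : ℝ → ℂ} (hm : AEStronglyMeasurable K volume) (hs : SupG K) {D τ : ℝ} (hτ : 0 < τ)
    (hD : InL D (FT K)) : InL (√(max (D ^ 2 - 2 * τ) 0)) (FT (HK τ K)) := by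
  refine InL.limit fun R e he => ?_
  -- dominated convergence
  set B : ℝ → ℝ := fun u => ‖K u‖ * (2 * Real.exp (τ * u ^ 2)) * Real.exp (|R| * |u|) with hB
  have hBint : Integrable B := by
    have h1 : SupG (fun u => K u * ((2 * Real.exp (τ * u ^ 2) : ℝ) : ℂ)) := by
      refine hs.mul_gauss (a := τ) (c := 2) (by norm_num) fun u => ?_
      rw [norm_mul, norm_real, Real.norm_eq_abs, abs_of_pos (by positivity)]
    obtain ⟨C, hC⟩ := h1.dec (|R| + 1)
    refine (integrable_exp_neg_abs.const_mul C).mono' ?_ (ae_of_all _ fun u => ?_)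
    · exact (hm.norm.mul (by fun_prop : Continuous fun u : ℝ => 2 * Real.exp (τ * u ^ 2)).aestronglyMeasurable).mul
        (by fun_prop : Continuous fun u : ℝ => Real.exp (|R| * |u|)).aestronglyMeasurable
    · have h2 := hC u
      rw [norm_mul, norm_real, Real.norm_eq_abs, abs_of_pos (by positivity : 0 < 2 * Real.exp (τ * u ^ 2))] at h2
      rw [Real.norm_eq_abs, abs_of_nonneg (by positivity)]
      calc B u ≤ (C * Real.exp (-((|R| + 1) * |u|))) * Real.exp (|R| * |u|) :=
            mul_le_mul_of_nonneg_right h2 (Real.exp_pos _).le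
        _ = C * Real.exp (-|u|) := by
            rw [mul_assoc, ← Real.exp_add]
            congr 2
            ring
  have hlim : Tendsto (fun n : ℕ => ∫ u : ℝ, ‖K u‖ * |Real.cosh (√(2 * τ / n) * u) ^ n -
      Real.exp (τ * u ^ 2)| * Real.exp (|R| * |u|)) atTop (𝓝 (∫ _ : ℝ, (0 : ℝ))) := by
    have hcosh : Continuous Real.cosh := Real.continuous_cosh
    refine tendsto_integral_filter_of_dominated_convergence B ?_ ?_ hBint ?_
    · refine Eventually.of_forall fun n => ?_
      refine (hm.norm.mul (Continuous.aestronglyMeasurable ?_)).mul (Continuous.aestronglyMeasurable ?_)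
      · fun_prop
      · fun_prop
    · filter_upwards [eventually_ge_atTop 1] with n hn
      refine ae_of_all _ fun u => ?_
      have hn0 : (0 : ℝ) < n := by exact_mod_cast hn
      rw [Real.norm_eq_abs, abs_of_nonneg (by positivity), hB]
      refine mul_le_mul_of_nonneg_right (mul_le_mul_of_nonneg_left ?_ (norm_nonneg _)) (Real.exp_pos _).le
      obtain ⟨h1, h2⟩ := cosh_pow_le (√(2 * τ / n)) u n
      have h3 : (n : ℝ) * √(2 * τ / n) ^ 2 / 2 * u ^ 2 = τ * u ^ 2 := by
        rw [Real.sq_sqrt (by positivity)]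
        field_simp
      rw [h3] at h2
      rw [abs_le]
      have h4 := Real.exp_pos (τ * u ^ 2)
      constructor <;> linarith
    · refine ae_of_all _ fun u => ?_
      have h1 := ((cosh_tendsto hτ u).sub_const (Real.exp (τ * u ^ 2))).abs
      rw [sub_self, abs_zero] at h1
      have h2 := (h1.const_mul ‖K u‖).mul_const (Real.exp (|R| * |u|))
      rw [mul_zero, zero_mul] at h2
      exact h2
  rw [integral_zero] at hlim
  obtain ⟨n, hn1, hn2⟩ := ((eventually_ge_atTop 1).and (hlim.eventually (gt_mem_nhds he))).exists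
  have hn0 : (0 : ℝ) < n := by exact_mod_cast hn1
  have hh : 0 < √(2 * τ / n) := Real.sqrt_pos.2 (by positivity)
  have hI := InL_cosh hm hs hh hD n
  have h3 : (n : ℝ) * √(2 * τ / n) ^ 2 = 2 * τ := by
    rw [Real.sq_sqrt (by positivity)]
    field_simp
  rw [h3] at hI
  refine ⟨_, hI, fun z hz => ?_⟩
  have hcosh : Continuous Real.cosh := Real.continuous_cosh
  have hm' : AEStronglyMeasurable (fun u => K u * ((Real.cosh (√(2 * τ / n) * u) ^ n : ℝ) : ℂ)) volume := by
    refine hm.mul (Continuous.aestronglyMeasurable ?_)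
    fun_prop
  have hi1 := FT_integrable hm' (hs.cosh (√(2 * τ / n)) n) z
  have hi2 := FT_integrable (HK_meas hm τ) (hs.heat τ) z
  unfold FT
  rw [← integral_sub hi1 hi2]
  refine le_trans ?_ hn2.le
  refine norm_integral_le_of_norm_le ?_ (ae_of_all _ fun u => ?_)
  · refine hBint.mono' ?_ (ae_of_all _ fun u => ?_)
    · refine (hm.norm.mul (Continuous.aestronglyMeasurable ?_)).mul (Continuous.aestronglyMeasurable ?_)
      · fun_prop
      · fun_prop
    · rw [Real.norm_eq_abs, abs_of_nonneg (by positivity), hB]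
      refine mul_le_mul_of_nonneg_right (mul_le_mul_of_nonneg_left ?_ (norm_nonneg _)) (Real.exp_pos _).le
      obtain ⟨h1, h2⟩ := cosh_pow_le (√(2 * τ / n)) u n
      have h3 : (n : ℝ) * √(2 * τ / n) ^ 2 / 2 * u ^ 2 = τ * u ^ 2 := by
        rw [Real.sq_sqrt (by positivity)]
        field_simp
      rw [h3] at h2
      rw [abs_le]
      have h4 := Real.exp_pos (τ * u ^ 2)
      constructor <;> linarith
  · unfold HK
    rw [← sub_mul, ← mul_sub, ← ofReal_sub, norm_mul, norm_mul, norm_real, Real.norm_eq_abs]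
    refine mul_le_mul_of_nonneg_left ?_ (by positivity)
    refine (norm_exp_mul_le (I * z) u).trans (Real.exp_le_exp.2 ?_)
    refine mul_le_mul_of_nonneg_right ?_ (abs_nonneg _)
    have h5 : (I * z).re = -z.im := by simp
    rw [h5, abs_neg]
    exact ((abs_im_le_norm z).trans hz).trans (le_abs_self R)

end Pool.Agent.Helper36.YD
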