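import Pool.Agent.Helper36.YD4

set_option autoImplicit false

/-! # Division by a real zero and the heat flow -/

namespace Pool.Agent.Helper36.YD

open Complex Filter Topology Set MeasureTheory Pool.Agent.Helper36.XD

/-- The tail integral. -/
noncomputable def JK (r : ℝ) (K : ℝ → ℂ) (u : ℝ) : ℂ := ∫ v in Ioi u, K v * cexp (I * r * v)

/-- The kernel of `f / (1 - z / r)`. -/
noncomputable def QK (r : ℝ) (K : ℝ → ℂ) (u : ℝ) : ℂ := -(I * r * cexp (-(I * r * u))) * JK r K u

lemma norm_osc (r u : ℝ) : ‖cexp (I * r * u)‖ = 1 := by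
  have h : I * (r : ℂ) * u = ((r * u : ℝ) : ℂ) * I := by
    push_cast
    ring
  rw [h, norm_exp_ofReal_mul_I]

lemma norm_osc' (r u : ℝ) : ‖cexp (-(I * r * u))‖ = 1 := by
  rw [Complex.exp_neg, norm_inv, norm_osc, inv_one]

lemma tail_bound {K : ℝ → ℂ} {N C : ℝ} (hN : 0 ≤ N)
    (hC : ∀ u : ℝ, ‖K u‖ ≤ C * Real.exp (-((N + 1) * u ^ 2))) (r u : ℝ) {s : Set ℝ}
    (hsm : MeasurableSet s) (hs : ∀ v ∈ s, u ^ 2 ≤ v ^ 2) :
    ‖∫ v in s, K v * cexp (I * r * v)‖ ≤ C * √(Real.pi / 1) * Real.exp (-(N * u ^ 2)) := by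
  have hC0 : 0 ≤ C := by
    have h1 := hC 0
    have h2 := norm_nonneg (K 0)
    simp only [ne_eq, OfNat.ofNat_ne_zero, not_false_eq_true, zero_pow, mul_zero, neg_zero, Real.exp_zero,
      mul_one] at h1
    linarith
  have hint : Integrable (fun v : ℝ => C * Real.exp (-(N * u ^ 2)) * Real.exp (-1 * v ^ 2)) :=
    (integrable_exp_neg_mul_sq one_pos).const_mul _
  have h1 : ‖∫ v in s, K v * cexp (I * r * v)‖ ≤
      ∫ v in s, C * Real.exp (-(N * u ^ 2)) * Real.exp (-1 * v ^ 2) := by
    refine norm_integral_le_of_norm_le hint.integrableOn ?_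
    refine (ae_restrict_iff' hsm).2 (ae_of_all _ fun v hv => ?_)
    rw [norm_mul, norm_osc, mul_one, mul_assoc, ← Real.exp_add]
    refine (hC v).trans (mul_le_mul_of_nonneg_left (Real.exp_le_exp.2 ?_) hC0)
    nlinarith [hs v hv]
  have h2 : ∫ v in s, C * Real.exp (-(N * u ^ 2)) * Real.exp (-1 * v ^ 2) ≤
      ∫ v : ℝ, C * Real.exp (-(N * u ^ 2)) * Real.exp (-1 * v ^ 2) :=
    setIntegral_le_integral hint (ae_of_all _ fun v => by positivity)
  have h3 : ∫ v : ℝ, C * Real.exp (-(N * u ^ 2)) * Real.exp (-1 * v ^ 2) =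
      C * Real.exp (-(N * u ^ 2)) * √(Real.pi / 1) := by
    rw [integral_const_mul, integral_gaussian]
  refine (h1.trans h2).trans (le_of_eq ?_)
  rw [h3]
  ring

variable {K : ℝ → ℂ}

lemma osc_integrable (hc : Continuous K) (hs : SupG K) (r : ℝ) :
    Integrable (fun v : ℝ => K v * cexp (I * r * v)) := FT_integrable hc.aestronglyMeasurable hs r

lemma JK_eq (hc : Continuous K) (hs : SupG K) {r : ℝ} (h0 : FT K r = 0) (u : ℝ) :
    JK r K u = -∫ v in Iic u, K v * cexp (I * r * v) := by
  have h1 := osc_integrable hc hs r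
  have h2 := intervalIntegral.integral_Iic_add_Ioi (b := u) h1.integrableOn h1.integrableOn
  have h3 : ∫ v : ℝ, K v * cexp (I * r * v) = 0 := h0
  rw [h3] at h2
  unfold JK
  exact eq_neg_of_add_eq_zero_right h2

lemma JK_hasDerivAt (hc : Continuous K) (hs : SupG K) {r : ℝ} (h0 : FT K r = 0) (u : ℝ) :
    HasDerivAt (JK r K) (-(K u * cexp (I * r * u))) u := by
  have h1 := osc_integrable hc hs r
  have hg : Continuous (fun v : ℝ => K v * cexp (I * r * v)) := hc.mul (by fun_prop)
  have e : JK r K = fun u => -((∫ v in Iic (0 : ℝ), K v * cexp (I * r * v)) +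
      ∫ v in (0 : ℝ)..u, K v * cexp (I * r * v)) := by
    funext u
    rw [JK_eq hc hs h0, ← intervalIntegral.integral_Iic_sub_Iic h1.integrableOn h1.integrableOn]
    ring
  rw [e]
  exact ((hg.integral_hasStrictDerivAt 0 u).hasDerivAt.const_add _).neg

lemma JK_SupG (hc : Continuous K) (hs : SupG K) {r : ℝ} (h0 : FT K r = 0) : SupG (JK r K) := by
  intro N
  obtain ⟨C, hC⟩ := hs (|N| + 1)
  have hC0 : 0 ≤ C := by
    have h1 := hC 0
    have h2 := norm_nonneg (K 0)
    simp only [ne_eq, OfNat.ofNat_ne_zero, not_false_eq_true, zero_pow, mul_zero, neg_zero, Real.exp_zero,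
      mul_one] at h1
    linarith
  refine ⟨C * √(Real.pi / 1), fun u => ?_⟩
  have h1 : ‖JK r K u‖ ≤ C * √(Real.pi / 1) * Real.exp (-(|N| * u ^ 2)) := by
    rcases le_total 0 u with h | h
    · unfold JK
      refine tail_bound (abs_nonneg N) hC r u measurableSet_Ioi fun v hv => ?_
      exact pow_le_pow_left₀ h (le_of_lt hv) 2
    · rw [JK_eq hc hs h0, norm_neg]
      refine tail_bound (abs_nonneg N) hC r u measurableSet_Iic fun v hv => ?_
      have hv' : v ≤ u := hv
      nlinarith
  refine h1.trans (mul_le_mul_of_nonneg_left (Real.exp_le_exp.2 ?_) (by positivity))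
  have := mul_le_mul_of_nonneg_right (le_abs_self N) (sq_nonneg u)
  linarith

lemma QK_SupG (hc : Continuous K) (hs : SupG K) {r : ℝ} (h0 : FT K r = 0) : SupG (QK r K) := by
  refine (JK_SupG hc hs h0).mul_gauss (a := 0) (c := |r|) (abs_nonneg r) fun u => ?_
  unfold QK
  rw [norm_mul, norm_neg, norm_mul, norm_mul, norm_I, norm_real, norm_osc', Real.norm_eq_abs, one_mul,
    mul_one, zero_mul, Real.exp_zero, mul_one, mul_comm]

lemma QK_hasDerivAt (hc : Continuous K) (hs : SupG K) {r : ℝ} (h0 : FT K r = 0) (u : ℝ) :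
    HasDerivAt (QK r K) (-(I * r) * QK r K u + I * r * K u) u := by
  have h1 : HasDerivAt (fun u : ℝ => -(I * r * (u : ℂ))) (-(I * r)) u := by
    have h2 := ((Complex.ofRealCLM.hasDerivAt (x := u)).const_mul (I * (r : ℂ))).fun_neg
    simpa using h2
  have h2 := (h1.cexp.const_mul (I * (r : ℂ))).fun_neg
  have h3 := h2.fun_mul (JK_hasDerivAt hc hs h0 u)
  refine h3.congr_deriv ?_
  unfold QK
  have h4 : cexp (-(I * r * u)) * cexp (I * r * u) = 1 := by
    rw [← Complex.exp_add]
    simp
  linear_combination (I * r * K u) * h4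

lemma QK_cont (hc : Continuous K) (hs : SupG K) {r : ℝ} (h0 : FT K r = 0) : Continuous (QK r K) :=
  continuous_iff_continuousAt.2 fun u => (QK_hasDerivAt hc hs h0 u).continuousAt

/-- The commutation of the heat flow with multiplication by `1 - z / r`. -/
theorem FT_QK (hc : Continuous K) (hs : SupG K) {r : ℝ} (hr : r ≠ 0) (h0 : FT K r = 0) (τ : ℝ) (z : ℂ) :
    FT (HK τ K) z = (1 - z / r) * FT (HK τ (QK r K)) z +
      (2 * τ / r) * FT (fun u => I * (u : ℂ) * HK τ (QK r K) u) z := by
  have hQs := QK_SupG hc hs h0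
  have hQc := QK_cont hc hs h0
  have hHQc : Continuous (HK τ (QK r K)) := by unfold HK; fun_prop
  have hHKc : Continuous (HK τ K) := by unfold HK; fun_prop
  have i1 := FT_integrable hHKc.aestronglyMeasurable (hs.heat τ) z
  have i2 := FT_integrable hHQc.aestronglyMeasurable (hQs.heat τ) z
  have hidc : Continuous (fun u : ℝ => I * (u : ℂ) * HK τ (QK r K) u) := by fun_prop
  have i3 := FT_integrable hidc.aestronglyMeasurable (hQs.heat τ).id_mul z
  set W : ℝ → ℂ := HK τ (QK r K) with hW
  set W' : ℝ → ℂ := fun u => -(I * r) * W u + I * r * HK τ K u + 2 * τ * u * W u with hW'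
  have hWd : ∀ u : ℝ, HasDerivAt W (W' u) u := by
    intro u
    have h1 : HasDerivAt (fun u : ℝ => ((Real.exp (τ * u ^ 2) : ℝ) : ℂ))
        (((Real.exp (τ * u ^ 2) * (τ * (2 * u)) : ℝ)) : ℂ) u := by
      have h2 : HasDerivAt (fun u : ℝ => Real.exp (τ * u ^ 2)) (Real.exp (τ * u ^ 2) * (τ * (2 * u))) u := by
        have h3 : HasDerivAt (fun u : ℝ => τ * u ^ 2) (τ * (2 * u)) u := by
          have := ((hasDerivAt_id u).pow 2).const_mul τ
          simpa using this
        exact h3.exp
      exact h2.ofReal_comp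
    have h2 := (QK_hasDerivAt hc hs h0 u).fun_mul h1
    refine h2.congr_deriv ?_
    rw [hW', hW]
    simp only [HK]
    push_cast
    ring
  have hVd : ∀ u : ℝ, HasDerivAt (fun u : ℝ => cexp (I * z * u)) (I * z * cexp (I * z * u)) u := by
    intro u
    have h1 : HasDerivAt (fun u : ℝ => I * z * (u : ℂ)) (I * z) u := by
      have h2 := (Complex.ofRealCLM.hasDerivAt (x := u)).const_mul (I * z)
      simpa using h2
    refine h1.cexp.congr_deriv ?_
    ring
  have j1 : Integrable (W * fun u : ℝ => I * z * cexp (I * z * u)) := by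
    refine (i2.const_mul (I * z)).congr (ae_of_all _ fun u => ?_)
    simp only [Pi.mul_apply]
    ring
  have j2 : Integrable (W' * fun u : ℝ => cexp (I * z * u)) := by
    refine (((i2.const_mul (-(I * r))).add (i1.const_mul (I * r))).add (i3.const_mul (-(2 * τ * I)))).congr
      (ae_of_all _ fun u => ?_)
    simp only [Pi.mul_apply, Pi.add_apply, hW']
    linear_combination (2 * τ * u * W u * cexp (I * z * u)) * (-I_sq)
  have j3 : Integrable (W * fun u : ℝ => cexp (I * z * u)) := i2
  have hparts := integral_mul_deriv_eq_deriv_mul_of_integrable (u := W) (v := fun u : ℝ => cexp (I * z * u))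
    (u' := W') (v' := fun u : ℝ => I * z * cexp (I * z * u)) (fun x _ => hWd x) (fun x _ => hVd x) j1 j2 j3
  have e1 : ∫ u : ℝ, W u * (I * z * cexp (I * z * u)) = I * z * FT W z := by
    unfold FT
    rw [← integral_const_mul]
    refine integral_congr_ae (ae_of_all _ fun u => ?_)
    simp only
    ring
  have e2 : ∫ u : ℝ, W' u * cexp (I * z * u) = -(I * r) * FT W z + I * r * FT (HK τ K) z +
      -(2 * τ * I) * FT (fun u => I * (u : ℂ) * W u) z := by
    have e3 : (fun u : ℝ => W' u * cexp (I * z * u)) = fun u : ℝ =>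
        (-(I * r) * (W u * cexp (I * z * u)) + I * r * (HK τ K u * cexp (I * z * u))) +
          -(2 * τ * I) * (I * (u : ℂ) * W u * cexp (I * z * u)) := by
      funext u
      simp only [hW']
      linear_combination (2 * τ * u * W u * cexp (I * z * u)) * (I_sq)
    have k12 : Integrable (fun u : ℝ => -(I * r) * (W u * cexp (I * z * u)) +
        I * r * (HK τ K u * cexp (I * z * u))) := (i2.const_mul _).add (i1.const_mul _)
    rw [e3, integral_add k12 (i3.const_mul _), integral_add (i2.const_mul _) (i1.const_mul _),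
      integral_const_mul, integral_const_mul, integral_const_mul]
    rfl
  rw [e1, e2] at hparts
  have hrc : (r : ℂ) ≠ 0 := by exact_mod_cast hr
  have h5 : I * (z * FT W z) = I * (r * FT W z - r * FT (HK τ K) z +
      2 * τ * FT (fun u => I * (u : ℂ) * W u) z) := by
    linear_combination hparts
  have h6 := mul_left_cancel₀ I_ne_zero h5
  field_simp
  linear_combination h6

/-- The heat flow as a Gaussian average. -/
theorem FT_gauss (hm : Continuous K) (hs : SupG K) {τ : ℝ} (hτ : 0 < τ) (z : ℂ) :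
    Integrable (fun y : ℝ => FT K (z - I * y) * (gau τ y : ℂ)) ∧
      FT (HK τ K) z = ∫ y : ℝ, FT K (z - I * y) * (gau τ y : ℂ) := by
  have hmeas : AEStronglyMeasurable (Function.uncurry fun (u y : ℝ) =>
      (K u * cexp (I * z * u)) * (cexp ((u : ℂ) * y) * (gau τ y : ℂ))) (volume.prod volume) := by
    have h1 : Continuous (fun p : ℝ × ℝ => (gau τ p.2 : ℂ)) :=
      Complex.continuous_ofReal.comp ((gau_cont τ).comp continuous_snd)
    have h2 : Continuous (fun p : ℝ × ℝ => K p.1 * cexp (I * z * p.1)) :=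
      (hm.comp continuous_fst).mul (by fun_prop)
    have h3 : Continuous (fun p : ℝ × ℝ => cexp ((p.1 : ℂ) * p.2)) := by fun_prop
    exact (h2.mul (h3.mul h1)).aestronglyMeasurable
  have hInt : Integrable (Function.uncurry fun (u y : ℝ) =>
      (K u * cexp (I * z * u)) * (cexp ((u : ℂ) * y) * (gau τ y : ℂ))) (volume.prod volume) := by
    refine (integrable_prod_iff hmeas).2 ⟨ae_of_all _ fun u => ?_, ?_⟩
    · simp only [Function.uncurry]
      exact (gau_cintegrable hτ (u : ℂ)).const_mul _
    · simp only [Function.uncurry]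
      have h4 := (FT_integrable (HK_meas hm.aestronglyMeasurable τ) (hs.heat τ) z).norm
      refine h4.congr (ae_of_all _ fun u => ?_)
      simp only [norm_mul, norm_real, Real.norm_eq_abs, HK]
      rw [integral_const_mul]
      obtain ⟨-, h5⟩ := gau_int hτ (q := 0) (by norm_num) u
      have h6 : ∫ y : ℝ, ‖cexp ((u : ℂ) * y)‖ * |gau τ y| = Real.exp (τ * u ^ 2) := by
        have e0 : (√(1 - 4 * τ * 0))⁻¹ * Real.exp (τ * u ^ 2 / (1 - 4 * τ * 0)) =
          Real.exp (τ * u ^ 2) := by simp
        rw [e0] at h5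
        rw [← h5]
        refine integral_congr_ae (ae_of_all _ fun y => ?_)
        simp only
        rw [abs_of_nonneg (gau_nonneg _ _), zero_mul, add_zero, ← ofReal_mul, ← ofReal_exp, norm_real,
          Real.norm_eq_abs, abs_of_pos (Real.exp_pos _)]
      rw [h6, abs_of_pos (Real.exp_pos _)]
      ring
  have e1 : ∀ y : ℝ, FT K (z - I * y) * (gau τ y : ℂ) =
      ∫ u : ℝ, (K u * cexp (I * z * u)) * (cexp ((u : ℂ) * y) * (gau τ y : ℂ)) := by
    intro y
    unfold FT
    rw [← integral_mul_const]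
    refine integral_congr_ae (ae_of_all _ fun u => ?_)
    simp only
    have e2 : cexp (I * (z - I * y) * u) = cexp (I * z * u) * cexp ((u : ℂ) * y) := by
      rw [← Complex.exp_add]
      congr 1
      linear_combination (-(y : ℂ) * u) * I_sq
    rw [e2]
    ring
  constructor
  · have h7 := hInt.integral_prod_right
    refine h7.congr (ae_of_all _ fun y => ?_)
    simp only [Function.uncurry]
    exact (e1 y).symm
  · simp only [e1]
    rw [← integral_integral_swap hInt]
    unfold FT
    refine integral_congr_ae (ae_of_all _ fun u => ?_)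
    simp only
    rw [integral_const_mul, gau_cint hτ]
    unfold HK
    push_cast
    ring

end Pool.Agent.Helper36.YD
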