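import Pool.Agent.Helper36.YD5

set_option autoImplicit false

/-! # Strictness of the heat flow -/

namespace Pool.Agent.Helper36.YD

open Complex Filter Topology Set MeasureTheory Metric Pool.Agent.Helper36.XD

lemma diff_iter {f : ℂ → ℂ} (hf : Differentiable ℂ f) (k : ℕ) : Differentiable ℂ (iteratedDeriv k f) :=
  (hf.contDiff (n := (k + 1 : ℕ))).differentiable_iteratedDeriv' k

lemma iter_hasDerivAt {f : ℂ → ℂ} (hf : Differentiable ℂ f) (k : ℕ) (z : ℂ) :
    HasDerivAt (iteratedDeriv k f) (iteratedDeriv (k + 1) f z) z := by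
  rw [iteratedDeriv_succ]
  exact (diff_iter hf k z).hasDerivAt

lemma iter_identity {Q F : ℂ → ℂ} (hQ : Differentiable ℂ Q) {r : ℝ} {c : ℂ}
    (h : ∀ z, F z = (1 - z / r) * Q z + c * deriv Q z) (k : ℕ) (z : ℂ) :
    iteratedDeriv k F z = (1 - z / r) * iteratedDeriv k Q z - (k / r) * iteratedDeriv (k - 1) Q z +
      c * iteratedDeriv (k + 1) Q z := by
  induction k generalizing z with
  | zero =>
    rw [iteratedDeriv_zero, iteratedDeriv_zero, h z, zero_add, iteratedDeriv_one]
    push_cast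
    ring
  | succ k ih =>
    rw [iteratedDeriv_succ]
    have e : iteratedDeriv k F = fun z => (1 - z / r) * iteratedDeriv k Q z -
      (k / r) * iteratedDeriv (k - 1) Q z + c * iteratedDeriv (k + 1) Q z := funext ih
    rw [e]
    have h1 : HasDerivAt (fun z : ℂ => 1 - z / r) (-(1 / r)) z :=
      ((hasDerivAt_id z).div_const (r : ℂ)).const_sub 1
    have h2 : HasDerivAt (fun z : ℂ => ((k : ℂ) / r) * iteratedDeriv (k - 1) Q z)
        ((k / r) * iteratedDeriv k Q z) z := by
      rcases Nat.eq_zero_or_pos k with hk | hk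
      · subst hk
        simp only [Nat.cast_zero, zero_div, zero_mul]
        exact hasDerivAt_const z 0
      · have h3 := (iter_hasDerivAt hQ (k - 1) z).const_mul ((k : ℂ) / r)
        rw [Nat.sub_add_cancel hk] at h3
        exact h3
    have h4 := ((h1.fun_mul (iter_hasDerivAt hQ k z)).fun_sub h2).fun_add
      ((iter_hasDerivAt hQ (k + 1) z).const_mul c)
    rw [h4.deriv]
    simp only [Nat.add_sub_cancel]
    push_cast
    ring

lemma iter_vanish {Q F : ℂ → ℂ} (hQ : Differentiable ℂ Q) {r : ℝ} {c : ℂ} (hc : c ≠ 0)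
    (h : ∀ z, F z = (1 - z / r) * Q z + c * deriv Q z) {z0 : ℂ} (hQ0 : Q z0 = 0) {M : ℕ}
    (hF : ∀ j < M, iteratedDeriv j F z0 = 0) : ∀ j ≤ M, iteratedDeriv j Q z0 = 0 := by
  intro j
  induction j using Nat.strong_induction_on with
  | _ j ih =>
    intro hj
    rcases j with _ | k
    · rw [iteratedDeriv_zero]
      exact hQ0
    · have h1 := iter_identity hQ h k z0
      rw [hF k (by omega), ih k (by omega) (by omega), ih (k - 1) (by omega) (by omega)] at h1
      rw [mul_zero, mul_zero, sub_zero, zero_add] at h1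
      exact (mul_eq_zero.1 h1.symm).resolve_left hc

variable {K : ℝ → ℂ}

lemma HK_zero (K : ℝ → ℂ) : HK 0 K = K := by
  funext u
  unfold HK
  simp

lemma FT_QK_zero (hc : Continuous K) (hs : SupG K) {r : ℝ} (hr : r ≠ 0) (h0 : FT K r = 0) (z : ℂ) :
    FT K z = (1 - z / r) * FT (QK r K) z := by
  have h := FT_QK hc hs hr h0 0 z
  rw [HK_zero, HK_zero] at h
  rw [h]
  simp

lemma FT_QK_deriv (hc : Continuous K) (hs : SupG K) {r : ℝ} (hr : r ≠ 0) (h0 : FT K r = 0) (τ : ℝ)
    (z : ℂ) : FT (HK τ K) z = (1 - z / r) * FT (HK τ (QK r K)) z +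
      (2 * τ / r) * deriv (FT (HK τ (QK r K))) z := by
  rw [FT_QK hc hs hr h0 τ z, (FT_hasDerivAt (HK_meas (QK_cont hc hs h0).aestronglyMeasurable τ)
    ((QK_SupG hc hs h0).heat τ) z).deriv]

/-- As the real zero goes to infinity, the quotients converge. -/
theorem conv (hc : Continuous K) (hs : SupG K) {τ : ℝ} (hτ : 0 < τ) (R : ℝ) :
    ∃ C : ℝ, 0 ≤ C ∧ ∀ r : ℝ, r ≠ 0 → 2 * R ≤ |r| → FT K r = 0 → ∀ z : ℂ, ‖z‖ ≤ R →
      ‖FT (HK τ (QK r K)) z - FT (HK τ K) z‖ ≤ C / |r| := by
  set e : ℝ := 1 / (16 * τ) with he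
  have he0 : 0 < e := by positivity
  obtain ⟨C1, hC10, hC1⟩ := FT_growth hs he0
  have hq : 4 * τ * (2 * e) < 1 := by
    rw [he]
    have : 4 * τ * (2 * (1 / (16 * τ))) = 1 / 2 := by
      field_simp
      norm_num
    rw [this]
    norm_num
  set G : ℝ → ℝ := fun y => (Real.exp (1 * y + 2 * e * y ^ 2) * gau τ y +
    Real.exp (-1 * y + 2 * e * y ^ 2) * gau τ y) with hG
  have hGi : Integrable G := (gau_int hτ hq 1).1.add (gau_int hτ hq (-1)).1
  set A : ℝ := 2 * C1 * Real.exp (2 * e * R ^ 2) * Real.exp R with hA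
  have hA0 : 0 ≤ A := by positivity
  have hG0 : ∀ y, 0 ≤ G y := fun y => by
    rw [hG]
    have := gau_nonneg τ y
    positivity
  refine ⟨A * ∫ y, G y, mul_nonneg hA0 (integral_nonneg hG0), fun r hr hrR h0 z hz => ?_⟩
  have hR0 : 0 ≤ R := (norm_nonneg z).trans hz
  have hrp : 0 < |r| := abs_pos.2 hr
  obtain ⟨i1, e1⟩ := FT_gauss (QK_cont hc hs h0) (QK_SupG hc hs h0) hτ z
  obtain ⟨i2, e2⟩ := FT_gauss hc hs hτ z
  rw [e1, e2, ← integral_sub i1 i2]
  have h1 : ‖∫ y : ℝ, (FT (QK r K) (z - I * y) * (gau τ y : ℂ) - FT K (z - I * y) * (gau τ y : ℂ))‖ ≤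
      ∫ y : ℝ, A / |r| * G y := by
    refine norm_integral_le_of_norm_le (hGi.const_mul _) (ae_of_all _ fun y => ?_)
    rw [← sub_mul, norm_mul, norm_real, Real.norm_eq_abs, abs_of_nonneg (gau_nonneg τ y)]
    set w : ℂ := z - I * y with hw
    have hwre : w.re = z.re := by simp [hw]
    have hwim : w.im = z.im - y := by simp [hw]
    have hid := FT_QK_zero hc hs hr h0 w
    have hrc : (r : ℂ) ≠ 0 := by exact_mod_cast hr
    have h2 : 1 / 2 ≤ ‖1 - w / r‖ := by
      have h3 := abs_re_le_norm (1 - w / r)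
      have h4 : (1 - w / (r : ℂ)).re = 1 - z.re / r := by
        rw [sub_re, one_re, Complex.div_ofReal_re, hwre]
      rw [h4] at h3
      have h5 : |z.re / r| ≤ 1 / 2 := by
        rw [abs_div, div_le_iff₀ hrp]
        have := (abs_re_le_norm z).trans hz
        linarith
      have h6 := abs_le.1 h5
      have h7 := le_abs_self (1 - z.re / r)
      linarith
    have h3 : ‖FT (QK r K) w‖ ≤ 2 * ‖FT K w‖ := by
      rw [hid, norm_mul]
      have := mul_le_mul_of_nonneg_right h2 (norm_nonneg (FT (QK r K) w))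
      linarith
    have h4 : FT (QK r K) w - FT K w = w / r * FT (QK r K) w := by
      rw [hid]
      ring
    have hzim : |z.im| ≤ R := (abs_im_le_norm z).trans hz
    have h5 : ‖w‖ ≤ Real.exp R * Real.exp |y| := by
      have h6 : ‖w‖ ≤ R + |y| := by
        rw [hw]
        refine (norm_sub_le _ _).trans ?_
        rw [norm_mul, norm_I, one_mul, norm_real, Real.norm_eq_abs]
        linarith
      rw [← Real.exp_add]
      have := Real.add_one_le_exp (R + |y|)
      linarith
    have h6 : ‖FT K w‖ ≤ C1 * (Real.exp (2 * e * R ^ 2) * Real.exp (2 * e * y ^ 2)) := by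
      refine (hC1 w).trans (mul_le_mul_of_nonneg_left ?_ hC10)
      rw [← Real.exp_add, hwim]
      refine Real.exp_le_exp.2 ?_
      have h7 : z.im ^ 2 ≤ R ^ 2 := by
        rw [← sq_abs z.im]
        exact pow_le_pow_left₀ (abs_nonneg _) hzim 2
      have h8 : (z.im - y) ^ 2 ≤ 2 * R ^ 2 + 2 * y ^ 2 := by nlinarith [sq_nonneg (z.im + y)]
      have h9 := mul_le_mul_of_nonneg_left h8 he0.le
      linarith
    have h7 : Real.exp |y| ≤ Real.exp (1 * y) + Real.exp (-1 * y) := by
      rcases abs_cases y with ⟨h, _⟩ | ⟨h, _⟩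
      · rw [h, one_mul]
        linarith [Real.exp_pos (-1 * y)]
      · rw [h, neg_one_mul]
        linarith [Real.exp_pos (1 * y)]
    rw [h4, norm_mul, norm_div, norm_real, Real.norm_eq_abs]
    have h8 : G y = (Real.exp (1 * y) + Real.exp (-1 * y)) * Real.exp (2 * e * y ^ 2) * gau τ y := by
      simp only [hG]
      rw [Real.exp_add, Real.exp_add]
      ring
    have hg := gau_nonneg τ y
    calc ‖w‖ / |r| * ‖FT (QK r K) w‖ * gau τ y
        ≤ (Real.exp R * (Real.exp (1 * y) + Real.exp (-1 * y))) / |r| *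
          (2 * (C1 * (Real.exp (2 * e * R ^ 2) * Real.exp (2 * e * y ^ 2)))) * gau τ y := by
          gcongr
          · exact h5.trans (mul_le_mul_of_nonneg_left h7 (Real.exp_pos _).le)
          · exact h3.trans (by linarith)
      _ = A / |r| * G y := by
          rw [h8, hA]
          ring
  refine h1.trans (le_of_eq ?_)
  rw [integral_const_mul]
  ring

/-- If all quotients vanish at a point, the function vanishes identically. -/
theorem no_common_zero (hc : Continuous K) (hs : SupG K) {τ : ℝ} (hτ : 0 < τ)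
    (hinf : ∀ R : ℝ, ∃ r : ℝ, R ≤ |r| ∧ FT K r = 0) (hF0 : ∃ z1, FT (HK τ K) z1 ≠ 0) {z0 : ℂ}
    (hQ : ∀ r : ℝ, r ≠ 0 → FT K r = 0 → FT (HK τ (QK r K)) z0 = 0) : False := by
  have hFd : Differentiable ℂ (FT (HK τ K)) :=
    FT_differentiable (HK_meas hc.aestronglyMeasurable τ) (hs.heat τ)
  obtain ⟨C, hC0, hC⟩ := conv hc hs hτ (‖z0‖ + 1)
  have hall : ∀ M : ℕ, iteratedDeriv M (FT (HK τ K)) z0 = 0 := by
    intro M
    induction M using Nat.strong_induction_on with
    | _ M ih =>
      have key : ∀ n : ℕ, ‖iteratedDeriv M (FT (HK τ K)) z0‖ ≤ M.factorial * C / (n + 1) := by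
        intro n
        obtain ⟨r, hrR, h0⟩ := hinf (2 * (‖z0‖ + 1) + (n + 1))
        have hn0 : (0 : ℝ) ≤ n := Nat.cast_nonneg n
        have hz0 := norm_nonneg z0
        have hrn : (n : ℝ) + 1 ≤ |r| := by linarith
        have hrp : 0 < |r| := by linarith
        have hr : r ≠ 0 := abs_pos.1 hrp
        have hQd : Differentiable ℂ (FT (HK τ (QK r K))) :=
          FT_differentiable (HK_meas (QK_cont hc hs h0).aestronglyMeasurable τ)
            ((QK_SupG hc hs h0).heat τ)
        have hcne : (2 * τ / r : ℂ) ≠ 0 := by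
          have h1 : (r : ℂ) ≠ 0 := by exact_mod_cast hr
          have h2 : (τ : ℂ) ≠ 0 := by exact_mod_cast hτ.ne'
          exact div_ne_zero (mul_ne_zero two_ne_zero h2) h1
        have h1 := iter_vanish hQd hcne (FT_QK_deriv hc hs hr h0 τ) (hQ r hr h0) ih M le_rfl
        have h2 : iteratedDeriv M (FT (HK τ (QK r K)) - FT (HK τ K)) z0 =
            -iteratedDeriv M (FT (HK τ K)) z0 := by
          rw [iteratedDeriv_sub (hQd.contDiff.contDiffAt) (hFd.contDiff.contDiffAt), h1, zero_sub]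
        have h3 := Complex.norm_iteratedDeriv_le_of_forall_mem_sphere_norm_le (c := z0) (R := 1)
          (C := C / |r|) (f := FT (HK τ (QK r K)) - FT (HK τ K)) M one_pos
          ((hQd.sub hFd).diffContOnCl) ?_
        · rw [h2, norm_neg, one_pow, div_one] at h3
          refine h3.trans ?_
          rw [mul_div_assoc]
          gcongr
        · intro z hz
          have hz1 : ‖z - z0‖ = 1 := by simpa [dist_eq_norm] using hz
          refine hC r hr (by linarith) h0 z ?_
          have := norm_add_le (z - z0) z0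
          rw [sub_add_cancel] at this
          linarith
      have hlim : Tendsto (fun n : ℕ => (M.factorial * C : ℝ) / ((n : ℝ) + 1)) atTop (𝓝 0) := by
        have h1 := tendsto_one_div_add_atTop_nhds_zero_nat (𝕜 := ℝ)
        have h2 := h1.const_mul (M.factorial * C : ℝ)
        rw [mul_zero] at h2
        refine h2.congr fun n => ?_
        ring
      have h4 := ge_of_tendsto' hlim key
      exact norm_le_zero_iff.1 h4
  obtain ⟨z1, hz1⟩ := hF0
  apply hz1
  rw [← Complex.taylorSeries_eq_of_entire' z0 z1 hFd]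
  simp [hall]

/-- The sign of the logarithmic derivative. -/
lemma InL.im_deriv {D : ℝ} {Q : ℂ → ℂ} (hQ : InL D Q) (hd : Differentiable ℂ Q) {z : ℂ}
    (hz : D ≤ z.im) : ((starRingEnd ℂ) (Q z) * deriv Q z).im ≤ 0 := by
  set φ : ℝ → ℝ := fun y => normSq (Q ((z.re : ℂ) + y * I)) with hφ
  have hder : HasDerivAt φ (-(2 * ((starRingEnd ℂ) (Q z) * deriv Q z).im)) z.im := by
    have h1 : HasDerivAt (fun y : ℝ => (z.re : ℂ) + y * I) I z.im := by
      simpa using ((Complex.ofRealCLM.hasDerivAt (x := z.im)).mul_const I).const_add (z.re : ℂ)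
    have h2 : HasDerivAt (fun y : ℝ => Q ((z.re : ℂ) + y * I)) (deriv Q z * I) z.im := by
      have h3 : HasDerivAt Q (deriv Q z) ((z.re : ℂ) + z.im * I) := by
        rw [re_add_im]
        exact (hd z).hasDerivAt
      exact h3.comp z.im h1
    have hre : HasDerivAt (fun y : ℝ => (Q ((z.re : ℂ) + y * I)).re) (deriv Q z * I).re z.im :=
      Complex.reCLM.hasFDerivAt.comp_hasDerivAt z.im h2
    have him : HasDerivAt (fun y : ℝ => (Q ((z.re : ℂ) + y * I)).im) (deriv Q z * I).im z.im :=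
      Complex.imCLM.hasFDerivAt.comp_hasDerivAt z.im h2
    have h3 := (hre.fun_mul hre).fun_add (him.fun_mul him)
    have e : φ = fun y : ℝ => (Q ((z.re : ℂ) + y * I)).re * (Q ((z.re : ℂ) + y * I)).re +
        (Q ((z.re : ℂ) + y * I)).im * (Q ((z.re : ℂ) + y * I)).im := by
      funext y
      simp only [hφ, normSq_apply]
    rw [e]
    refine h3.congr_deriv ?_
    rw [re_add_im]
    simp only [mul_re, mul_im, conj_re, conj_im, I_re, I_im]
    ring
  have hslope := hder.tendsto_slope_zero_right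
  have hge : ∀ᶠ t in 𝓝[>] (0 : ℝ), 0 ≤ t⁻¹ • (φ (z.im + t) - φ z.im) := by
    refine eventually_mem_nhdsWithin.mono fun t ht => ?_
    have ht0 : 0 < t := ht
    rw [smul_eq_mul]
    refine mul_nonneg (by positivity) ?_
    have h1 := hQ.norm_mono (x := z.re) hz (show z.im ≤ z.im + t by linarith)
    simp only [hφ, normSq_eq_norm_sq]
    have h2 := pow_le_pow_left₀ (norm_nonneg _) h1 2
    linarith
  have := ge_of_tendsto hslope hge
  linarith

lemma deriv_conj_real {Q : ℂ → ℂ} (hr : ∀ w, Q ((starRingEnd ℂ) w) = (starRingEnd ℂ) (Q w)) (w : ℂ) :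
    deriv Q ((starRingEnd ℂ) w) = (starRingEnd ℂ) (deriv Q w) := by
  have e : Q = (starRingEnd ℂ) ∘ Q ∘ (starRingEnd ℂ) := by
    funext w
    simp only [Function.comp_apply, hr, Complex.conj_conj]
  have h : deriv Q ((starRingEnd ℂ) w) =
      deriv ((starRingEnd ℂ) ∘ Q ∘ (starRingEnd ℂ)) ((starRingEnd ℂ) w) :=
    congrArg (fun f : ℂ → ℂ => deriv f ((starRingEnd ℂ) w)) e
  rw [h, deriv_conj_conj]
  simp only [Function.comp_apply, Complex.conj_conj]

/-- Laguerre's inequality. -/
lemma InL.laguerre {Q : ℂ → ℂ} (hQ : InL 0 Q) (hd : Differentiable ℂ Q) {x : ℝ} :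
    ((starRingEnd ℂ) (Q x) * deriv (deriv Q) x).re ≤ normSq (deriv Q x) := by
  have hd' : Differentiable ℂ (deriv Q) := by
    have := diff_iter hd 1
    rwa [iteratedDeriv_one] at this
  have hQr : (starRingEnd ℂ) (Q x) = Q x := by
    rw [← hQ.conj, conj_ofReal]
  have hQr' : (starRingEnd ℂ) (deriv Q x) = deriv Q x := by
    rw [← deriv_conj_real hQ.conj, conj_ofReal]
  set ψ : ℝ → ℝ := fun y => -((starRingEnd ℂ) (Q ((x : ℂ) + y * I)) * deriv Q ((x : ℂ) + y * I)).im with hψ
  have h0 : ψ 0 = 0 := by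
    simp only [hψ, ofReal_zero, zero_mul, add_zero]
    rw [hQr]
    have h1 : (Q x).im = 0 := Complex.conj_eq_iff_im.1 hQr
    have h2 : (deriv Q x).im = 0 := Complex.conj_eq_iff_im.1 hQr'
    rw [mul_im, h1, h2]
    simp
  have hder : HasDerivAt ψ (normSq (deriv Q x) - ((starRingEnd ℂ) (Q x) * deriv (deriv Q) x).re) 0 := by
    have h1 : HasDerivAt (fun y : ℝ => (x : ℂ) + y * I) I 0 := by
      simpa using ((Complex.ofRealCLM.hasDerivAt (x := (0 : ℝ))).mul_const I).const_add (x : ℂ)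
    have hx : (x : ℂ) + ((0 : ℝ) : ℂ) * I = x := by simp
    have h2 : HasDerivAt (fun y : ℝ => Q ((x : ℂ) + y * I)) (deriv Q x * I) 0 := by
      have h3 : HasDerivAt Q (deriv Q x) ((x : ℂ) + ((0 : ℝ) : ℂ) * I) := by
        rw [hx]
        exact (hd x).hasDerivAt
      exact h3.comp 0 h1
    have h2' : HasDerivAt (fun y : ℝ => deriv Q ((x : ℂ) + y * I)) (deriv (deriv Q) x * I) 0 := by
      have h3 : HasDerivAt (deriv Q) (deriv (deriv Q) x) ((x : ℂ) + ((0 : ℝ) : ℂ) * I) := by
        rw [hx]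
        exact (hd' x).hasDerivAt
      exact h3.comp 0 h1
    have hre : HasDerivAt (fun y : ℝ => (Q ((x : ℂ) + y * I)).re) (deriv Q x * I).re 0 :=
      Complex.reCLM.hasFDerivAt.comp_hasDerivAt 0 h2
    have him : HasDerivAt (fun y : ℝ => (Q ((x : ℂ) + y * I)).im) (deriv Q x * I).im 0 :=
      Complex.imCLM.hasFDerivAt.comp_hasDerivAt 0 h2
    have hre' : HasDerivAt (fun y : ℝ => (deriv Q ((x : ℂ) + y * I)).re) (deriv (deriv Q) x * I).re 0 :=
      Complex.reCLM.hasFDerivAt.comp_hasDerivAt 0 h2'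
    have him' : HasDerivAt (fun y : ℝ => (deriv Q ((x : ℂ) + y * I)).im) (deriv (deriv Q) x * I).im 0 :=
      Complex.imCLM.hasFDerivAt.comp_hasDerivAt 0 h2'
    have h3 := (him.fun_mul hre').fun_sub (hre.fun_mul him')
    have e : ψ = fun y : ℝ => (Q ((x : ℂ) + y * I)).im * (deriv Q ((x : ℂ) + y * I)).re -
        (Q ((x : ℂ) + y * I)).re * (deriv Q ((x : ℂ) + y * I)).im := by
      funext y
      simp only [hψ, mul_im, conj_re, conj_im]
      ring
    rw [e]
    refine h3.congr_deriv ?_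
    rw [hx]
    simp only [mul_re, mul_im, conj_re, conj_im, I_re, I_im, normSq_apply]
    ring
  have hslope := hder.tendsto_slope_zero_right
  have hge : ∀ᶠ t in 𝓝[>] (0 : ℝ), 0 ≤ t⁻¹ • (ψ (0 + t) - ψ 0) := by
    refine eventually_mem_nhdsWithin.mono fun t ht => ?_
    have ht0 : 0 < t := ht
    rw [smul_eq_mul, h0, sub_zero, zero_add]
    refine mul_nonneg (by positivity) ?_
    have h1 := hQ.im_deriv hd (z := (x : ℂ) + t * I) (by simpa using ht0.le)
    simp only [hψ]
    linarith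
  have := ge_of_tendsto hslope hge
  linarith

end Pool.Agent.Helper36.YD
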