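import Pool.Agent.Helper36.YD6
import Pool.Agent.Helper36.XD12

set_option autoImplicit false

/-! # The strip of zeros of the heat flow of the Ramanujan Xi function -/

namespace Pool.Agent.Helper36.YD

open Complex Filter Topology Set MeasureTheory Metric Pool.Agent.Helper36.XD

/-- The kernel at time `lam`. -/
noncomputable def Kl (lam : ℝ) (u : ℝ) : ℂ := ((Phi u * Real.exp (lam * u ^ 2) : ℝ) : ℂ)

lemma Xi_eq_FT (lam : ℝ) : XiHeat lam = FT (Kl lam) := rfl

lemma Kl_cont (lam : ℝ) : Continuous (Kl lam) :=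
  continuous_ofReal.comp (Phi_cont.mul (by fun_prop))

lemma Kl_norm (lam u : ℝ) : ‖Kl lam u‖ = Phi u * Real.exp (lam * u ^ 2) := by
  unfold Kl
  rw [norm_real, Real.norm_eq_abs, abs_of_pos (mul_pos (Phi_pos u) (Real.exp_pos _))]

lemma Kl_sup (lam : ℝ) : SupG (Kl lam) := by
  intro N
  obtain ⟨C, _, hC⟩ := Phi_super 0 (lam + N)
  refine ⟨C, fun u => ?_⟩
  have h := hC u
  rw [zero_mul, neg_zero, Real.exp_zero, mul_one] at h
  rw [Kl_norm]
  have h1 : Phi u * Real.exp (lam * u ^ 2) =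
      (Phi u * Real.exp ((lam + N) * u ^ 2)) * Real.exp (-(N * u ^ 2)) := by
    rw [mul_assoc, ← Real.exp_add]
    congr 2
    ring
  rw [h1]
  exact mul_le_mul_of_nonneg_right h (Real.exp_pos _).le

lemma HK_Kl (lam τ : ℝ) : HK τ (Kl lam) = Kl (lam + τ) := by
  funext u
  unfold HK Kl
  rw [← ofReal_mul, mul_assoc, ← Real.exp_add]
  congr 3
  ring

lemma Xi_diff (lam : ℝ) : Differentiable ℂ (XiHeat lam) :=
  FT_differentiable (Kl_cont lam).aestronglyMeasurable (Kl_sup lam)

lemma Xi_even (lam : ℝ) (z : ℂ) : XiHeat lam (-z) = XiHeat lam z := by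
  unfold XiHeat
  rw [← integral_neg_eq_self]
  refine integral_congr_ae (ae_of_all _ fun u => ?_)
  simp only [Phi_even]
  congr 2
  · rw [neg_sq]
  · push_cast
    ring

lemma Xi_conj (lam : ℝ) (z : ℂ) : XiHeat lam ((starRingEnd ℂ) z) = (starRingEnd ℂ) (XiHeat lam z) := by
  rw [← Xi_even lam ((starRingEnd ℂ) z)]
  unfold XiHeat
  rw [← integral_conj]
  refine integral_congr_ae (ae_of_all _ fun u => ?_)
  simp only [map_mul, conj_ofReal, ← Complex.exp_conj, conj_I]
  congr 2
  ring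

lemma Xi_zero_ne (lam : ℝ) : XiHeat lam 0 ≠ 0 := by
  have h1 : XiHeat lam 0 = ((∫ u : ℝ, Phi u * Real.exp (lam * u ^ 2) : ℝ) : ℂ) := by
    unfold XiHeat
    rw [← integral_complex_ofReal]
    refine integral_congr_ae (ae_of_all _ fun u => ?_)
    simp
  rw [h1]
  have hint : Integrable (fun u : ℝ => Phi u * Real.exp (lam * u ^ 2)) := by
    have h3 := (FT_integrable (Kl_cont lam).aestronglyMeasurable (Kl_sup lam) 0).re
    refine h3.congr (ae_of_all _ fun u => ?_)
    simp only [mul_zero, zero_mul, Complex.exp_zero, mul_one, RCLike.re_to_complex, Kl, ofReal_re]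
  have hpos : 0 < ∫ u : ℝ, Phi u * Real.exp (lam * u ^ 2) := by
    refine (integral_pos_iff_support_of_nonneg (fun u => ?_) hint).2 ?_
    · exact (mul_pos (Phi_pos u) (Real.exp_pos _)).le
    · have : Function.support (fun u : ℝ => Phi u * Real.exp (lam * u ^ 2)) = univ := by
        ext u
        simp only [Function.mem_support, mem_univ, iff_true]
        exact (mul_pos (Phi_pos u) (Real.exp_pos _)).ne'
      rw [this]
      simp
  exact_mod_cast hpos.ne'

lemma Xi_small (lam : ℝ) : Small (XiHeat lam) := FT_small (Kl_sup lam)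

lemma Xi_InL {lam D : ℝ} (hz : ∀ z, XiHeat lam z = 0 → |z.im| ≤ D) : InL D (XiHeat lam) :=
  InL_of_zeros (T := 0) (Xi_diff lam) (Xi_diff lam).continuous (Xi_even lam) (Xi_conj lam)
    (Xi_zero_ne lam) (Xi_small lam) hz (Or.inl rfl) (fun z => by simp)

lemma Xi_QL {lam D : ℝ} (hz : ∀ z, XiHeat lam z = 0 → |z.im| ≤ D) {r : ℝ} (hr : r ≠ 0)
    (h0 : XiHeat lam r = 0) : InL D (FT (QK r (Kl lam))) := by
  have hq := FT_differentiable (QK_cont (Kl_cont lam) (Kl_sup lam) h0).aestronglyMeasurable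
    (QK_SupG (Kl_cont lam) (Kl_sup lam) h0)
  refine InL_of_zeros (T := {(r : ℂ)}) (Xi_diff lam) hq.continuous (Xi_even lam) (Xi_conj lam)
    (Xi_zero_ne lam) (Xi_small lam) hz (Or.inr ⟨r, hr, rfl⟩) (fun z => ?_)
  have h := FT_QK_zero (Kl_cont lam) (Kl_sup lam) hr h0 z
  rw [Xi_eq_FT, h]
  congr 1
  simp [PS]

/-- De Bruijn's theorem for the heat flow. -/
theorem Xi_heat {lam D τ : ℝ} (hτ : 0 < τ) (hz : ∀ z, XiHeat lam z = 0 → |z.im| ≤ D) {z : ℂ}
    (h : XiHeat (lam + τ) z = 0) : |z.im| ≤ √(max (D ^ 2 - 2 * τ) 0) := by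
  have h1 := InL_heat (Kl_cont lam).aestronglyMeasurable (Kl_sup lam) hτ (Xi_InL hz)
  rw [HK_Kl] at h1
  exact h1.zeros (Xi_diff (lam + τ)) (Xi_zero_ne (lam + τ)) h

lemma Xi_infinite (lam R : ℝ) : ∃ z : ℂ, R ≤ ‖z‖ ∧ XiHeat lam z = 0 := by
  by_contra hcon
  push Not at hcon
  set R1 : ℝ := |R| + 1 with hR1
  have hR1pos : 0 < R1 := by positivity
  have hnz : ∀ z : ℂ, XiHeat lam z = 0 → ‖z‖ < R1 := by
    intro z hz
    by_contra h1
    push Not at h1
    exact hcon z ((le_abs_self R).trans (by linarith)) hz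
  obtain ⟨S, g, hS, hg⟩ := exists_fac (Xi_diff lam) (Xi_zero_ne lam) hR1pos
  have hgall : ∀ z, g z ≠ 0 := by
    intro z hgz
    have h1 : XiHeat lam z = 0 := by rw [hS.eq z, hgz, mul_zero]
    exact hg z (hnz z h1).le hgz
  have hconst : ∀ z, g z = XiHeat lam 0 := by
    intro z
    have h1 : ∀ e : ℝ, 0 < e → ‖g z - XiHeat lam 0‖ ≤ e := by
      intro e he
      obtain ⟨R', S', g', hRR, hRpos, hS', hg', hge⟩ := cof_small (Xi_diff lam) (Xi_even lam)
        (Xi_zero_ne lam) (Xi_small lam) ‖z‖ e R1 he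
      have hSS : S = S' := by
        refine fac_unique (R := R') (fun a ha => ?_) hS'.mem hS.diff.continuous hS'.diff.continuous
          (fun z _ => hgall z) hg' (fun z => ?_)
        · obtain ⟨h2, h3⟩ := hS.mem a ha
          exact ⟨h2, h3.trans hRR⟩
        · rw [← hS.eq z, hS'.eq z]
      have hgg : g = g' := by
        refine Continuous.ext_on (s := ((S.toFinset : Set ℂ))ᶜ) ?_ hS.diff.continuous
          hS'.diff.continuous ?_
        · exact (Finset.finite_toSet _).countable.dense_compl ℝ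
        · intro w hw
          have h2 : PS S w ≠ 0 := by
            intro h3
            exact hw (by simpa using PS_eq_zero h3)
          refine mul_left_cancel₀ h2 ?_
          rw [← hS.eq w, hSS, ← hS'.eq w]
      rw [hgg]
      exact hge z le_rfl
    have h2 := le_of_forall_pos_le_add (a := ‖g z - XiHeat lam 0‖) (b := 0)
      fun e he => by rw [zero_add]; exact h1 e he
    exact sub_eq_zero.1 (norm_le_zero_iff.1 h2)
  have hlow : ∀ x : ℝ, 2 * R1 ≤ x → ‖XiHeat lam 0‖ ≤ ‖XiHeat lam x‖ := by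
    intro x hx
    have h1 := PS_lower hS.mem (k := 1) zero_le_one (z := (x : ℂ)) (by
      rw [norm_real, Real.norm_eq_abs, abs_of_pos (by linarith)]
      linarith)
    rw [one_pow] at h1
    rw [hS.eq x, norm_mul, hconst x]
    have := norm_nonneg (XiHeat lam 0)
    nlinarith
  have hRL : Tendsto (fun x : ℝ => XiHeat lam x) atTop (𝓝 0) := by
    have h1 := Real.tendsto_integral_exp_smul_cocompact (Kl lam)
    have h2 : Tendsto (fun x : ℝ => -(x / (2 * Real.pi))) atTop (cocompact ℝ) := by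
      refine Tendsto.mono_right ?_ atBot_le_cocompact
      exact tendsto_neg_atTop_atBot.comp (tendsto_id.atTop_div_const (by positivity))
    refine (h1.comp h2).congr fun x => ?_
    simp only [Function.comp_apply]
    unfold XiHeat
    refine integral_congr_ae (ae_of_all _ fun u => ?_)
    simp only [Circle.smul_def, Real.fourierChar_apply, smul_eq_mul, Kl]
    rw [mul_comm]
    congr 2
    have hpi : (Real.pi : ℂ) ≠ 0 := by exact_mod_cast Real.pi_ne_zero
    push_cast
    field_simp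
  have h3 := hRL.norm
  rw [norm_zero] at h3
  have h4 : ‖XiHeat lam 0‖ ≤ 0 := by
    refine ge_of_tendsto h3 ?_
    filter_upwards [eventually_ge_atTop (2 * R1)] with x hx
    exact hlow x hx
  exact Xi_zero_ne lam (norm_le_zero_iff.1 h4)

/-- For positive times there are real zeros arbitrarily far out. -/
lemma Xi_real_zeros {lam : ℝ} (hl : 0 < lam) (hl1 : lam ≤ 1) (R : ℝ) :
    ∃ r : ℝ, R ≤ |r| ∧ XiHeat lam r = 0 := by
  obtain ⟨C, _, hC⟩ := real_simple
  obtain ⟨z, hz, h0⟩ := Xi_infinite lam (max R (Real.exp (C / lam)))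
  obtain ⟨him, -⟩ := hC lam hl hl1 z h0 ((le_max_right _ _).trans hz)
  have hzr : z = (z.re : ℂ) := by
    apply Complex.ext
    · simp
    · simp [him]
  refine ⟨z.re, ?_, by rw [← hzr]; exact h0⟩
  rw [hzr, norm_real, Real.norm_eq_abs] at hz
  exact (le_max_left _ _).trans hz

/-- No zeros on the boundary of de Bruijn's strip. -/
theorem Xi_strict {lam D τ : ℝ} (hτ : 0 < τ) (hz : ∀ z, XiHeat lam z = 0 → |z.im| ≤ D)
    (hinf : ∀ R : ℝ, ∃ r : ℝ, R ≤ |r| ∧ XiHeat lam r = 0) (hD : 2 * τ < D ^ 2) {z : ℂ}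
    (h : XiHeat (lam + τ) z = 0) : |z.im| < √(D ^ 2 - 2 * τ) := by
  set δ : ℝ := √(D ^ 2 - 2 * τ) with hδ
  have hδ0 : 0 < δ := Real.sqrt_pos.2 (by linarith)
  have hle : |z.im| ≤ δ := by
    have h1 := Xi_heat hτ hz h
    rwa [max_eq_left (by linarith)] at h1
  have key : ∀ w : ℂ, XiHeat (lam + τ) w = 0 → w.im ≠ δ := by
    intro w hw hwδ
    refine no_common_zero (Kl_cont lam) (Kl_sup lam) hτ hinf ⟨0, ?_⟩ (z0 := w) fun r hr h0 => ?_
    · rw [HK_Kl]
      exact Xi_zero_ne (lam + τ)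
    · have hQL := InL_heat (QK_cont (Kl_cont lam) (Kl_sup lam) h0).aestronglyMeasurable
        (QK_SupG (Kl_cont lam) (Kl_sup lam) h0) hτ (Xi_QL hz hr h0)
      rw [max_eq_left (by linarith), ← hδ] at hQL
      have hQd := FT_differentiable (HK_meas (QK_cont (Kl_cont lam) (Kl_sup lam) h0).aestronglyMeasurable τ)
        ((QK_SupG (Kl_cont lam) (Kl_sup lam) h0).heat τ)
      have h1 := hQL.im_deriv hQd (z := w) hwδ.ge
      have h2 := FT_QK_deriv (Kl_cont lam) (Kl_sup lam) hr h0 τ w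
      rw [HK_Kl, ← Xi_eq_FT, hw] at h2
      set Q := FT (HK τ (QK r (Kl lam))) with hQ
      have hrc : (r : ℂ) ≠ 0 := by exact_mod_cast hr
      have hτc : (τ : ℂ) ≠ 0 := by exact_mod_cast hτ.ne'
      have h3 : deriv Q w = (w - r) / (2 * τ) * Q w := by
        field_simp
        field_simp at h2
        linear_combination -h2
      rw [h3] at h1
      have h4 : (starRingEnd ℂ) (Q w) * ((w - r) / (2 * τ) * Q w) =
          ((normSq (Q w) / (2 * τ) : ℝ) : ℂ) * (w - r) := by
        push_cast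
        rw [normSq_eq_conj_mul_self]
        ring
      rw [h4, im_ofReal_mul, sub_im, ofReal_im, sub_zero, hwδ] at h1
      have h5 : normSq (Q w) = 0 := by
        by_contra h6
        have h7 : 0 < normSq (Q w) := lt_of_le_of_ne (normSq_nonneg _) (Ne.symm h6)
        have : 0 < normSq (Q w) / (2 * τ) * δ := by positivity
        linarith
      exact normSq_eq_zero.1 h5
  refine lt_of_le_of_ne hle fun heq => ?_
  rcases abs_cases z.im with ⟨h1, _⟩ | ⟨h1, _⟩
  · exact key z h (by rw [← h1, heq])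
  · refine key ((starRingEnd ℂ) z) ?_ ?_
    · rw [Xi_conj, h, map_zero]
    · rw [conj_im, ← h1, heq]

/-- After a time with only real zeros, all zeros are real and simple. -/
theorem Xi_simple {lam τ : ℝ} (hτ : 0 < τ) (hz : ∀ z, XiHeat lam z = 0 → z.im = 0) {z : ℂ}
    (h : XiHeat (lam + τ) z = 0) : z.im = 0 ∧ deriv (XiHeat (lam + τ)) z ≠ 0 := by
  have hz' : ∀ z, XiHeat lam z = 0 → |z.im| ≤ 0 := fun z h1 => by rw [hz z h1, abs_zero]
  have hmax : √(max ((0 : ℝ) ^ 2 - 2 * τ) 0) = 0 := by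
    rw [max_eq_right (by nlinarith), Real.sqrt_zero]
  have him : z.im = 0 := by
    have h1 := Xi_heat hτ hz' h
    rw [hmax] at h1
    exact abs_nonpos_iff.1 h1
  refine ⟨him, fun hd0 => ?_⟩
  have hinf : ∀ R : ℝ, ∃ r : ℝ, R ≤ |r| ∧ XiHeat lam r = 0 := by
    intro R
    obtain ⟨w, hw, h0⟩ := Xi_infinite lam R
    have hwr : w = (w.re : ℂ) := by
      apply Complex.ext
      · simp
      · simp [hz w h0]
    refine ⟨w.re, ?_, by rw [← hwr]; exact h0⟩
    rw [hwr, norm_real, Real.norm_eq_abs] at hw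
    exact hw
  have hzr : z = (z.re : ℂ) := by
    apply Complex.ext
    · simp
    · simp [him]
  set x : ℝ := z.re with hx
  rw [hzr] at h hd0
  refine no_common_zero (Kl_cont lam) (Kl_sup lam) hτ hinf ⟨0, ?_⟩ (z0 := (x : ℂ)) fun r hr h0 => ?_
  · rw [HK_Kl]
    exact Xi_zero_ne (lam + τ)
  · have hQL := InL_heat (QK_cont (Kl_cont lam) (Kl_sup lam) h0).aestronglyMeasurable
      (QK_SupG (Kl_cont lam) (Kl_sup lam) h0) hτ (Xi_QL hz' hr h0)
    rw [hmax] at hQL
    have hQd := FT_differentiable (HK_meas (QK_cont (Kl_cont lam) (Kl_sup lam) h0).aestronglyMeasurable τ)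
      ((QK_SupG (Kl_cont lam) (Kl_sup lam) h0).heat τ)
    have hlag := hQL.laguerre hQd (x := x)
    have hid := FT_QK_deriv (Kl_cont lam) (Kl_sup lam) hr h0 τ
    rw [HK_Kl, ← Xi_eq_FT] at hid
    set Q := FT (HK τ (QK r (Kl lam))) with hQ
    have hi0 := hid x
    have hi1 := iter_identity hQd hid 1 x
    rw [iteratedDeriv_one, hd0, iteratedDeriv_one, iteratedDeriv_succ, iteratedDeriv_one] at hi1
    simp only [Nat.sub_self, iteratedDeriv_zero, Nat.cast_one] at hi1
    rw [h] at hi0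
    have hrc : (r : ℂ) ≠ 0 := by exact_mod_cast hr
    have hτc : (τ : ℂ) ≠ 0 := by exact_mod_cast hτ.ne'
    have h3 : deriv Q x = (((x - r) / (2 * τ) : ℝ) : ℂ) * Q x := by
      push_cast
      field_simp
      field_simp at hi0
      linear_combination -hi0
    have h4 : deriv (deriv Q) x = (((1 / (2 * τ) + ((x - r) / (2 * τ)) ^ 2 : ℝ)) : ℂ) * Q x := by
      rw [h3] at hi1
      push_cast at hi1 ⊢
      field_simp
      field_simp at hi1
      linear_combination -hi1
    rw [h3, h4] at hlag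
    have h5 : (starRingEnd ℂ) (Q x) * ((((1 / (2 * τ) + ((x - r) / (2 * τ)) ^ 2 : ℝ)) : ℂ) * Q x) =
        ((normSq (Q x) * (1 / (2 * τ) + ((x - r) / (2 * τ)) ^ 2) : ℝ) : ℂ) := by
      rw [ofReal_mul, normSq_eq_conj_mul_self]
      ring
    rw [h5, ofReal_re, normSq_mul, normSq_ofReal] at hlag
    have h6 : normSq (Q x) = 0 := by
      by_contra h7
      have h8 : 0 < normSq (Q x) := lt_of_le_of_ne (normSq_nonneg _) (Ne.symm h7)
      have h9 : 0 < normSq (Q x) * (1 / (2 * τ)) := by positivity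
      nlinarith
    exact normSq_eq_zero.1 h6

end Pool.Agent.Helper36.YD
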